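import Pool.Agent.Y223.G.Stm13

/-!
# Statements of the parts of project G: products of elliptic curves, wild ramification over `2`
-/

set_option autoImplicit false

namespace Pool.Agent.Y223.G

open IsLocalRing Pool.Agent.W418.LU2

/-- The action of `τ` on the curves at a wild prime `𝔓` over `2`: it is not trivial modulo `𝔓` on
the curves in `B`, and trivial modulo `𝔓 ^ l` on the others. -/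
structure EC2 (k O K Ω : Type) [CommRing k] [CommRing O] [Field K] [Algebra k O] [Algebra O K]
    [Algebra k K] (τ : K ≃ₐ[k] K) (t : O ≃ₐ[k] O) (𝔓 : Ideal O) (l : ℕ)
    (z : Ω → Fin (2 + 1) → K) (Wc : Ω → WeierstrassCurve O) (B : Set Ω) : Prop where
  ec : ∀ ω, EC0 O K (z ω) (Wc ω)
  com : ∀ o, τ (algebraMap O K o) = algebraMap O K (t o)
  dv : ∀ o, t o - o ∈ 𝔓 ^ (l + 1)
  tu : ∀ ω, ∃ u r s v : O, τ (z ω 0) = algebraMap O K (u ^ 2) * z ω 0 + algebraMap O K r ∧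
    τ (z ω 1) = algebraMap O K (u ^ 3) * z ω 1 + algebraMap O K (s * u ^ 2) * z ω 0 +
      algebraMap O K v ∧
    u - 1 ∈ 𝔓 ^ l ∧ (∃ n, l ≤ 3 * n ∧ r ∈ 𝔓 ^ n) ∧ (∃ n, 2 * l ≤ 3 * n ∧ s ∈ 𝔓 ^ n) ∧
    (ω ∈ B → v ∉ 𝔓) ∧ (ω ∉ B → r ∈ 𝔓 ^ l ∧ s ∈ 𝔓 ^ l ∧ v ∈ 𝔓 ^ l)

/-- The operator `T ^ (3 l) (τ - 1)`. -/
def S_EC2E : Prop := ∀ (k O K Ω : Type) [CommRing k] [CommRing O] [Field K] [Finite Ω]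
  [Algebra k O] [Algebra O K] [Algebra k K] [IsScalarTower k O K] (τ : K ≃ₐ[k] K)
  (t : O ≃ₐ[k] O) (𝔓 : Ideal O) (l : ℕ), 1 ≤ l → ∀ (z : Ω → Fin (2 + 1) → K)
  (Wc : Ω → WeierstrassCurve O) (B : Set Ω), EC2 k O K Ω τ t 𝔓 l z Wc B → ∀ (d : ℕ) (Φ : Ω → K),
  (∀ ω, τ (Φ ω) = Φ ω) → ∀ f ∈ RW k 𝔓 3 (WE l B) z d Φ,
    hm ((3 * l : ℕ) : ℤ) 1 * (tl τ f - f) ∈ RW k 𝔓 3 (WE l B) z d Φ

/-- The operator `T ^ (3 l) (τ - 1)` has no zeros outside the vertex. -/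
def S_EC2F : Prop := ∀ (k O K Ω : Type) [CommRing k] [CommRing O] [IsDomain O] [IsDedekindDomain O]
  [Field K] [Finite Ω] [Algebra k O] [Algebra O K] [Algebra k K] [IsScalarTower k O K]
  (_ : Function.Injective (algebraMap O K)) (τ : K ≃ₐ[k] K) (t : O ≃ₐ[k] O) (𝔓 : Ideal O),
  𝔓.IsMaximal → 𝔓 ≠ ⊥ → ∀ (l : ℕ), 1 ≤ l → (∃ π ∈ 𝔓, t π - π ∉ 𝔓 ^ (l + 2)) →
  ∀ (z : Ω → Fin (2 + 1) → K) (Wc : Ω → WeierstrassCurve O) (B : Set Ω),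
  EC2 k O K Ω τ t 𝔓 l z Wc B → ∀ (d : ℕ) (Φ : Ω → K), 1 ≤ d → (∀ ω, Φ ω ∈ FS O (z ω) d) →
  (∀ ω, Φ ω ≠ 0) → (∀ ω, τ (Φ ω) = Φ ω) →
  ∀ Q : Ideal (RW k 𝔓 3 (WE l B) z d Φ), Q.IsPrime →
    (∀ e ∈ 𝔓, ∃ h : hm 0 (algebraMap O K e) ∈ RW k 𝔓 3 (WE l B) z d Φ,
      (⟨_, h⟩ : RW k 𝔓 3 (WE l B) z d Φ) ∈ Q) →
    (∃ (e : ℕ) (η : K) (he : hm e η ∈ RW k 𝔓 3 (WE l B) z d Φ), 0 < e ∧
      (⟨hm e η, he⟩ : RW k 𝔓 3 (WE l B) z d Φ) ∉ Q) →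
    ∃ b ∈ RW k 𝔓 3 (WE l B) z d Φ,
      ∃ h : hm ((3 * l : ℕ) : ℤ) 1 * (tl τ b - b) ∈ RW k 𝔓 3 (WE l B) z d Φ,
      (⟨_, h⟩ : RW k 𝔓 3 (WE l B) z d Φ) ∉ Q

/-- The graded algebra at a wild prime is regular: weight `3` of the prime. -/
def S_EC2R : Prop := ∀ (k O K Ω : Type) [CommRing k] [IsNoetherianRing k] [CommRing O] [IsDomain O]
  [IsDedekindDomain O] [Field K] [Finite Ω] [Algebra k O] [Algebra O K] [Algebra k K]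
  [IsScalarTower k O K] (_ : Function.Injective (algebraMap O K)) (_ : Algebra.FiniteType k O)
  (𝔓 : Ideal O), 𝔓.IsMaximal → 𝔓 ≠ ⊥ → ∀ (l : ℕ), 1 ≤ l →
  ∀ (z : Ω → Fin (2 + 1) → K) (Wc : Ω → WeierstrassCurve O) (B : Set Ω),
  (∀ ω, EC0 O K (z ω) (Wc ω)) → ∀ (d : ℕ) (Φ : Ω → K), 1 ≤ d → (∀ ω, Φ ω ∈ FS O (z ω) d) →
  (∀ ω, Φ ω ≠ 0) →
  (∀ (S : Finset Ω) (ω : Ω), ω ∉ S →
    (⨆ ω' ∈ S, AF O (z ω') d (Φ ω')).LinearDisjoint (AF O (z ω) d (Φ ω))) →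
  (∀ ω (q : Ideal (AF O (z ω) d (Φ ω))) [q.IsPrime],
    q.comap (algebraMap O (AF O (z ω) d (Φ ω))) = 𝔓 → Algebra.IsSmoothAt O q) →
  IsRegularRing (CG O z d Φ) → IsRegularRing (RW k 𝔓 3 (WE l B) z d Φ)

/-- Stability: weight `3` of the prime. -/
def S_EC2S : Prop := ∀ (k O K Ω : Type) [CommRing k] [CommRing O] [Field K] [Finite Ω]
  [Algebra k O] [Algebra O K] [Algebra k K] [IsScalarTower k O K] (σ : K ≃ₐ[k] K)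
  (t : O ≃ₐ[k] O), (∀ o, σ (algebraMap O K o) = algebraMap O K (t o)) → ∀ (𝔓 𝔓' : Ideal O),
  (∀ o ∈ 𝔓, t o ∈ 𝔓') → ∀ (z : Ω → Fin (2 + 1) → K), (∀ ω, z ω 2 = 1) →
  (∀ ω, ∃ u r s v : O, σ (z ω 0) = algebraMap O K (u ^ 2) * z ω 0 + algebraMap O K r ∧
    σ (z ω 1) = algebraMap O K (u ^ 3) * z ω 1 + algebraMap O K (s * u ^ 2) * z ω 0 +
      algebraMap O K v) → ∀ (l : ℕ) (B : Set Ω) (d : ℕ) (Φ : Ω → K), (∀ ω, σ (Φ ω) = Φ ω) →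
  ∀ f ∈ RW k 𝔓 3 (WE l B) z d Φ, tl σ f ∈ RW k 𝔓' 3 (WE l B) z d Φ

/-- The change of variables at a prime over `2` with wild ramification. -/
def S_EC2AR : Prop := ∀ (O : Type) [CommRing O] [IsDomain O] [IsDedekindDomain O] (𝔓 : Ideal O),
  𝔓.IsMaximal → 𝔓 ≠ ⊥ → ∀ (t : O ≃+* O) (l : ℕ), 1 ≤ l → (∀ o, t o - o ∈ 𝔓 ^ (l + 1)) →
  (2 : O) ∈ 𝔓 ^ l → ∀ (Wc : WeierstrassCurve O), Wc.Δ ∉ 𝔓 → Wc.a₁ ^ 3 ∈ 𝔓 ^ (2 * l) →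
  ∀ (C : WeierstrassCurve.VariableChange O), Wc = C • Wc.map (t : O →+* O) →
  C * C.map (t : O →+* O) = 1 →
  (∃ a b : O, a ≠ 0 ∧ b ≠ 0 ∧ (C.u : O) * t a * b = a * t b) →
  (C.u : O) - 1 ∈ 𝔓 ^ l ∧ (∃ n, l ≤ 3 * n ∧ C.r ∈ 𝔓 ^ n) ∧ (∃ n, 2 * l ≤ 3 * n ∧ C.s ∈ 𝔓 ^ n) ∧
  (C.t ∈ 𝔓 → C.r ∈ 𝔓 ^ l ∧ C.s ∈ 𝔓 ^ l ∧ C.t ∈ 𝔓 ^ l)

end Pool.Agent.Y223.G
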