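import Pool.Agent.Y223.G.EcdlP
import Pool.Agent.Y223.G.Stm14
import Pool.Agent.Y79.ECT.Ker

/-!
# The data at the wild primes
-/

set_option autoImplicit false
set_option linter.unusedVariables false
set_option linter.unusedSectionVars false
set_option linter.overlappingInstances false

namespace Pool.Agent.Y223.G

open IsLocalRing Pool.Agent.W418.LU2 Pool.Agent.Y849.H

section

variable {k O K G Ω : Type} [CommRing k] [CommRing O] [IsDomain O] [Field K] [Group G]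
  [Algebra k O] [Algebra O K] [Algebra k K]

/-- The formulas of a change of variables. -/
structure Fo (O : Type) {K : Type} [CommRing O] [Field K] [Algebra O K] (σ : K → K) (x y : K)
    (C : WeierstrassCurve.VariableChange O) : Prop where
  f0 : σ x = algebraMap O K ((C.u : O) ^ 2) * x + algebraMap O K C.r
  f1 : σ y = algebraMap O K ((C.u : O) ^ 3) * y +
      algebraMap O K (C.s * (C.u : O) ^ 2) * x + algebraMap O K C.t

open Polynomial in
lemma lin1 {z : Fin (2 + 1) → K} {Wc : WeierstrassCurve O} (hz : EC0 O K z Wc) {a b c : O}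
    (h : algebraMap O K a * z 0 + algebraMap O K b + algebraMap O K c * z 1 = 0) :
    a = 0 ∧ b = 0 ∧ c = 0 := by
  obtain ⟨h1, h2⟩ := Pool.Agent.Y79.ECT.lin hz.tr hz.eq (r := C a * X + C b) (s := C c) (by
    simp only [map_add, map_mul, aeval_C, aeval_X]
    exact h)
  have h3 := congrArg (fun p : O[X] => p.coeff 1) h1
  have h4 := congrArg (fun p : O[X] => p.coeff 0) h1
  have h5 := congrArg (fun p : O[X] => p.coeff 0) h2
  have e3 : (C a * X + C b : O[X]).coeff 1 = a := by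
    rw [coeff_add, coeff_C_mul_X, coeff_C, if_pos rfl, if_neg one_ne_zero, add_zero]
  have e4 : (C a * X + C b : O[X]).coeff 0 = b := by
    rw [coeff_add, coeff_C_mul_X, coeff_C, if_neg zero_ne_one, if_pos rfl, zero_add]
  refine ⟨?_, ?_, ?_⟩
  · rw [← e3]
    exact h3
  · rw [← e4]
    exact h4
  · have : (C c : O[X]).coeff 0 = c := coeff_C_zero
    rw [← this]
    exact h5

lemma vc_uniq {z : Fin (2 + 1) → K} {Wc : WeierstrassCurve O} (hz : EC0 O K z Wc) {σ : K → K}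
    {C C' : WeierstrassCurve.VariableChange O} (h : Fo O σ (z 0) (z 1) C)
    (h' : Fo O σ (z 0) (z 1) C') : C = C' := by
  obtain ⟨a1, a2, -⟩ := lin1 hz (a := (C.u : O) ^ 2 - (C'.u : O) ^ 2) (b := C.r - C'.r) (c := 0) (by
    have := h.f0.symm.trans h'.f0
    rw [map_sub, map_sub, map_zero]
    linear_combination this)
  obtain ⟨b1, b2, b3⟩ := lin1 hz (a := C.s * (C.u : O) ^ 2 - C'.s * (C'.u : O) ^ 2)
    (b := C.t - C'.t) (c := (C.u : O) ^ 3 - (C'.u : O) ^ 3) (by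
    have := h.f1.symm.trans h'.f1
    rw [map_sub, map_sub, map_sub]
    linear_combination this)
  have hu : (C.u : O) = C'.u := by
    have h2 : ((C.u : O) ^ 2) * (C.u : O) = (C.u : O) ^ 2 * C'.u := by
      linear_combination b3 - (C'.u : O) * a1
    exact (C.u.isUnit.pow 2).mul_left_cancel h2
  have hs : C.s = C'.s := by
    apply (C.u.isUnit.pow 2).mul_right_cancel
    rw [← hu] at b1
    linear_combination b1
  exact WeierstrassCurve.VariableChange.ext (Units.ext hu) (sub_eq_zero.1 a2) hs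
    (sub_eq_zero.1 b2)

lemma fo_mul {ρ : G →* (K ≃ₐ[k] K)} {T : G →* (O ≃ₐ[k] O)}
    (com : ∀ g o, ρ g (algebraMap O K o) = algebraMap O K (T g o)) {x y : K} {g h : G}
    {C₁ C₂ : WeierstrassCurve.VariableChange O} (h₁ : Fo O (ρ g) x y C₁)
    (h₂ : Fo O (ρ h) x y C₂) : Fo O (ρ (g * h)) x y (C₁ * C₂.map (T g : O →+* O)) := by
  have eu : (((C₁ * C₂.map (T g : O →+* O)).u : Oˣ) : O) = (C₁.u : O) * T g C₂.u := rfl
  have er : (C₁ * C₂.map (T g : O →+* O)).r = C₁.r * (T g C₂.u) ^ 2 + T g C₂.r := rfl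
  have es : (C₁ * C₂.map (T g : O →+* O)).s = T g C₂.u * C₁.s + T g C₂.s := rfl
  have et : (C₁ * C₂.map (T g : O →+* O)).t = C₁.t * (T g C₂.u) ^ 3 +
      C₁.r * T g C₂.s * (T g C₂.u) ^ 2 + T g C₂.t := rfl
  constructor
  · rw [eu, er]
    rw [map_mul, AlgEquiv.mul_apply, h₂.f0, map_add, map_mul, com, com, h₁.f0, map_pow (T g)]
    simp only [map_add, map_mul, map_pow]
    ring
  · rw [eu, es, et]
    rw [map_mul, AlgEquiv.mul_apply, h₂.f1, map_add, map_add, map_mul, map_mul, com, com, com,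
      h₁.f0, h₁.f1, map_pow (T g), map_mul (T g), map_pow (T g)]
    simp only [map_add, map_mul, map_pow]
    ring

lemma fo_one {ρ : G →* (K ≃ₐ[k] K)} {x y : K} : Fo O (ρ 1) x y 1 := by
  constructor
  · change ρ 1 x = algebraMap O K ((1 : O) ^ 2) * x + algebraMap O K 0
    rw [map_one, one_pow, map_one, map_zero, one_mul, add_zero]
    rfl
  · change ρ 1 y = algebraMap O K ((1 : O) ^ 3) * y + algebraMap O K (0 * (1 : O) ^ 2) * x +
      algebraMap O K 0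
    rw [map_one, one_pow, map_one, zero_mul, map_zero, one_mul, zero_mul, add_zero, add_zero]
    rfl

lemma map_mulVC {R A : Type} [CommRing R] [CommRing A] (φ : R →+* A)
    (C C' : WeierstrassCurve.VariableChange R) : (C * C').map φ = C.map φ * C'.map φ :=
  (WeierstrassCurve.VariableChange.mapHom φ).map_mul C C'

lemma map_oneVC {R A : Type} [CommRing R] [CommRing A] (φ : R →+* A) :
    (1 : WeierstrassCurve.VariableChange R).map φ = 1 :=
  (WeierstrassCurve.VariableChange.mapHom φ).map_one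

/-- Triviality modulo a prime is preserved under conjugation and powers. -/
lemma key_vc {ρ : G →* (K ≃ₐ[k] K)} {T : G →* (O ≃ₐ[k] O)}
    (com : ∀ g o, ρ g (algebraMap O K o) = algebraMap O K (T g o)) {z : Fin (2 + 1) → K}
    {Wc : WeierstrassCurve O} (hz : EC0 O K z Wc) {C : G → WeierstrassCurve.VariableChange O}
    (hC : ∀ g, Fo O (ρ g) (z 0) (z 1) (C g)) {𝔓 𝔓' : Ideal O} {g τ τ' : G}
    (hg : ∀ o, o ∈ 𝔓 ↔ T g o ∈ 𝔓') (hτ : ∀ o, T τ o - o ∈ 𝔓)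
    (h1 : (C τ).map (Ideal.Quotient.mk 𝔓) = 1) {n : ℕ} (hn : τ' = (g * τ * g⁻¹) ^ n) :
    (C τ').map (Ideal.Quotient.mk 𝔓') = 1 := by
  obtain ⟨c, hc⟩ : ∃ c, c = g * τ * g⁻¹ := ⟨_, rfl⟩
  rw [← hc] at hn
  have hcoc : ∀ a b, C (a * b) = C a * (C b).map (T a : O →+* O) := fun a b =>
    vc_uniq hz (hC (a * b)) (fo_mul com (hC a) (hC b))
  have hTc : ∀ o, T c o - o ∈ 𝔓' := by
    intro o
    have e1 : T g (T g⁻¹ o) = o := by
      rw [← AlgEquiv.mul_apply, ← map_mul, mul_inv_cancel, map_one, AlgEquiv.one_apply]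
    have e2 : T c o - o = T g (T τ (T g⁻¹ o) - T g⁻¹ o) := by
      rw [map_sub, e1, hc, map_mul, map_mul, AlgEquiv.mul_apply, AlgEquiv.mul_apply]
    rw [e2]
    exact (hg _).1 (hτ _)
  set q : O →+* O ⧸ 𝔓' := Ideal.Quotient.mk 𝔓' with hq
  have hqc : q.comp (T c : O →+* O) = q := by
    ext o
    change q (T c o) = q o
    rw [hq, Ideal.Quotient.eq]
    exact hTc o
  have hcg : c * g = g * τ := by
    rw [hc, mul_assoc, inv_mul_cancel, mul_one]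
  have hφ : ∀ a ∈ 𝔓, (q.comp (T g : O →+* O)) a = 0 := by
    intro a ha
    exact Ideal.Quotient.eq_zero_iff_mem.2 ((hg a).1 ha)
  have hCτ : ((C τ).map (T g : O →+* O)).map q = 1 := by
    have e1 : ((C τ).map (T g : O →+* O)).map q =
        ((C τ).map (Ideal.Quotient.mk 𝔓)).map (Ideal.Quotient.lift 𝔓 (q.comp (T g : O →+* O)) hφ) :=
      rfl
    rw [e1, h1, map_oneVC]
  have hCc : (C c).map q = 1 := by
    have e1 := hcoc c g
    rw [hcg, hcoc g τ] at e1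
    have e2 := congrArg (fun D : WeierstrassCurve.VariableChange O => D.map q) e1
    have e3 : ((C g).map (T c : O →+* O)).map q = (C g).map q := by
      rw [WeierstrassCurve.VariableChange.map_map, hqc]
    change (C g * (C τ).map (T g : O →+* O)).map q = (C c * (C g).map (T c : O →+* O)).map q at e2
    rw [map_mulVC, map_mulVC, hCτ, e3, mul_one] at e2
    exact (mul_eq_right.1 e2.symm)
  rw [hn]
  clear hn
  induction n with
  | zero =>
    rw [pow_zero, vc_uniq hz (hC 1) fo_one, map_oneVC]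
  | succ n ih =>
    rw [pow_succ', hcoc, map_mulVC, WeierstrassCurve.VariableChange.map_map, hqc, ih, hCc, mul_one]

lemma mk_vc {𝔓 : Ideal O} {C : WeierstrassCurve.VariableChange O} (hu : (C.u : O) - 1 ∈ 𝔓)
    (hr : C.r ∈ 𝔓) (hs : C.s ∈ 𝔓) (ht : C.t ∈ 𝔓) : C.map (Ideal.Quotient.mk 𝔓) = 1 := by
  refine WeierstrassCurve.VariableChange.ext (Units.ext ?_) ?_ ?_ ?_
  · change Ideal.Quotient.mk 𝔓 (C.u : O) = 1
    rw [← map_one (Ideal.Quotient.mk 𝔓), Ideal.Quotient.eq]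
    exact hu
  · exact Ideal.Quotient.eq_zero_iff_mem.2 hr
  · exact Ideal.Quotient.eq_zero_iff_mem.2 hs
  · exact Ideal.Quotient.eq_zero_iff_mem.2 ht

lemma of_mk_vc {𝔓 : Ideal O} {C : WeierstrassCurve.VariableChange O}
    (h : C.map (Ideal.Quotient.mk 𝔓) = 1) : C.r ∈ 𝔓 ∧ C.t ∈ 𝔓 := by
  refine ⟨?_, ?_⟩
  · exact Ideal.Quotient.eq_zero_iff_mem.1
      (congrArg (fun D : WeierstrassCurve.VariableChange (O ⧸ 𝔓) => D.r) h)
  · exact Ideal.Quotient.eq_zero_iff_mem.1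
      (congrArg (fun D : WeierstrassCurve.VariableChange (O ⧸ 𝔓) => D.t) h)

end

/-- The data at the wild primes. -/
def S_ECDL3 : Prop := ∀ (k O K G Ω : Type) [CommRing k] [CommRing O] [IsDomain O]
  [IsDedekindDomain O] [Field K] [Group G] [Algebra k O] [Algebra O K] [Algebra k K]
  [IsScalarTower k O K] (ρ : G →* (K ≃ₐ[k] K)) (T : G →* (O ≃ₐ[k] O)) (N : Type)
  (𝔔 : N → Ideal O) (p l : N → ℕ) (τ : N → G) (π : O), LocE k O K G ρ T 𝔔 p l τ π →
  ∀ (z : Ω → Fin (2 + 1) → K) (Wc : Ω → WeierstrassCurve O), ECD k O K G Ω ρ T z Wc →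
  (∀ i, ∃ g, g ≠ 1 ∧ (∀ x, T g x - x ∈ 𝔔 i) ∧ ∀ x ∈ 𝔔 i, T g x - x ∈ 𝔔 i ^ 2) →
  (∀ i, (2 : O) ∈ 𝔔 i → ∀ ω, (Wc ω).a₁ ^ 3 ∈ 𝔔 i ^ (2 * l i)) →
  ∃ B : N → Set Ω, (∀ i, 1 ≤ l i) ∧
    (∀ i, (2 : O) ∉ 𝔔 i → EC1 k O K Ω (ρ (τ i)) (T (τ i)) (𝔔 i) (l i) z Wc (B i)) ∧
    (∀ i, (2 : O) ∈ 𝔔 i → EC2 k O K Ω (ρ (τ i)) (T (τ i)) (𝔔 i) (l i) z Wc (B i)) ∧
    ∀ g i j, (∀ o, o ∈ 𝔔 i ↔ T g o ∈ 𝔔 j) → B i = B j ∧ l i = l j

theorem t_ECDL3 (hAR : S_ECAR) (hAR2 : S_EC2AR) : S_ECDL3 := by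
  intro k O K G Ω _ _ _ _ _ _ _ _ _ _ ρ T N 𝔔 p l τ π hL z Wc hE hw h2
  choose a b ha hb C hC using hE.ch
  -- the ramification is wild
  have hl : ∀ i, 1 ≤ l i := by
    intro i
    obtain ⟨g, hg1, hg2, hg3⟩ := hw i
    obtain ⟨hWS, hτp, hzp⟩ := hL.ty i
    have hmx := hL.mx i
    have hpr : (𝔔 i).IsPrime := hmx.isPrime
    have hg : g ∈ Subgroup.zpowers (τ i) := by
      refine hzp g hg2 fun w hwπ => ?_
      have h4 : (w - 1) * π ∈ 𝔔 i ^ 2 := by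
        have e : (w - 1) * π = T g π - π := by
          rw [hwπ]
          ring
        rw [e]
        exact hg3 π (hL.pq i).1
      rcases Ideal.IsPrime.mul_mem_pow (𝔔 i) h4 with h5 | h5
      · exact h5
      · exact absurd h5 (hL.pq i).2
    obtain ⟨n, hn⟩ := exists_pow hWS.pp hτp hg hg1
    by_contra hl0
    have hl0' : l i = 0 := by omega
    obtain ⟨π', hπ', hun⟩ := hWS.un
    rw [hl0', zero_add] at hun
    apply hun
    rw [hn]
    exact pow_triv hg2 hg3 n π' hπ'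
  have hpr : ∀ i (r : ℕ), r.Prime → (r : O) ∈ 𝔔 i → p i = r := by
    intro i r hr h3i
    obtain ⟨hWS, -, -⟩ := hL.ty i
    have hmx := hL.mx i
    have h1 : 1 ≤ (p i - 1) * l i := by
      have := hWS.pp.two_le
      exact Nat.mul_pos (by omega) (hl i)
    have h2 : ((p i : ℕ) : O) ∈ 𝔔 i := Ideal.pow_le_self (by omega) hWS.pl
    by_contra hne
    have hco : Nat.Coprime (p i) r := (Nat.coprime_primes hWS.pp hr).2 hne
    have hco' : IsCoprime ((p i : ℕ) : ℤ) ((r : ℕ) : ℤ) := Nat.isCoprime_iff_coprime.2 hco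
    obtain ⟨u, v, huv⟩ := hco'
    apply hmx.ne_top
    rw [Ideal.eq_top_iff_one]
    have e : (1 : O) = (u : O) * ((p i : ℕ) : O) + (v : O) * (r : O) := by
      have := congrArg (Int.cast : ℤ → O) huv
      push_cast at this
      exact this.symm
    rw [e]
    exact add_mem (Ideal.mul_mem_left _ _ h2) (Ideal.mul_mem_left _ _ h3i)
  have hΔ : ∀ i ω, (Wc ω).Δ ∉ 𝔔 i := fun i ω h =>
    (hL.mx i).ne_top (Ideal.eq_top_of_isUnit_mem _ h (hE.du ω))
  have hfo : ∀ ω g, Fo O (ρ g) (z ω 0) (z ω 1) (C ω g) := fun ω g =>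
    ⟨(hC ω g).1, (hC ω g).2.1⟩
  have hC' : ∀ ω g, Wc ω = C ω g • (Wc ω).map ((T g : O ≃+* O) : O →+* O) := fun ω g =>
    (hC ω g).2.2.1
  have hab : ∀ ω g, ∃ a b : O, a ≠ 0 ∧ b ≠ 0 ∧ ((C ω g).u : O) * (T g : O ≃+* O) a * b =
      a * (T g : O ≃+* O) b := fun ω g => ⟨a ω, b ω, ha ω, hb ω, (hC ω g).2.2.2⟩
  -- the arithmetic of the changes of variables
  have har : ∀ i, (2 : O) ∉ 𝔔 i → ∀ ω, ((C ω (τ i)).u : O) - 1 ∈ 𝔔 i ^ l i ∧
      (C ω (τ i)).s ∈ 𝔔 i ^ l i ∧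
      ((C ω (τ i)).r ∈ 𝔔 i → (C ω (τ i)).r ∈ 𝔔 i ^ l i ∧ (C ω (τ i)).t ∈ 𝔔 i ^ l i) := by
    intro i h2i ω
    have hmx := hL.mx i
    by_cases h3i : (3 : O) ∈ 𝔔 i
    · refine hAR O (𝔔 i) hmx (hL.ne i) (T (τ i) : O ≃+* O) (l i) (hl i)
        (fun o => (hL.ty i).1.dv o) ?_ (Wc ω) (hΔ i ω) (C ω (τ i)) (hC' ω _) (hab ω _)
      have h1 := (hL.ty i).1.pl
      rw [hpr i 3 Nat.prime_three (by exact_mod_cast h3i)] at h1
      simpa using h1
    · exact ecar5 O (𝔔 i) hmx (hL.ne i) (T (τ i) : O ≃+* O) (l i) (hl i)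
        (fun o => (hL.ty i).1.dv o) h2i h3i (Wc ω) (C ω (τ i)) (hC' ω _) (hab ω _)
  have har2 : ∀ i, (2 : O) ∈ 𝔔 i → ∀ ω, ((C ω (τ i)).u : O) - 1 ∈ 𝔔 i ^ l i ∧
      (∃ n, l i ≤ 3 * n ∧ (C ω (τ i)).r ∈ 𝔔 i ^ n) ∧
      (∃ n, 2 * l i ≤ 3 * n ∧ (C ω (τ i)).s ∈ 𝔔 i ^ n) ∧
      ((C ω (τ i)).t ∈ 𝔔 i → (C ω (τ i)).r ∈ 𝔔 i ^ l i ∧ (C ω (τ i)).s ∈ 𝔔 i ^ l i ∧
        (C ω (τ i)).t ∈ 𝔔 i ^ l i) := by
    intro i h2i ω
    have hp2 : p i = 2 := hpr i 2 Nat.prime_two (by exact_mod_cast h2i)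
    refine hAR2 O (𝔔 i) (hL.mx i) (hL.ne i) (T (τ i) : O ≃+* O) (l i) (hl i)
      (fun o => (hL.ty i).1.dv o) ?_ (Wc ω) (hΔ i ω) (h2 i h2i ω) (C ω (τ i)) (hC' ω _) ?_
      (hab ω _)
    · have h1 := (hL.ty i).1.pl
      rw [hp2] at h1
      simpa using h1
    · have h1 := (hL.ty i).2.1
      rw [hp2, pow_two] at h1
      have h3 := fo_mul hL.com (hfo ω (τ i)) (hfo ω (τ i))
      rw [h1] at h3
      exact vc_uniq (hE.ec ω) h3 fo_one
  let B : N → Set Ω := fun i => {ω | (C ω (τ i)).map (Ideal.Quotient.mk (𝔔 i)) ≠ 1}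
  have key : ∀ g i j, (∀ o, o ∈ 𝔔 i ↔ T g o ∈ 𝔔 j) → ∀ ω,
      (C ω (τ i)).map (Ideal.Quotient.mk (𝔔 i)) = 1 →
      (C ω (τ j)).map (Ideal.Quotient.mk (𝔔 j)) = 1 := by
    intro g i j hg ω hr
    obtain ⟨j', hj1, -, -, -, n, hn⟩ := hL.cj g i
    have hjj : j = j' := by
      apply hL.dj
      ext o
      have e1 : T g (T g⁻¹ o) = o := by
        rw [← AlgEquiv.mul_apply, ← map_mul, mul_inv_cancel, map_one, AlgEquiv.one_apply]
      have h1 := hg (T g⁻¹ o)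
      have h2 := hj1 (T g⁻¹ o)
      rw [e1] at h1 h2
      exact h1.symm.trans h2
    subst hjj
    exact key_vc hL.com (hE.ec ω) (hfo ω) hg
      (fun o => Ideal.pow_le_self (by omega) ((hL.ty i).1.dv o)) hr hn
  refine ⟨B, hl, fun i h2i => ?_, fun i h2i => ?_, fun g i j hg => ?_⟩
  · have hself : ∀ x, x ∈ 𝔔 i ^ l i → x ∈ 𝔔 i := fun x hx =>
      Ideal.pow_le_self (by have := hl i; omega) hx
    refine ⟨hE.ec, hL.com (τ i), (hL.ty i).1.dv, fun ω => ?_⟩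
    obtain ⟨c1, c2, c3⟩ := har i h2i ω
    refine ⟨(C ω (τ i)).u, (C ω (τ i)).r, (C ω (τ i)).s, (C ω (τ i)).t, (hC ω (τ i)).1,
      (hC ω (τ i)).2.1, c1, c2, fun h hr => ?_, fun h => ?_⟩
    · exact h (mk_vc (hself _ c1) hr (hself _ c2) (hself _ (c3 hr).2))
    · exact c3 (of_mk_vc (not_not.1 h)).1
  · have hself : ∀ x, x ∈ 𝔔 i ^ l i → x ∈ 𝔔 i := fun x hx =>
      Ideal.pow_le_self (by have := hl i; omega) hx
    refine ⟨hE.ec, hL.com (τ i), (hL.ty i).1.dv, fun ω => ?_⟩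
    obtain ⟨c1, c2, c3, c4⟩ := har2 i h2i ω
    refine ⟨(C ω (τ i)).u, (C ω (τ i)).r, (C ω (τ i)).s, (C ω (τ i)).t, (hC ω (τ i)).1,
      (hC ω (τ i)).2.1, c1, c2, c3, fun h ht => ?_, fun h => ?_⟩
    · obtain ⟨d1, d2, d3⟩ := c4 ht
      exact h (mk_vc (hself _ c1) (hself _ d1) (hself _ d2) (hself _ d3))
    · exact c4 (of_mk_vc (not_not.1 h)).2
  · have hg' : ∀ o, o ∈ 𝔔 j ↔ T g⁻¹ o ∈ 𝔔 i := by
      intro o
      have e1 : T g (T g⁻¹ o) = o := by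
        rw [← AlgEquiv.mul_apply, ← map_mul, mul_inv_cancel, map_one, AlgEquiv.one_apply]
      have h1 := hg (T g⁻¹ o)
      rw [e1] at h1
      exact h1.symm
    refine ⟨?_, ?_⟩
    · ext ω
      exact not_congr ⟨key g i j hg ω, key g⁻¹ j i hg' ω⟩
    · obtain ⟨j', hj1, -, hlj, -⟩ := hL.cj g i
      have hjj : j = j' := by
        apply hL.dj
        ext o
        have e1 : T g (T g⁻¹ o) = o := by
          rw [← AlgEquiv.mul_apply, ← map_mul, mul_inv_cancel, map_one, AlgEquiv.one_apply]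
        have h1 := hg (T g⁻¹ o)
        have h2 := hj1 (T g⁻¹ o)
        rw [e1] at h1 h2
        exact h1.symm.trans h2
      subst hjj
      exact hlj.symm

end Pool.Agent.Y223.G
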