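import Pool.Agent.Y987.H.Ecch
import Pool.Agent.Y74.H.Ecol
import Pool.Agent.Y223.G.EcdlQ

/-!
# The charts of products of elliptic curves: all primes
-/

set_option autoImplicit false
set_option linter.overlappingInstances false

namespace Pool.Agent.Y223.G

open IsLocalRing Pool.Agent.W418.LU2 Pool.Agent.Y987.H Pool.Agent.Y858.H

open Pool.Agent.Y74.H (toOL tr_loc)

/-- Contraction of the powers. -/
theorem ctr_pow {k O K : Type} [CommRing k] [CommRing O] [IsDomain O] [Field K] [Algebra k O]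
    [Algebra O K] [Algebra k K] [IsScalarTower k O K]
    [IsDedekindDomain O] (hinj : Function.Injective (algebraMap O K)) {s : k}
    (hs : algebraMap k K s ≠ 0) {𝔔 : Ideal (OL O (K := K) s)} (hm : 𝔔.IsMaximal) (h0 : 𝔔 ≠ ⊥)
    (n : ℕ) {a : O} (ha : (⟨algebraMap O K a, mem_OLb s a⟩ : OL O (K := K) s) ∈ 𝔔 ^ n) :
    a ∈ ctr s 𝔔 ^ n := by
  have hM := ctr_maximal hinj hm h0
  have hsK : algebraMap k K s = algebraMap O K (algebraMap k O s) :=
    IsScalarTower.algebraMap_apply k O K s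
  have hrep : ∀ x ∈ 𝔔, ∃ (n : ℕ), ∃ b ∈ ctr s 𝔔,
      algebraMap k K s ^ n * (x : K) = algebraMap O K b := by
    rintro ⟨x, n, y, hxy⟩ hx
    refine ⟨n, y, ?_, hxy⟩
    rw [mem_ctr]
    have h2 : (⟨algebraMap O K y, mem_OLb s y⟩ : OL O (K := K) s) =
        ⟨algebraMap k K s ^ n, Subalgebra.pow_mem _ (Subalgebra.algebraMap_mem _ s) n⟩ *
          ⟨x, n, y, hxy⟩ := Subtype.ext hxy.symm
    rw [h2]
    exact 𝔔.mul_mem_left _ hx
  have hrep2 : ∀ (n : ℕ), ∀ x ∈ 𝔔 ^ n, ∃ (m : ℕ), ∃ b ∈ ctr s 𝔔 ^ n,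
      algebraMap k K s ^ m * (x : K) = algebraMap O K b := by
    intro n
    induction n with
    | zero =>
      rintro ⟨x, m, y, hxy⟩ -
      refine ⟨m, y, ?_, hxy⟩
      rw [pow_zero, Ideal.one_eq_top]
      exact Submodule.mem_top
    | succ n ih =>
      intro x hx
      rw [pow_succ] at hx
      refine Submodule.mul_induction_on hx ?_ ?_
      · intro u hu v hv
        obtain ⟨n₁, b, hb, hb'⟩ := ih u hu
        obtain ⟨m, c, hc, hc'⟩ := hrep v hv
        refine ⟨n₁ + m, b * c, ?_, ?_⟩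
        · rw [pow_succ]
          exact Ideal.mul_mem_mul hb hc
        · rw [map_mul, ← hb', ← hc']
          show algebraMap k K s ^ (n₁ + m) * ((u : K) * (v : K)) = _
          ring
      · rintro u v ⟨n₁, b, hb, hb'⟩ ⟨m, c, hc, hc'⟩
        refine ⟨n₁ + m, algebraMap k O s ^ m * b + algebraMap k O s ^ n₁ * c,
          Ideal.add_mem _ (Ideal.mul_mem_left _ _ hb) (Ideal.mul_mem_left _ _ hc), ?_⟩
        rw [map_add, map_mul, map_mul, map_pow, map_pow, ← hsK, ← hb', ← hc']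
        show algebraMap k K s ^ (n₁ + m) * ((u : K) + (v : K)) = _
        ring
  obtain ⟨m, b, hb, hb'⟩ := hrep2 n _ ha
  have h1 : algebraMap k O s ^ m * a = b := by
    apply hinj
    rw [← hb', map_mul, map_pow, ← hsK]
  have hsn : algebraMap k O s ^ m ∉ ctr s 𝔔 := by
    intro h
    have h2 := mem_ctr.1 h
    apply (Ideal.ne_top_iff_one _).1 hm.ne_top
    have h3 : (algebraMap k K s ^ m)⁻¹ ∈ OL O (K := K) s :=
      ⟨m, 1, by rw [map_one, mul_inv_cancel₀ (pow_ne_zero _ hs)]⟩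
    have h4 : (1 : OL O (K := K) s) = ⟨(algebraMap k K s ^ m)⁻¹, h3⟩ *
        ⟨algebraMap O K (algebraMap k O s ^ m), mem_OLb s _⟩ := by
      apply Subtype.ext
      show (1 : K) = (algebraMap k K s ^ m)⁻¹ * algebraMap O K (algebraMap k O s ^ m)
      rw [map_pow, ← hsK, inv_mul_cancel₀ (pow_ne_zero _ hs)]
    rw [h4]
    exact 𝔔.mul_mem_left _ h2
  rw [← h1] at hb
  have hpr := hM.isPrime
  exact (Ideal.IsPrime.mul_mem_pow (ctr s 𝔔) hb).resolve_left hsn

/-- The curves over the localised base. -/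
theorem ecol3 {k O K G Ω : Type} [CommRing k] [CommRing O] [IsDomain O] [Field K]
    [Group G] [Algebra k O] [Algebra O K] [Algebra k K] [IsScalarTower k O K]
    (hinj : Function.Injective (algebraMap O K)) (ρ : G →* (K ≃ₐ[k] K)) (T : G →* (O ≃ₐ[k] O))
    (hT : ∀ g o, ρ g (algebraMap O K o) = algebraMap O K (T g o))
    (z : Ω → Fin (2 + 1) → K) (Wc : Ω → WeierstrassCurve O) (hE : ECD k O K G Ω ρ T z Wc)
    (s : k) (hs : algebraMap k K s ≠ 0)
    (Tb : G →* (OL O (K := K) s ≃ₐ[k] OL O (K := K) s)) (hTb : ∀ g x,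
      ρ g (algebraMap (OL O (K := K) s) K x) = algebraMap (OL O (K := K) s) K (Tb g x)) :
    ECD k (OL O (K := K) s) K G Ω ρ Tb z
      (fun ω => (Wc ω).map (Pool.Agent.Y74.H.toOL k O K s)) := by
  have hcom : ∀ g o, Tb g (toOL k O K s o) = toOL k O K s (T g o) := by
    intro g o
    apply Subtype.ext
    exact (hTb g (toOL k O K s o)).symm.trans (hT g o)
  constructor
  · intro ω
    have h := hE.ec ω
    exact ⟨h.z2, h.z0, tr_loc k O K s hs _ h.tr, h.eq⟩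
  · intro ω
    rw [WeierstrassCurve.map_Δ]
    exact (hE.du ω).map _
  · intro ω
    obtain ⟨a, b, ha, hb, h⟩ := hE.ch ω
    refine ⟨toOL k O K s a, toOL k O K s b, ?_, ?_, ?_⟩
    · intro h0
      exact ha (hinj ((congrArg Subtype.val h0).trans (map_zero _).symm))
    · intro h0
      exact hb (hinj ((congrArg Subtype.val h0).trans (map_zero _).symm))
    · intro g
      obtain ⟨C, h1, h2, h3, h4⟩ := h g
      have e : ∀ n : ℕ, algebraMap (OL O (K := K) s) K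
          (((C.map (toOL k O K s)).u : OL O (K := K) s) ^ n) = algebraMap O K ((C.u : O) ^ n) := by
        intro n
        rw [map_pow, map_pow]
        rfl
      have e' : algebraMap (OL O (K := K) s) K ((C.map (toOL k O K s)).s *
          ((C.map (toOL k O K s)).u : OL O (K := K) s) ^ 2) =
          algebraMap O K (C.s * (C.u : O) ^ 2) := by
        rw [map_mul, e, map_mul]
        rfl
      refine ⟨C.map (toOL k O K s), ?_, ?_, ?_, ?_⟩
      · rw [h1, e]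
        rfl
      · rw [h2, e, e']
        rfl
      · have h5 := congrArg (fun W => WeierstrassCurve.map W (toOL k O K s)) h3
        refine h5.trans ?_
        show (C • (Wc ω).map (T g : O →+* O)).map (toOL k O K s) = _
        rw [← WeierstrassCurve.map_variableChange, WeierstrassCurve.map_map,
          WeierstrassCurve.map_map]
        congr 2
        apply RingHom.ext
        intro o
        exact (hcom g o).symm
      · have h5 := congrArg (toOL k O K s) h4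
        rw [map_mul, map_mul, map_mul, ← hcom, ← hcom] at h5
        exact h5


/-- The charts are regular outside the vertex. -/
def S_ECCH3 : Prop := ∀ (k O M Y Y₂ K K₂ G Ω : Type) [CommRing k] [IsDomain k] [IsNoetherianRing k]
  [CommRing O] [IsDomain O] [IsDedekindDomain O] [Field M] [Field Y] [Field Y₂] [Field K]
  [Field K₂] [Group G] [Finite G] [Finite Ω] [Nonempty Ω] [Algebra k O] [Algebra O K]
  [Algebra k K] [IsScalarTower k O K] [Algebra M K] [Algebra k Y] [Algebra k Y₂] [Algebra k K₂]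
  (ι : Y →ₐ[k] K) (ι₂ : Y₂ →ₐ[k] K₂) (εY : LP Y →ₐ[k] Y₂) (ε : LP K →ₐ[k] K₂)
  (ρ : G →* (K ≃ₐ[k] K)) (ρ₂ : G →* (K₂ ≃ₐ[k] K₂)), Ext2M ι ι₂ εY ε ρ ρ₂ →
  ∀ (T : G →* (O ≃ₐ[k] O)) (z : Ω → Fin (2 + 1) → K), GHL k O M Y K G Ω ι ρ T 2 z →
  ∀ (Wc : Ω → WeierstrassCurve O), ECD k O K G Ω ρ T z Wc →
  (∀ 𝔮 : Ideal O, 𝔮.IsPrime → (2 : O) ∈ 𝔮 → ∀ g, g ≠ 1 → ∀ l, 1 ≤ l →
    (∀ x, T g x - x ∈ 𝔮 ^ (l + 1)) → ∀ ω, (Wc ω).a₁ ^ 3 ∈ 𝔮 ^ (2 * l)) →
  ∀ (s : k) (_ : IsDedekindDomain (OL O (K := K) s))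
  (Tb : G →* (OL O (K := K) s ≃ₐ[k] OL O (K := K) s)) (N : Type) [Finite N]
  (𝔔 : N → Ideal (OL O (K := K) s)) (p l : N → ℕ) (τ : N → G) (π : OL O (K := K) s), s ≠ 0 →
  LocE k (OL O (K := K) s) K G ρ Tb 𝔔 p l τ π →
  (∀ i, ∃ g, g ≠ 1 ∧ (∀ x, Tb g x - x ∈ 𝔔 i) ∧ ∀ x ∈ 𝔔 i, Tb g x - x ∈ 𝔔 i ^ 2) →
  ∃ (e : N → ℕ) (W : N → Ω → Fin (2 + 1) → ℕ), (∀ i, 0 < e i) ∧ ∀ (d : ℕ) (Φ : Ω → K),
    1 ≤ d → FmL k O K G Ω ρ z d Φ → Ch (res ι₂ (GRW O ε z s 𝔔 e W (π : K) d Φ))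

theorem t_ECCH3 : S_CHW → S_RWB → S_ECE → S_ECF → S_ECR → S_ECS → S_EC2E → S_EC2F → S_EC2R →
    S_EC2S → S_ECDL3 → S_REGL → S_SMAL → S_LDG → S_ECSM → S_ECCH3 := by
  classical
  intro hCH hRWB hECE hECF hECR hECS hE2E hE2F hE2R hE2S hECDL hREGL hSMAL hLDG hECSM
    k O M Y Y₂ K K₂ G Ω _ _ _ _ _ _ _ _ _ _ _ _ _ _ _ _ _ _ _ _ _ _ _
    ι ι₂ εY ε ρ ρ₂ hE T z hH Wc hD h3 s hDD Tb N _ 𝔔 p l τ π hs hL hin
  have hsK : algebraMap k K s ≠ 0 := fun h => hs (hH.injk (by rw [h, map_zero]))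
  have hOK : ∀ o : O, algebraMap O K o ∈ OL O (K := K) s := fun o => mem_OLb s o
  -- constants
  have lk : ∀ c : k, ∃ x : M, algebraMap M K x = algebraMap k K c := by
    intro c
    rw [IsScalarTower.algebraMap_apply k O K]
    exact hH.lo _
  have lOL : ∀ o : OL O (K := K) s, ∃ x : M, algebraMap M K x = (o : K) := by
    rintro ⟨x, n, y, h⟩
    obtain ⟨s', hs'⟩ := lk s
    obtain ⟨y', hy'⟩ := hH.lo y
    refine ⟨y' / s' ^ n, ?_⟩
    rw [map_div₀, map_pow, hy', hs', ← h]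
    field_simp
  -- the curves over the localised base
  obtain ⟨Wc', hWc'⟩ : ∃ Wc' : Ω → WeierstrassCurve (OL O (K := K) s),
      Wc' = fun ω => (Wc ω).map (Pool.Agent.Y74.H.toOL k O K s) := ⟨_, rfl⟩
  have hD' : ECD k (OL O (K := K) s) K G Ω ρ Tb z Wc' := by
    rw [hWc']
    exact ecol3 hH.inj ρ T hH.com z Wc hD s hsK Tb hL.com
  have hmp : ∀ i (n : ℕ) (o : O), o ∈ ctr s (𝔔 i) ^ n →
      Pool.Agent.Y74.H.toOL k O K s o ∈ 𝔔 i ^ n := by
    intro i n o ho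
    have h1 : ctr s (𝔔 i) ≤ (𝔔 i).comap (Pool.Agent.Y74.H.toOL k O K s) := fun o ho =>
      mem_ctr.1 ho
    exact Ideal.le_comap_pow _ n (Ideal.pow_right_mono h1 n ho)
  -- the wild primes over two
  have h2' : ∀ i, (2 : OL O (K := K) s) ∈ 𝔔 i → ∀ ω, (Wc' ω).a₁ ^ 3 ∈ 𝔔 i ^ (2 * l i) := by
    intro i h2i ω
    by_cases hl0 : 1 ≤ l i
    · have hTb : ∀ o : O, Tb (τ i) ⟨algebraMap O K o, hOK o⟩ - ⟨algebraMap O K o, hOK o⟩ =
          (⟨algebraMap O K (T (τ i) o - o), mem_OLb s _⟩ : OL O (K := K) s) := by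
        intro o
        apply Subtype.ext
        show ((Tb (τ i) ⟨algebraMap O K o, hOK o⟩ : OL O (K := K) s) : K) - algebraMap O K o =
          algebraMap O K (T (τ i) o - o)
        rw [map_sub, ← hH.com]
        congr 1
        exact (hL.com (τ i) ⟨algebraMap O K o, hOK o⟩).symm
      have hM := ctr_maximal hH.inj (hL.mx i) (hL.ne i)
      have h5 : (⟨algebraMap O K 2, mem_OLb s 2⟩ : OL O (K := K) s) = 2 :=
        Subtype.ext (map_ofNat (algebraMap O K) 2)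
      have h6 := h3 (ctr s (𝔔 i)) hM.isPrime (mem_ctr.2 (by rw [h5]; exact h2i)) (τ i) ?_ (l i)
        hl0 (fun o => ?_) ω
      · have h7 := hmp i _ _ h6
        rw [hWc']
        rw [map_pow] at h7
        exact h7
      · intro h1
        obtain ⟨π', hπ', hun⟩ := (hL.ty i).1.un
        apply hun
        rw [h1, map_one, AlgEquiv.one_apply, sub_self]
        exact zero_mem _
      · refine ctr_pow hH.inj hsK (hL.mx i) (hL.ne i) _ ?_
        rw [← hTb]
        exact (hL.ty i).1.dv _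
    · have : l i = 0 := by omega
      rw [this, mul_zero, pow_zero, Ideal.one_eq_top]
      exact Submodule.mem_top
  obtain ⟨B, hl, hB, hB2, hsg⟩ :=
    hECDL k (OL O (K := K) s) K G Ω ρ Tb N 𝔔 p l τ π hL z Wc' hD' hin h2'
  obtain ⟨e, he⟩ : ∃ e : N → ℕ, e = fun i => if (2 : OL O (K := K) s) ∈ 𝔔 i then 3 else 2 :=
    ⟨_, rfl⟩
  have he3 : ∀ i, (2 : OL O (K := K) s) ∈ 𝔔 i → e i = 3 := fun i h => by
    rw [he]
    exact if_pos h
  have he2 : ∀ i, (2 : OL O (K := K) s) ∉ 𝔔 i → e i = 2 := fun i h => by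
    rw [he]
    exact if_neg h
  have he0 : ∀ i, 0 < e i := fun i => by
    by_cases h : (2 : OL O (K := K) s) ∈ 𝔔 i
    · rw [he3 i h]
      norm_num
    · rw [he2 i h]
      norm_num
  refine ⟨e, fun i => WE (l i) (B i), he0, fun d Φ hd hΦ => ?_⟩
  have hΦ' : ∀ ω, Φ ω ∈ FS (OL O (K := K) s) (z ω) d := fun ω => fs_loc s (hΦ.mem ω)
  have hNO : IsNoetherianRing (OL O (K := K) s) := inferInstance
  have hrgC : IsRegularRing (CG (OL O (K := K) s) z d Φ) :=
    hREGL k O K Ω s hsK 2 z hH.z0 hH.rg d Φ hd hΦ.mem hΦ.ne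
  have hld : ∀ (S : Finset Ω) (ω : Ω), ω ∉ S →
      (⨆ ω' ∈ S, AF (OL O (K := K) s) (z ω') d (Φ ω')).LinearDisjoint
        (AF (OL O (K := K) s) (z ω) d (Φ ω)) := by
    intro S ω hω
    refine hLDG (OL O (K := K) s) M K Subtype.val_injective (fun o => lOL o) ?_
      (⨆ ω' ∈ S, AF (OL O (K := K) s) (z ω') d (Φ ω')) (AF (OL O (K := K) s) (z ω) d (Φ ω))
      _ _ ?_ ?_ (hH.ld S ω hω)
    · intro x
      obtain ⟨a, b, hb, hab⟩ := hH.lf x
      refine ⟨⟨_, hOK a⟩, ⟨_, hOK b⟩, ?_, hab⟩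
      intro h
      apply hb
      apply hH.inj
      rw [map_zero]
      exact congrArg Subtype.val h
    · have h1 : (⨆ ω' ∈ S, AF (OL O (K := K) s) (z ω') d (Φ ω')) ≤
          Pool.Agent.Y434.G.toSub s lOL (IntermediateField.adjoin M
          {y : K | ∃ ω' ∈ S, ∃ j, y = z ω' j / z ω' 0}) := by
        refine iSup₂_le fun ω' hω' => ?_
        refine af_leO hH.lo s lOL (hH.z0 ω' 0) _ (fun j => ?_) (hΦ.mem ω')
        exact IntermediateField.subset_adjoin M _ ⟨ω', hω', j, rfl⟩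
      exact fun a ha => h1 ha
    · have h1 : AF (OL O (K := K) s) (z ω) d (Φ ω) ≤
          Pool.Agent.Y434.G.toSub s lOL (IntermediateField.adjoin M
          {y : K | ∃ j, y = z ω j / z ω 0}) := by
        refine af_leO hH.lo s lOL (hH.z0 ω 0) _ (fun j => ?_) (hΦ.mem ω)
        exact IntermediateField.subset_adjoin M _ ⟨j, rfl⟩
      exact fun a ha => h1 ha
  have hsm : ∀ ω (q : Ideal (AF (OL O (K := K) s) (z ω) d (Φ ω))) [q.IsPrime],
      Algebra.IsSmoothAt (OL O (K := K) s) q := by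
    intro ω q hq
    exact hSMAL k O K hH.inj s hsK 2 (z ω) (hH.z0 ω)
      (fun j q' hq' => hECSM O K hH.inj (z ω) (Wc ω) (hD.ec ω) (hD.du ω) j q')
      d (Φ ω) hd (hΦ.mem ω) (hΦ.ne ω) q
  -- stability of the chart
  have hst : ∀ g, ∀ c ∈ CG (OL O (K := K) s) z d Φ, ρ g c ∈ CG (OL O (K := K) s) z d Φ := by
    intro g
    let V : Subalgebra (OL O (K := K) s) K :=
      { carrier := {x | ρ g x ∈ CG (OL O (K := K) s) z d Φ}
        mul_mem' := by
          intro a b ha hb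
          show ρ g (a * b) ∈ CG (OL O (K := K) s) z d Φ
          rw [map_mul]
          exact Subalgebra.mul_mem _ ha hb
        add_mem' := by
          intro a b ha hb
          show ρ g (a + b) ∈ CG (OL O (K := K) s) z d Φ
          rw [map_add]
          exact Subalgebra.add_mem _ ha hb
        algebraMap_mem' := by
          intro r
          show ρ g (algebraMap (OL O (K := K) s) K r) ∈ CG (OL O (K := K) s) z d Φ
          rw [hL.com]
          exact Subalgebra.algebraMap_mem _ _ }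
    have hle : CG (OL O (K := K) s) z d Φ ≤ V := by
      unfold CG
      refine iSup_le fun ω => ?_
      unfold AF
      rw [Algebra.adjoin_le_iff]
      rintro y ⟨x, ⟨a, ha, rfl⟩, rfl⟩
      show ρ g ((∏ j, z ω j ^ a j) / Φ ω) ∈ CG (OL O (K := K) s) z d Φ
      rw [map_div₀, map_prod, hΦ.inv]
      have h1 : ∏ j, ρ g (z ω j ^ a j) ∈ FS (OL O (K := K) s) (z ω) d := by
        have h2 : ∀ j, ρ g (z ω j ^ a j) = (ρ g (z ω j)) ^ a j := fun j => map_pow _ _ _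
        simp only [h2]
        have h3 := fs_prod (O := OL O (K := K) s) (z := z ω) (x := fun j => ρ g (z ω j))
          (fun j => fs_loc s (fs_one (hH.lin g ω j))) a Finset.univ
        rw [ha] at h3
        exact h3
      have h2 := af_fs (F := Φ ω) h1
      exact (le_iSup (fun ω => AF (OL O (K := K) s) (z ω) d (Φ ω)) ω) h2
    exact fun c hc => hle hc
  have hftC : Algebra.FiniteType (OL O (K := K) s) (CG (OL O (K := K) s) z d Φ) := by
    rw [← Subalgebra.fg_iff_finiteType]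
    unfold CG AF
    rw [← Algebra.adjoin_iUnion, Subalgebra.fg_def]
    refine ⟨_, Set.finite_iUnion fun ω => ?_, rfl⟩
    have h1 : {y : K | ∃ x ∈ MN (z ω) d, y = x / Φ ω} = (fun x => x / Φ ω) '' MN (z ω) d := by
      ext y
      constructor
      · rintro ⟨x, hx, rfl⟩
        exact ⟨x, hx, rfl⟩
      · rintro ⟨x, hx, rfl⟩
        exact ⟨x, hx, rfl⟩
    rw [h1]
    exact (Pool.Agent.Y434.G.MN_finite _ d).image _
  have hb := fun i => hRWB k (OL O (K := K) s) K Ω (𝔔 i) (e i) (he0 i) 2 (WE (l i) (B i)) z d Φ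
  have hrg : ∀ i, IsRegularRing (RW k (𝔔 i) (e i) (WE (l i) (B i)) z d Φ) := by
    intro i
    by_cases h2i : (2 : OL O (K := K) s) ∈ 𝔔 i
    · rw [he3 i h2i]
      exact hE2R k (OL O (K := K) s) K Ω hL.inj hL.ft (𝔔 i) (hL.mx i) (hL.ne i) (l i) (hl i) z
        Wc' (B i) hD'.ec d Φ hd hΦ' hΦ.ne hld (fun ω q hq _ => @hsm ω q hq) hrgC
    · rw [he2 i h2i]
      exact hECR k (OL O (K := K) s) K Ω hL.inj hL.ft (𝔔 i) (hL.mx i) (hL.ne i) (l i) (hl i) z
        Wc' (B i) hD'.ec d Φ hd hΦ' hΦ.ne hld (fun ω q hq _ => @hsm ω q hq) hrgC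
  have hch : ∀ g ω, ∃ u r s' v : OL O (K := K) s,
      ρ g (z ω 0) = algebraMap (OL O (K := K) s) K (u ^ 2) * z ω 0 +
        algebraMap (OL O (K := K) s) K r ∧
      ρ g (z ω 1) = algebraMap (OL O (K := K) s) K (u ^ 3) * z ω 1 +
        algebraMap (OL O (K := K) s) K (s' * u ^ 2) * z ω 0 +
        algebraMap (OL O (K := K) s) K v := by
    intro g ω
    obtain ⟨a, b, -, -, h⟩ := hD'.ch ω
    obtain ⟨C, h1, h2, -⟩ := h g
    exact ⟨C.u, C.r, C.s, C.t, h1, h2⟩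
  have hWE : ∀ i, (∀ w, Tb (τ i) π = w * π → w - 1 ∈ 𝔔 i ^ l i) := by
    intro i w hw
    refine cancel_unif (hL.mx i) (hL.ne i) ?_ (hL.pq i).1 (hL.pq i).2
    have e : (w - 1) * π = Tb (τ i) π - π := by
      rw [hw]
      ring
    rw [e]
    exact (hL.ty i).1.dv π
  have hW : WCt k (OL O (K := K) s) K G ρ Tb 𝔔 τ π (CG (OL O (K := K) s) z d Φ)
      (fun i => RW k (𝔔 i) (e i) (WE (l i) (B i)) z d Φ) := by
    refine ⟨hst, hftC, hrgC, fun i => (hb i).1, fun i => (hb i).2.1, fun i => (hb i).2.2.1,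
      fun i => (hb i).2.2.2.1, fun i => (hb i).2.2.2.2.2.2 hL.ft hNO, hrg,
      fun i => (hb i).2.2.2.2.1, ?_, ?_⟩
    · intro g i j hij f hf
      obtain ⟨hBij, hlij⟩ := hsg g i j hij
      beta_reduce at hf ⊢
      rw [hBij, hlij] at hf
      have h2ij : (2 : OL O (K := K) s) ∈ 𝔔 i ↔ (2 : OL O (K := K) s) ∈ 𝔔 j := by
        have := hij 2
        rwa [map_ofNat] at this
      by_cases h2i : (2 : OL O (K := K) s) ∈ 𝔔 i
      · rw [he3 i h2i] at hf
        rw [he3 j (h2ij.1 h2i)]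
        exact hE2S k (OL O (K := K) s) K Ω (ρ g) (Tb g) (hL.com g) (𝔔 i) (𝔔 j)
          (fun o ho => (hij o).1 ho) z (fun ω => (hD'.ec ω).z2) (hch g) (l j) (B j) d Φ
          (hΦ.inv g) f hf
      · rw [he2 i h2i] at hf
        rw [he2 j (fun h => h2i (h2ij.2 h))]
        exact hECS k (OL O (K := K) s) K Ω (ρ g) (Tb g) (hL.com g) (𝔔 i) (𝔔 j)
          (fun o ho => (hij o).1 ho) z (fun ω => (hD'.ec ω).z2) (hch g) (l j) (B j) d Φ
          (hΦ.inv g) f hf
    · intro i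
      by_cases h2i : (2 : OL O (K := K) s) ∈ 𝔔 i
      · have hbi := hb i
        beta_reduce
        rw [he3 i h2i] at hbi ⊢
        refine ⟨3 * l i, by have := hl i; omega, fun f hf => ?_, fun w hw => ?_, ?_⟩
        · exact hE2E k (OL O (K := K) s) K Ω (ρ (τ i)) (Tb (τ i)) (𝔔 i) (l i) (hl i) z Wc' (B i)
            (hB2 i h2i) d Φ (hΦ.inv (τ i)) f hf
        · exact hbi.2.2.2.2.2.1 (l i) _ (hWE i w hw)
        · intro Q hQ h1 h2
          exact hE2F k (OL O (K := K) s) K Ω hL.inj (ρ (τ i)) (Tb (τ i)) (𝔔 i) (hL.mx i)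
            (hL.ne i) (l i) (hl i) (hL.ty i).1.un z Wc' (B i) (hB2 i h2i) d Φ hd hΦ' hΦ.ne
            (hΦ.inv (τ i)) Q hQ h1 h2
      · have hbi := hb i
        beta_reduce
        rw [he2 i h2i] at hbi ⊢
        refine ⟨2 * l i, by have := hl i; omega, fun f hf => ?_, fun w hw => ?_, ?_⟩
        · exact hECE k (OL O (K := K) s) K Ω (ρ (τ i)) (Tb (τ i)) (𝔔 i) (l i) (hl i) z Wc' (B i)
            (hB i h2i) d Φ (hΦ.inv (τ i)) f hf
        · exact hbi.2.2.2.2.2.1 (l i) _ (hWE i w hw)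
        · intro Q hQ h1 h2
          exact hECF k (OL O (K := K) s) K Ω hL.inj (ρ (τ i)) (Tb (τ i)) (𝔔 i) (hL.mx i)
            (hL.ne i) (l i) (hl i) (hL.ty i).1.un z Wc' (B i) (hB i h2i) d Φ hd hΦ' hΦ.ne
            (hΦ.inv (τ i)) Q hQ h1 h2
  exact hCH k (OL O (K := K) s) K K₂ G ε hE.eK ρ ρ₂ hE.act Tb N 𝔔 p l τ π hL _ _ hW Y₂ ι₂ hE.fix

end Pool.Agent.Y223.G
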