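import Pool.Agent.Y223.G.WDefs

/-!
# Basic facts on the graded algebra of a chart
-/

set_option autoImplicit false
set_option linter.unusedSectionVars false

namespace Pool.Agent.Y223.G

section

variable {k O K : Type} [CommRing k] [CommRing O] [Field K] [Algebra O K] [Algebra k K]
  {τ : K ≃ₐ[k] K} {p l : ℕ} {𝔓 : Ideal O} {C : Subalgebra O K}

lemma wt_zero (l : ℕ) : wt l 0 = 0 := by
  unfold wt
  split_ifs <;> simp

lemma wt_pos {l a : ℕ} (ha : 0 < a) : 0 < wt l a := by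
  unfold wt
  split_ifs with h
  · exact lt_min ha one_pos
  · exact Nat.mul_pos ha (Nat.pos_of_ne_zero h)

lemma RR_gr : Gr (RR k τ p 𝔓 l C) := by
  apply gr_adjoin
  rintro f ((hf | ⟨e, -, rfl⟩) | ⟨a, c, -, -, rfl⟩)
  · exact ⟨-1, 1, hf⟩
  · exact ⟨_, _, rfl⟩
  · exact ⟨_, _, rfl⟩

lemma RR_s : (hm (-1) 1 : LP K) ∈ RR k τ p 𝔓 l C :=
  Algebra.subset_adjoin (Or.inl (Or.inl rfl))

lemma RR_e {e : O} (he : e ∈ 𝔓) : hm 1 (algebraMap O K e) ∈ RR k τ p 𝔓 l C :=
  Algebra.subset_adjoin (Or.inl (Or.inr ⟨e, he, rfl⟩))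

lemma RR_del {a : ℕ} {c : K} (ha : a < p) (hc : c ∈ C) :
    hm (wt l a) ((df τ)^[a] c) ∈ RR k τ p 𝔓 l C :=
  Algebra.subset_adjoin (Or.inr ⟨a, c, hc, ha, rfl⟩)

lemma RR_c (hp : 0 < p) {c : K} (hc : c ∈ C) : hm 0 c ∈ RR k τ p 𝔓 l C := by
  have h := RR_del (k := k) (τ := τ) (p := p) (l := l) (𝔓 := 𝔓) hp hc
  rwa [wt_zero, Function.iterate_zero_apply] at h

/-- Lowering the degree. -/
lemma RR_low {d : ℤ} {x : K} (h : hm d x ∈ RR k τ p 𝔓 l C) (n : ℕ) :
    hm (d - n) x ∈ RR k τ p 𝔓 l C := by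
  have h1 := (RR k τ p 𝔓 l C).mul_mem ((RR k τ p 𝔓 l C).pow_mem RR_s n) h
  rw [hm_pow, one_pow, hm_mul, one_mul] at h1
  have h2 : (n : ℤ) * -1 + d = d - n := by ring
  rwa [h2] at h1

lemma RR_low' {d e : ℤ} {x : K} (h : hm d x ∈ RR k τ p 𝔓 l C) (he : e ≤ d) :
    hm e x ∈ RR k τ p 𝔓 l C := by
  have h1 := RR_low h (d - e).toNat
  have h2 : d - ((d - e).toNat : ℤ) = e := by
    rw [Int.toNat_of_nonneg (by omega)]
    ring
  rwa [h2] at h1

/-- The powers of the ideal. -/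
lemma RR_epow (hp : 0 < p) (n : ℕ) {e : O} (he : e ∈ 𝔓 ^ n) :
    hm n (algebraMap O K e) ∈ RR k τ p 𝔓 l C := by
  induction n generalizing e with
  | zero =>
    have h1 : algebraMap O K e ∈ C := C.algebraMap_mem e
    exact_mod_cast RR_c hp h1
  | succ n ih =>
    rw [pow_succ] at he
    refine Submodule.mul_induction_on he ?_ ?_
    · intro x hx y hy
      have h1 := (RR k τ p 𝔓 l C).mul_mem (ih hx) (RR_e (l := l) (C := C) (k := k) (τ := τ) (p := p) hy)
      rw [hm_mul, ← map_mul] at h1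
      exact_mod_cast h1
    · intro x y hx hy
      rw [map_add, hm_add]
      exact (RR k τ p 𝔓 l C).add_mem hx hy

lemma df_mem (hC : ∀ c ∈ C, τ c ∈ C) {c : K} (hc : c ∈ C) : df τ c ∈ C :=
  C.sub_mem (hC c hc) hc

lemma df_iter_mem (hC : ∀ c ∈ C, τ c ∈ C) (a : ℕ) {c : K} (hc : c ∈ C) : (df τ)^[a] c ∈ C := by
  induction a with
  | zero => exact hc
  | succ a ih =>
    rw [Function.iterate_succ_apply']
    exact df_mem hC ih

/-- The coefficients are in `C`. -/
lemma RR_coeff [Algebra k O] [IsScalarTower k O K] (hC : ∀ c ∈ C, τ c ∈ C) {f : LP K}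
    (hf : f ∈ RR k τ p 𝔓 l C) (d : ℤ) : f.coeff d ∈ C := by
  classical
  let S : Subalgebra k (LP K) :=
    { carrier := {f | ∀ d, f.coeff d ∈ C}
      mul_mem' := by
        intro f g hf hg d
        rw [eq_sum_hm f, eq_sum_hm g, Finset.sum_mul_sum, AddMonoidAlgebra.coeff_sum,
          Finsupp.finsetSum_apply]
        refine C.sum_mem fun a _ => ?_
        rw [AddMonoidAlgebra.coeff_sum, Finsupp.finsetSum_apply]
        refine C.sum_mem fun b _ => ?_
        rw [hm_mul, coeff_hm]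
        split_ifs
        · exact C.mul_mem (hf a) (hg b)
        · exact C.zero_mem
      add_mem' := by
        intro f g hf hg d
        rw [AddMonoidAlgebra.coeff_add, Finsupp.add_apply]
        exact C.add_mem (hf d) (hg d)
      algebraMap_mem' := by
        intro r d
        rw [algebraMap_LP, coeff_hm]
        split_ifs
        · rw [IsScalarTower.algebraMap_apply k O K]
          exact C.algebraMap_mem _
        · exact C.zero_mem }
  have hle : RR k τ p 𝔓 l C ≤ S := by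
    unfold RR
    rw [Algebra.adjoin_le_iff]
    have key : ∀ (e : ℤ) (x : K), x ∈ C → hm e x ∈ S := by
      intro e x hx d
      rw [coeff_hm]
      split_ifs
      · exact hx
      · exact C.zero_mem
    rintro f ((hf | ⟨e, -, rfl⟩) | ⟨a, c, hc, -, rfl⟩)
    · rw [hf]
      exact key _ _ C.one_mem
    · exact key _ _ (C.algebraMap_mem e)
    · exact key _ _ (df_iter_mem hC a hc)
  exact hle hf d

lemma RR_mem_C [Algebra k O] [IsScalarTower k O K] (hC : ∀ c ∈ C, τ c ∈ C) {d : ℤ} {x : K}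
    (h : hm d x ∈ RR k τ p 𝔓 l C) : x ∈ C := by
  have h1 := RR_coeff hC h d
  rwa [coeff_hm_same] at h1

/-- The coefficients are in the part of degree zero. -/
lemma RR_cf [Algebra k O] [IsScalarTower k O K] (hp : 0 < p) (hC : ∀ c ∈ C, τ c ∈ C) {d : ℤ}
    {x : K} (h : hm d x ∈ RR k τ p 𝔓 l C) : hm 0 x ∈ RR k τ p 𝔓 l C :=
  RR_c hp (RR_mem_C hC h)

/-- The action on homogeneous elements. -/
lemma tl_hm (d : ℤ) (x : K) : tl τ (hm d x) = hm d (τ x) :=
  AddMonoidAlgebra.mapAlgHom_single _ _ _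

end

section df

variable {B : Type} [CommRing B] (σ : B →+* B)

lemma df_add (x y : B) : df σ (x + y) = df σ x + df σ y := by
  unfold df; rw [map_add]; ring

lemma df_zero : df σ 0 = 0 := by
  unfold df; rw [map_zero, sub_zero]

lemma df_mul (x y : B) : df σ (x * y) = df σ x * y + x * df σ y + df σ x * df σ y := by
  unfold df; rw [map_mul]; ring

end df

end Pool.Agent.Y223.G
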