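import Pool.Agent.Y223.G.AllW
import Pool.Agent.Y223.G.EcchQ
import Pool.Agent.Y239.H.Ec2e
import Pool.Agent.Y31.H.Ec2f
import Pool.Agent.Y457.H.Ec2r
import Pool.Agent.Y236.H.EC2S
import Pool.Agent.Y475.H.Ec2ar

/-!
# Products of elliptic curves, all primes: everything together
-/

set_option autoImplicit false

namespace Pool.Agent.Y223.G

theorem all_EC2E : S_EC2E := Pool.Agent.Y239.H.Ec2e.t_EC2E all_RWB
theorem all_EC2F : S_EC2F := Pool.Agent.Y31.H.Ec2f.t_EC2F all_RWB all_EC2E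
theorem all_EC2R : S_EC2R :=
  Pool.Agent.Y457.H.t_EC2R (Pool.Agent.Y563.GW.t_WCH Pool.Agent.Y901.G.t_WREG) all_RWB
    Pool.Agent.Y215.G.t_COORD all_ETF Pool.Agent.Y514.G.t_IND2 all_ECET
theorem all_EC2S : S_EC2S := Pool.Agent.Y236.H.EC2S.t_EC2S
theorem all_EC2AR : S_EC2AR := Pool.Agent.Y475.H.t_EC2AR

theorem all_ECCH3 : S_ECCH3 :=
  t_ECCH3 all_CHW all_RWB all_ECE all_ECF all_ECR all_ECS all_EC2E all_EC2F all_EC2R all_EC2S
    (t_ECDL3 all_ECAR all_EC2AR) Pool.Agent.Y614.H.RegL.t_REGL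
    Pool.Agent.Y38.H.Smal.t_SMAL all_LDG all_ECSM

end Pool.Agent.Y223.G
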