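import Pool.Agent.Y223.G.Stm5

/-!
# Statements of the parts of project G: Weil restrictions along arbitrary finite extensions
-/

set_option autoImplicit false

namespace Pool.Agent.Y223.G

open IsLocalRing Pool.Agent.W418.LU2

/-- The base: a Dedekind domain `O`, finite over `k`, with an action of the finite group `G` with
the fixed ring `k` and finite residue fields, in the field `K` with an action of `G`, such that at
every maximal ideal the action is tame or the inertia group has prime order. -/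
structure GB (k O K G : Type) [CommRing k] [IsDomain k] [CommRing O] [IsDomain O]
    [IsDedekindDomain O] [Field K] [Group G] [Algebra k O] [Algebra O K] [Algebra k K]
    [IsScalarTower k O K] (ρ : G →* (K ≃ₐ[k] K)) (T : G →* (O ≃ₐ[k] O)) : Prop where
  fin : Module.Finite k O
  inj : Function.Injective (algebraMap O K)
  injk : Function.Injective (algebraMap k K)
  com : ∀ g o, ρ g (algebraMap O K o) = algebraMap O K (T g o)
  fai : ∀ g, (∀ o, T g o = o) → g = 1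
  fix : ∀ o, (∀ g, T g o = o) → ∃ c : k, algebraMap k O c = o
  cg : (Nat.card G : K) ≠ 0
  resf : ∀ 𝔓 : Ideal O, 𝔓.IsMaximal → 𝔓 ≠ ⊥ → Finite (O ⧸ 𝔓)
  inr : ∀ 𝔓 : Ideal O, 𝔓.IsMaximal → 𝔓 ≠ ⊥ →
    (∀ g, (∀ o, T g o - o ∈ 𝔓) → (∀ o ∈ 𝔓, T g o - o ∈ 𝔓 ^ 2) → g = 1) ∨
    ∃ (p : ℕ) (τ : G), p.Prime ∧ τ ^ p = 1 ∧ ∀ g, (∀ o, T g o - o ∈ 𝔓) →
      g ∈ Subgroup.zpowers τ

/-- A compatible family of forms of degree `d` in the coordinates `z ω`. -/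
structure Fm (k K G Ω : Type) [CommRing k] [Field K] [Group G] [MulAction G Ω] [Algebra k K]
    (ρ : G →* (K ≃ₐ[k] K)) {m : ℕ} (z : Ω → Fin (m + 1) → K) (d : ℕ) (Φ : Ω → K) : Prop where
  mem : ∀ ω, Φ ω ∈ FS k (z ω) d
  ne : ∀ ω, Φ ω ≠ 0
  eqv : ∀ g ω, ρ g (Φ ω) = Φ (g • ω)

/-- The product of the charts of a family of forms. -/
noncomputable def CG (O : Type) {K Ω : Type} [CommRing O] [Field K] [Algebra O K] {m : ℕ}
    (z : Ω → Fin (m + 1) → K) (d : ℕ) (Φ : Ω → K) : Subalgebra O K :=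
  ⨆ ω, AF O (z ω) d (Φ ω)

/-- The chart of the family `Φ` over the open subset `s ≠ 0` of the base. -/
noncomputable def GRG {k : Type} (O : Type) {K G Ω : Type} [CommRing k] [CommRing O] [Field K]
    [Group G] [Algebra k O] [Algebra O K] [Algebra k K] [IsScalarTower k O K]
    (ρ : G →* (K ≃ₐ[k] K)) {m : ℕ} (z : Ω → Fin (m + 1) → K) (s : k) {N : Type}
    (𝔔 : N → Ideal (OL O (K := K) s)) (p l : N → ℕ) (τ : N → G) (d : ℕ) (Φ : Ω → K) :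
    Subalgebra k (LP K) :=
  RG k ρ 𝔔 p l τ (CG (OL O (K := K) s) z d Φ)

/-- The hypotheses on the variety: `z ω` are the homogeneous coordinates of the conjugate `ω`. -/
structure GHG (k O M Y K G Ω : Type) [CommRing k] [IsDomain k] [CommRing O] [IsDomain O]
    [IsDedekindDomain O] [Field M] [Field Y] [Field K] [Group G] [MulAction G Ω] [Algebra k O]
    [Algebra O K] [Algebra k K] [IsScalarTower k O K] [Algebra M K] [Algebra k Y]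
    (ι : Y →ₐ[k] K) (ρ : G →* (K ≃ₐ[k] K)) (T : G →* (O ≃ₐ[k] O)) (m : ℕ)
    (z : Ω → Fin (m + 1) → K) : Prop extends GB k O K G ρ T where
  lo : ∀ o : O, ∃ x : M, algebraMap M K x = algebraMap O K o
  lf : ∀ x : M, ∃ a b : O, b ≠ 0 ∧ algebraMap M K x * algebraMap O K b = algebraMap O K a
  fixK : ∀ x, (∀ g, ρ g x = x) ↔ ∃ y, ι y = x
  z0 : ∀ ω j, z ω j ≠ 0
  eqv : ∀ g ω j, ρ g (z ω j) = z (g • ω) j
  tr : ∀ ω ω' : Ω, ∃ g : G, g • ω = ω'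
  gen : IntermediateField.adjoin M {y : K | ∃ ω j, y = z ω j / z ω 0} = ⊤
  ld : ∀ (S : Finset Ω) (ω : Ω), ω ∉ S →
    (IntermediateField.adjoin M {y : K | ∃ ω' ∈ S, ∃ j, y = z ω' j / z ω' 0}
      ).toSubalgebra.LinearDisjoint
        (IntermediateField.adjoin M {y : K | ∃ j, y = z ω j / z ω 0}).toSubalgebra
  sm : ∀ ω j (q : Ideal (AZ O (z ω) j)) [q.IsPrime],
    (∃ g : G, g ≠ 1 ∧ ∀ o, algebraMap O (AZ O (z ω) j) (T g o - o) ∈ q) → Algebra.IsSmoothAt O q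
  rg : ∀ J : Ω → Fin (m + 1), IsRegularRing (Algebra.adjoin O
    {y : K | ∃ (ω : Ω) (i : Fin (m + 1)), y = z ω i / z ω (J ω)})

/-- The base is covered by open subsets with ramification over at most one prime of `k`. -/
def S_RAMG : Prop := ∀ (k O K G : Type) [CommRing k] [IsDomain k] [CommRing O] [IsDomain O]
  [IsDedekindDomain O] [Field K] [Group G] [Finite G] [Algebra k O] [Algebra O K] [Algebra k K]
  [IsScalarTower k O K] (ρ : G →* (K ≃ₐ[k] K)) (T : G →* (O ≃ₐ[k] O)), GB k O K G ρ T →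
  ∃ (β : Type) (_ : Finite β) (_ : Nonempty β) (o : β → k), (∀ b, o b ≠ 0) ∧
    Ideal.span (Set.range o) = ⊤ ∧ ∀ b, ∃ (_ : IsDedekindDomain (OL O (K := K) (o b)))
      (Tb : G →* (OL O (K := K) (o b) ≃ₐ[k] OL O (K := K) (o b))) (N : Type) (_ : Finite N)
      (𝔔 : N → Ideal (OL O (K := K) (o b))) (p l : N → ℕ) (τ : N → G),
      LocD k (OL O (K := K) (o b)) K G ρ Tb 𝔔 p l τ ∧
      (∀ i, ∃ g, g ≠ 1 ∧ ∀ x, Tb g x - x ∈ 𝔔 i) ∧
      ∀ b', b' ≠ b → ∀ i, algebraMap k (OL O (K := K) (o b)) (o b') ∈ 𝔔 i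

/-- Regularity of the products of charts of forms. -/
def S_REGG : Prop := ∀ (k O K Ω : Type) [CommRing k] [CommRing O] [IsNoetherianRing O] [Field K]
  [Finite Ω] [Algebra k O] [Algebra O K] [Algebra k K] [IsScalarTower k O K] (s : k)
  (_ : algebraMap k K s ≠ 0) (m : ℕ) (z : Ω → Fin (m + 1) → K) (_ : ∀ ω j, z ω j ≠ 0),
  (∀ J : Ω → Fin (m + 1), IsRegularRing (Algebra.adjoin O
    {y : K | ∃ (ω : Ω) (i : Fin (m + 1)), y = z ω i / z ω (J ω)})) →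
  ∀ (d : ℕ) (Φ : Ω → K), 1 ≤ d → (∀ ω, Φ ω ∈ FS k (z ω) d) → (∀ ω, Φ ω ≠ 0) →
  IsRegularRing (CG (OL O (K := K) s) z d Φ)

/-- The charts of the invariants are regular outside the vertex. -/
def S_GCHG : Prop := ∀ (k O M Y K G Ω : Type) [CommRing k] [IsDomain k] [IsNoetherianRing k]
  [CommRing O] [IsDomain O] [IsDedekindDomain O] [Field M] [Field Y] [Field K] [Group G]
  [Finite G] [Finite Ω] [MulAction G Ω] [Algebra k O] [Algebra O K] [Algebra k K]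
  [IsScalarTower k O K] [Algebra M K] [Algebra k Y] (ι : Y →ₐ[k] K) (ρ : G →* (K ≃ₐ[k] K))
  (T : G →* (O ≃ₐ[k] O)) (m : ℕ) (z : Ω → Fin (m + 1) → K), GHG k O M Y K G Ω ι ρ T m z →
  ∀ (s : k) (_ : IsDedekindDomain (OL O (K := K) s))
  (Tb : G →* (OL O (K := K) s ≃ₐ[k] OL O (K := K) s)) (N : Type) [Finite N]
  (𝔔 : N → Ideal (OL O (K := K) s)) (p l : N → ℕ) (τ : N → G), s ≠ 0 →
  LocD k (OL O (K := K) s) K G ρ Tb 𝔔 p l τ → (∀ i, ∃ g, g ≠ 1 ∧ ∀ o, Tb g o - o ∈ 𝔔 i) →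
  ∀ (d : ℕ) (Φ : Ω → K), 1 ≤ d → Fm k K G Ω ρ z d Φ → Ch (res ι (GRG O ρ z s 𝔔 p l τ d Φ))

/-- Gluing: the charts of two families of forms over the same open subset of the base. -/
def S_GLA1 : Prop := ∀ (k O K G Ω : Type) [CommRing k] [CommRing O] [Field K] [Group G] [Finite G]
  [Finite Ω] [MulAction G Ω] [Algebra k O] [Algebra O K] [Algebra k K] [IsScalarTower k O K]
  (ρ : G →* (K ≃ₐ[k] K)) (m : ℕ) (z : Ω → Fin (m + 1) → K) (s : k) (N : Type) [Finite N]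
  (𝔔 : N → Ideal (OL O (K := K) s)) (p l : N → ℕ) (τ : N → G) (_ : ∀ i, 0 < p i) (d : ℕ)
  (Φ Ψ : Ω → K), Fm k K G Ω ρ z d Φ → Fm k K G Ω ρ z d Ψ → ∀ x : K, (∃ _ : Fintype Ω, x = ∏ ω, Ψ ω / Φ ω) →
  hm 0 x ∈ GRG O ρ z s 𝔔 p l τ d Φ ∧
  ∀ f ∈ GRG O ρ z s 𝔔 p l τ d Ψ, ∃ n : ℕ, hm 0 x ^ n * f ∈ GRG O ρ z s 𝔔 p l τ d Φ

/-- Gluing: the charts over different open subsets of the base. -/
def S_GLA2 : Prop := ∀ (k O K G Ω : Type) [CommRing k] [CommRing O] [Field K] [Group G] [Finite G]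
  [Finite Ω] [MulAction G Ω] [Algebra k O] [Algebra O K] [Algebra k K] [IsScalarTower k O K]
  (ρ : G →* (K ≃ₐ[k] K)) (m : ℕ) (z : Ω → Fin (m + 1) → K) (s s' : k) (_ : algebraMap k K s ≠ 0) (_ : algebraMap k K s' ≠ 0)
  (N : Type) [Finite N] (𝔔 : N → Ideal (OL O (K := K) s)) (p l : N → ℕ) (τ : N → G)
  (N' : Type) [Finite N'] (𝔔' : N' → Ideal (OL O (K := K) s')) (p' l' : N' → ℕ) (τ' : N' → G)
  (d : ℕ) (Φ : Ω → K), Fm k K G Ω ρ z d Φ → (∀ i, 0 < p i) →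
  (∀ i, algebraMap k (OL O (K := K) s) s' ∈ 𝔔 i) →
  hm 0 (algebraMap k K s' / algebraMap k K s) ∈ GRG O ρ z s 𝔔 p l τ d Φ ∧
  ∀ f ∈ GRG O ρ z s' 𝔔' p' l' τ' d Φ, ∃ n : ℕ,
    hm 0 (algebraMap k K s' / algebraMap k K s) ^ n * f ∈ GRG O ρ z s 𝔔 p l τ d Φ

/-- Valuations: every valuation ring of the field of invariants contains a chart. -/
def S_GVAG : Prop := ∀ (k O M Y K G Ω : Type) [CommRing k] [IsDomain k]
  [CommRing O] [IsDomain O] [IsDedekindDomain O] [Field M] [Field Y] [Field K] [Group G]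
  [Finite G] [Finite Ω] [Nonempty Ω] [MulAction G Ω] [Algebra k O] [Algebra O K] [Algebra k K]
  [IsScalarTower k O K] [Algebra M K] [Algebra k Y] (ι : Y →ₐ[k] K) (ρ : G →* (K ≃ₐ[k] K))
  (T : G →* (O ≃ₐ[k] O)) (m : ℕ) (z : Ω → Fin (m + 1) → K), GHG k O M Y K G Ω ι ρ T m z →
  ∃ (d : ℕ) (S : Set (Ω → K)), 1 ≤ d ∧ S.Finite ∧ (∀ Φ ∈ S, Fm k K G Ω ρ z d Φ) ∧
    ∀ V : ValuationSubring Y, (∀ c : k, algebraMap k Y c ∈ V) → ∃ Φ ∈ S,
      ∀ s : k, s ≠ 0 → (algebraMap k Y s)⁻¹ ∈ V →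
        ∀ (N : Type) (𝔔 : N → Ideal (OL O (K := K) s)) (p l : N → ℕ) (τ : N → G) (x : Y),
        hm 0 x ∈ res ι (GRG O ρ z s 𝔔 p l τ d Φ) → x ∈ V

/-- The field of fractions of the charts, and constants of degree one. -/
def S_GFRG : Prop := ∀ (k O M Y K G Ω : Type) [CommRing k] [IsDomain k]
  [CommRing O] [IsDomain O] [IsDedekindDomain O] [Field M] [Field Y] [Field K] [Group G]
  [Finite G] [Finite Ω] [Nonempty Ω] [MulAction G Ω] [Algebra k O] [Algebra O K] [Algebra k K]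
  [IsScalarTower k O K] [Algebra M K] [Algebra k Y] (ι : Y →ₐ[k] K) (ρ : G →* (K ≃ₐ[k] K))
  (T : G →* (O ≃ₐ[k] O)) (m : ℕ) (z : Ω → Fin (m + 1) → K), GHG k O M Y K G Ω ι ρ T m z →
  ∀ (s : k) (N : Type) [Finite N] (𝔔 : N → Ideal (OL O (K := K) s)) (p l : N → ℕ) (τ : N → G),
  s ≠ 0 → (∀ i, 𝔔 i ≠ ⊥) → (∀ i, 0 < p i) →
  ∀ (d : ℕ) (Φ : Ω → K), 1 ≤ d → Fm k K G Ω ρ z d Φ →
  (∀ x : Y, ∃ y y' : Y, hm 0 y ∈ res ι (GRG O ρ z s 𝔔 p l τ d Φ) ∧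
    hm 0 y' ∈ res ι (GRG O ρ z s 𝔔 p l τ d Φ) ∧ y' ≠ 0 ∧ x = y / y') ∧
  (∃ c : k, c ≠ 0 ∧ hm 1 (algebraMap k Y c) ∈ res ι (GRG O ρ z s 𝔔 p l τ d Φ))

/-- Descent of forms. -/
def S_DSCG : Prop := ∀ (k O M Y K G Ω : Type) [CommRing k] [IsDomain k]
  [CommRing O] [IsDomain O] [IsDedekindDomain O] [Field M] [Field Y] [Field K] [Group G]
  [Finite G] [Finite Ω] [MulAction G Ω] [Algebra k O] [Algebra O K] [Algebra k K]
  [IsScalarTower k O K] [Algebra M K] [Algebra k Y] (ι : Y →ₐ[k] K) (ρ : G →* (K ≃ₐ[k] K))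
  (T : G →* (O ≃ₐ[k] O)) (m : ℕ) (z : Ω → Fin (m + 1) → K), GHG k O M Y K G Ω ι ρ T m z →
  ∀ (N : Submodule k Y) (y : Y), ι y ∈ Submodule.span M (ι '' (N : Set Y)) → y ∈ sat N

/-- The generic fibre. -/
def S_GMOG : Prop := ∀ (k O M Y K G Ω : Type) [CommRing k] [IsDomain k]
  [CommRing O] [IsDomain O] [IsDedekindDomain O] [Field M] [Field Y] [Field K] [Group G]
  [Finite G] [Fintype Ω] [Nonempty Ω] [MulAction G Ω] [Algebra k O] [Algebra O K] [Algebra k K]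
  [IsScalarTower k O K] [Algebra M K] [Algebra k Y] (ι : Y →ₐ[k] K) (ρ : G →* (K ≃ₐ[k] K))
  (T : G →* (O ≃ₐ[k] O)) (m : ℕ) (z : Ω → Fin (m + 1) → K), GHG k O M Y K G Ω ι ρ T m z →
  ∀ (M₀ : Submodule k Y), Submodule.span M (ι '' (M₀ : Set Y)) =
    Submodule.span M (Set.range fun J : Ω → Fin (m + 1) => ∏ ω, z ω (J ω)) →
  ∀ (s : k) (N : Type) [Finite N] (𝔔 : N → Ideal (OL O (K := K) s)) (p l : N → ℕ) (τ : N → G),
  s ≠ 0 → (∀ i, 0 < p i) → ∀ (d : ℕ) (Φ : Ω → K), 1 ≤ d → Fm k K G Ω ρ z d Φ →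
  ∀ h : Y, ι h = (∏ ω, Φ ω) * algebraMap k K s →
  h ∈ sat (M₀ ^ d) ∧
  (∀ x ∈ M₀ ^ d, ∃ c : k, c ≠ 0 ∧ hm 0 (c • (x / h)) ∈ res ι (GRG O ρ z s 𝔔 p l τ d Φ)) ∧
  ∀ f, hm 0 f ∈ res ι (GRG O ρ z s 𝔔 p l τ d Φ) → ∃ N₀ : ℕ, ∀ N', N₀ ≤ N' →
    h ^ N' * f ∈ sat (M₀ ^ (d * N'))

/-- **Weil restrictions along arbitrary finite extensions.** -/
def S_WEILG : Prop := ∀ (k O M Y K G Ω : Type) [CommRing k] [IsDomain k] [IsNoetherianRing k]
  [CommRing O] [IsDomain O] [IsDedekindDomain O] [Field M] [Field Y] [Field K] [Group G]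
  [Finite G] [Fintype Ω] [Nonempty Ω] [MulAction G Ω] [Algebra k O] [Algebra O K] [Algebra k K]
  [IsScalarTower k O K] [Algebra M K] [Algebra k Y] (ι : Y →ₐ[k] K) (ρ : G →* (K ≃ₐ[k] K))
  (T : G →* (O ≃ₐ[k] O)) (m : ℕ) (z : Ω → Fin (m + 1) → K), GHG k O M Y K G Ω ι ρ T m z →
  ∀ (M₀ : Submodule k Y), M₀.FG → ∀ P : Prop,
  (P → Submodule.span M (ι '' (M₀ : Set Y)) =
    Submodule.span M (Set.range fun J : Ω → Fin (m + 1) => ∏ ω, z ω (J ω))) →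
  ∃ M' : Submodule k Y, M'.FG ∧ (∃ f ∈ M', f ≠ 0) ∧
    (∀ f ∈ M', f ≠ 0 → ∀ y : Y, ∃ b ∈ Pool.Agent.H918R2.Quad.chart k M' f,
      ∃ c ∈ Pool.Agent.H918R2.Quad.chart k M' f, c ≠ 0 ∧ y = b / c) ∧
    (∀ f ∈ M', f ≠ 0 → ∀ (q : Ideal (Pool.Agent.H918R2.Quad.chart k M' f)) [q.IsPrime],
      IsRegularLocalRing (Localization.AtPrime q)) ∧
    (P → ∃ n : ℕ, 1 ≤ n ∧ (∀ y ∈ M', y ∈ sat (M₀ ^ n)) ∧
      ∀ y : Y, y ∈ M₀ ^ n → ∃ s : k, s ≠ 0 ∧ s • y ∈ M')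

/-- Transport of smoothness by a semilinear automorphism. -/
def S_SMT : Prop := ∀ (k O K : Type) [CommRing k] [CommRing O] [Field K] [Algebra k O]
  [Algebra O K] [Algebra k K] [IsScalarTower k O K] (τ : K ≃ₐ[k] K) (t : O ≃ₐ[k] O)
  (_ : ∀ o, τ (algebraMap O K o) = algebraMap O K (t o)) (m : ℕ) (z z' : Fin (m + 1) → K)
  (_ : ∀ j, z' j = τ (z j)) (S S' : Set O) (_ : ∀ e ∈ S, t e ∈ S'),
  (∀ j (q : Ideal (AZ O z j)) [q.IsPrime], (∀ e ∈ S, algebraMap O (AZ O z j) e ∈ q) →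
    Algebra.IsSmoothAt O q) →
  ∀ j (q : Ideal (AZ O z' j)) [q.IsPrime], (∀ e ∈ S', algebraMap O (AZ O z' j) e ∈ q) →
    Algebra.IsSmoothAt O q

/-- Base change of smoothness. -/
def S_SMB : Prop := ∀ (D O L M K : Type) [CommRing D] [IsDomain D] [IsDedekindDomain D]
  [CommRing O] [IsDomain O] [IsDedekindDomain O] [Field L] [Field M] [Field K] [Algebra D O]
  [Algebra D K] [Algebra O K] [IsScalarTower D O K] [Algebra L M] [Algebra L K] [Algebra M K]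
  [IsScalarTower L M K] [Module.Finite D O], Function.Injective (algebraMap O K) →
  (∀ a : D, ∃ x : L, algebraMap L K x = algebraMap D K a) →
  (∀ x : L, ∃ a b : D, b ≠ 0 ∧ algebraMap L K x * algebraMap D K b = algebraMap D K a) →
  (∀ a : O, ∃ x : M, algebraMap M K x = algebraMap O K a) →
  ∀ (m : ℕ) (z : Fin (m + 1) → K), (∀ j, z j ≠ 0) →
  (IntermediateField.adjoin L {y : K | ∃ j, y = z j / z 0}).toSubalgebra.LinearDisjoint
    (IsScalarTower.toAlgHom L M K).range →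
  ∀ (S : Set D), (∀ j (q : Ideal (AZ D z j)) [q.IsPrime],
    (∀ e ∈ S, algebraMap D (AZ D z j) e ∈ q) → Algebra.IsSmoothAt D q) →
  ∀ j (q : Ideal (AZ O z j)) [q.IsPrime],
    (∀ e ∈ S, algebraMap O (AZ O z j) (algebraMap D O e) ∈ q) → Algebra.IsSmoothAt O q

end Pool.Agent.Y223.G
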