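import Pool.Agent.Y223.G.Stm3

/-!
# Statements of the parts of project G: finite groups, arbitrary finite extensions
-/

set_option autoImplicit false

namespace Pool.Agent.Y223.G

open IsLocalRing Pool.Agent.W418.LU2

/-- Invariants of a finite group whose inertia groups are trivial or of prime order with locally
principal ideal of fixed points. -/
def S_DESCG : Prop := ∀ (B : Type) [CommRing B] [IsDomain B] [IsRegularRing B] (G : Type) [Group G]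
  [Finite G] (ρ : G →* (B ≃+* B)), (∀ g, (∀ b, ρ g b = b) → g = 1) →
  ∀ (A : Type) [CommRing A] [IsNoetherianRing A] (j : A →+* B), Function.Injective j →
    (∀ b, (∀ g, ρ g b = b) ↔ ∃ a, j a = b) →
    (∀ Q : Ideal B, Q.IsPrime → (∀ g, (∀ b, ρ g b - b ∈ Q) → g = 1) ∨
      ∃ (p : ℕ) (τ : G), p.Prime ∧ τ ^ p = 1 ∧
        (∀ g, (∀ b, ρ g b - b ∈ Q) → g ∈ Subgroup.zpowers τ) ∧
        ∃ b, ∀ c, ∃ s, s ∉ Q ∧ (ρ τ b - b) ∣ s * (ρ τ c - c)) →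
    IsRegularRing A

/-- Invariants of a finite group on a weighted blowup. -/
def S_STEPG : Prop := ∀ (k K K' : Type) [CommRing k] [IsNoetherianRing k] [Field K] [Algebra k K]
  [Field K'] [Algebra k K'] (ι : K' →ₐ[k] K) (G : Type) [Group G] [Finite G]
  (ρ : G →* (K ≃ₐ[k] K)), (∀ x, (∀ g, ρ g x = x) ↔ ∃ y, ι y = x) →
    ∀ R : Subalgebra k (LP K), Ch R → (∀ g, ∀ f ∈ R, tl (ρ g) f ∈ R) →
    (∀ g, (∀ f ∈ R, tl (ρ g) f = f) → g = 1) →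
    (∀ Q : Ideal R, Q.IsPrime →
      (∃ (e : ℕ) (η : K) (he : hm e η ∈ R), 0 < e ∧ (⟨hm e η, he⟩ : R) ∉ Q) →
      (∀ g, (∀ f ∈ R, ∃ h : tl (ρ g) f - f ∈ R, (⟨tl (ρ g) f - f, h⟩ : R) ∈ Q) → g = 1) ∨
      ∃ (p : ℕ) (τ : G), p.Prime ∧ τ ^ p = 1 ∧
        (∀ g, (∀ f ∈ R, ∃ h : tl (ρ g) f - f ∈ R, (⟨tl (ρ g) f - f, h⟩ : R) ∈ Q) →
          g ∈ Subgroup.zpowers τ) ∧
        ∃ b ∈ R, ∀ c ∈ R, ∃ (s : LP K) (hs : s ∈ R), (⟨s, hs⟩ : R) ∉ Q ∧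
          ∃ u ∈ R, s * (tl (ρ τ) c - c) = u * (tl (ρ τ) b - b)) →
    Ch (res ι R)

/-- The hypotheses on a wildly or tamely ramified prime `𝔓` of the base `O` for an automorphism
of prime order. -/
structure WS0 (k O K : Type) [CommRing k] [CommRing O] [IsDomain O] [IsDedekindDomain O] [Field K]
    [Algebra k O] [Algebra O K] [Algebra k K] [IsScalarTower k O K] (p : ℕ) (τ : K ≃ₐ[k] K)
    (t : O ≃ₐ[k] O) (𝔓 : Ideal O) (l : ℕ) : Prop where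
  pp : p.Prime
  ft : Algebra.FiniteType k O
  inj : Function.Injective (algebraMap O K)
  ord : ∀ x, τ^[p] x = x
  com : ∀ o, τ (algebraMap O K o) = algebraMap O K (t o)
  ne : 𝔓 ≠ ⊥
  mx : 𝔓.IsMaximal
  dv : ∀ o, t o - o ∈ 𝔓 ^ (l + 1)
  un : ∃ π ∈ 𝔓, t π - π ∉ 𝔓 ^ (l + 2)
  pl : (p : O) ∈ 𝔓 ^ ((p - 1) * l)
  p0 : l = 0 → (p : O) ∉ 𝔓

/-- The graded algebra is of finite type (`p = 1` is the tame case). -/
def S_RFT0 : Prop := ∀ (k O K : Type) [CommRing k] [IsNoetherianRing k] [CommRing O] [IsDomain O]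
  [IsDedekindDomain O] [Field K] [Algebra k O] [Algebra O K] [Algebra k K] [IsScalarTower k O K]
  (p : ℕ) (_ : 0 < p) (τ : K ≃ₐ[k] K) (𝔓 : Ideal O) (l : ℕ), Algebra.FiniteType k O →
  (∀ o : O, ∃ o' : O, τ (algebraMap O K o) = algebraMap O K o') →
  ∀ C : Subalgebra O K, (∀ c ∈ C, τ c ∈ C) → Algebra.FiniteType O C →
    Algebra.FiniteType k (RR k τ p 𝔓 l C)

/-- The operator `T ^ l (τ - 1)`. -/
def S_RSTAB0 : Prop := ∀ (k O K : Type) [CommRing k] [CommRing O] [IsDomain O]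
  [IsDedekindDomain O] [Field K] [Algebra k O] [Algebra O K] [Algebra k K] [IsScalarTower k O K]
  (p : ℕ) (τ : K ≃ₐ[k] K) (t : O ≃ₐ[k] O) (𝔓 : Ideal O) (l : ℕ), WS0 k O K p τ t 𝔓 l →
  ∀ C : Subalgebra O K, (∀ c ∈ C, τ c ∈ C) →
    ∀ f ∈ RR k τ p 𝔓 l C, tl τ f ∈ RR k τ p 𝔓 l C ∧ hm l 1 * (tl τ f - f) ∈ RR k τ p 𝔓 l C

/-- The ideal of the fixed points is principal at the points over `𝔓` outside the vertex. -/
def S_RPRIN0 : Prop := ∀ (k O K : Type) [CommRing k] [CommRing O] [IsDomain O]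
  [IsDedekindDomain O] [Field K] [Algebra k O] [Algebra O K] [Algebra k K] [IsScalarTower k O K]
  (p : ℕ) (τ : K ≃ₐ[k] K) (t : O ≃ₐ[k] O) (𝔓 : Ideal O) (l : ℕ), WS0 k O K p τ t 𝔓 l →
  ∀ C : Subalgebra O K, (∀ c ∈ C, τ c ∈ C) → ∀ Q : Ideal (RR k τ p 𝔓 l C), Q.IsPrime →
    (∀ e ∈ 𝔓, ∃ h : hm 0 (algebraMap O K e) ∈ RR k τ p 𝔓 l C,
      (⟨_, h⟩ : RR k τ p 𝔓 l C) ∈ Q) →
    (∃ (e : ℕ) (η : K) (he : hm e η ∈ RR k τ p 𝔓 l C), 0 < e ∧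
      (⟨hm e η, he⟩ : RR k τ p 𝔓 l C) ∉ Q) →
    ∃ b ∈ RR k τ p 𝔓 l C, ∀ c ∈ RR k τ p 𝔓 l C, ∃ (s : LP K) (hs : s ∈ RR k τ p 𝔓 l C),
      (⟨s, hs⟩ : RR k τ p 𝔓 l C) ∉ Q ∧ ∃ u ∈ RR k τ p 𝔓 l C, s * (tl τ c - c) = u * (tl τ b - b)

/-- Independence of the generator. -/
def S_GENI : Prop := ∀ (k O K : Type) [CommRing k] [CommRing O] [IsDomain O]
  [IsDedekindDomain O] [Field K] [Algebra k O] [Algebra O K] [Algebra k K] [IsScalarTower k O K]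
  (p : ℕ) (τ : K ≃ₐ[k] K) (t : O ≃ₐ[k] O) (𝔓 : Ideal O) (l : ℕ), WS0 k O K p τ t 𝔓 l →
  ∀ C : Subalgebra O K, (∀ c ∈ C, τ c ∈ C) → ∀ n : ℕ,
    RR k (τ ^ n) p 𝔓 l C ≤ RR k τ p 𝔓 l C

/-- The tame case: regularity. -/
def S_TAMER : Prop := ∀ (k O K : Type) [CommRing k] [IsNoetherianRing k] [CommRing O] [IsDomain O]
  [IsDedekindDomain O] [Field K] [Algebra k O] [Algebra O K] [Algebra k K] [IsScalarTower k O K]
  (τ : K ≃ₐ[k] K) (𝔓 : Ideal O) (l : ℕ), Algebra.FiniteType k O →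
  Function.Injective (algebraMap O K) → 𝔓.IsMaximal → 𝔓 ≠ ⊥ →
  ∀ C : Subalgebra O K, Algebra.FiniteType O C → IsRegularRing C →
  (∀ (Q : Ideal C) [Q.IsPrime], Q.comap (algebraMap O C) = 𝔓 → ∀ π ∈ 𝔓, π ∉ 𝔓 ^ 2 →
    algebraMap C (Localization.AtPrime Q) (algebraMap O C π) ∉
      maximalIdeal (Localization.AtPrime Q) ^ 2) →
  IsRegularRing (RR k τ 1 𝔓 l C)

/-- The wild case: regularity, given étale coordinates in blocks. -/
def S_REG0 : Prop := ∀ (k O K : Type) [CommRing k] [IsNoetherianRing k] [CommRing O] [IsDomain O]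
  [IsDedekindDomain O] [Field K] [Algebra k O] [Algebra O K] [Algebra k K] [IsScalarTower k O K]
  (p : ℕ) (τ : K ≃ₐ[k] K) (t : O ≃ₐ[k] O) (𝔓 : Ideal O) (l : ℕ), WS0 k O K p τ t 𝔓 l →
  ∀ C : Subalgebra O K, Algebra.FiniteType O C → IsRegularRing C →
  ∀ (σ : C ≃+* C), (∀ c, ((σ c : C) : K) = τ c) →
  (∀ (Q : Ideal C) [Q.IsPrime], Q.comap (algebraMap O C) = 𝔓 → (∀ c, σ c - c ∈ Q) →
    ∃ (r : ℕ) (u : Fin r → C) (κ : Type) (_ : Finite κ) (v : κ → C),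
      EtAt C Q (Sum.elim (fun ai : Fin p × Fin r => σ^[ai.1] (u ai.2)) v) ∧
      ∀ J : Ideal (Localization.AtPrime Q),
        (∀ o, algebraMap C (Localization.AtPrime Q) (algebraMap O C (t o - o)) ∈ J) →
        (∀ j a, 1 ≤ a → a < p →
          algebraMap C (Localization.AtPrime Q) ((df σ)^[a] (u j)) ∈ J) →
        ∀ c, algebraMap C (Localization.AtPrime Q) (σ c - c) ∈ J) →
  IsRegularRing (RR k τ p 𝔓 l C)

/-- Regular parameters from étale coordinates: a subset of the coordinates. -/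
def S_IND2 : Prop := ∀ (O K : Type) [CommRing O] [IsDomain O] [IsDedekindDomain O] [Field K]
  [Algebra O K] (C : Subalgebra O K) (_ : Algebra.FiniteType O C) (_ : IsRegularRing C)
  (Q : Ideal C) [Q.IsPrime] (ι κ : Type) [Finite ι] [Fintype κ] (v : ι → C) (e : κ → ι),
  Function.Injective e → EtAt C Q v →
  ∀ (𝔓 : Ideal O), 𝔓.IsMaximal → 𝔓 ≠ ⊥ → ∀ π ∈ 𝔓, π ∉ 𝔓 ^ 2 →
  Q.comap (algebraMap O C) = 𝔓 → (∀ i, v (e i) ∈ Q) →
  Ind (fun i : Option κ => algebraMap C (Localization.AtPrime Q)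
    (i.elim (algebraMap O C π) fun j => v (e j)))

end Pool.Agent.Y223.G
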