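import Pool.Agent.Z932.G.Etc
import Pool.Agent.Y824.G4.DESCG
import Pool.Agent.Y279.G.StepG
import Pool.Agent.Z932.G.Rft0
import Pool.Agent.Y587.G.RStab0
import Pool.Agent.Y67.G4.Reg0
import Pool.Agent.Y514.G.Ind2
import Pool.Agent.Y710.G.ETF
import Pool.Agent.Y434.G.RegG
import Pool.Agent.Y815.G.Gla
import Pool.Agent.Y929.G.Tamc
import Pool.Agent.Y363.G.Ram1
import Pool.Agent.Y246.G.HasM
import Pool.Agent.Y349.G.Model
import Pool.Agent.Y232.G.Val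
import Pool.Agent.Y86.G.Lowft
import Pool.Agent.Y484.G.Wqr
import Pool.Agent.Y878.G.Locj2
import Pool.Agent.Y642.G.I0Reg
import Pool.Agent.Y737.G.Lra
import Pool.Agent.Y44.G.LowReg
import Pool.Agent.Y705.G.D0
import Pool.Agent.Y574.G.Astep
import Pool.Agent.Y563.G.Ldg
import Pool.Agent.Y813.GS.Smaf
import Pool.Agent.Y417.G.EXF
import Pool.Agent.Y215.G.Coord
import Pool.Agent.Y461.G.TRA
import Pool.Agent.Y438.G.Tay
import Pool.Agent.Y901.G.Wreg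
import Pool.Agent.Y563.G.Wch
import Pool.Agent.Y391.G.Smrg
import Pool.Agent.Y454.G.Bwld
import Pool.Agent.Y484.H.Atlas2
import Pool.Agent.Y839.H.Astep2
import Pool.Agent.Y394.H.Down
import Pool.Agent.Y48.H.RPrin1
import Pool.Agent.Y153.H.R2M
import Pool.Agent.Y48.H.R2CH
import Pool.Agent.Y614.H.Rech
import Pool.Agent.Y872.H.Rein
import Pool.Agent.Y356.H.Che
import Pool.Agent.Y949.H.Ext2
import Pool.Agent.Y71.H.RamG2
import Pool.Agent.Y858.H.Gche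
import Pool.Agent.Y779.H.Glae
import Pool.Agent.Y919.H.GFRE
import Pool.Agent.Y532.H.Gmoe
import Pool.Agent.Y500.H.Weile
import Pool.Agent.Y31.H.Gvae

/-!
# Project H: everything together
-/

set_option autoImplicit false

namespace Pool.Agent.Y223.G

/-- Graded atlases give models. -/
theorem all_MODEL : S_MODEL := by
  have hLOCJ : S_LOCJ := Pool.Agent.Y878.G.t_LOCJ
  have hI0 : S_I0REG := Pool.Agent.Y642.G.t_I0REG hLOCJ
  have hWQR : S_WQR := Pool.Agent.Y484.G.t_WQR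
  have hLRA : S_LRA := Pool.Agent.Y737.G.t_LRA hLOCJ hWQR
  have hLOWFT : S_LOWFT := Pool.Agent.Y86.G.t_LOWFT
  have hLOWREG : S_LOWREG := Pool.Agent.Y44.G.t_LOWREG hI0 hLRA hLOWFT
  have hD0 : S_D0 := Pool.Agent.Y705.G.t_D0 hI0
  have hASTEP : S_ASTEP := Pool.Agent.Y574.G.t_ASTEP Pool.Agent.Y232.G.t_GENS Pool.Agent.Y232.G.t_VAL
    hLOWFT hLOWREG
  exact Pool.Agent.Y349.G.t_MODEL hASTEP hD0

theorem all_ETF : S_ETF := Pool.Agent.Y710.G.t_ETF Pool.Agent.Z932.G.t_ETP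

theorem all_SMRG : S_SMRG := Pool.Agent.Y391.G.t_SMRG Pool.Agent.Y215.G.t_COORD all_ETF

theorem all_LDG : S_LDG := Pool.Agent.Y563.GL.t_LDG

theorem all_TAMC : S_TAMC := Pool.Agent.Y929.G.t_TAMC

theorem all_CHE : S_CHE := by
  have hWCH : S_WCH := Pool.Agent.Y563.GW.t_WCH Pool.Agent.Y901.G.t_WREG
  have hRFT : S_RFT0 := Pool.Agent.Z932.G.t_RFT0
  have hRST : S_RSTAB0 := Pool.Agent.Y587.G.t_RSTAB0
  have hIND : S_IND2 := Pool.Agent.Y514.G.t_IND2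
  have hTAY : S_TAY := Pool.Agent.Y438.G.t_TAY
  have hREG : S_REG0 := Pool.Agent.Y67.G4.t_REG0 hWCH hRFT hRST hIND hTAY
  have hSTEP : S_STEPG := Pool.Agent.Y279.G.t_STEPG Pool.Agent.Y824.G4.t_DESCG
  have hRECH : S_RECH := Pool.Agent.Y614.H.t_RECH hWCH hRFT Pool.Agent.Y587.G.t_GENI
  have hR2M : S_R2M := Pool.Agent.Y153.H.t_R2M
  have hR2CH : S_R2CH := Pool.Agent.Y48.H.R2C.t_R2CH hR2M
  have hREIN : S_REIN := Pool.Agent.Y872.H.t_REIN (Pool.Agent.Y48.H.t_RPRIN1 hRST) hRST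
  have hBW : S_BWLD := Pool.Agent.Y454.G.t_BWLD Pool.Agent.Y215.G.t_COORD Pool.Agent.Y461.G.t_TRA
    all_ETF
  exact Pool.Agent.Y356.H.t_CHE hSTEP hREG hRECH hR2CH hR2M hREIN hBW

theorem all_WEILE : S_WEILE := by
  have hLOCJ : S_LOCJ := Pool.Agent.Y878.G.t_LOCJ
  have hI0 : S_I0REG := Pool.Agent.Y642.G.t_I0REG hLOCJ
  have hWQR : S_WQR := Pool.Agent.Y484.G.t_WQR
  have hLRA : S_LRA := Pool.Agent.Y737.G.t_LRA hLOCJ hWQR
  have hLOWFT : S_LOWFT := Pool.Agent.Y86.G.t_LOWFT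
  have hLOWREG : S_LOWREG := Pool.Agent.Y44.G.t_LOWREG hI0 hLRA hLOWFT
  have hD0 : S_D0 := Pool.Agent.Y705.G.t_D0 hI0
  have hSTEP2 : S_ASTEP2 := Pool.Agent.Y839.H.t_ASTEP2 Pool.Agent.Y232.G.t_GENS
    Pool.Agent.Y232.G.t_VAL hLOWFT hLOWREG
  have hRES2 : S_RES2 := Pool.Agent.Y153.H.t_RES2
  have hR2M : S_R2M := Pool.Agent.Y153.H.t_R2M
  exact Pool.Agent.Y500.H.t_WEILE Pool.Agent.Y949.H.t_EXT2 hRES2 Pool.Agent.Y484.H.t_ATLAS2 hSTEP2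
    (Pool.Agent.Y394.H.t_DOWN hD0) all_MODEL Pool.Agent.Y246.G.t_HASM
    (Pool.Agent.Y71.H.t_RAMG2 Pool.Agent.Y363.G.t_RAM1)
    (Pool.Agent.Y858.H.t_GCHE all_CHE all_LDG Pool.Agent.Y813.GS.t_SMAF Pool.Agent.Y434.G.RegG.t_REGG)
    (Pool.Agent.Y779.H.t_GLAE Pool.Agent.Y815.G6.t_GLA1 Pool.Agent.Y815.G6.t_GLA2 hR2M)
    (Pool.Agent.Y31.H.t_GVAE Pool.Agent.Y417.G.t_EXF)
    (Pool.Agent.Y919.H.t_GFRE hRES2)
    (Pool.Agent.Y532.H.t_GMOE hRES2)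

end Pool.Agent.Y223.G
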