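import Pool.Agent.Y223.G.WFinE

/-!
# Products of smooth models are regular
-/

set_option autoImplicit false

open NumberField

namespace Pool.Agent.Y223.G

section

variable {M K Ω : Type} [Field M] [NumberField M] [Field K] [Algebra M K]

theorem rg_of_smooth (hS : S_SMRG) (hL : S_LDG) [Finite Ω] {m : ℕ}
    (z : Ω → Fin (m + 1) → K) (hz0 : ∀ ω j, z ω j ≠ 0)
    (hld : ∀ (S : Finset Ω) (ω : Ω), ω ∉ S →
      (IntermediateField.adjoin M {y : K | ∃ ω' ∈ S, ∃ j, y = z ω' j / z ω' 0}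
        ).toSubalgebra.LinearDisjoint
          (IntermediateField.adjoin M {y : K | ∃ j, y = z ω j / z ω 0}).toSubalgebra)
    (hsm : ∀ ω j (q : Ideal (AZ (𝓞 M) (z ω) j)) [q.IsPrime], Algebra.IsSmoothAt (𝓞 M) q)
    (J : Ω → Fin (m + 1)) : IsRegularRing (Algebra.adjoin (𝓞 M)
      {y : K | ∃ (ω : Ω) (i : Fin (m + 1)), y = z ω i / z ω (J ω)}) := by
  have hinj : Function.Injective (algebraMap (𝓞 M) K) := by
    rw [IsScalarTower.algebraMap_eq (𝓞 M) M K]
    exact (algebraMap M K).injective.comp RingOfIntegers.coe_injective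
  have hmemK : ∀ (W : IntermediateField M K) (a : 𝓞 M), algebraMap (𝓞 M) K a ∈ W := by
    intro W a
    rw [IsScalarTower.algebraMap_apply (𝓞 M) M K]
    exact W.algebraMap_mem _
  have hAle : ∀ (ω : Ω) (i : Fin (m + 1)) (W : IntermediateField M K),
      (∀ j, z ω j / z ω 0 ∈ W) → ∀ a ∈ AZ (𝓞 M) (z ω) i, a ∈ W := by
    intro ω i W hW a ha
    induction ha using Algebra.adjoin_induction with
    | mem y hy =>
      obtain ⟨j, rfl⟩ := hy
      have h1 : z ω j / z ω i = (z ω j / z ω 0) / (z ω i / z ω 0) := by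
        have := hz0 ω 0
        have := hz0 ω i
        field_simp
      change z ω j / z ω i ∈ W
      rw [h1]
      exact W.div_mem (hW j) (hW i)
    | algebraMap r => exact hmemK W r
    | add a b _ _ ha hb => exact W.add_mem ha hb
    | mul a b _ _ ha hb => exact W.mul_mem ha hb
  have h1 : (⨆ ω, AZ (𝓞 M) (z ω) (J ω)) = Algebra.adjoin (𝓞 M)
      {y : K | ∃ (ω : Ω) (i : Fin (m + 1)), y = z ω i / z ω (J ω)} := by
    unfold AZ
    rw [← Algebra.adjoin_iUnion]
    congr 1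
    ext y
    simp only [Set.mem_iUnion, Set.mem_range, Set.mem_ofPred_eq]
    constructor
    · rintro ⟨ω, i, rfl⟩
      exact ⟨ω, i, rfl⟩
    · rintro ⟨ω, i, rfl⟩
      exact ⟨ω, i, rfl⟩
  rw [← h1]
  refine hS (𝓞 M) K hinj Ω (fun ω => AZ (𝓞 M) (z ω) (J ω)) ?_ ?_ (fun ω q _ => hsm ω (J ω) q)
  · intro ω
    exact (Subalgebra.fg_iff_finiteType _).1
      (Subalgebra.fg_adjoin_finset (R := 𝓞 M) (Set.finite_range
        fun j => z ω j / z ω (J ω)).toFinset |> fun h => by simpa [AZ] using h)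
  · intro S ω hω
    refine hL (𝓞 M) M K hinj (fun o => ⟨algebraMap (𝓞 M) M o, rfl⟩) ?_ _ _ _ _ ?_ ?_
      (hld S ω hω)
    · intro x
      obtain ⟨a, b, hb, rfl⟩ := IsFractionRing.div_surjective (A := 𝓞 M) x
      have hb0 : b ≠ 0 := nonZeroDivisors.ne_zero hb
      have hb' : algebraMap (𝓞 M) M b ≠ 0 := RingOfIntegers.coe_ne_zero_iff.2 hb0
      refine ⟨a, b, hb0, ?_⟩
      rw [IsScalarTower.algebraMap_apply (𝓞 M) M K, IsScalarTower.algebraMap_apply (𝓞 M) M K,
        ← map_mul, div_mul_cancel₀ _ hb']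
    · intro a ha
      set W := IntermediateField.adjoin M {y : K | ∃ ω' ∈ S, ∃ j, y = z ω' j / z ω' 0} with hW
      have h2 : (⨆ ω' ∈ S, AZ (𝓞 M) (z ω') (J ω')) ≤ W.toSubalgebra.restrictScalars (𝓞 M) := by
        refine iSup₂_le fun ω' hω' => ?_
        intro x hx
        refine hAle ω' (J ω') W (fun j => ?_) x hx
        exact IntermediateField.subset_adjoin M _ ⟨ω', hω', j, rfl⟩
      exact h2 ha
    · intro b hb
      refine hAle ω (J ω) (IntermediateField.adjoin M {y : K | ∃ j, y = z ω j / z ω 0})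
        (fun j => ?_) b hb
      exact IntermediateField.subset_adjoin M _ ⟨j, rfl⟩

end

end Pool.Agent.Y223.G
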