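import Pool.Agent.Y849.H.Ecdl
import Pool.Agent.Y832.H.Ecar

/-!
# The data at the wild primes not over `2`
-/

set_option autoImplicit false

namespace Pool.Agent.Y223.G

open IsLocalRing Pool.Agent.W418.LU2 Pool.Agent.Y849.H

/-- The change of variables at a prime with residue characteristic at least `5`. -/
theorem ecar5 (O : Type) [CommRing O] [IsDomain O] [IsDedekindDomain O] (𝔓 : Ideal O)
    (h𝔓 : 𝔓.IsMaximal) (h0 : 𝔓 ≠ ⊥) (t : O ≃+* O) (l : ℕ) (hl : 1 ≤ l)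
    (ht : ∀ o, t o - o ∈ 𝔓 ^ (l + 1)) (h2 : (2 : O) ∉ 𝔓) (h3 : (3 : O) ∉ 𝔓)
    (Wc : WeierstrassCurve O)
    (C : WeierstrassCurve.VariableChange O) (hC : Wc = C • Wc.map (t : O →+* O))
    (hab : ∃ a b : O, a ≠ 0 ∧ b ≠ 0 ∧ (C.u : O) * t a * b = a * t b) :
    (C.u : O) - 1 ∈ 𝔓 ^ l ∧ C.s ∈ 𝔓 ^ l ∧ (C.r ∈ 𝔓 → C.r ∈ 𝔓 ^ l ∧ C.t ∈ 𝔓 ^ l) := by
  obtain ⟨a, b, ha, hb, hab⟩ := hab
  have hprime : 𝔓.IsPrime := h𝔓.isPrime
  have hu := Pool.Agent.Y832.H.unit_mem 𝔓 h𝔓 h0 t l ht C.u a b ha hb hab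
  have htl : ∀ o, t o - o ∈ 𝔓 ^ l := fun o => Ideal.pow_le_pow_right (by omega) (ht o)
  have hcancel : ∀ x y : O, x ∉ 𝔓 → x * y ∈ 𝔓 ^ l → y ∈ 𝔓 ^ l := by
    intro x y hx hxy
    exact (Ideal.IsPrime.mul_mem_pow 𝔓 hxy).resolve_left hx
  have huu : (C.u : O) * (C.u⁻¹ : Oˣ) = 1 := C.u.mul_inv
  have hun : ∀ n : ℕ, (C.u : O) ^ n - 1 ∈ 𝔓 ^ l := by
    intro n
    obtain ⟨d, hd⟩ := sub_one_dvd_pow_sub_one (C.u : O) n
    rw [hd]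
    exact Ideal.mul_mem_right _ _ hu
  have hdiff : ∀ (n : ℕ) (c : O), (C.u : O) ^ n * c - t c ∈ 𝔓 ^ l := by
    intro n c
    have h4 : (C.u : O) ^ n * c - t c = ((C.u : O) ^ n - 1) * c - (t c - c) := by ring
    rw [h4]
    exact Ideal.sub_mem _ (Ideal.mul_mem_right _ _ (hun n)) (htl c)
  have huinv : ∀ n : ℕ, (C.u : O) ^ n * ((C.u⁻¹ : Oˣ) : O) ^ n = 1 := by
    intro n
    rw [← mul_pow, huu, one_pow]
  have f1 : (C.u : O) ^ 1 * Wc.a₁ = t Wc.a₁ + 2 * C.s := by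
    have h4 : Wc.a₁ = ((C.u⁻¹ : Oˣ) : O) * (t Wc.a₁ + 2 * C.s) := by
      conv_lhs => rw [hC]
      rfl
    conv_lhs => rw [h4]
    rw [pow_one, ← mul_assoc, huu, one_mul]
  have f2 : (C.u : O) ^ 2 * Wc.a₂ = t Wc.a₂ - C.s * t Wc.a₁ + 3 * C.r - C.s ^ 2 := by
    have h4 : Wc.a₂ = ((C.u⁻¹ : Oˣ) : O) ^ 2 *
        (t Wc.a₂ - C.s * t Wc.a₁ + 3 * C.r - C.s ^ 2) := by
      conv_lhs => rw [hC]
      rfl
    conv_lhs => rw [h4]
    rw [← mul_assoc, huinv, one_mul]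
  have f3 : (C.u : O) ^ 3 * Wc.a₃ = t Wc.a₃ + C.r * t Wc.a₁ + 2 * C.t := by
    have h4 : Wc.a₃ = ((C.u⁻¹ : Oˣ) : O) ^ 3 * (t Wc.a₃ + C.r * t Wc.a₁ + 2 * C.t) := by
      conv_lhs => rw [hC]
      rfl
    conv_lhs => rw [h4]
    rw [← mul_assoc, huinv, one_mul]
  have hs : C.s ∈ 𝔓 ^ l := by
    apply hcancel 2 _ h2
    have h4 := hdiff 1 Wc.a₁
    rw [f1] at h4
    have h5 : t Wc.a₁ + 2 * C.s - t Wc.a₁ = 2 * C.s := by ring
    rwa [h5] at h4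
  refine ⟨hu, hs, fun _ => ?_⟩
  have hrl : C.r ∈ 𝔓 ^ l := by
    apply hcancel 3 _ h3
    have h4 := hdiff 2 Wc.a₂
    rw [f2] at h4
    have h5 : 3 * C.r = (t Wc.a₂ - C.s * t Wc.a₁ + 3 * C.r - C.s ^ 2 - t Wc.a₂) +
        (t Wc.a₁ + C.s) * C.s := by ring
    rw [h5]
    exact Ideal.add_mem _ h4 (Ideal.mul_mem_left _ _ hs)
  refine ⟨hrl, ?_⟩
  apply hcancel 2 _ h2
  have h4 := hdiff 3 Wc.a₃
  rw [f3] at h4
  have h5 : 2 * C.t = (t Wc.a₃ + C.r * t Wc.a₁ + 2 * C.t - t Wc.a₃) - C.r * t Wc.a₁ := by ring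
  rw [h5]
  exact Ideal.sub_mem _ h4 (Ideal.mul_mem_right _ _ hrl)

/-- The data at the wild primes. -/
def S_ECDL2 : Prop := ∀ (k O K G Ω : Type) [CommRing k] [CommRing O] [IsDomain O]
  [IsDedekindDomain O] [Field K] [Group G] [Algebra k O] [Algebra O K] [Algebra k K]
  [IsScalarTower k O K] (ρ : G →* (K ≃ₐ[k] K)) (T : G →* (O ≃ₐ[k] O)) (N : Type)
  (𝔔 : N → Ideal O) (p l : N → ℕ) (τ : N → G) (π : O), LocE k O K G ρ T 𝔔 p l τ π →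
  ∀ (z : Ω → Fin (2 + 1) → K) (Wc : Ω → WeierstrassCurve O), ECD k O K G Ω ρ T z Wc →
  (∀ i, ∃ g, g ≠ 1 ∧ (∀ x, T g x - x ∈ 𝔔 i) ∧ ∀ x ∈ 𝔔 i, T g x - x ∈ 𝔔 i ^ 2) →
  (∀ i, (2 : O) ∉ 𝔔 i) → ∃ B : N → Set Ω, (∀ i, 1 ≤ l i) ∧
    (∀ i, EC1 k O K Ω (ρ (τ i)) (T (τ i)) (𝔔 i) (l i) z Wc (B i)) ∧
    ∀ g i j, (∀ o, o ∈ 𝔔 i ↔ T g o ∈ 𝔔 j) → B i = B j ∧ l i = l j

theorem t_ECDL2 (hAR : S_ECAR) : S_ECDL2 := by
  intro k O K G Ω _ _ _ _ _ _ _ _ _ _ ρ T N 𝔔 p l τ π hL z Wc hE hw h2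
  choose a b ha hb C hC using hE.ch
  -- the ramification is wild
  have hl : ∀ i, 1 ≤ l i := by
    intro i
    obtain ⟨g, hg1, hg2, hg3⟩ := hw i
    obtain ⟨hWS, hτp, hzp⟩ := hL.ty i
    have hmx := hL.mx i
    have hpr : (𝔔 i).IsPrime := hmx.isPrime
    have hg : g ∈ Subgroup.zpowers (τ i) := by
      refine hzp g hg2 fun w hwπ => ?_
      have h4 : (w - 1) * π ∈ 𝔔 i ^ 2 := by
        have e : (w - 1) * π = T g π - π := by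
          rw [hwπ]
          ring
        rw [e]
        exact hg3 π (hL.pq i).1
      rcases Ideal.IsPrime.mul_mem_pow (𝔔 i) h4 with h5 | h5
      · exact h5
      · exact absurd h5 (hL.pq i).2
    obtain ⟨n, hn⟩ := exists_pow hWS.pp hτp hg hg1
    by_contra hl0
    have hl0' : l i = 0 := by omega
    obtain ⟨π', hπ', hun⟩ := hWS.un
    rw [hl0', zero_add] at hun
    apply hun
    rw [hn]
    exact pow_triv hg2 hg3 n π' hπ'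
  have hp3 : ∀ i, (3 : O) ∈ 𝔔 i → p i = 3 := by
    intro i h3i
    obtain ⟨hWS, -, -⟩ := hL.ty i
    have hmx := hL.mx i
    have h1 : 1 ≤ (p i - 1) * l i := by
      have := hWS.pp.two_le
      exact Nat.mul_pos (by omega) (hl i)
    have h2 : ((p i : ℕ) : O) ∈ 𝔔 i := Ideal.pow_le_self (by omega) hWS.pl
    by_contra hne
    have hco : Nat.Coprime (p i) 3 := (Nat.coprime_primes hWS.pp Nat.prime_three).2 hne
    have hco' : IsCoprime ((p i : ℕ) : ℤ) ((3 : ℕ) : ℤ) := Nat.isCoprime_iff_coprime.2 hco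
    obtain ⟨u, v, huv⟩ := hco'
    apply hmx.ne_top
    rw [Ideal.eq_top_iff_one]
    have e : (1 : O) = (u : O) * ((p i : ℕ) : O) + (v : O) * (3 : O) := by
      have := congrArg (Int.cast : ℤ → O) huv
      push_cast at this
      exact this.symm
    rw [e]
    exact add_mem (Ideal.mul_mem_left _ _ h2) (Ideal.mul_mem_left _ _ h3i)
  have h32 : ∀ i, (3 : O) ∈ 𝔔 i → (3 : O) ∈ 𝔔 i ^ (2 * l i) := by
    intro i h3i
    have h1 := (hL.ty i).1.pl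
    rw [hp3 i h3i] at h1
    simpa using h1
  -- the arithmetic of the changes of variables
  have har : ∀ i ω, ((C ω (τ i)).u : O) - 1 ∈ 𝔔 i ^ l i ∧ (C ω (τ i)).s ∈ 𝔔 i ^ l i ∧
      ((C ω (τ i)).r ∈ 𝔔 i → (C ω (τ i)).r ∈ 𝔔 i ^ l i ∧ (C ω (τ i)).t ∈ 𝔔 i ^ l i) := by
    intro i ω
    have hmx := hL.mx i
    by_cases h3i : (3 : O) ∈ 𝔔 i
    · refine hAR O (𝔔 i) hmx (hL.ne i) (T (τ i) : O ≃+* O) (l i) (hl i)
        (fun o => (hL.ty i).1.dv o) (h32 i h3i) (Wc ω) (fun h => ?_) (C ω (τ i))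
        (hC ω (τ i)).2.2.1 ⟨a ω, b ω, ha ω, hb ω, (hC ω (τ i)).2.2.2⟩
      exact hmx.ne_top (Ideal.eq_top_of_isUnit_mem _ h (hE.du ω))
    · exact ecar5 O (𝔔 i) hmx (hL.ne i) (T (τ i) : O ≃+* O) (l i) (hl i)
        (fun o => (hL.ty i).1.dv o) (h2 i) h3i (Wc ω) (C ω (τ i))
        (hC ω (τ i)).2.2.1 ⟨a ω, b ω, ha ω, hb ω, (hC ω (τ i)).2.2.2⟩
  let B : N → Set Ω := fun i => {ω | (C ω (τ i)).r ∉ 𝔔 i}
  have key : ∀ g i j, (∀ o, o ∈ 𝔔 i ↔ T g o ∈ 𝔔 j) → ∀ ω, (C ω (τ i)).r ∈ 𝔔 i →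
      (C ω (τ j)).r ∈ 𝔔 j := by
    intro g i j hg ω hr
    obtain ⟨j', hj1, -, -, -, n, hn⟩ := hL.cj g i
    have hjj : j = j' := by
      apply hL.dj
      ext o
      have e1 : T g (T g⁻¹ o) = o := by
        rw [← AlgEquiv.mul_apply, ← map_mul, mul_inv_cancel, map_one, AlgEquiv.one_apply]
      have h1 := hg (T g⁻¹ o)
      have h2 := hj1 (T g⁻¹ o)
      rw [e1] at h1 h2
      exact h1.symm.trans h2
    subst hjj
    refine step (U := fun g => ((C ω g).u : O) ^ 2) (R := fun g => (C ω g).r) hL.com (hE.ec ω).tr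
      (fun g => (hC ω g).1) (fun g => (C ω g).u.isUnit.pow 2) hg (fun o => ?_) ?_ hr hn
    · exact Ideal.pow_le_self (by omega) ((hL.ty i).1.dv o)
    · have h4 : ((C ω (τ i)).u : O) - 1 ∈ 𝔔 i :=
        Ideal.pow_le_self (by have := hl i; omega) (har i ω).1
      have e : ((C ω (τ i)).u : O) ^ 2 - 1 = (((C ω (τ i)).u : O) + 1) *
          (((C ω (τ i)).u : O) - 1) := by ring
      show ((C ω (τ i)).u : O) ^ 2 - 1 ∈ 𝔔 i
      rw [e]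
      exact Ideal.mul_mem_left _ _ h4
  refine ⟨B, hl, fun i => ?_, fun g i j hg => ?_⟩
  · refine ⟨hE.ec, hL.com (τ i), (hL.ty i).1.dv, fun ω => ?_⟩
    refine ⟨(C ω (τ i)).u, (C ω (τ i)).r, (C ω (τ i)).s, (C ω (τ i)).t, (hC ω (τ i)).1,
      (hC ω (τ i)).2.1, (har i ω).1, (har i ω).2.1, fun h => h, fun h => ?_⟩
    exact (har i ω).2.2 (not_not.1 h)
  · have hg' : ∀ o, o ∈ 𝔔 j ↔ T g⁻¹ o ∈ 𝔔 i := by
      intro o
      have e1 : T g (T g⁻¹ o) = o := by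
        rw [← AlgEquiv.mul_apply, ← map_mul, mul_inv_cancel, map_one, AlgEquiv.one_apply]
      have h1 := hg (T g⁻¹ o)
      rw [e1] at h1
      exact h1.symm
    refine ⟨?_, ?_⟩
    · ext ω
      show (C ω (τ i)).r ∉ 𝔔 i ↔ (C ω (τ j)).r ∉ 𝔔 j
      exact not_congr ⟨key g i j hg ω, key g⁻¹ j i hg' ω⟩
    · obtain ⟨j', hj1, -, hlj, -⟩ := hL.cj g i
      have hjj : j = j' := by
        apply hL.dj
        ext o
        have e1 : T g (T g⁻¹ o) = o := by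
          rw [← AlgEquiv.mul_apply, ← map_mul, mul_inv_cancel, map_one, AlgEquiv.one_apply]
        have h1 := hg (T g⁻¹ o)
        have h2 := hj1 (T g⁻¹ o)
        rw [e1] at h1 h2
        exact h1.symm.trans h2
      subst hjj
      exact hlj.symm

end Pool.Agent.Y223.G
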