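import Pool.Agent.Y987.H.Ecch
import Pool.Agent.Y223.G.EcdlP

/-!
# The charts of products of elliptic curves
-/

set_option autoImplicit false

namespace Pool.Agent.Y223.G

open IsLocalRing Pool.Agent.W418.LU2 Pool.Agent.Y987.H Pool.Agent.Y858.H

/-- The charts are regular outside the vertex. -/
def S_ECCH2 : Prop := ∀ (k O M Y Y₂ K K₂ G Ω : Type) [CommRing k] [IsDomain k] [IsNoetherianRing k]
  [CommRing O] [IsDomain O] [IsDedekindDomain O] [Field M] [Field Y] [Field Y₂] [Field K]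
  [Field K₂] [Group G] [Finite G] [Finite Ω] [Nonempty Ω] [Algebra k O] [Algebra O K]
  [Algebra k K] [IsScalarTower k O K] [Algebra M K] [Algebra k Y] [Algebra k Y₂] [Algebra k K₂]
  (ι : Y →ₐ[k] K) (ι₂ : Y₂ →ₐ[k] K₂) (εY : LP Y →ₐ[k] Y₂) (ε : LP K →ₐ[k] K₂)
  (ρ : G →* (K ≃ₐ[k] K)) (ρ₂ : G →* (K₂ ≃ₐ[k] K₂)), Ext2M ι ι₂ εY ε ρ ρ₂ →
  ∀ (T : G →* (O ≃ₐ[k] O)) (z : Ω → Fin (2 + 1) → K), GHL k O M Y K G Ω ι ρ T 2 z →
  ∀ (Wc : Ω → WeierstrassCurve O), ECD k O K G Ω ρ T z Wc →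
  (∀ 𝔮 : Ideal O, 𝔮.IsPrime → (∃ g, g ≠ 1 ∧ (∀ x, T g x - x ∈ 𝔮) ∧
    ∀ x ∈ 𝔮, T g x - x ∈ 𝔮 ^ 2) → (2 : O) ∉ 𝔮) →
  ∀ (s : k) (_ : IsDedekindDomain (OL O (K := K) s))
  (Tb : G →* (OL O (K := K) s ≃ₐ[k] OL O (K := K) s)) (N : Type) [Finite N]
  (𝔔 : N → Ideal (OL O (K := K) s)) (p l : N → ℕ) (τ : N → G) (π : OL O (K := K) s), s ≠ 0 →
  LocE k (OL O (K := K) s) K G ρ Tb 𝔔 p l τ π →
  (∀ i, ∃ g, g ≠ 1 ∧ (∀ x, Tb g x - x ∈ 𝔔 i) ∧ ∀ x ∈ 𝔔 i, Tb g x - x ∈ 𝔔 i ^ 2) →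
  ∃ (e : N → ℕ) (W : N → Ω → Fin (2 + 1) → ℕ), (∀ i, 0 < e i) ∧ ∀ (d : ℕ) (Φ : Ω → K),
    1 ≤ d → FmL k O K G Ω ρ z d Φ → Ch (res ι₂ (GRW O ε z s 𝔔 e W (π : K) d Φ))

theorem t_ECCH2 : S_CHW → S_RWB → S_ECE → S_ECF → S_ECR → S_ECS → S_ECDL2 → S_ECOL → S_REGL →
    S_SMAL → S_LDG → S_ECSM → S_ECCH2 := by
  intro hCH hRWB hECE hECF hECR hECS hECDL hECOL hREGL hSMAL hLDG hECSM
    k O M Y Y₂ K K₂ G Ω _ _ _ _ _ _ _ _ _ _ _ _ _ _ _ _ _ _ _ _ _ _ _
    ι ι₂ εY ε ρ ρ₂ hE T z hH Wc hD h3 s hDD Tb N _ 𝔔 p l τ π hs hL hin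
  have hsK : algebraMap k K s ≠ 0 := fun h => hs (hH.injk (by rw [h, map_zero]))
  have hOK : ∀ o : O, algebraMap O K o ∈ OL O (K := K) s := fun o => mem_OLb s o
  -- constants
  have lk : ∀ c : k, ∃ x : M, algebraMap M K x = algebraMap k K c := by
    intro c
    rw [IsScalarTower.algebraMap_apply k O K]
    exact hH.lo _
  have lOL : ∀ o : OL O (K := K) s, ∃ x : M, algebraMap M K x = (o : K) := by
    rintro ⟨x, n, y, h⟩
    obtain ⟨s', hs'⟩ := lk s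
    obtain ⟨y', hy'⟩ := hH.lo y
    refine ⟨y' / s' ^ n, ?_⟩
    rw [map_div₀, map_pow, hy', hs', ← h]
    field_simp
  -- the curves over the localised base
  obtain ⟨Wc', hD'⟩ := hECOL k O K G Ω hH.inj ρ T hH.com z Wc hD s hsK Tb hL.com
  -- the wild primes are not over two
  have h3' : ∀ i, (2 : OL O (K := K) s) ∉ 𝔔 i := by
    intro i h2
    obtain ⟨g, hg1, hg, hg2⟩ := hin i
    have hTb : ∀ o : O, Tb g ⟨algebraMap O K o, hOK o⟩ - ⟨algebraMap O K o, hOK o⟩ =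
        (⟨algebraMap O K (T g o - o), mem_OLb s _⟩ : OL O (K := K) s) := by
      intro o
      apply Subtype.ext
      show ((Tb g ⟨algebraMap O K o, hOK o⟩ : OL O (K := K) s) : K) - algebraMap O K o =
        algebraMap O K (T g o - o)
      rw [map_sub, ← hH.com]
      congr 1
      exact (hL.com g ⟨algebraMap O K o, hOK o⟩).symm
    have hM := ctr_maximal hH.inj (hL.mx i) (hL.ne i)
    refine h3 (ctr s (𝔔 i)) hM.isPrime ⟨g, hg1, fun o => ?_, fun o ho => ?_⟩ ?_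
    · rw [mem_ctr, ← hTb]
      exact hg _
    · refine ctr_sq hH.inj hsK (hL.mx i) (hL.ne i) ?_
      rw [← hTb]
      exact hg2 _ (mem_ctr.1 ho)
    · rw [mem_ctr]
      have h5 : (⟨algebraMap O K 2, mem_OLb s 2⟩ : OL O (K := K) s) = 2 :=
        Subtype.ext (map_ofNat (algebraMap O K) 2)
      rw [h5]
      exact h2
  obtain ⟨B, hl, hB, hsg⟩ := hECDL k (OL O (K := K) s) K G Ω ρ Tb N 𝔔 p l τ π hL z Wc' hD' hin h3'
  refine ⟨fun _ => 2, fun i => WE (l i) (B i), fun _ => two_pos, fun d Φ hd hΦ => ?_⟩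
  have hΦ' : ∀ ω, Φ ω ∈ FS (OL O (K := K) s) (z ω) d := fun ω => fs_loc s (hΦ.mem ω)
  have hNO : IsNoetherianRing (OL O (K := K) s) := inferInstance
  have hrgC : IsRegularRing (CG (OL O (K := K) s) z d Φ) :=
    hREGL k O K Ω s hsK 2 z hH.z0 hH.rg d Φ hd hΦ.mem hΦ.ne
  have hld : ∀ (S : Finset Ω) (ω : Ω), ω ∉ S →
      (⨆ ω' ∈ S, AF (OL O (K := K) s) (z ω') d (Φ ω')).LinearDisjoint
        (AF (OL O (K := K) s) (z ω) d (Φ ω)) := by
    intro S ω hω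
    refine hLDG (OL O (K := K) s) M K Subtype.val_injective (fun o => lOL o) ?_
      (⨆ ω' ∈ S, AF (OL O (K := K) s) (z ω') d (Φ ω')) (AF (OL O (K := K) s) (z ω) d (Φ ω))
      _ _ ?_ ?_ (hH.ld S ω hω)
    · intro x
      obtain ⟨a, b, hb, hab⟩ := hH.lf x
      refine ⟨⟨_, hOK a⟩, ⟨_, hOK b⟩, ?_, hab⟩
      intro h
      apply hb
      apply hH.inj
      rw [map_zero]
      exact congrArg Subtype.val h
    · have h1 : (⨆ ω' ∈ S, AF (OL O (K := K) s) (z ω') d (Φ ω')) ≤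
          Pool.Agent.Y434.G.toSub s lOL (IntermediateField.adjoin M
          {y : K | ∃ ω' ∈ S, ∃ j, y = z ω' j / z ω' 0}) := by
        refine iSup₂_le fun ω' hω' => ?_
        refine af_leO hH.lo s lOL (hH.z0 ω' 0) _ (fun j => ?_) (hΦ.mem ω')
        exact IntermediateField.subset_adjoin M _ ⟨ω', hω', j, rfl⟩
      exact fun a ha => h1 ha
    · have h1 : AF (OL O (K := K) s) (z ω) d (Φ ω) ≤
          Pool.Agent.Y434.G.toSub s lOL (IntermediateField.adjoin M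
          {y : K | ∃ j, y = z ω j / z ω 0}) := by
        refine af_leO hH.lo s lOL (hH.z0 ω 0) _ (fun j => ?_) (hΦ.mem ω)
        exact IntermediateField.subset_adjoin M _ ⟨j, rfl⟩
      exact fun a ha => h1 ha
  have hsm : ∀ ω (q : Ideal (AF (OL O (K := K) s) (z ω) d (Φ ω))) [q.IsPrime],
      Algebra.IsSmoothAt (OL O (K := K) s) q := by
    intro ω q hq
    exact hSMAL k O K hH.inj s hsK 2 (z ω) (hH.z0 ω)
      (fun j q' hq' => hECSM O K hH.inj (z ω) (Wc ω) (hD.ec ω) (hD.du ω) j q')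
      d (Φ ω) hd (hΦ.mem ω) (hΦ.ne ω) q
  -- stability of the chart
  have hst : ∀ g, ∀ c ∈ CG (OL O (K := K) s) z d Φ, ρ g c ∈ CG (OL O (K := K) s) z d Φ := by
    intro g
    let V : Subalgebra (OL O (K := K) s) K :=
      { carrier := {x | ρ g x ∈ CG (OL O (K := K) s) z d Φ}
        mul_mem' := by
          intro a b ha hb
          show ρ g (a * b) ∈ CG (OL O (K := K) s) z d Φ
          rw [map_mul]
          exact Subalgebra.mul_mem _ ha hb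
        add_mem' := by
          intro a b ha hb
          show ρ g (a + b) ∈ CG (OL O (K := K) s) z d Φ
          rw [map_add]
          exact Subalgebra.add_mem _ ha hb
        algebraMap_mem' := by
          intro r
          show ρ g (algebraMap (OL O (K := K) s) K r) ∈ CG (OL O (K := K) s) z d Φ
          rw [hL.com]
          exact Subalgebra.algebraMap_mem _ _ }
    have hle : CG (OL O (K := K) s) z d Φ ≤ V := by
      unfold CG
      refine iSup_le fun ω => ?_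
      unfold AF
      rw [Algebra.adjoin_le_iff]
      rintro y ⟨x, ⟨a, ha, rfl⟩, rfl⟩
      show ρ g ((∏ j, z ω j ^ a j) / Φ ω) ∈ CG (OL O (K := K) s) z d Φ
      rw [map_div₀, map_prod, hΦ.inv]
      have h1 : ∏ j, ρ g (z ω j ^ a j) ∈ FS (OL O (K := K) s) (z ω) d := by
        have h2 : ∀ j, ρ g (z ω j ^ a j) = (ρ g (z ω j)) ^ a j := fun j => map_pow _ _ _
        simp only [h2]
        have h3 := fs_prod (O := OL O (K := K) s) (z := z ω) (x := fun j => ρ g (z ω j))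
          (fun j => fs_loc s (fs_one (hH.lin g ω j))) a Finset.univ
        rw [ha] at h3
        exact h3
      have h2 := af_fs (F := Φ ω) h1
      exact (le_iSup (fun ω => AF (OL O (K := K) s) (z ω) d (Φ ω)) ω) h2
    exact fun c hc => hle hc
  have hftC : Algebra.FiniteType (OL O (K := K) s) (CG (OL O (K := K) s) z d Φ) := by
    rw [← Subalgebra.fg_iff_finiteType]
    unfold CG AF
    rw [← Algebra.adjoin_iUnion, Subalgebra.fg_def]
    refine ⟨_, Set.finite_iUnion fun ω => ?_, rfl⟩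
    have h1 : {y : K | ∃ x ∈ MN (z ω) d, y = x / Φ ω} = (fun x => x / Φ ω) '' MN (z ω) d := by
      ext y
      constructor
      · rintro ⟨x, hx, rfl⟩
        exact ⟨x, hx, rfl⟩
      · rintro ⟨x, hx, rfl⟩
        exact ⟨x, hx, rfl⟩
    rw [h1]
    exact (Pool.Agent.Y434.G.MN_finite _ d).image _
  have hb := fun i => hRWB k (OL O (K := K) s) K Ω (𝔔 i) 2 two_pos 2 (WE (l i) (B i)) z d Φ
  have hrg : ∀ i, IsRegularRing (RW k (𝔔 i) 2 (WE (l i) (B i)) z d Φ) := fun i =>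
    hECR k (OL O (K := K) s) K Ω hL.inj hL.ft (𝔔 i) (hL.mx i) (hL.ne i) (l i) (hl i) z Wc' (B i)
      (hB i).ec d Φ hd hΦ' hΦ.ne hld (fun ω q hq _ => @hsm ω q hq) hrgC
  have hW : WCt k (OL O (K := K) s) K G ρ Tb 𝔔 τ π (CG (OL O (K := K) s) z d Φ)
      (fun i => RW k (𝔔 i) 2 (WE (l i) (B i)) z d Φ) := by
    refine ⟨hst, hftC, hrgC, fun i => (hb i).1, fun i => (hb i).2.1, fun i => (hb i).2.2.1,
      fun i => (hb i).2.2.2.1, fun i => (hb i).2.2.2.2.2.2 hL.ft hNO, hrg,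
      fun i => (hb i).2.2.2.2.1, ?_, ?_⟩
    · intro g i j hij f hf
      obtain ⟨hBij, hlij⟩ := hsg g i j hij
      rw [hBij, hlij] at hf
      refine hECS k (OL O (K := K) s) K Ω (ρ g) (Tb g) (hL.com g) (𝔔 i) (𝔔 j)
        (fun o ho => (hij o).1 ho) z (fun ω => (hD'.ec ω).z2) (fun ω => ?_) (l j) (B j) d Φ
        (hΦ.inv g) f hf
      obtain ⟨a, b, -, -, h⟩ := hD'.ch ω
      obtain ⟨C, h1, h2, -⟩ := h g
      exact ⟨C.u, C.r, C.s, C.t, h1, h2⟩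
    · intro i
      refine ⟨2 * l i, by have := hl i; omega, fun f hf => ?_, fun w hw => ?_, ?_⟩
      · exact hECE k (OL O (K := K) s) K Ω (ρ (τ i)) (Tb (τ i)) (𝔔 i) (l i) (hl i) z Wc' (B i)
          (hB i) d Φ (hΦ.inv (τ i)) f hf
      · refine (hb i).2.2.2.2.2.1 (l i) _ ?_
        refine cancel_unif (hL.mx i) (hL.ne i) ?_ (hL.pq i).1 (hL.pq i).2
        have e : (w - 1) * π = Tb (τ i) π - π := by
          rw [hw]
          ring
        rw [e]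
        exact (hB i).dv π
      · intro Q hQ h1 h2
        exact hECF k (OL O (K := K) s) K Ω hL.inj (ρ (τ i)) (Tb (τ i)) (𝔔 i) (hL.mx i) (hL.ne i)
          (l i) (hl i) (hL.ty i).1.un z Wc' (B i) (hB i) d Φ hd hΦ' hΦ.ne (hΦ.inv (τ i)) Q hQ h1 h2
  exact hCH k (OL O (K := K) s) K K₂ G ε hE.eK ρ ρ₂ hE.act Tb N 𝔔 p l τ π hL _ _ hW Y₂ ι₂ hE.fix

end Pool.Agent.Y223.G
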