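import Pool.Agent.Y223.G.AllE
import Pool.Agent.Y710.H.Rechw
import Pool.Agent.Y363.H.Reinw
import Pool.Agent.Y949.H.Chw
import Pool.Agent.Y38.H.Rwb
import Pool.Agent.Y38.H.Smal
import Pool.Agent.Y614.H.RegL
import Pool.Agent.Y769.H.Glw
import Pool.Agent.Y794.H.Gvw
import Pool.Agent.Y944.H.Gfw
import Pool.Agent.Y730.H.Gmw
import Pool.Agent.Y550.H.Linw
import Pool.Agent.Y448.H.Ecr
import Pool.Agent.Y849.H.Ecdl
import Pool.Agent.Y74.H.Ecol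
import Pool.Agent.Y987.H.Ecch
import Pool.Agent.Y349.H.ECINT
import Pool.Agent.Y555.H.Ece
import Pool.Agent.Y363.H.Ecf
import Pool.Agent.Y356.H.Ecs
import Pool.Agent.Y832.H.Ecar
import Pool.Agent.Y953.ECT.Main
import Pool.Agent.Y935.EC.Ecsm
import Pool.Agent.Y223.G.EcchP

/-!
# Products of elliptic curves: everything together
-/

set_option autoImplicit false

namespace Pool.Agent.Y223.G

theorem all_RWB : S_RWB := Pool.Agent.Y38.H.Rwb.t_RWB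

theorem all_LINW : S_LINW := by
  have hLOCJ : S_LOCJ := Pool.Agent.Y878.G.t_LOCJ
  have hI0 : S_I0REG := Pool.Agent.Y642.G.t_I0REG hLOCJ
  have hWQR : S_WQR := Pool.Agent.Y484.G.t_WQR
  have hLRA : S_LRA := Pool.Agent.Y737.G.t_LRA hLOCJ hWQR
  have hLOWFT : S_LOWFT := Pool.Agent.Y86.G.t_LOWFT
  have hLOWREG : S_LOWREG := Pool.Agent.Y44.G.t_LOWREG hI0 hLRA hLOWFT
  have hD0 : S_D0 := Pool.Agent.Y705.G.t_D0 hI0
  have hSTEP2 : S_ASTEP2 := Pool.Agent.Y839.H.t_ASTEP2 Pool.Agent.Y232.G.t_GENS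
    Pool.Agent.Y232.G.t_VAL hLOWFT hLOWREG
  have hRES2 : S_RES2 := Pool.Agent.Y153.H.t_RES2
  have hR2M : S_R2M := Pool.Agent.Y153.H.t_R2M
  exact Pool.Agent.Y550.H.t_LINW Pool.Agent.Y949.H.t_EXT2 hRES2 Pool.Agent.Y484.H.t_ATLAS2 hSTEP2
    (Pool.Agent.Y394.H.t_DOWN hD0) all_MODEL Pool.Agent.Y246.G.t_HASM
    (Pool.Agent.Y71.H.t_RAMG2 Pool.Agent.Y363.G.t_RAM1)
    (Pool.Agent.Y769.H.t_GLW hR2M all_RWB)
    (Pool.Agent.Y794.H.t_GVW Pool.Agent.Y417.G.t_EXF hR2M all_RWB)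
    (Pool.Agent.Y944.H.t_GFW hRES2 all_RWB)
    (Pool.Agent.Y730.H.GMW.t_GMW hRES2 all_RWB)

theorem all_CHW : S_CHW := by
  have hWCH : S_WCH := Pool.Agent.Y563.GW.t_WCH Pool.Agent.Y901.G.t_WREG
  have hRFT : S_RFT0 := Pool.Agent.Z932.G.t_RFT0
  have hSTEP : S_STEPG := Pool.Agent.Y279.G.t_STEPG Pool.Agent.Y824.G4.t_DESCG
  have hR2M : S_R2M := Pool.Agent.Y153.H.t_R2M
  have hR2CH : S_R2CH := Pool.Agent.Y48.H.R2C.t_R2CH hR2M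
  exact Pool.Agent.Y949.H.t_CHW hSTEP (Pool.Agent.Y710.H.t_RECHW hWCH hRFT) hR2CH
    Pool.Agent.Y363.H.t_REINW

theorem all_ECET : S_ECET := Pool.Agent.Y953.ECT.t_ECET
theorem all_ECSM : S_ECSM := Pool.Agent.Y935.EC.t_ECSM
theorem all_ECE : S_ECE := Pool.Agent.Y555.H.t_ECE all_RWB
theorem all_ECF : S_ECF := Pool.Agent.Y363.H.t_ECF all_RWB all_ECE
theorem all_ECS : S_ECS := Pool.Agent.Y356.H.ECS.t_ECS
theorem all_ECAR : S_ECAR := Pool.Agent.Y832.H.t_ECAR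

theorem all_ECR : S_ECR :=
  Pool.Agent.Y448.H.t_ECR (Pool.Agent.Y563.GW.t_WCH Pool.Agent.Y901.G.t_WREG) all_RWB
    Pool.Agent.Y215.G.t_COORD all_ETF Pool.Agent.Y514.G.t_IND2 all_ECET

theorem all_ECINT : S_ECINT := Pool.Agent.Y349.H.t_ECINT

theorem all_ECCH2 : S_ECCH2 :=
  t_ECCH2 all_CHW all_RWB all_ECE all_ECF all_ECR all_ECS
    (t_ECDL2 all_ECAR) Pool.Agent.Y74.H.t_ECOL Pool.Agent.Y614.H.RegL.t_REGL
    Pool.Agent.Y38.H.Smal.t_SMAL all_LDG all_ECSM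

end Pool.Agent.Y223.G
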