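import Mathlib

set_option autoImplicit false

open MvPolynomial

namespace Pool.Agent.Y223.G

/-- The ring of Laurent polynomials in one variable. -/
abbrev LP (K : Type) [Field K] : Type := AddMonoidAlgebra K ℤ

/-- The homogeneous element of degree `d` with coefficient `a`. -/
noncomputable def hm {K : Type} [Field K] (d : ℤ) (a : K) : LP K := AddMonoidAlgebra.single d a

section basic

variable {k K : Type} [CommRing k] [Field K] [Algebra k K]

lemma coeff_hm (d e : ℤ) (a : K) : (hm d a).coeff e = if d = e then a else 0 := by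
  classical
  unfold hm
  rw [AddMonoidAlgebra.coeff_single, Finsupp.single_apply]

lemma coeff_hm_same (d : ℤ) (a : K) : (hm d a).coeff d = a := by
  rw [coeff_hm, if_pos rfl]

lemma hm_mul (d e : ℤ) (a b : K) : hm d a * hm e b = hm (d + e) (a * b) :=
  AddMonoidAlgebra.single_mul_single _ _ _ _

lemma hm_add (d : ℤ) (a b : K) : hm d (a + b) = hm d a + hm d b := by
  unfold hm; exact AddMonoidAlgebra.single_add _ _ _

lemma hm_zero (d : ℤ) : hm d (0 : K) = 0 := by
  unfold hm; exact AddMonoidAlgebra.single_zero _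

lemma hm_neg (d : ℤ) (a : K) : hm d (-a) = -hm d a := by
  rw [eq_neg_iff_add_eq_zero, ← hm_add, neg_add_cancel, hm_zero]

lemma hm_sub (d : ℤ) (a b : K) : hm d (a - b) = hm d a - hm d b := by
  rw [sub_eq_add_neg, hm_add, hm_neg, sub_eq_add_neg]

lemma hm_one : hm 0 (1 : K) = 1 := rfl

lemma hm_pow (d : ℤ) (a : K) (n : ℕ) : hm d a ^ n = hm (n * d) (a ^ n) := by
  unfold hm
  rw [AddMonoidAlgebra.single_pow, nsmul_eq_mul]

lemma hm_inj {d : ℤ} {a b : K} (h : hm d a = hm d b) : a = b := by
  have := congrArg (fun f => f.coeff d) h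
  simpa [coeff_hm_same] using this

lemma hm_ne_zero {d : ℤ} {a : K} (ha : a ≠ 0) : hm d a ≠ 0 := by
  intro h
  rw [← hm_zero d] at h
  exact ha (hm_inj h)

lemma algebraMap_LP (r : k) : algebraMap k (LP K) r = hm 0 (algebraMap k K r) := rfl

lemma smul_hm (r : k) (d : ℤ) (a : K) : r • hm d a = hm d (r • a) := by
  rw [Algebra.smul_def, algebraMap_LP, hm_mul, zero_add, Algebra.smul_def]

lemma isUnit_hm {d : ℤ} {a : K} (ha : a ≠ 0) : IsUnit (hm d a) := by
  refine IsUnit.of_mul_eq_one (hm (-d) a⁻¹) ?_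
  rw [hm_mul, add_neg_cancel, mul_inv_cancel₀ ha, hm_one]

instance isDomain_LP : IsDomain (LP K) := NoZeroDivisors.to_isDomain _

lemma eq_sum_hm (f : LP K) : f = ∑ d ∈ f.coeff.support, hm d (f.coeff d) := by
  conv_lhs => rw [← AddMonoidAlgebra.sum_coeff_single f]
  rfl

lemma coeff_sum_hm (s : Finset ℤ) (g : ℤ → K) (d : ℤ) :
    (∑ e ∈ s, hm e (g e)).coeff d = if d ∈ s then g d else 0 := by
  classical
  rw [AddMonoidAlgebra.coeff_sum, Finsupp.finsetSum_apply]
  simp_rw [coeff_hm]
  rw [Finset.sum_ite_eq']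

lemma coeff_hm_mul (d : ℤ) (a : K) (f : LP K) (e : ℤ) :
    (hm d a * f).coeff e = a * f.coeff (e - d) := by
  unfold hm
  exact AddMonoidAlgebra.coeff_single_mul_eq_mul_coeff _ (by intro m' _; omega)

/-- A subalgebra is graded if it contains the homogeneous components of its elements. -/
def Gr (C : Subalgebra k (LP K)) : Prop := ∀ f ∈ C, ∀ d, hm d (f.coeff d) ∈ C

lemma mem_of_comp (C : Subalgebra k (LP K)) {f : LP K} (h : ∀ d, hm d (f.coeff d) ∈ C) :
    f ∈ C := by
  rw [eq_sum_hm f]
  exact C.sum_mem fun d _ => h d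

lemma gr_of_span (C : Subalgebra k (LP K))
    (h : ∀ f ∈ C, f ∈ Submodule.span k {g | g ∈ C ∧ ∃ d a, g = hm d a}) : Gr C := by
  intro f hf d
  have hf' := h f hf
  clear hf
  induction hf' using Submodule.span_induction with
  | mem g hg =>
    obtain ⟨hg, e, a, rfl⟩ := hg
    rw [coeff_hm]
    split_ifs with h1
    · rw [← h1]; exact hg
    · rw [hm_zero]; exact C.zero_mem
  | zero =>
    rw [AddMonoidAlgebra.coeff_zero, Finsupp.zero_apply, hm_zero]
    exact C.zero_mem
  | add x y _ _ hx hy =>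
    rw [AddMonoidAlgebra.coeff_add, Finsupp.add_apply, hm_add]
    exact C.add_mem hx hy
  | smul r x _ hx =>
    rw [AddMonoidAlgebra.coeff_smul, Finsupp.smul_apply, ← smul_hm]
    exact C.smul_mem hx r

lemma gr_adjoin (S : Set (LP K)) (hS : ∀ s ∈ S, ∃ d a, s = hm d a) :
    Gr (Algebra.adjoin k S) := by
  apply gr_of_span
  intro f hf
  set C := Algebra.adjoin k S with hC
  set M := Submodule.span k {g | g ∈ C ∧ ∃ d a, g = hm d a} with hM
  have hmul : ∀ x ∈ M, ∀ y ∈ M, x * y ∈ M := by
    intro x hx y hy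
    induction hx using Submodule.span_induction with
    | mem g hg =>
      obtain ⟨hg, e, a, rfl⟩ := hg
      induction hy using Submodule.span_induction with
      | mem g' hg' =>
        obtain ⟨hg', e', a', rfl⟩ := hg'
        exact Submodule.subset_span ⟨C.mul_mem hg hg', _, _, hm_mul _ _ _ _⟩
      | zero => rw [mul_zero]; exact M.zero_mem
      | add x y _ _ hx hy => rw [mul_add]; exact M.add_mem hx hy
      | smul r x _ hx => rw [mul_smul_comm]; exact M.smul_mem r hx
    | zero => rw [zero_mul]; exact M.zero_mem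
    | add x y _ _ hx hy => rw [add_mul]; exact M.add_mem hx hy
    | smul r x _ hx => rw [smul_mul_assoc]; exact M.smul_mem r hx
  induction hf using Algebra.adjoin_induction with
  | mem x hx => exact Submodule.subset_span ⟨Algebra.subset_adjoin hx, hS x hx⟩
  | algebraMap r =>
    exact Submodule.subset_span ⟨C.algebraMap_mem r, 0, _, algebraMap_LP r⟩
  | add x y _ _ hx hy => exact M.add_mem hx hy
  | mul x y _ _ hx hy => exact hmul x hx y hy

/-- The homogeneous elements of degree zero. -/
noncomputable def zer (k K : Type) [CommRing k] [Field K] [Algebra k K] : K →ₐ[k] LP K where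
  toFun := hm 0
  map_one' := hm_one
  map_mul' x y := by rw [hm_mul, add_zero]
  map_zero' := hm_zero 0
  map_add' := hm_add 0
  commutes' r := (algebraMap_LP r).symm

/-- The part of degree zero. -/
noncomputable def d0 (C : Subalgebra k (LP K)) : Subalgebra k K := C.comap (zer k K)

lemma mem_d0 {C : Subalgebra k (LP K)} {x : K} : x ∈ d0 C ↔ hm 0 x ∈ C := Iff.rfl

/-- The localization of a subalgebra. -/
def loc (C : Subalgebra k (LP K)) (x : LP K) (hx : x ∈ C) : Subalgebra k (LP K) where
  carrier := {f | ∃ n : ℕ, x ^ n * f ∈ C}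
  mul_mem' := by
    rintro f g ⟨n, hn⟩ ⟨m, hm⟩
    refine ⟨n + m, ?_⟩
    have : x ^ (n + m) * (f * g) = (x ^ n * f) * (x ^ m * g) := by ring
    rw [this]
    exact C.mul_mem hn hm
  add_mem' := by
    rintro f g ⟨n, hn⟩ ⟨m, hm⟩
    refine ⟨n + m, ?_⟩
    have : x ^ (n + m) * (f + g) = x ^ m * (x ^ n * f) + x ^ n * (x ^ m * g) := by ring
    rw [this]
    exact C.add_mem (C.mul_mem (C.pow_mem hx _) hn) (C.mul_mem (C.pow_mem hx _) hm)
  algebraMap_mem' r := ⟨0, by rw [pow_zero, one_mul]; exact C.algebraMap_mem r⟩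

lemma mem_loc {C : Subalgebra k (LP K)} {x : LP K} {hx : x ∈ C} {f : LP K} :
    f ∈ loc C x hx ↔ ∃ n : ℕ, x ^ n * f ∈ C := Iff.rfl

lemma le_loc (C : Subalgebra k (LP K)) (x : LP K) (hx : x ∈ C) : C ≤ loc C x hx :=
  fun f hf => ⟨0, by rw [pow_zero, one_mul]; exact hf⟩

lemma inv_mem_loc (C : Subalgebra k (LP K)) (x y : LP K) (hx : x ∈ C) (h : x * y = 1) :
    y ∈ loc C x hx := ⟨1, by rw [pow_one, h]; exact C.one_mem⟩

lemma gr_loc {C : Subalgebra k (LP K)} (hC : Gr C) {d : ℤ} {a : K} (ha : a ≠ 0)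
    (hx : hm d a ∈ C) : Gr (loc C (hm d a) hx) := by
  rintro f ⟨n, hn⟩ e
  refine ⟨n, ?_⟩
  have h1 := hC _ hn (n * d + e)
  have h2 : hm d a ^ n * hm e (f.coeff e) = hm (n * d + e) ((hm d a ^ n * f).coeff (n * d + e)) := by
    rw [hm_pow, hm_mul, coeff_hm_mul, add_sub_cancel_left]
  rw [h2]
  exact h1

/-- The subalgebra generated by the homogeneous elements of degree less than `ρ`. -/
noncomputable def low (C : Subalgebra k (LP K)) (ρ : ℕ) : Subalgebra k (LP K) :=
  Algebra.adjoin k {f | f ∈ C ∧ ∃ (d : ℤ) (a : K), d < ρ ∧ f = hm d a}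

lemma low_le (C : Subalgebra k (LP K)) (ρ : ℕ) : low C ρ ≤ C := by
  unfold low
  rw [Algebra.adjoin_le_iff]
  exact fun f hf => hf.1

lemma mem_low {C : Subalgebra k (LP K)} {ρ : ℕ} {d : ℤ} {a : K} (h : hm d a ∈ C) (hd : d < ρ) :
    hm d a ∈ low C ρ := Algebra.subset_adjoin ⟨h, d, a, hd, rfl⟩

lemma gr_low (C : Subalgebra k (LP K)) (ρ : ℕ) : Gr (low C ρ) :=
  gr_adjoin _ fun _ hs => ⟨_, _, hs.2.choose_spec.choose_spec.2⟩

end basic


section aev

variable {k K : Type} [CommRing k] [Field K] [Algebra k K]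

lemma hm_prod {ι : Type*} (s : Finset ι) (d : ι → ℤ) (a : ι → K) :
    ∏ i ∈ s, hm (d i) (a i) = hm (∑ i ∈ s, d i) (∏ i ∈ s, a i) := by
  classical
  induction s using Finset.induction_on with
  | empty => simp [hm_one]
  | insert i s hi ih => rw [Finset.prod_insert hi, Finset.sum_insert hi, Finset.prod_insert hi, ih,
      hm_mul]

variable {S : Type} [Fintype S] (w : S → ℤ) (x : S → K)

/-- The map of graded rings which sends a variable to a homogeneous element. -/
noncomputable def gmap (k : Type) {K : Type} [CommRing k] [Field K] [Algebra k K] {S : Type}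
    (w : S → ℤ) (x : S → K) : MvPolynomial S k →ₐ[k] LP K :=
  aeval fun i => hm (w i) (x i)

omit [Fintype S] in
lemma gmap_X (i : S) : gmap k w x (X i) = hm (w i) (x i) := by
  unfold gmap; rw [aeval_X]

lemma gmap_monomial (m : S →₀ ℕ) (b : k) :
    ∃ a, gmap k w x (monomial m b) = hm (Finsupp.weight w m) a := by
  classical
  unfold gmap
  rw [aeval_monomial, algebraMap_LP, Finsupp.prod_fintype _ _ (by intro; simp)]
  simp_rw [hm_pow]
  rw [hm_prod, hm_mul]
  refine ⟨algebraMap k K b * ∏ i, x i ^ m i, ?_⟩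
  congr 1
  rw [zero_add, Finsupp.weight_apply, Finsupp.sum_fintype _ _ (by intro; simp)]
  refine Finset.sum_congr rfl fun i _ => ?_
  rw [nsmul_eq_mul]

lemma gmap_wc (f : MvPolynomial S k) (e : ℤ) :
    gmap k w x (weightedHomogeneousComponent w e f) = hm e ((gmap k w x f).coeff e) := by
  classical
  induction f using MvPolynomial.induction_on' with
  | monomial m b =>
    have h1 : (monomial m b : MvPolynomial S k).IsWeightedHomogeneous w (Finsupp.weight w m) :=
      isWeightedHomogeneous_monomial w m b rfl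
    obtain ⟨a, ha⟩ := gmap_monomial (k := k) w x m b
    by_cases h : e = Finsupp.weight w m
    · rw [h, h1.weightedHomogeneousComponent_same, ha, coeff_hm_same]
    · rw [h1.weightedHomogeneousComponent_ne _ h, map_zero, ha, coeff_hm, if_neg (Ne.symm h),
        hm_zero]
  | add p q hp hq =>
    rw [map_add, map_add, map_add, hp, hq, AddMonoidAlgebra.coeff_add, Finsupp.add_apply, hm_add]

end aev

section gens

variable {k K : Type} [CommRing k] [Field K] [Algebra k K]

lemma zpow_unit_mem {C : Subalgebra k (LP K)} {r : ℤ} {u : K} (hu : hm r u ∈ C)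
    (hu' : hm (-r) u⁻¹ ∈ C) (j : ℤ) : hm (j * r) (u ^ j) ∈ C := by
  rcases le_or_gt 0 j with h | h
  · obtain ⟨n, rfl⟩ := Int.eq_ofNat_of_zero_le h
    have := C.pow_mem hu n
    rw [hm_pow] at this
    rwa [zpow_natCast]
  · obtain ⟨n, hn⟩ := Int.eq_ofNat_of_zero_le (a := -j) (by omega)
    have hj : j = -(n : ℤ) := by
      have : -j = (n : ℤ) := hn
      omega
    subst hj
    have := C.pow_mem hu' n
    rw [hm_pow, inv_pow] at this
    rw [zpow_neg, zpow_natCast]
    have e : -(n : ℤ) * r = n * -r := by ring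
    rwa [e]

/-- A subalgebra with a unit of degree `r < ρ` is generated in degrees less than `ρ`. -/
lemma low_eq_of_unit {C : Subalgebra k (LP K)} (hgr : Gr C) {r ρ : ℕ} (hr : 0 < r) (hrρ : r < ρ)
    {u : K} (hu0 : u ≠ 0) (hu : hm r u ∈ C) (hu' : hm (-r) u⁻¹ ∈ C) : low C ρ = C := by
  apply le_antisymm (low_le C ρ)
  intro f hf
  apply mem_of_comp
  intro d
  have h1 := hgr f hf d
  set a := f.coeff d with ha
  have hr' : (0 : ℤ) < r := by exact_mod_cast hr
  have hmod := Int.emod_lt_of_pos d hr'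
  have hdiv := Int.mul_ediv_add_emod d r
  have e1 : hm d a = hm (d % r) (a * u ^ (-(d / r))) * hm (d / r * r) (u ^ (d / r)) := by
    rw [hm_mul]
    congr 1
    · linear_combination (-1 : ℤ) * hdiv
    · rw [mul_assoc, ← zpow_add₀ hu0, neg_add_cancel, zpow_zero, mul_one]
  have h2 : hm (d % r) (a * u ^ (-(d / r))) ∈ low C ρ := by
    refine mem_low ?_ (by omega)
    have h3 := C.mul_mem h1 (zpow_unit_mem hu hu' (-(d / r)))
    rw [hm_mul] at h3
    have e2 : d + -(d / r) * r = d % r := by linear_combination (-1 : ℤ) * hdiv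
    rwa [e2] at h3
  rw [e1]
  refine (low C ρ).mul_mem h2 (zpow_unit_mem (mem_low hu ?_) (mem_low hu' ?_) _)
  · exact_mod_cast hrρ
  · have : (0 : ℤ) < ρ := by exact_mod_cast hr.trans hrρ
    linarith

/-- Generators of a finitely generated graded subalgebra with a unit of degree `r`. -/
lemma exists_gens {C : Subalgebra k (LP K)} (hft : Algebra.FiniteType k C) (hgr : Gr C) {r : ℕ}
    (hr : 0 < r) {u : K} (hu0 : u ≠ 0) (hu : hm r u ∈ C) (hu' : hm (-r) u⁻¹ ∈ C) :
    ∃ (n : ℕ) (δ : Fin n → ℤ) (x : Fin n → K),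
      (∀ i, 0 ≤ δ i ∧ δ i < r ∧ hm (δ i) (x i) ∈ C) ∧
      C ≤ Algebra.adjoin k ({hm r u, hm (-r) u⁻¹} ∪ Set.range fun i => hm (δ i) (x i)) := by
  classical
  obtain ⟨s, hs⟩ := (Subalgebra.fg_iff_finiteType _).2 hft
  have hr' : (0 : ℤ) < r := by exact_mod_cast hr
  let N := Σ f : s, (f : LP K).coeff.support
  have hN : Fintype N := inferInstance
  let eN : Fin (Fintype.card N) ≃ N := (Fintype.equivFin N).symm
  let δ : N → ℤ := fun p => (p.2 : ℤ) % r
  let x : N → K := fun p => (p.1 : LP K).coeff p.2 * u ^ (-((p.2 : ℤ) / r))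
  have hsC : ∀ f ∈ s, f ∈ C := by
    intro f hf
    rw [← hs]
    exact Algebra.subset_adjoin hf
  refine ⟨Fintype.card N, fun i => δ (eN i), fun i => x (eN i), ?_, ?_⟩
  · intro i
    refine ⟨Int.emod_nonneg _ hr'.ne', Int.emod_lt_of_pos _ hr', ?_⟩
    set p := eN i
    have h1 := hgr _ (hsC _ p.1.2) (p.2 : ℤ)
    have h3 := C.mul_mem h1 (zpow_unit_mem hu hu' (-((p.2 : ℤ) / r)))
    rw [hm_mul] at h3
    have hdiv := Int.mul_ediv_add_emod (p.2 : ℤ) r
    have e2 : (p.2 : ℤ) + -((p.2 : ℤ) / r) * r = (p.2 : ℤ) % r := by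
      linear_combination (-1 : ℤ) * hdiv
    rwa [e2] at h3
  · rw [← hs, Algebra.adjoin_le_iff]
    intro f hf
    set D := Algebra.adjoin k ({hm (r : ℤ) u, hm (-(r : ℤ)) u⁻¹} ∪
      Set.range fun i => hm (δ (eN i)) (x (eN i))) with hD
    have huD : hm (r : ℤ) u ∈ D := Algebra.subset_adjoin (Or.inl (by simp))
    have huD' : hm (-(r : ℤ)) u⁻¹ ∈ D := Algebra.subset_adjoin (Or.inl (by simp))
    change f ∈ D
    rw [eq_sum_hm f]
    refine D.sum_mem fun d hd => ?_
    let p : N := ⟨⟨f, hf⟩, ⟨d, hd⟩⟩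
    have h1 : hm (δ p) (x p) ∈ D := by
      refine Algebra.subset_adjoin (Or.inr ⟨eN.symm p, ?_⟩)
      simp only [Equiv.apply_symm_apply]
    have hdiv := Int.mul_ediv_add_emod d r
    have e1 : hm d (f.coeff d) = hm (δ p) (x p) * hm (d / r * r) (u ^ (d / r)) := by
      rw [hm_mul]
      congr 1
      · change d = d % r + _
        linear_combination (-1 : ℤ) * hdiv
      · change f.coeff d = f.coeff d * u ^ (-(d / r)) * _
        rw [mul_assoc, ← zpow_add₀ hu0, neg_add_cancel, zpow_zero, mul_one]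
    rw [e1]
    exact D.mul_mem h1 (zpow_unit_mem huD huD' _)


end gens

section locs

variable {k K : Type} [CommRing k] [Field K] [Algebra k K]

/-- The algebra structure of the localization. -/
@[reducible] noncomputable def locAlg (C : Subalgebra k (LP K)) {x : LP K} (hx : x ∈ C) :
    Algebra C (loc C x hx) := (Subalgebra.inclusion (le_loc C x hx)).toRingHom.toAlgebra

/-- The localization of a subalgebra at a homogeneous unit of the Laurent polynomials is a
localization. -/
theorem isLocalization_loc (C : Subalgebra k (LP K)) {x : LP K} (hx : x ∈ C) (hu : IsUnit x) :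
    @IsLocalization.Away C _ (⟨x, hx⟩ : C) (loc C x hx) _ (locAlg C hx) := by
  let _ := locAlg C hx
  obtain ⟨y, hy⟩ := hu.exists_right_inv
  have hmap : ∀ s : C, ((algebraMap C (loc C x hx) s : loc C x hx) : LP K) = s := fun s => rfl
  let x' : C := ⟨x, hx⟩
  refine IsLocalization.Away.mk x' ?_ ?_ ?_
  · refine IsUnit.of_mul_eq_one ⟨y, inv_mem_loc C x y hx hy⟩ ?_
    apply Subtype.ext
    exact hy
  · rintro ⟨f, n, hn⟩
    refine ⟨n, ⟨x ^ n * f, hn⟩, ?_⟩
    apply Subtype.ext
    change f * (algebraMap C (loc C x hx) x' : LP K) ^ n = x ^ n * f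
    rw [hmap, mul_comm]
  · intro a b hab
    refine ⟨0, ?_⟩
    have h3 : ((algebraMap C (loc C x hx) a : loc C x hx) : LP K) =
      ((algebraMap C (loc C x hx) b : loc C x hx) : LP K) := congrArg Subtype.val hab
    rw [hmap, hmap] at h3
    rw [Subtype.ext h3]

/-- A localization of a regular ring is regular. -/
theorem regular_of_isLocalization {A B : Type} [CommRing A] [CommRing B] [Algebra A B]
    (M : Submonoid A) [IsLocalization M B] [IsRegularRing A] : IsRegularRing B := by
  have : IsNoetherianRing B := IsLocalization.isNoetherianRing M B inferInstance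
  rw [isRegularRing_iff]
  intro P hP
  let q : Ideal A := P.comap (algebraMap A B)
  have hq : q.IsPrime := Ideal.comap_isPrime _ _
  have h1 : IsRegularLocalRing (Localization.AtPrime q) := inferInstance
  have h2 : IsLocalization.AtPrime (Localization.AtPrime P) q :=
    IsLocalization.isLocalization_isLocalization_atPrime_isLocalization M
      (Localization.AtPrime P) P
  exact IsRegularLocalRing.of_ringEquiv
    (IsLocalization.algEquiv q.primeCompl (Localization.AtPrime q)
      (Localization.AtPrime P)).toRingEquiv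

/-- The localization of a regular subalgebra at a homogeneous element is regular. -/
theorem regular_loc {C : Subalgebra k (LP K)} (hC : IsRegularRing C) {x : LP K} (hx : x ∈ C)
    (hu : IsUnit x) : IsRegularRing (loc C x hx) := by
  let _ := locAlg C hx
  have h1 : IsLocalization.Away (⟨x, hx⟩ : C) (loc C x hx) := isLocalization_loc C hx hu
  exact regular_of_isLocalization (Submonoid.powers (⟨x, hx⟩ : C))

/-- The localization of an algebra of finite type is of finite type. -/
theorem ft_loc {C : Subalgebra k (LP K)} (hC : Algebra.FiniteType k C) {x : LP K} (hx : x ∈ C)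
    (hu : IsUnit x) : Algebra.FiniteType k (loc C x hx) := by
  let _ := locAlg C hx
  have _ : IsScalarTower k C (loc C x hx) := IsScalarTower.of_algebraMap_eq fun r => rfl
  have h1 : IsLocalization.Away (⟨x, hx⟩ : C) (loc C x hx) := isLocalization_loc C hx hu
  have h2 : Algebra.FiniteType C (loc C x hx) := by
    have := IsLocalization.Away.finitePresentation (S := loc C x hx) (⟨x, hx⟩ : C)
    infer_instance
  exact Algebra.FiniteType.trans hC h2

end locs

end Pool.Agent.Y223.G
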