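import Pool.Agent.Y223.G.Base

/-!
# Definitions: graded atlases with regular charts, models
-/

set_option autoImplicit false

namespace Pool.Agent.Y223.G

section defs

variable {k K : Type} [CommRing k] [Field K] [Algebra k K]

/-- The elements of `K` with a nonzero multiple in `M`. -/
def sat (M : Submodule k K) : Set K := {y | ∃ s : k, s ≠ 0 ∧ s • y ∈ M}

/-- The subalgebra generated by the elements of degree zero and a family of homogeneous
elements. -/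
noncomputable def Dx (C : Subalgebra k (LP K)) {J : Type} (d : J → ℕ) (x : J → K) :
    Subalgebra k (LP K) :=
  Algebra.adjoin k ({f | f ∈ C ∧ ∃ a, f = hm 0 a} ∪ Set.range fun j => hm (d j) (x j))

/-- An atlas of a proper model over `k` of the field `Kf` by quotients of regular schemes by the
multiplicative group, with stabilisers of order at most `ρ`: the charts are the parts of degree
zero of regular graded algebras with a unit of positive degree at most `ρ`. If `P` holds then the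
model is a modification of the projective model with the linear forms `M₀`, which is an isomorphism
over the generic point of `k`. -/
structure AtlasG (P : Prop) (M₀ : Submodule k K) (Kf : Subfield K) (ρ : ℕ) {T : Type}
    (C : T → Subalgebra k (LP K)) (H : T → K) : Prop where
  H0 : ∀ t, H t ≠ 0
  HK : ∀ t, H t ∈ Kf
  ft : ∀ t, Algebra.FiniteType k (C t)
  rg : ∀ t, IsRegularRing (C t)
  gr : ∀ t, Gr (C t)
  ss : ∀ t, hm (-1) 1 ∈ C t
  un : ∀ t, ∃ r : ℕ, 0 < r ∧ r ≤ ρ ∧ ∃ u : K, u ≠ 0 ∧ hm r u ∈ C t ∧ hm (-r) u⁻¹ ∈ C t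
  fr : ∀ t, ∀ x ∈ Kf, ∃ y y' : K, hm 0 y ∈ C t ∧ hm 0 y' ∈ C t ∧ y' ≠ 0 ∧ x = y / y'
  inF : ∀ t (d : ℤ) x, hm d x ∈ C t → x ∈ Kf
  rt : ∀ t t', hm 0 (H t' / H t) ∈ C t
  gl : ∀ t t', ∀ f ∈ C t', ∃ n : ℕ, hm 0 (H t' / H t) ^ n * f ∈ C t
  cv : ∀ V : ValuationSubring K, (∀ c : k, algebraMap k K c ∈ V) →
    ∃ t, ∀ x, hm 0 x ∈ C t → x ∈ V
  ve : P → ∀ t, ∃ s : k, s ≠ 0 ∧ hm 1 (algebraMap k K s) ∈ C t
  mo : P → ∃ n : ℕ, 1 ≤ n ∧ ∀ t, H t ∈ sat (M₀ ^ n) ∧
    (∀ m ∈ M₀ ^ n, ∃ s : k, s ≠ 0 ∧ hm 0 (s • (m / H t)) ∈ C t) ∧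
    ∀ f, hm 0 f ∈ C t → ∃ N₀ : ℕ, ∀ N, N₀ ≤ N → H t ^ N * f ∈ sat (M₀ ^ (n * N))

/-- Homogeneous coordinates of a regular projective model of `Kf`. -/
structure ModelG (P : Prop) (M₀ : Submodule k K) (Kf : Subfield K) {I : Type} (z : I → K)
    (J : Set I) : Prop where
  zK : ∀ i, z i ∈ Kf
  z0 : ∀ j ∈ J, z j ≠ 0
  cv : ∀ V : ValuationSubring K, (∀ c : k, algebraMap k K c ∈ V) →
    ∃ j ∈ J, ∀ i, z i / z j ∈ V
  rg : ∀ j ∈ J, IsRegularRing (Algebra.adjoin k (Set.range fun i => z i / z j))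
  fr : ∀ j ∈ J, ∀ x ∈ Kf, ∃ y ∈ Algebra.adjoin k (Set.range fun i => z i / z j),
    ∃ y' ∈ Algebra.adjoin k (Set.range fun i => z i / z j), y' ≠ 0 ∧ x = y / y'
  mo : P → ∃ n : ℕ, 1 ≤ n ∧ (∀ i, z i ∈ sat (M₀ ^ n)) ∧
    ∀ m ∈ M₀ ^ n, ∃ s : k, s ≠ 0 ∧ s • m ∈ Submodule.span k (Set.range z)

/-- A graded algebra (the coordinate ring of a weighted blowup, for example the extended Rees
algebra of a filtration) which is regular outside the vertex. -/
structure Ch (R : Subalgebra k (LP K)) : Prop where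
  ft : Algebra.FiniteType k R
  gr : Gr R
  ss : hm (-1) 1 ∈ R
  cf : ∀ (d : ℤ) x, hm d x ∈ R → hm 0 x ∈ R
  pos : ∃ (d : ℕ) (a : K), 0 < d ∧ a ≠ 0 ∧ hm d a ∈ R
  rg : ∀ (e : ℕ) (η : K) (he : hm e η ∈ R), 0 < e → η ≠ 0 → IsRegularRing (loc R (hm e η) he)

/-- The action of an automorphism of `K` on the Laurent polynomials. -/
noncomputable def tl (τ : K ≃ₐ[k] K) : LP K ≃ₐ[k] LP K :=
  AddMonoidAlgebra.mapAlgEquiv k ℤ τ

/-- The elements with coefficients in a subfield (given by a field extension `K` of `K'`). -/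
noncomputable def res {K' : Type} [Field K'] [Algebra k K'] (ι : K' →ₐ[k] K)
    (R : Subalgebra k (LP K)) : Subalgebra k (LP K') :=
  R.comap (AddMonoidAlgebra.mapAlgHom (R := k) ℤ ι)

end defs

end Pool.Agent.Y223.G
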