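import Pool.Agent.Y223.G.Defs
import Pool.Agent.W418.LU2.Ind
import Pool.Agent.H918R2.Quad.HasModule

/-!
# Statements of the parts of project G
-/

set_option autoImplicit false

namespace Pool.Agent.Y223.G

open IsLocalRing Pool.Agent.W418.LU2

/-- Homogeneous elements of degrees between `0` and `ρ` which generate the low part. -/
def S_GENS : Prop := ∀ (k K : Type) [CommRing k] [IsNoetherianRing k] [Field K] [Algebra k K]
  (C : Subalgebra k (LP K)), Algebra.FiniteType k C → Gr C → ∀ (ρ r : ℕ), 2 ≤ ρ → 0 < r → r ≤ ρ →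
    ∀ u : K, u ≠ 0 → hm r u ∈ C → hm (-1) 1 ∈ C →
    ∃ (J : Type) (_ : Finite J) (_ : Nonempty J) (d : J → ℕ) (x : J → K),
      (∀ j, 0 < d j ∧ d j < ρ ∧ x j ≠ 0 ∧ hm (d j) (x j) ∈ C) ∧
      ∀ (e : ℕ) (a : K), 0 < e → e < ρ → hm e a ∈ C → hm e a ∈ Dx C d x

/-- Valuations and the low part. -/
def S_VAL : Prop := ∀ (k K : Type) [CommRing k] [Field K] [Algebra k K]
  (C : Subalgebra k (LP K)) (ρ : ℕ) (J : Type) (d : J → ℕ) (x : J → K),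
    (∀ j, 0 < d j ∧ d j < ρ ∧ x j ≠ 0 ∧ hm (d j) (x j) ∈ C) →
    (∀ (e : ℕ) (a : K), 0 < e → e < ρ → hm e a ∈ C → hm e a ∈ Dx C d x) →
    ∀ V : ValuationSubring K, (∀ r, hm 0 r ∈ C → r ∈ V) → ∀ j : J,
    (∀ i, V.valuation (x i) ^ d j ≤ V.valuation (x j) ^ d i) → ∀ (y : K) (n : ℕ),
    hm (d j) (x j) ^ n * hm 0 y ∈ low C ρ → y ∈ V

/-- The low part is of finite type. -/
def S_LOWFT : Prop := ∀ (k K : Type) [CommRing k] [Field K] [Algebra k K]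
  (C : Subalgebra k (LP K)), Algebra.FiniteType k C → Gr C → ∀ (ρ : ℕ), 0 < ρ →
    ∀ u : K, u ≠ 0 → hm ρ u ∈ C → hm (-ρ) u⁻¹ ∈ C → Algebra.FiniteType k (low C ρ)

/-- Weighted quasi-regularity: a weighted homogeneous relation of degree `d` between independent
elements of a regular local ring modulo the weighted ideal of degree `d + 1` has its coefficients
in the ideal generated by the elements. -/
def S_WQR : Prop := ∀ (A : Type) [CommRing A] [IsRegularLocalRing A] (c : ℕ) (x : Fin c → A),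
  Ind x → ∀ (a : Fin c → ℕ), (∀ i, 0 < a i) → ∀ (d : ℕ) (s : Finset (Fin c →₀ ℕ))
    (f : (Fin c →₀ ℕ) → A), (∀ m ∈ s, ∑ i, a i * m i = d) →
    ∑ m ∈ s, f m * ∏ i, x i ^ m i ∈
      Ideal.span {y : A | ∃ m : Fin c →₀ ℕ, d + 1 ≤ ∑ i, a i * m i ∧ y = ∏ i, x i ^ m i} →
    ∀ m ∈ s, f m ∈ Ideal.span (Set.range x)

/-- The part of degree zero of the ideal generated by the homogeneous elements of degrees not
divisible by `ρ`. -/
noncomputable def I0 {k K : Type} [CommRing k] [Field K] [Algebra k K] (C : Subalgebra k (LP K)) (ρ : ℕ) :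
    Ideal (d0 C) :=
  Ideal.span {y | ∃ i : ℕ, 0 < i ∧ i < ρ ∧ ∃ s t : K, hm i s ∈ C ∧ hm (-(i : ℤ)) t ∈ C ∧
    (y : K) = s * t}

/-- At a prime of `C` which contains the homogeneous elements of degrees not divisible by `ρ`,
these are generated by part of a regular system of parameters consisting of homogeneous elements
of degrees between `0` and `ρ`. -/
def S_LOCJ : Prop := ∀ (k K : Type) [CommRing k] [IsNoetherianRing k] [Field K] [Algebra k K]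
  (C : Subalgebra k (LP K)), Algebra.FiniteType k C → IsRegularRing C → Gr C → ∀ (ρ : ℕ), 0 < ρ →
    ∀ u : K, u ≠ 0 → hm ρ u ∈ C → hm (-ρ) u⁻¹ ∈ C → ∀ (Q : Ideal C) [Q.IsPrime],
    (∀ (i : ℤ) (y : K) (h : hm i y ∈ C), ¬ (ρ : ℤ) ∣ i → (⟨hm i y, h⟩ : C) ∈ Q) →
    ∃ (c : ℕ) (a : Fin c → ℕ) (x : Fin c → K)
      (hx : ∀ j, 0 < a j ∧ a j < ρ ∧ hm (a j) (x j) ∈ C),
      Ind (fun j => algebraMap C (Localization.AtPrime Q) ⟨hm (a j) (x j), (hx j).2.2⟩) ∧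
      ∀ (i : ℤ) (y : K) (h : hm i y ∈ C), ¬ (ρ : ℤ) ∣ i →
        algebraMap C (Localization.AtPrime Q) ⟨hm i y, h⟩ ∈ Ideal.span (Set.range
          fun j => algebraMap C (Localization.AtPrime Q) ⟨hm (a j) (x j), (hx j).2.2⟩)

/-- The fixed locus is regular. -/
def S_I0REG : Prop := ∀ (k K : Type) [CommRing k] [IsNoetherianRing k] [Field K] [Algebra k K]
  (C : Subalgebra k (LP K)), Algebra.FiniteType k C → IsRegularRing C → Gr C → ∀ (ρ : ℕ), 0 < ρ →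
    ∀ u : K, u ≠ 0 → hm ρ u ∈ C → hm (-ρ) u⁻¹ ∈ C → IsRegularRing (d0 C ⧸ I0 C ρ)

/-- The structure of `C` at a prime `P` of the low part which contains `u⁻¹`: homogeneous elements
`x j` of degrees `a j` between `0` and `ρ`, which generate (locally at `P`) the homogeneous elements
of these degrees and are weighted quasi-regular. -/
structure LD {k K : Type} [CommRing k] [Field K] [Algebra k K] (C : Subalgebra k (LP K)) (ρ : ℕ)
    (P : Ideal (low C ρ)) {c : ℕ} (a : Fin c → ℕ) (x : Fin c → K) : Prop where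
  deg : ∀ j, 0 < a j ∧ a j < ρ ∧ hm (a j) (x j) ∈ C
  /-- the elements of degrees between `0` and `ρ` are combinations of the `x j` near `P` -/
  gen : ∀ (i : ℕ) (y : K), 0 < i → i < ρ → hm i y ∈ C →
    ∃ (g : K) (hg : hm 0 g ∈ low C ρ), (⟨hm 0 g, hg⟩ : low C ρ) ∉ P ∧
      ∃ s : Fin c → K, (∀ j, hm ((i : ℤ) - a j) (s j) ∈ C) ∧ g * y = ∑ j, s j * x j
  /-- weighted quasi-regularity -/
  qr : ∀ (d : ℕ) (s : Finset (Fin c →₀ ℕ)) (f : (Fin c →₀ ℕ) → d0 C),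
    (∀ m ∈ s, ∑ i, a i * m i = d) →
    (∃ (g : K) (hg : hm 0 g ∈ low C ρ), (⟨hm 0 g, hg⟩ : low C ρ) ∉ P ∧
      ∃ (s' : Finset (Fin c →₀ ℕ)) (t : (Fin c →₀ ℕ) → K),
        (∀ m ∈ s', d + 1 ≤ ∑ i, a i * m i ∧ hm ((d : ℤ) - ((∑ i, a i * m i : ℕ) : ℤ)) (t m) ∈ C) ∧
        g * ∑ m ∈ s, (f m : K) * ∏ i, x i ^ m i = ∑ m ∈ s', t m * ∏ i, x i ^ m i) →
    ∀ m ∈ s, ∃ (g : d0 C) (hg : hm 0 (g : K) ∈ low C ρ), (⟨hm 0 (g : K), hg⟩ : low C ρ) ∉ P ∧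
      g * f m ∈ I0 C ρ

/-- Existence of the structure. -/
def S_LRA : Prop := ∀ (k K : Type) [CommRing k] [IsNoetherianRing k] [Field K] [Algebra k K]
  (C : Subalgebra k (LP K)), Algebra.FiniteType k C → IsRegularRing C → Gr C → ∀ (ρ : ℕ), 0 < ρ →
    ∀ u : K, u ≠ 0 → hm ρ u ∈ C → ∀ hu' : hm (-ρ) u⁻¹ ∈ low C ρ, ∀ P : Ideal (low C ρ), P.IsPrime →
    (⟨hm (-ρ) u⁻¹, hu'⟩ : low C ρ) ∈ P →
    ∃ (c : ℕ) (a : Fin c → ℕ) (x : Fin c → K), LD C ρ P a x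

/-- The low part of a regular graded algebra is regular. -/
def S_LOWREG : Prop := ∀ (k K : Type) [CommRing k] [IsNoetherianRing k] [Field K] [Algebra k K]
  (C : Subalgebra k (LP K)), Algebra.FiniteType k C → IsRegularRing C → Gr C → ∀ (ρ : ℕ), 0 < ρ →
    ∀ u : K, u ≠ 0 → hm ρ u ∈ C → hm (-ρ) u⁻¹ ∈ C → IsRegularRing (low C ρ)

/-- The part of degree zero of a regular graded algebra with a unit of degree one is regular. -/
def S_D0 : Prop := ∀ (k K : Type) [CommRing k] [IsNoetherianRing k] [Field K] [Algebra k K]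
  (C : Subalgebra k (LP K)), Algebra.FiniteType k C → IsRegularRing C → Gr C →
    ∀ u : K, u ≠ 0 → hm 1 u ∈ C → hm (-1) u⁻¹ ∈ C →
    Algebra.FiniteType k (d0 C) ∧ IsRegularRing (d0 C)

/-- Reduction of the order of the stabilisers. -/
def S_ASTEP : Prop := ∀ (k K : Type) [CommRing k] [IsDomain k] [IsNoetherianRing k] [Field K]
  [Algebra k K] (_ : Function.Injective (algebraMap k K)) (P : Prop) (M₀ : Submodule k K)
  (Kf : Subfield K) (ρ : ℕ), 2 ≤ ρ → ∀ (T : Type) [Finite T] (C : T → Subalgebra k (LP K))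
  (H : T → K), AtlasG P M₀ Kf ρ C H →
    ∃ (T' : Type) (_ : Finite T') (C' : T' → Subalgebra k (LP K)) (H' : T' → K),
      AtlasG P M₀ Kf (ρ - 1) C' H'

/-- An atlas gives a model. -/
def S_MODEL : Prop := ∀ (k K : Type) [CommRing k] [IsDomain k] [IsNoetherianRing k] [Field K]
  [Algebra k K] (_ : Function.Injective (algebraMap k K)) (P : Prop) (M₀ : Submodule k K)
  (_ : M₀.FG) (Kf : Subfield K) (_ : P → ∀ m ∈ M₀, m ∈ Kf) (ρ : ℕ) (T : Type) [Finite T]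
  (C : T → Subalgebra k (LP K)) (H : T → K), AtlasG P M₀ Kf ρ C H →
    ∃ (I : Type) (_ : Finite I) (z : I → K) (J : Set I), ModelG P M₀ Kf z J

/-- A model gives a module. -/
def S_HASM : Prop := ∀ (O F K : Type) [CommRing O] [IsDomain O] [IsNoetherianRing O] [Field F]
  [Field K] [Algebra O F] [Algebra F K] [Algebra O K] [IsScalarTower O F K]
  (_ : Function.Injective (algebraMap O K)) (P : Prop) (M₀ : Submodule O K) (I : Type) [Finite I]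
  (z : I → K) (J : Set I), ModelG P M₀ (algebraMap F K).fieldRange z J →
  ∃ M' : Submodule O F, M'.FG ∧ (∃ f ∈ M', f ≠ 0) ∧
    (∀ f ∈ M', f ≠ 0 → ∀ y : F, ∃ b ∈ Pool.Agent.H918R2.Quad.chart O M' f,
      ∃ c ∈ Pool.Agent.H918R2.Quad.chart O M' f, c ≠ 0 ∧ y = b / c) ∧
    (∀ f ∈ M', f ≠ 0 → ∀ (q : Ideal (Pool.Agent.H918R2.Quad.chart O M' f)) [q.IsPrime],
      IsRegularLocalRing (Localization.AtPrime q)) ∧
    (P → ∃ n : ℕ, 1 ≤ n ∧ (∀ y ∈ M', algebraMap F K y ∈ sat (M₀ ^ n)) ∧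
      ∀ y : F, algebraMap F K y ∈ M₀ ^ n → ∃ s : O, s ≠ 0 ∧ s • y ∈ M')

/-- Compatible weighted blowups give an atlas. -/
def S_ATLAS : Prop := ∀ (k K : Type) [CommRing k] [IsDomain k] [IsNoetherianRing k] [Field K]
  [Algebra k K] (_ : Function.Injective (algebraMap k K)) (P : Prop) (M₀ : Submodule k K)
  (Kf : Subfield K) (𝒜 : Type) [Finite 𝒜] (R : 𝒜 → Subalgebra k (LP K)) (h : 𝒜 → K),
    (∀ a, Ch (R a)) → (∀ a, h a ≠ 0) → (∀ a, h a ∈ Kf) →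
    (∀ a (d : ℤ) x, hm d x ∈ R a → x ∈ Kf) → (∀ a b, hm 0 (h b / h a) ∈ R a) →
    (∀ a b, ∀ f ∈ R b, ∃ n : ℕ, hm 0 (h b / h a) ^ n * f ∈ R a) →
    (∀ V : ValuationSubring K, (∀ c : k, algebraMap k K c ∈ V) →
      ∃ a, ∀ x, hm 0 x ∈ R a → x ∈ V) →
    (∀ a, ∀ x ∈ Kf, ∃ y y' : K, hm 0 y ∈ R a ∧ hm 0 y' ∈ R a ∧ y' ≠ 0 ∧ x = y / y') →
    (P → ∀ a, ∃ s : k, s ≠ 0 ∧ hm 1 (algebraMap k K s) ∈ R a) →
    (P → ∃ n : ℕ, 1 ≤ n ∧ ∀ a, h a ∈ sat (M₀ ^ n) ∧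
      (∀ m ∈ M₀ ^ n, ∃ s : k, s ≠ 0 ∧ hm 0 (s • (m / h a)) ∈ R a) ∧
      ∀ f, hm 0 f ∈ R a → ∃ N₀ : ℕ, ∀ N, N₀ ≤ N → h a ^ N * f ∈ sat (M₀ ^ (n * N))) →
    ∃ (ρ : ℕ) (T : Type) (_ : Finite T) (C : T → Subalgebra k (LP K)) (H : T → K),
      AtlasG P M₀ Kf ρ C H

/-- Invariants of an automorphism of prime order whose fixed ideal is locally principal. -/
def S_DESC : Prop := ∀ (B : Type) [CommRing B] [IsDomain B] [IsRegularRing B] (p : ℕ), p.Prime →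
  ∀ σ : B ≃+* B, (∀ x, σ^[p] x = x) → (∃ x, σ x ≠ x) →
  ∀ (A : Type) [CommRing A] [IsNoetherianRing A] (j : A →+* B), Function.Injective j →
    (∀ b, σ b = b ↔ ∃ a, j a = b) →
    (∀ Q : Ideal B, Q.IsPrime → ∃ b, ∀ c, ∃ s, s ∉ Q ∧ (σ b - b) ∣ s * (σ c - c)) →
    IsRegularRing A

/-- The step: invariants of a weighted blowup. -/
def S_STEP : Prop := ∀ (k K K' : Type) [CommRing k] [IsNoetherianRing k] [Field K] [Algebra k K]
  [Field K'] [Algebra k K'] (ι : K' →ₐ[k] K) (p : ℕ), p.Prime → ∀ τ : K ≃ₐ[k] K,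
    (∀ x, τ^[p] x = x) → (∃ x, τ x ≠ x) → (∀ x, τ x = x ↔ ∃ y, ι y = x) →
    ∀ R : Subalgebra k (LP K), Ch R → (∀ f ∈ R, tl τ f ∈ R) →
    (∀ Q : Ideal R, Q.IsPrime →
      (∃ (e : ℕ) (η : K) (he : hm e η ∈ R), 0 < e ∧ (⟨hm e η, he⟩ : R) ∉ Q) →
      ∃ b ∈ R, ∀ c ∈ R, ∃ (s : LP K) (hs : s ∈ R), (⟨s, hs⟩ : R) ∉ Q ∧
        ∃ u ∈ R, s * (tl τ c - c) = u * (tl τ b - b)) →
    Ch (res ι R)

end Pool.Agent.Y223.G
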