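import Pool.Agent.Y223.G.Stm9

/-!
# Statements of the parts of project G: Weil restrictions, wild inertia of prime order
-/

set_option autoImplicit false

namespace Pool.Agent.Y223.G

open IsLocalRing Pool.Agent.W418.LU2

/-- The base: a Dedekind domain `O`, finite over `k`, with an action of the finite group `G` with
the fixed ring `k` and finite residue fields, in the field `K` with an action of `G`, such that the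
wild inertia groups have order at most `p`. -/
structure GE (k O K G : Type) [CommRing k] [IsDomain k] [CommRing O] [IsDomain O]
    [IsDedekindDomain O] [Field K] [Group G] [Algebra k O] [Algebra O K] [Algebra k K]
    [IsScalarTower k O K] (ρ : G →* (K ≃ₐ[k] K)) (T : G →* (O ≃ₐ[k] O)) : Prop where
  fin : Module.Finite k O
  inj : Function.Injective (algebraMap O K)
  injk : Function.Injective (algebraMap k K)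
  com : ∀ g o, ρ g (algebraMap O K o) = algebraMap O K (T g o)
  fai : ∀ g, (∀ o, T g o = o) → g = 1
  fix : ∀ o, (∀ g, T g o = o) → ∃ c : k, algebraMap k O c = o
  cg : (Nat.card G : K) ≠ 0
  resf : ∀ 𝔓 : Ideal O, 𝔓.IsMaximal → 𝔓 ≠ ⊥ → Finite (O ⧸ 𝔓)
  inr : ∀ 𝔓 : Ideal O, 𝔓.IsMaximal → 𝔓 ≠ ⊥ → ∃ (p : ℕ) (τ : G), p.Prime ∧ τ ^ p = 1 ∧
    ∀ g, (∀ o, T g o - o ∈ 𝔓) → (∀ o ∈ 𝔓, T g o - o ∈ 𝔓 ^ 2) → g ∈ Subgroup.zpowers τ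

/-- The hypotheses on the variety: `z ω` are the homogeneous coordinates of the conjugate `ω`. -/
structure GHE (k O M Y K G Ω : Type) [CommRing k] [IsDomain k] [CommRing O] [IsDomain O]
    [IsDedekindDomain O] [Field M] [Field Y] [Field K] [Group G] [MulAction G Ω] [Algebra k O]
    [Algebra O K] [Algebra k K] [IsScalarTower k O K] [Algebra M K] [Algebra k Y]
    (ι : Y →ₐ[k] K) (ρ : G →* (K ≃ₐ[k] K)) (T : G →* (O ≃ₐ[k] O)) (m : ℕ)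
    (z : Ω → Fin (m + 1) → K) : Prop extends GE k O K G ρ T where
  lo : ∀ o : O, ∃ x : M, algebraMap M K x = algebraMap O K o
  lf : ∀ x : M, ∃ a b : O, b ≠ 0 ∧ algebraMap M K x * algebraMap O K b = algebraMap O K a
  fixK : ∀ x, (∀ g, ρ g x = x) ↔ ∃ y, ι y = x
  z0 : ∀ ω j, z ω j ≠ 0
  eqv : ∀ g ω j, ρ g (z ω j) = z (g • ω) j
  gen : IntermediateField.adjoin M {y : K | ∃ ω j, y = z ω j / z ω 0} = ⊤
  ld : ∀ (S : Finset Ω) (ω : Ω), ω ∉ S →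
    (IntermediateField.adjoin M {y : K | ∃ ω' ∈ S, ∃ j, y = z ω' j / z ω' 0}
      ).toSubalgebra.LinearDisjoint
        (IntermediateField.adjoin M {y : K | ∃ j, y = z ω j / z ω 0}).toSubalgebra
  sm : ∀ ω j (q : Ideal (AZ O (z ω) j)) [q.IsPrime],
    (∃ g : G, g ≠ 1 ∧ (∀ o, algebraMap O (AZ O (z ω) j) (T g o - o) ∈ q) ∧
      ∀ o ∈ q.comap (algebraMap O (AZ O (z ω) j)),
        T g o - o ∈ q.comap (algebraMap O (AZ O (z ω) j)) ^ 2) → Algebra.IsSmoothAt O q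
  rg : ∀ J : Ω → Fin (m + 1), IsRegularRing (Algebra.adjoin O
    {y : K | ∃ (ω : Ω) (i : Fin (m + 1)), y = z ω i / z ω (J ω)})

/-- The base is covered by open subsets with wild ramification over at most one prime of `k`, where
the product of the ramified primes is principal. -/
def S_RAMG2 : Prop := ∀ (k O K G : Type) [CommRing k] [IsDomain k] [CommRing O] [IsDomain O]
  [IsDedekindDomain O] [Field K] [Group G] [Finite G] [Algebra k O] [Algebra O K] [Algebra k K]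
  [IsScalarTower k O K] (ρ : G →* (K ≃ₐ[k] K)) (T : G →* (O ≃ₐ[k] O)), GE k O K G ρ T →
  ∃ (β : Type) (_ : Finite β) (_ : Nonempty β) (o : β → k) (π : β → K), (∀ b, o b ≠ 0) ∧
    (∀ b, π b ≠ 0) ∧ Ideal.span (Set.range o) = ⊤ ∧
    (∀ b b', ∃ n : ℕ,
      algebraMap k K (o b') ^ n * (π b' / π b) ∈ OL O (K := K) (o b) ∧
      algebraMap k K (o b') ^ n * (π b / π b') ∈ OL O (K := K) (o b)) ∧
    ∀ b, ∃ (_ : IsDedekindDomain (OL O (K := K) (o b)))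
      (Tb : G →* (OL O (K := K) (o b) ≃ₐ[k] OL O (K := K) (o b))) (N : Type) (_ : Finite N)
      (𝔔 : N → Ideal (OL O (K := K) (o b))) (p l : N → ℕ) (τ : N → G)
      (π' : OL O (K := K) (o b)), (π' : K) = π b ∧
      LocE k (OL O (K := K) (o b)) K G ρ Tb 𝔔 p l τ π' ∧
      (∀ i, ∃ g, g ≠ 1 ∧ (∀ x, Tb g x - x ∈ 𝔔 i) ∧ ∀ x ∈ 𝔔 i, Tb g x - x ∈ 𝔔 i ^ 2) ∧
      ∀ b', b' ≠ b → ∀ i, algebraMap k (OL O (K := K) (o b)) (o b') ∈ 𝔔 i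

/-- The chart of the family `Φ` over the open subset `s ≠ 0` of the base. -/
noncomputable def GRE {k : Type} (O : Type) {K K₂ G Ω : Type} [CommRing k] [CommRing O] [Field K]
    [Field K₂] [Group G] [Algebra k O] [Algebra O K] [Algebra k K] [Algebra k K₂]
    [IsScalarTower k O K] (ε : LP K →ₐ[k] K₂) (ρ : G →* (K ≃ₐ[k] K)) {m : ℕ}
    (z : Ω → Fin (m + 1) → K) (s : k) {N : Type} (𝔔 : N → Ideal (OL O (K := K) s))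
    (p l : N → ℕ) (τ : N → G) (π : K) (d : ℕ) (Φ : Ω → K) : Subalgebra k (LP K₂) :=
  R2 ε (GRG O ρ z s 𝔔 p l τ d Φ) π

/-- The charts of the invariants are regular outside the vertex. -/
def S_GCHE : Prop := ∀ (k O M Y Y₂ K K₂ G Ω : Type) [CommRing k] [IsDomain k] [IsNoetherianRing k]
  [CommRing O] [IsDomain O] [IsDedekindDomain O] [Field M] [Field Y] [Field Y₂] [Field K]
  [Field K₂] [Group G] [Finite G] [Finite Ω] [MulAction G Ω] [Algebra k O] [Algebra O K]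
  [Algebra k K] [IsScalarTower k O K] [Algebra M K] [Algebra k Y] [Algebra k Y₂] [Algebra k K₂]
  (ι : Y →ₐ[k] K) (ι₂ : Y₂ →ₐ[k] K₂) (εY : LP Y →ₐ[k] Y₂) (ε : LP K →ₐ[k] K₂)
  (ρ : G →* (K ≃ₐ[k] K)) (ρ₂ : G →* (K₂ ≃ₐ[k] K₂)), Ext2M ι ι₂ εY ε ρ ρ₂ →
  ∀ (T : G →* (O ≃ₐ[k] O)) (m : ℕ) (z : Ω → Fin (m + 1) → K), GHE k O M Y K G Ω ι ρ T m z →
  ∀ (s : k) (_ : IsDedekindDomain (OL O (K := K) s))
  (Tb : G →* (OL O (K := K) s ≃ₐ[k] OL O (K := K) s)) (N : Type) [Finite N]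
  (𝔔 : N → Ideal (OL O (K := K) s)) (p l : N → ℕ) (τ : N → G) (π : OL O (K := K) s), s ≠ 0 →
  LocE k (OL O (K := K) s) K G ρ Tb 𝔔 p l τ π →
  (∀ i, ∃ g, g ≠ 1 ∧ (∀ x, Tb g x - x ∈ 𝔔 i) ∧ ∀ x ∈ 𝔔 i, Tb g x - x ∈ 𝔔 i ^ 2) →
  ∀ (d : ℕ) (Φ : Ω → K), 1 ≤ d → Fm k K G Ω ρ z d Φ →
  Ch (res ι₂ (GRE O ε ρ z s 𝔔 p l τ (π : K) d Φ))

/-- Gluing. -/
def S_GLAE : Prop := ∀ (k O K K₂ G Ω : Type) [CommRing k] [CommRing O] [Field K] [Field K₂]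
  [Group G] [Finite G] [Finite Ω] [MulAction G Ω] [Algebra k O] [Algebra O K] [Algebra k K]
  [Algebra k K₂] [IsScalarTower k O K] (ε : LP K →ₐ[k] K₂) (_ : Ext2 ε) (ρ : G →* (K ≃ₐ[k] K))
  (m : ℕ) (z : Ω → Fin (m + 1) → K) (s : k) (_ : algebraMap k K s ≠ 0) (N : Type) [Finite N]
  (𝔔 : N → Ideal (OL O (K := K) s)) (p l : N → ℕ) (τ : N → G) (_ : ∀ i, 0 < p i) (π : K)
  (_ : π ≠ 0) (d : ℕ) (Φ : Ω → K), Fm k K G Ω ρ z d Φ →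
  (∀ Ψ : Ω → K, Fm k K G Ω ρ z d Ψ → ∀ x : K, (∃ _ : Fintype Ω, x = ∏ ω, Ψ ω / Φ ω) →
    hm 0 (ε (hm 0 x)) ∈ GRE O ε ρ z s 𝔔 p l τ π d Φ ∧
    ∀ f ∈ GRE O ε ρ z s 𝔔 p l τ π d Ψ, ∃ n : ℕ,
      hm 0 (ε (hm 0 x)) ^ n * f ∈ GRE O ε ρ z s 𝔔 p l τ π d Φ) ∧
  (∀ s' : k, algebraMap k K s' ≠ 0 → ∀ (N' : Type) [Finite N']
    (𝔔' : N' → Ideal (OL O (K := K) s')) (p' l' : N' → ℕ) (τ' : N' → G) (π' : K), π' ≠ 0 →
    (∀ i, algebraMap k (OL O (K := K) s) s' ∈ 𝔔 i) →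
    (∃ n : ℕ, algebraMap k K s' ^ n * (π' / π) ∈ OL O (K := K) s ∧
      algebraMap k K s' ^ n * (π / π') ∈ OL O (K := K) s) →
    hm 0 (ε (hm 0 (algebraMap k K s' / algebraMap k K s))) ∈ GRE O ε ρ z s 𝔔 p l τ π d Φ ∧
    ∀ f ∈ GRE O ε ρ z s' 𝔔' p' l' τ' π' d Φ, ∃ n : ℕ,
      hm 0 (ε (hm 0 (algebraMap k K s' / algebraMap k K s))) ^ n * f ∈
        GRE O ε ρ z s 𝔔 p l τ π d Φ)

/-- Valuations. -/
def S_GVAE : Prop := ∀ (k O M Y Y₂ K K₂ G Ω : Type) [CommRing k] [IsDomain k]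
  [CommRing O] [IsDomain O] [IsDedekindDomain O] [Field M] [Field Y] [Field Y₂] [Field K]
  [Field K₂] [Group G] [Finite G] [Finite Ω] [Nonempty Ω] [MulAction G Ω] [Algebra k O]
  [Algebra O K] [Algebra k K] [IsScalarTower k O K] [Algebra M K] [Algebra k Y] [Algebra k Y₂]
  [Algebra k K₂] (ι : Y →ₐ[k] K) (ι₂ : Y₂ →ₐ[k] K₂) (εY : LP Y →ₐ[k] Y₂) (ε : LP K →ₐ[k] K₂)
  (ρ : G →* (K ≃ₐ[k] K)) (ρ₂ : G →* (K₂ ≃ₐ[k] K₂)), Ext2M ι ι₂ εY ε ρ ρ₂ →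
  ∀ (T : G →* (O ≃ₐ[k] O)) (m : ℕ) (z : Ω → Fin (m + 1) → K), GHE k O M Y K G Ω ι ρ T m z →
  ∃ (d : ℕ) (S : Set (Ω → K)), 1 ≤ d ∧ S.Finite ∧ (∀ Φ ∈ S, Fm k K G Ω ρ z d Φ) ∧
    ∀ V : ValuationSubring Y, (∀ c : k, algebraMap k Y c ∈ V) → ∃ Φ ∈ S,
      ∀ s : k, s ≠ 0 → (algebraMap k Y s)⁻¹ ∈ V →
        ∀ (N : Type) (𝔔 : N → Ideal (OL O (K := K) s)) (p l : N → ℕ) (τ : N → G) (π : K), π ≠ 0 →
        ∃ V₂ : ValuationSubring Y₂, (∀ c : k, algebraMap k Y₂ c ∈ V₂) ∧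
          (∀ x : Y₂, hm 0 x ∈ res ι₂ (GRE O ε ρ z s 𝔔 p l τ π d Φ) → x ∈ V₂) ∧
          ∀ x : Y, εY (hm 0 x) ∈ V₂ → x ∈ V

/-- The field of fractions of the charts, constants and units. -/
def S_GFRE : Prop := ∀ (k O M Y Y₂ K K₂ G Ω : Type) [CommRing k] [IsDomain k]
  [CommRing O] [IsDomain O] [IsDedekindDomain O] [Field M] [Field Y] [Field Y₂] [Field K]
  [Field K₂] [Group G] [Finite G] [Finite Ω] [Nonempty Ω] [MulAction G Ω] [Algebra k O]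
  [Algebra O K] [Algebra k K] [IsScalarTower k O K] [Algebra M K] [Algebra k Y] [Algebra k Y₂]
  [Algebra k K₂] (ι : Y →ₐ[k] K) (ι₂ : Y₂ →ₐ[k] K₂) (εY : LP Y →ₐ[k] Y₂) (ε : LP K →ₐ[k] K₂)
  (ρ : G →* (K ≃ₐ[k] K)) (ρ₂ : G →* (K₂ ≃ₐ[k] K₂)), Ext2M ι ι₂ εY ε ρ ρ₂ →
  ∀ (T : G →* (O ≃ₐ[k] O)) (m : ℕ) (z : Ω → Fin (m + 1) → K), GHE k O M Y K G Ω ι ρ T m z →
  ∀ (s : k) (_ : IsDedekindDomain (OL O (K := K) s))
  (Tb : G →* (OL O (K := K) s ≃ₐ[k] OL O (K := K) s)) (N : Type) [Finite N]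
  (𝔔 : N → Ideal (OL O (K := K) s)) (p l : N → ℕ) (τ : N → G) (π : OL O (K := K) s), s ≠ 0 →
  LocE k (OL O (K := K) s) K G ρ Tb 𝔔 p l τ π → ∀ (d : ℕ) (Φ : Ω → K), 1 ≤ d →
  Fm k K G Ω ρ z d Φ → ∀ R : Subalgebra k (LP Y₂),
  R = res ι₂ (GRE O ε ρ z s 𝔔 p l τ (π : K) d Φ) →
  (∀ x : Y₂, ∃ y y' : Y₂, hm 0 y ∈ R ∧ hm 0 y' ∈ R ∧ y' ≠ 0 ∧ x = y / y') ∧
  (∃ c : k, c ≠ 0 ∧ hm 1 (algebraMap k Y₂ c) ∈ R) ∧
  (∃ c : k, c ≠ 0 ∧ hm 0 (εY (hm 1 (algebraMap k Y c))) ∈ R) ∧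
  hm 0 (εY (hm (-1) 1)) ∈ R ∧
  ∃ w : Y, w ≠ 0 ∧ hm 0 (εY (hm (Nat.card G) w)) ∈ R ∧
    hm 0 (εY (hm (-(Nat.card G : ℤ)) w⁻¹)) ∈ R

/-- The generic fibre. -/
def S_GMOE : Prop := ∀ (k O M Y Y₂ K K₂ G Ω : Type) [CommRing k] [IsDomain k]
  [CommRing O] [IsDomain O] [IsDedekindDomain O] [Field M] [Field Y] [Field Y₂] [Field K]
  [Field K₂] [Group G] [Finite G] [Fintype Ω] [Nonempty Ω] [MulAction G Ω] [Algebra k O]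
  [Algebra O K] [Algebra k K] [IsScalarTower k O K] [Algebra M K] [Algebra k Y] [Algebra k Y₂]
  [Algebra k K₂] (ι : Y →ₐ[k] K) (ι₂ : Y₂ →ₐ[k] K₂) (εY : LP Y →ₐ[k] Y₂) (ε : LP K →ₐ[k] K₂)
  (ρ : G →* (K ≃ₐ[k] K)) (ρ₂ : G →* (K₂ ≃ₐ[k] K₂)), Ext2M ι ι₂ εY ε ρ ρ₂ →
  ∀ (T : G →* (O ≃ₐ[k] O)) (m : ℕ) (z : Ω → Fin (m + 1) → K), GHE k O M Y K G Ω ι ρ T m z →
  ∀ (M₀ : Submodule k Y), Submodule.span M (ι '' (M₀ : Set Y)) =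
    Submodule.span M (Set.range fun J : Ω → Fin (m + 1) => ∏ ω, z ω (J ω)) →
  ∀ (s : k) (N : Type) [Finite N] (𝔔 : N → Ideal (OL O (K := K) s)) (p l : N → ℕ) (τ : N → G)
  (π : OL O (K := K) s), π ≠ 0 → s ≠ 0 → (∀ i, 0 < p i) → ∀ (d : ℕ) (Φ : Ω → K), 1 ≤ d →
  Fm k K G Ω ρ z d Φ → ∀ h : Y, ι h = (∏ ω, Φ ω) * algebraMap k K s →
  h ∈ sat (M₀ ^ d) ∧
  (∀ x ∈ M₀ ^ d, ∃ c : k, c ≠ 0 ∧
    hm 0 (εY (hm 0 (c • (x / h)))) ∈ res ι₂ (GRE O ε ρ z s 𝔔 p l τ (π : K) d Φ)) ∧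
  ∀ (f : Y) (b : ℤ), hm 0 (εY (hm b f)) ∈ res ι₂ (GRE O ε ρ z s 𝔔 p l τ (π : K) d Φ) →
    ∃ N₀ : ℕ, ∀ N', N₀ ≤ N' → h ^ N' * f ∈ sat (M₀ ^ (d * N'))

/-- **Products of Weil restrictions.** -/
def S_WEILE : Prop := ∀ (k O M Y K G Ω : Type) [CommRing k] [IsDomain k] [IsNoetherianRing k]
  [CommRing O] [IsDomain O] [IsDedekindDomain O] [Field M] [Field Y] [Field K] [Group G]
  [Finite G] [Fintype Ω] [Nonempty Ω] [MulAction G Ω] [Algebra k O] [Algebra O K] [Algebra k K]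
  [IsScalarTower k O K] [Algebra M K] [Algebra k Y] (ι : Y →ₐ[k] K) (ρ : G →* (K ≃ₐ[k] K))
  (T : G →* (O ≃ₐ[k] O)) (m : ℕ) (z : Ω → Fin (m + 1) → K), GHE k O M Y K G Ω ι ρ T m z →
  ∀ (M₀ : Submodule k Y), M₀.FG → ∀ P : Prop,
  (P → Submodule.span M (ι '' (M₀ : Set Y)) =
    Submodule.span M (Set.range fun J : Ω → Fin (m + 1) => ∏ ω, z ω (J ω))) →
  ∃ M' : Submodule k Y, M'.FG ∧ (∃ f ∈ M', f ≠ 0) ∧
    (∀ f ∈ M', f ≠ 0 → ∀ y : Y, ∃ b ∈ Pool.Agent.H918R2.Quad.chart k M' f,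
      ∃ c ∈ Pool.Agent.H918R2.Quad.chart k M' f, c ≠ 0 ∧ y = b / c) ∧
    (∀ f ∈ M', f ≠ 0 → ∀ (q : Ideal (Pool.Agent.H918R2.Quad.chart k M' f)) [q.IsPrime],
      IsRegularLocalRing (Localization.AtPrime q)) ∧
    (P → ∃ n : ℕ, 1 ≤ n ∧ (∀ y ∈ M', y ∈ sat (M₀ ^ n)) ∧
      ∀ y : Y, y ∈ M₀ ^ n → ∃ s : k, s ≠ 0 ∧ s • y ∈ M')

end Pool.Agent.Y223.G
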