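import Pool.Agent.Y223.G.Stm10

/-!
# Statements of the parts of project G: general weighted blowups at the wild primes
-/

set_option autoImplicit false

namespace Pool.Agent.Y223.G

open IsLocalRing Pool.Agent.W418.LU2

/-- The graded algebra of a chart `C`, from the graded algebras `R i` at the wild primes. -/
noncomputable def RX (k : Type) {O K N : Type} [CommRing k] [CommRing O] [Field K] [Algebra O K]
    [Algebra k K] (C : Subalgebra O K) (R : N → Subalgebra k (LP K)) : Subalgebra k (LP K) :=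
  RR k 1 1 ⊤ 0 C ⊓ ⨅ i, R i

/-- Graded algebras `R i` at the wild primes `𝔔 i`, for the chart `C`: they are regular, compatible
with the group, and `τ i = 1 + T ^ (-D) δ`, where `δ` has no zeros outside the vertex. -/
structure WCt (k O K G : Type) [CommRing k] [CommRing O] [Field K] [Group G] [Algebra k O]
    [Algebra O K] [Algebra k K] [IsScalarTower k O K] (ρ : G →* (K ≃ₐ[k] K))
    (T : G →* (O ≃ₐ[k] O)) {N : Type} (𝔔 : N → Ideal O) (τ : N → G) (π : O)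
    (C : Subalgebra O K) (R : N → Subalgebra k (LP K)) : Prop where
  st : ∀ g, ∀ c ∈ C, ρ g c ∈ C
  ftC : Algebra.FiniteType O C
  rgC : IsRegularRing C
  c0 : ∀ i, ∀ c ∈ C, hm 0 c ∈ R i
  d0 : ∀ i (d : ℤ) x, hm d x ∈ R i → x ∈ C
  gr : ∀ i, Gr (R i)
  ss : ∀ i, hm (-1) 1 ∈ R i
  ft : ∀ i, Algebra.FiniteType k (R i)
  rg : ∀ i, IsRegularRing (R i)
  up : ∀ i, ∀ e ∈ 𝔔 i, hm 1 (algebraMap O K e) ∈ R i
  sg : ∀ g i j, (∀ o, o ∈ 𝔔 i ↔ T g o ∈ 𝔔 j) → ∀ f ∈ R i, tl (ρ g) f ∈ R j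
  dl : ∀ i, ∃ D : ℕ, 0 < D ∧ (∀ f ∈ R i, hm D 1 * (tl (ρ (τ i)) f - f) ∈ R i) ∧
    (∀ w, T (τ i) π = w * π → hm D (algebraMap O K (w - 1)) ∈ R i) ∧
    ∀ Q : Ideal (R i), Q.IsPrime →
      (∀ e ∈ 𝔔 i, ∃ h : hm 0 (algebraMap O K e) ∈ R i, (⟨_, h⟩ : R i) ∈ Q) →
      (∃ (e : ℕ) (η : K) (he : hm e η ∈ R i), 0 < e ∧ (⟨hm e η, he⟩ : R i) ∉ Q) →
      ∃ b ∈ R i, ∃ h : hm D 1 * (tl (ρ (τ i)) b - b) ∈ R i, (⟨_, h⟩ : R i) ∉ Q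

/-- The graded algebra of a chart. -/
def S_RECHW : Prop := ∀ (k O K G : Type) [CommRing k] [IsNoetherianRing k] [CommRing O]
  [IsDomain O] [IsDedekindDomain O] [Field K] [Group G] [Algebra k O] [Algebra O K] [Algebra k K]
  [IsScalarTower k O K] (ρ : G →* (K ≃ₐ[k] K)) (T : G →* (O ≃ₐ[k] O)) (N : Type) [Finite N]
  (𝔔 : N → Ideal O) (p l : N → ℕ) (τ : N → G) (π : O), LocE k O K G ρ T 𝔔 p l τ π →
  ∀ (C : Subalgebra O K) (R : N → Subalgebra k (LP K)), WCt k O K G ρ T 𝔔 τ π C R →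
  Ch (RX k C R) ∧ ∀ g, ∀ f ∈ RX k C R, tl (ρ g) f ∈ RX k C R

/-- The inertia groups outside the vertex. -/
def S_REINW : Prop := ∀ (k O K K₂ G : Type) [CommRing k] [CommRing O] [IsDomain O]
  [IsDedekindDomain O] [Field K] [Field K₂] [Group G] [Finite G] [Algebra k O] [Algebra O K]
  [Algebra k K] [Algebra k K₂] [IsScalarTower k O K] (ε : LP K →ₐ[k] K₂), Ext2 ε →
  ∀ (ρ : G →* (K ≃ₐ[k] K)) (ρ₂ : G →* (K₂ ≃ₐ[k] K₂)),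
  (∀ g w, ρ₂ g (ε w) = ε (tl (ρ g) w)) → ∀ (T : G →* (O ≃ₐ[k] O)) (N : Type) [Finite N]
  (𝔔 : N → Ideal O) (p l : N → ℕ) (τ : N → G) (π : O), LocE k O K G ρ T 𝔔 p l τ π →
  ∀ (C : Subalgebra O K) (R' : N → Subalgebra k (LP K)), WCt k O K G ρ T 𝔔 τ π C R' →
  ∀ R : Subalgebra k (LP K₂), R = R2 ε (RX k C R') (algebraMap O K π) →
  ∀ Q : Ideal R, Q.IsPrime →
    (∃ (e : ℕ) (η : K₂) (he : hm e η ∈ R), 0 < e ∧ (⟨hm e η, he⟩ : R) ∉ Q) →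
    (∀ g, (∀ f ∈ R, ∃ h : tl (ρ₂ g) f - f ∈ R, (⟨tl (ρ₂ g) f - f, h⟩ : R) ∈ Q) → g = 1) ∨
    ∃ (p : ℕ) (τ : G), p.Prime ∧ τ ^ p = 1 ∧
      (∀ g, (∀ f ∈ R, ∃ h : tl (ρ₂ g) f - f ∈ R, (⟨tl (ρ₂ g) f - f, h⟩ : R) ∈ Q) →
        g ∈ Subgroup.zpowers τ) ∧
      ∃ b ∈ R, ∀ c ∈ R, ∃ (s : LP K₂) (hs : s ∈ R), (⟨s, hs⟩ : R) ∉ Q ∧
        ∃ u ∈ R, s * (tl (ρ₂ τ) c - c) = u * (tl (ρ₂ τ) b - b)

/-- **The charts of the quotient are regular outside the vertex.** -/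
def S_CHW : Prop := ∀ (k O K K₂ G : Type) [CommRing k] [IsNoetherianRing k] [CommRing O]
  [IsDomain O] [IsDedekindDomain O] [Field K] [Field K₂] [Group G] [Finite G] [Algebra k O]
  [Algebra O K] [Algebra k K] [Algebra k K₂] [IsScalarTower k O K]
  (ε : LP K →ₐ[k] K₂), Ext2 ε → ∀ (ρ : G →* (K ≃ₐ[k] K)) (ρ₂ : G →* (K₂ ≃ₐ[k] K₂)),
  (∀ g w, ρ₂ g (ε w) = ε (tl (ρ g) w)) → ∀ (T : G →* (O ≃ₐ[k] O)) (N : Type) [Finite N]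
  (𝔔 : N → Ideal O) (p l : N → ℕ) (τ : N → G) (π : O), LocE k O K G ρ T 𝔔 p l τ π →
  ∀ (C : Subalgebra O K) (R : N → Subalgebra k (LP K)), WCt k O K G ρ T 𝔔 τ π C R →
  ∀ (K' : Type) [Field K'] [Algebra k K'] (ι : K' →ₐ[k] K₂),
  (∀ x, (∀ g, ρ₂ g x = x) ↔ ∃ y, ι y = x) →
  Ch (res ι (R2 ε (RX k C R) (algebraMap O K π)))

end Pool.Agent.Y223.G
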