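import Pool.Agent.Y223.G.Stm11

/-!
# Statements of the parts of project G: linear actions and weighted homogeneous coordinates
-/

set_option autoImplicit false

namespace Pool.Agent.Y223.G

open IsLocalRing Pool.Agent.W418.LU2

/-- A family of invariant forms of degree `d` in the coordinates `z ω`, with coefficients in `O`. -/
structure FmL (k O K G Ω : Type) [CommRing k] [CommRing O] [Field K] [Group G] [Algebra k K]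
    [Algebra O K] (ρ : G →* (K ≃ₐ[k] K)) {m : ℕ} (z : Ω → Fin (m + 1) → K) (d : ℕ)
    (Φ : Ω → K) : Prop where
  mem : ∀ ω, Φ ω ∈ FS O (z ω) d
  ne : ∀ ω, Φ ω ≠ 0
  inv : ∀ g ω, ρ g (Φ ω) = Φ ω

/-- The hypotheses on the product of the varieties with the homogeneous coordinates `z ω`, on each
of which the group acts linearly. -/
structure GHL (k O M Y K G Ω : Type) [CommRing k] [IsDomain k] [CommRing O] [IsDomain O]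
    [IsDedekindDomain O] [Field M] [Field Y] [Field K] [Group G] [Algebra k O]
    [Algebra O K] [Algebra k K] [IsScalarTower k O K] [Algebra M K] [Algebra k Y]
    (ι : Y →ₐ[k] K) (ρ : G →* (K ≃ₐ[k] K)) (T : G →* (O ≃ₐ[k] O)) (m : ℕ)
    (z : Ω → Fin (m + 1) → K) : Prop extends GE k O K G ρ T where
  lo : ∀ o : O, ∃ x : M, algebraMap M K x = algebraMap O K o
  lf : ∀ x : M, ∃ a b : O, b ≠ 0 ∧ algebraMap M K x * algebraMap O K b = algebraMap O K a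
  fixK : ∀ x, (∀ g, ρ g x = x) ↔ ∃ y, ι y = x
  z0 : ∀ ω j, z ω j ≠ 0
  lin : ∀ g ω j, ρ g (z ω j) ∈ Submodule.span O (Set.range (z ω))
  gen : IntermediateField.adjoin M {y : K | ∃ ω j, y = z ω j / z ω 0} = ⊤
  ld : ∀ (S : Finset Ω) (ω : Ω), ω ∉ S →
    (IntermediateField.adjoin M {y : K | ∃ ω' ∈ S, ∃ j, y = z ω' j / z ω' 0}
      ).toSubalgebra.LinearDisjoint
        (IntermediateField.adjoin M {y : K | ∃ j, y = z ω j / z ω 0}).toSubalgebra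
  rg : ∀ J : Ω → Fin (m + 1), IsRegularRing (Algebra.adjoin O
    {y : K | ∃ (ω : Ω) (i : Fin (m + 1)), y = z ω i / z ω (J ω)})

/-- The graded algebra of the weighted blowup where `𝔓` has the weight `e` and the coordinate
`z ω j` has the weight `W ω j`. -/
noncomputable def RW (k : Type) {O K Ω : Type} [CommRing k] [CommRing O] [Field K] [Algebra O K]
    [Algebra k K] (𝔓 : Ideal O) (e : ℕ) {m : ℕ} (W : Ω → Fin (m + 1) → ℕ)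
    (z : Ω → Fin (m + 1) → K) (d : ℕ) (Φ : Ω → K) : Subalgebra k (LP K) :=
  Algebra.adjoin k ({hm (-1) 1} ∪ {f | ∃ a ∈ 𝔓, f = hm e (algebraMap O K a)} ∪
    {f | ∃ o : O, f = hm 0 (algebraMap O K o)} ∪
    {f | ∃ (ω : Ω) (a : Fin (m + 1) → ℕ), ∑ j, a j = d ∧
      f = hm ((∑ j, W ω j * a j : ℕ) : ℤ) ((∏ j, z ω j ^ a j) / Φ ω)})

/-- The chart of the family `Φ` over the open subset `s ≠ 0` of the base. -/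
noncomputable def GRW {k : Type} (O : Type) {K K₂ Ω : Type} [CommRing k] [CommRing O] [Field K]
    [Field K₂] [Algebra k O] [Algebra O K] [Algebra k K] [Algebra k K₂] [IsScalarTower k O K]
    (ε : LP K →ₐ[k] K₂) {m : ℕ} (z : Ω → Fin (m + 1) → K) (s : k) {N : Type}
    (𝔔 : N → Ideal (OL O (K := K) s)) (e : N → ℕ) (W : N → Ω → Fin (m + 1) → ℕ) (π : K) (d : ℕ)
    (Φ : Ω → K) : Subalgebra k (LP K₂) :=
  R2 ε (RX k (CG (OL O (K := K) s) z d Φ) (fun i => RW k (𝔔 i) (e i) (W i) z d Φ)) π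

/-- Simple properties of the graded algebra `RW`. -/
def S_RWB : Prop := ∀ (k O K Ω : Type) [CommRing k] [CommRing O] [Field K] [Finite Ω]
  [Algebra k O] [Algebra O K] [Algebra k K] [IsScalarTower k O K] (𝔓 : Ideal O) (e : ℕ),
  0 < e → ∀ (m : ℕ) (W : Ω → Fin (m + 1) → ℕ) (z : Ω → Fin (m + 1) → K) (d : ℕ) (Φ : Ω → K),
  (∀ c ∈ CG O z d Φ, hm 0 c ∈ RW k 𝔓 e W z d Φ) ∧
  (∀ (n : ℤ) x, hm n x ∈ RW k 𝔓 e W z d Φ → x ∈ CG O z d Φ) ∧ Gr (RW k 𝔓 e W z d Φ) ∧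
  hm (-1) 1 ∈ RW k 𝔓 e W z d Φ ∧
  (∀ a ∈ 𝔓, hm 1 (algebraMap O K a) ∈ RW k 𝔓 e W z d Φ) ∧
  (∀ n : ℕ, ∀ a ∈ 𝔓 ^ n, hm ((e * n : ℕ) : ℤ) (algebraMap O K a) ∈ RW k 𝔓 e W z d Φ) ∧
  (Algebra.FiniteType k O → IsNoetherianRing O → Algebra.FiniteType k (RW k 𝔓 e W z d Φ))

/-- Smoothness of the charts of forms with coefficients in `O`. -/
def S_SMAL : Prop := ∀ (k O K : Type) [CommRing k] [CommRing O] [IsNoetherianRing O] [Field K]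
  [Algebra k O] [Algebra O K] [Algebra k K] [IsScalarTower k O K] (_ : Function.Injective
  (algebraMap O K)) (s : k) (_ : algebraMap k K s ≠ 0) (m : ℕ) (z : Fin (m + 1) → K)
  (_ : ∀ j, z j ≠ 0), (∀ j (q : Ideal (AZ O z j)) [q.IsPrime], Algebra.IsSmoothAt O q) →
  ∀ (d : ℕ) (F : K), 1 ≤ d → F ∈ FS O z d → F ≠ 0 →
  ∀ (q : Ideal (AF (OL O (K := K) s) z d F)) [q.IsPrime],
    Algebra.IsSmoothAt (OL O (K := K) s) q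

/-- Regularity of the products of charts of forms with coefficients in `O`. -/
def S_REGL : Prop := ∀ (k O K Ω : Type) [CommRing k] [CommRing O] [IsNoetherianRing O] [Field K]
  [Finite Ω] [Algebra k O] [Algebra O K] [Algebra k K] [IsScalarTower k O K] (s : k)
  (_ : algebraMap k K s ≠ 0) (m : ℕ) (z : Ω → Fin (m + 1) → K) (_ : ∀ ω j, z ω j ≠ 0),
  (∀ J : Ω → Fin (m + 1), IsRegularRing (Algebra.adjoin O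
    {y : K | ∃ (ω : Ω) (i : Fin (m + 1)), y = z ω i / z ω (J ω)})) →
  ∀ (d : ℕ) (Φ : Ω → K), 1 ≤ d → (∀ ω, Φ ω ∈ FS O (z ω) d) → (∀ ω, Φ ω ≠ 0) →
  IsRegularRing (CG (OL O (K := K) s) z d Φ)

/-- Gluing. -/
def S_GLW : Prop := ∀ (k O K K₂ G Ω : Type) [CommRing k] [CommRing O] [Field K] [Field K₂]
  [Group G] [Finite G] [Finite Ω] [Algebra k O] [Algebra O K] [Algebra k K]
  [Algebra k K₂] [IsScalarTower k O K] (ε : LP K →ₐ[k] K₂) (_ : Ext2 ε) (ρ : G →* (K ≃ₐ[k] K))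
  (m : ℕ) (z : Ω → Fin (m + 1) → K) (s : k) (_ : algebraMap k K s ≠ 0) (N : Type) [Finite N]
  (𝔔 : N → Ideal (OL O (K := K) s)) (e : N → ℕ) (W : N → Ω → Fin (m + 1) → ℕ)
  (_ : ∀ i, 0 < e i) (π : K) (_ : π ≠ 0) (d : ℕ) (Φ : Ω → K), FmL k O K G Ω ρ z d Φ →
  (∀ Ψ : Ω → K, FmL k O K G Ω ρ z d Ψ → ∀ x : K, (∃ _ : Fintype Ω, x = ∏ ω, Ψ ω / Φ ω) →
    hm 0 (ε (hm 0 x)) ∈ GRW O ε z s 𝔔 e W π d Φ ∧
    ∀ f ∈ GRW O ε z s 𝔔 e W π d Ψ, ∃ n : ℕ,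
      hm 0 (ε (hm 0 x)) ^ n * f ∈ GRW O ε z s 𝔔 e W π d Φ) ∧
  (∀ s' : k, algebraMap k K s' ≠ 0 → ∀ (N' : Type) [Finite N']
    (𝔔' : N' → Ideal (OL O (K := K) s')) (e' : N' → ℕ) (W' : N' → Ω → Fin (m + 1) → ℕ) (π' : K),
    π' ≠ 0 → (∀ i, algebraMap k (OL O (K := K) s) s' ∈ 𝔔 i) →
    (∃ n : ℕ, algebraMap k K s' ^ n * (π' / π) ∈ OL O (K := K) s ∧
      algebraMap k K s' ^ n * (π / π') ∈ OL O (K := K) s) →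
    hm 0 (ε (hm 0 (algebraMap k K s' / algebraMap k K s))) ∈ GRW O ε z s 𝔔 e W π d Φ ∧
    ∀ f ∈ GRW O ε z s' 𝔔' e' W' π' d Φ, ∃ n : ℕ,
      hm 0 (ε (hm 0 (algebraMap k K s' / algebraMap k K s))) ^ n * f ∈
        GRW O ε z s 𝔔 e W π d Φ)

/-- Valuations. -/
def S_GVW : Prop := ∀ (k O M Y Y₂ K K₂ G Ω : Type) [CommRing k] [IsDomain k]
  [CommRing O] [IsDomain O] [IsDedekindDomain O] [Field M] [Field Y] [Field Y₂] [Field K]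
  [Field K₂] [Group G] [Finite G] [Finite Ω] [Nonempty Ω] [Algebra k O]
  [Algebra O K] [Algebra k K] [IsScalarTower k O K] [Algebra M K] [Algebra k Y] [Algebra k Y₂]
  [Algebra k K₂] (ι : Y →ₐ[k] K) (ι₂ : Y₂ →ₐ[k] K₂) (εY : LP Y →ₐ[k] Y₂) (ε : LP K →ₐ[k] K₂)
  (ρ : G →* (K ≃ₐ[k] K)) (ρ₂ : G →* (K₂ ≃ₐ[k] K₂)), Ext2M ι ι₂ εY ε ρ ρ₂ →
  ∀ (T : G →* (O ≃ₐ[k] O)) (m : ℕ) (z : Ω → Fin (m + 1) → K), GHL k O M Y K G Ω ι ρ T m z →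
  ∃ (d : ℕ) (S : Set (Ω → K)), 1 ≤ d ∧ S.Finite ∧ (∀ Φ ∈ S, FmL k O K G Ω ρ z d Φ) ∧
    ∀ V : ValuationSubring Y, (∀ c : k, algebraMap k Y c ∈ V) → ∃ Φ ∈ S,
      ∀ s : k, s ≠ 0 → (algebraMap k Y s)⁻¹ ∈ V →
        ∀ (N : Type) (𝔔 : N → Ideal (OL O (K := K) s)) (e : N → ℕ)
          (W : N → Ω → Fin (m + 1) → ℕ) (π : K), π ≠ 0 →
        ∃ V₂ : ValuationSubring Y₂, (∀ c : k, algebraMap k Y₂ c ∈ V₂) ∧
          (∀ x : Y₂, hm 0 x ∈ res ι₂ (GRW O ε z s 𝔔 e W π d Φ) → x ∈ V₂) ∧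
          ∀ x : Y, εY (hm 0 x) ∈ V₂ → x ∈ V

/-- The field of fractions of the charts, constants and units. -/
def S_GFW : Prop := ∀ (k O M Y Y₂ K K₂ G Ω : Type) [CommRing k] [IsDomain k]
  [CommRing O] [IsDomain O] [IsDedekindDomain O] [Field M] [Field Y] [Field Y₂] [Field K]
  [Field K₂] [Group G] [Finite G] [Finite Ω] [Nonempty Ω] [Algebra k O]
  [Algebra O K] [Algebra k K] [IsScalarTower k O K] [Algebra M K] [Algebra k Y] [Algebra k Y₂]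
  [Algebra k K₂] (ι : Y →ₐ[k] K) (ι₂ : Y₂ →ₐ[k] K₂) (εY : LP Y →ₐ[k] Y₂) (ε : LP K →ₐ[k] K₂)
  (ρ : G →* (K ≃ₐ[k] K)) (ρ₂ : G →* (K₂ ≃ₐ[k] K₂)), Ext2M ι ι₂ εY ε ρ ρ₂ →
  ∀ (T : G →* (O ≃ₐ[k] O)) (m : ℕ) (z : Ω → Fin (m + 1) → K), GHL k O M Y K G Ω ι ρ T m z →
  ∀ (s : k) (_ : IsDedekindDomain (OL O (K := K) s))
  (Tb : G →* (OL O (K := K) s ≃ₐ[k] OL O (K := K) s)) (N : Type) [Finite N]
  (𝔔 : N → Ideal (OL O (K := K) s)) (p l : N → ℕ) (τ : N → G) (π : OL O (K := K) s), s ≠ 0 →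
  LocE k (OL O (K := K) s) K G ρ Tb 𝔔 p l τ π → ∀ (e : N → ℕ) (W : N → Ω → Fin (m + 1) → ℕ),
  (∀ i, 0 < e i) → ∀ (d : ℕ) (Φ : Ω → K), 1 ≤ d →
  FmL k O K G Ω ρ z d Φ → ∀ R : Subalgebra k (LP Y₂),
  R = res ι₂ (GRW O ε z s 𝔔 e W (π : K) d Φ) →
  (∀ x : Y₂, ∃ y y' : Y₂, hm 0 y ∈ R ∧ hm 0 y' ∈ R ∧ y' ≠ 0 ∧ x = y / y') ∧
  (∃ c : k, c ≠ 0 ∧ hm 1 (algebraMap k Y₂ c) ∈ R) ∧
  (∃ c : k, c ≠ 0 ∧ hm 0 (εY (hm 1 (algebraMap k Y c))) ∈ R) ∧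
  hm 0 (εY (hm (-1) 1)) ∈ R ∧
  ∃ w : Y, w ≠ 0 ∧ hm 0 (εY (hm (Nat.card G) w)) ∈ R ∧
    hm 0 (εY (hm (-(Nat.card G : ℤ)) w⁻¹)) ∈ R

/-- The generic fibre. -/
def S_GMW : Prop := ∀ (k O M Y Y₂ K K₂ G Ω : Type) [CommRing k] [IsDomain k]
  [CommRing O] [IsDomain O] [IsDedekindDomain O] [Field M] [Field Y] [Field Y₂] [Field K]
  [Field K₂] [Group G] [Finite G] [Fintype Ω] [Nonempty Ω] [Algebra k O]
  [Algebra O K] [Algebra k K] [IsScalarTower k O K] [Algebra M K] [Algebra k Y] [Algebra k Y₂]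
  [Algebra k K₂] (ι : Y →ₐ[k] K) (ι₂ : Y₂ →ₐ[k] K₂) (εY : LP Y →ₐ[k] Y₂) (ε : LP K →ₐ[k] K₂)
  (ρ : G →* (K ≃ₐ[k] K)) (ρ₂ : G →* (K₂ ≃ₐ[k] K₂)), Ext2M ι ι₂ εY ε ρ ρ₂ →
  ∀ (T : G →* (O ≃ₐ[k] O)) (m : ℕ) (z : Ω → Fin (m + 1) → K), GHL k O M Y K G Ω ι ρ T m z →
  ∀ (M₀ : Submodule k Y), Submodule.span M (ι '' (M₀ : Set Y)) =
    Submodule.span M (Set.range fun J : Ω → Fin (m + 1) => ∏ ω, z ω (J ω)) →
  ∀ (s : k) (N : Type) [Finite N] (𝔔 : N → Ideal (OL O (K := K) s)) (e : N → ℕ)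
  (W : N → Ω → Fin (m + 1) → ℕ) (π : OL O (K := K) s), π ≠ 0 → s ≠ 0 → (∀ i, 0 < e i) →
  ∀ (d : ℕ) (Φ : Ω → K), 1 ≤ d →
  FmL k O K G Ω ρ z d Φ → ∀ h : Y, ι h = (∏ ω, Φ ω) * algebraMap k K s →
  h ∈ sat (M₀ ^ d) ∧
  (∀ x ∈ M₀ ^ d, ∃ c : k, c ≠ 0 ∧
    hm 0 (εY (hm 0 (c • (x / h)))) ∈ res ι₂ (GRW O ε z s 𝔔 e W (π : K) d Φ)) ∧
  ∀ (f : Y) (b : ℤ), hm 0 (εY (hm b f)) ∈ res ι₂ (GRW O ε z s 𝔔 e W (π : K) d Φ) →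
    ∃ N₀ : ℕ, ∀ N', N₀ ≤ N' → h ^ N' * f ∈ sat (M₀ ^ (d * N'))

/-- **Weighted blowups at the wild primes give models.** -/
def S_LINW : Prop := ∀ (k O M Y K G Ω : Type) [CommRing k] [IsDomain k] [IsNoetherianRing k]
  [CommRing O] [IsDomain O] [IsDedekindDomain O] [Field M] [Field Y] [Field K] [Group G]
  [Finite G] [Fintype Ω] [Nonempty Ω] [Algebra k O] [Algebra O K] [Algebra k K]
  [IsScalarTower k O K] [Algebra M K] [Algebra k Y] (ι : Y →ₐ[k] K) (ρ : G →* (K ≃ₐ[k] K))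
  (T : G →* (O ≃ₐ[k] O)) (m : ℕ) (z : Ω → Fin (m + 1) → K), GHL k O M Y K G Ω ι ρ T m z →
  (∀ (Y₂ K₂ : Type) [Field Y₂] [Field K₂] [Algebra k Y₂] [Algebra k K₂] (ι₂ : Y₂ →ₐ[k] K₂)
    (εY : LP Y →ₐ[k] Y₂) (ε : LP K →ₐ[k] K₂) (ρ₂ : G →* (K₂ ≃ₐ[k] K₂)),
    Ext2M ι ι₂ εY ε ρ ρ₂ → ∀ (s : k) (_ : IsDedekindDomain (OL O (K := K) s))
    (Tb : G →* (OL O (K := K) s ≃ₐ[k] OL O (K := K) s)) (N : Type) [Finite N]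
    (𝔔 : N → Ideal (OL O (K := K) s)) (p l : N → ℕ) (τ : N → G) (π : OL O (K := K) s), s ≠ 0 →
    LocE k (OL O (K := K) s) K G ρ Tb 𝔔 p l τ π →
    (∀ i, ∃ g, g ≠ 1 ∧ (∀ x, Tb g x - x ∈ 𝔔 i) ∧ ∀ x ∈ 𝔔 i, Tb g x - x ∈ 𝔔 i ^ 2) →
    ∃ (e : N → ℕ) (W : N → Ω → Fin (m + 1) → ℕ), (∀ i, 0 < e i) ∧ ∀ (d : ℕ) (Φ : Ω → K),
      1 ≤ d → FmL k O K G Ω ρ z d Φ → Ch (res ι₂ (GRW O ε z s 𝔔 e W (π : K) d Φ))) →
  ∀ (M₀ : Submodule k Y), M₀.FG → ∀ P : Prop,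
  (P → Submodule.span M (ι '' (M₀ : Set Y)) =
    Submodule.span M (Set.range fun J : Ω → Fin (m + 1) => ∏ ω, z ω (J ω))) →
  ∃ M' : Submodule k Y, M'.FG ∧ (∃ f ∈ M', f ≠ 0) ∧
    (∀ f ∈ M', f ≠ 0 → ∀ y : Y, ∃ b ∈ Pool.Agent.H918R2.Quad.chart k M' f,
      ∃ c ∈ Pool.Agent.H918R2.Quad.chart k M' f, c ≠ 0 ∧ y = b / c) ∧
    (∀ f ∈ M', f ≠ 0 → ∀ (q : Ideal (Pool.Agent.H918R2.Quad.chart k M' f)) [q.IsPrime],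
      IsRegularLocalRing (Localization.AtPrime q)) ∧
    (P → ∃ n : ℕ, 1 ≤ n ∧ (∀ y ∈ M', y ∈ sat (M₀ ^ n)) ∧
      ∀ y : Y, y ∈ M₀ ^ n → ∃ s : k, s ≠ 0 ∧ s • y ∈ M')

end Pool.Agent.Y223.G
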