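import Pool.Agent.Y223.G.Stm12
import Mathlib.AlgebraicGeometry.EllipticCurve.VariableChange

/-!
# Statements of the parts of project G: products of elliptic curves
-/

set_option autoImplicit false

namespace Pool.Agent.Y223.G

open IsLocalRing Pool.Agent.W418.LU2

/-- The weights `l`, `0`, `3 l` of the coordinates `X`, `Y`, `Z` of the curves in `B`. -/
noncomputable def WE {Ω : Type} (l : ℕ) (B : Set Ω) (ω : Ω) : Fin (2 + 1) → ℕ :=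
  open Classical in if ω ∈ B then ![l, 0, 3 * l] else 0

/-- Affine coordinates `z 0`, `z 1` on the curve with the Weierstrass equation `Wc`. -/
structure EC0 (O K : Type) [CommRing O] [Field K] [Algebra O K] (z : Fin (2 + 1) → K)
    (Wc : WeierstrassCurve O) : Prop where
  z2 : z 2 = 1
  z0 : ∀ j, z j ≠ 0
  tr : Transcendental O (z 0)
  eq : z 1 ^ 2 + algebraMap O K Wc.a₁ * z 0 * z 1 + algebraMap O K Wc.a₃ * z 1 =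
    z 0 ^ 3 + algebraMap O K Wc.a₂ * z 0 ^ 2 + algebraMap O K Wc.a₄ * z 0 + algebraMap O K Wc.a₆

/-- The action of `τ` on the curves at a wild prime `𝔓`: it is not trivial modulo `𝔓` on the curves
in `B`, and trivial modulo `𝔓 ^ l` on the others. -/
structure EC1 (k O K Ω : Type) [CommRing k] [CommRing O] [Field K] [Algebra k O] [Algebra O K]
    [Algebra k K] (τ : K ≃ₐ[k] K) (t : O ≃ₐ[k] O) (𝔓 : Ideal O) (l : ℕ)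
    (z : Ω → Fin (2 + 1) → K) (Wc : Ω → WeierstrassCurve O) (B : Set Ω) : Prop where
  ec : ∀ ω, EC0 O K (z ω) (Wc ω)
  com : ∀ o, τ (algebraMap O K o) = algebraMap O K (t o)
  dv : ∀ o, t o - o ∈ 𝔓 ^ (l + 1)
  tu : ∀ ω, ∃ u r s v : O, τ (z ω 0) = algebraMap O K (u ^ 2) * z ω 0 + algebraMap O K r ∧
    τ (z ω 1) = algebraMap O K (u ^ 3) * z ω 1 + algebraMap O K (s * u ^ 2) * z ω 0 +
      algebraMap O K v ∧
    u - 1 ∈ 𝔓 ^ l ∧ s ∈ 𝔓 ^ l ∧ (ω ∈ B → r ∉ 𝔓) ∧ (ω ∉ B → r ∈ 𝔓 ^ l ∧ v ∈ 𝔓 ^ l)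

/-- The operator `T ^ (2 l) (τ - 1)`. -/
def S_ECE : Prop := ∀ (k O K Ω : Type) [CommRing k] [CommRing O] [Field K] [Finite Ω]
  [Algebra k O] [Algebra O K] [Algebra k K] [IsScalarTower k O K] (τ : K ≃ₐ[k] K)
  (t : O ≃ₐ[k] O) (𝔓 : Ideal O) (l : ℕ), 1 ≤ l → ∀ (z : Ω → Fin (2 + 1) → K)
  (Wc : Ω → WeierstrassCurve O) (B : Set Ω), EC1 k O K Ω τ t 𝔓 l z Wc B → ∀ (d : ℕ) (Φ : Ω → K),
  (∀ ω, τ (Φ ω) = Φ ω) → ∀ f ∈ RW k 𝔓 2 (WE l B) z d Φ,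
    hm ((2 * l : ℕ) : ℤ) 1 * (tl τ f - f) ∈ RW k 𝔓 2 (WE l B) z d Φ

/-- The operator `T ^ (2 l) (τ - 1)` has no zeros outside the vertex. -/
def S_ECF : Prop := ∀ (k O K Ω : Type) [CommRing k] [CommRing O] [IsDomain O] [IsDedekindDomain O]
  [Field K] [Finite Ω] [Algebra k O] [Algebra O K] [Algebra k K] [IsScalarTower k O K]
  (_ : Function.Injective (algebraMap O K)) (τ : K ≃ₐ[k] K) (t : O ≃ₐ[k] O) (𝔓 : Ideal O),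
  𝔓.IsMaximal → 𝔓 ≠ ⊥ → ∀ (l : ℕ), 1 ≤ l → (∃ π ∈ 𝔓, t π - π ∉ 𝔓 ^ (l + 2)) →
  ∀ (z : Ω → Fin (2 + 1) → K) (Wc : Ω → WeierstrassCurve O) (B : Set Ω),
  EC1 k O K Ω τ t 𝔓 l z Wc B → ∀ (d : ℕ) (Φ : Ω → K), 1 ≤ d → (∀ ω, Φ ω ∈ FS O (z ω) d) →
  (∀ ω, Φ ω ≠ 0) → (∀ ω, τ (Φ ω) = Φ ω) →
  ∀ Q : Ideal (RW k 𝔓 2 (WE l B) z d Φ), Q.IsPrime →
    (∀ e ∈ 𝔓, ∃ h : hm 0 (algebraMap O K e) ∈ RW k 𝔓 2 (WE l B) z d Φ,
      (⟨_, h⟩ : RW k 𝔓 2 (WE l B) z d Φ) ∈ Q) →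
    (∃ (e : ℕ) (η : K) (he : hm e η ∈ RW k 𝔓 2 (WE l B) z d Φ), 0 < e ∧
      (⟨hm e η, he⟩ : RW k 𝔓 2 (WE l B) z d Φ) ∉ Q) →
    ∃ b ∈ RW k 𝔓 2 (WE l B) z d Φ,
      ∃ h : hm ((2 * l : ℕ) : ℤ) 1 * (tl τ b - b) ∈ RW k 𝔓 2 (WE l B) z d Φ,
      (⟨_, h⟩ : RW k 𝔓 2 (WE l B) z d Φ) ∉ Q

/-- Étale coordinate of a chart at the origin of the curve. -/
def S_ECET : Prop := ∀ (O K : Type) [CommRing O] [IsDomain O] [IsNoetherianRing O] [Field K]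
  [Algebra O K], Function.Injective (algebraMap O K) → ∀ (z : Fin (2 + 1) → K)
  (Wc : WeierstrassCurve O), EC0 O K z Wc → ∀ (d : ℕ) (F : K), 1 ≤ d → F ∈ FS O z d → F ≠ 0 →
  ∀ (q : Ideal (AF O z d F)) [q.IsPrime] (x y w : AF O z d F),
  (x : K) = z 0 * z 1 ^ (d - 1) / F → (y : K) = z 1 ^ d / F → (w : K) = z 1 ^ (d - 1) / F →
  x ∈ q → w ∈ q → y ∉ q → EtAt (AF O z d F) q (fun _ : Unit => x)

/-- Smoothness of the charts of a curve with unit discriminant. -/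
def S_ECSM : Prop := ∀ (O K : Type) [CommRing O] [IsDomain O] [IsNoetherianRing O] [Field K]
  [Algebra O K], Function.Injective (algebraMap O K) → ∀ (z : Fin (2 + 1) → K)
  (Wc : WeierstrassCurve O), EC0 O K z Wc → IsUnit Wc.Δ →
  ∀ (j : Fin (2 + 1)) (q : Ideal (AZ O z j)) [q.IsPrime], Algebra.IsSmoothAt O q

/-- The graded algebra at a wild prime is regular. -/
def S_ECR : Prop := ∀ (k O K Ω : Type) [CommRing k] [IsNoetherianRing k] [CommRing O] [IsDomain O]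
  [IsDedekindDomain O] [Field K] [Finite Ω] [Algebra k O] [Algebra O K] [Algebra k K]
  [IsScalarTower k O K] (_ : Function.Injective (algebraMap O K)) (_ : Algebra.FiniteType k O)
  (𝔓 : Ideal O), 𝔓.IsMaximal → 𝔓 ≠ ⊥ → ∀ (l : ℕ), 1 ≤ l →
  ∀ (z : Ω → Fin (2 + 1) → K) (Wc : Ω → WeierstrassCurve O) (B : Set Ω),
  (∀ ω, EC0 O K (z ω) (Wc ω)) → ∀ (d : ℕ) (Φ : Ω → K), 1 ≤ d → (∀ ω, Φ ω ∈ FS O (z ω) d) →
  (∀ ω, Φ ω ≠ 0) →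
  (∀ (S : Finset Ω) (ω : Ω), ω ∉ S →
    (⨆ ω' ∈ S, AF O (z ω') d (Φ ω')).LinearDisjoint (AF O (z ω) d (Φ ω))) →
  (∀ ω (q : Ideal (AF O (z ω) d (Φ ω))) [q.IsPrime],
    q.comap (algebraMap O (AF O (z ω) d (Φ ω))) = 𝔓 → Algebra.IsSmoothAt O q) →
  IsRegularRing (CG O z d Φ) → IsRegularRing (RW k 𝔓 2 (WE l B) z d Φ)

/-- Stability. -/
def S_ECS : Prop := ∀ (k O K Ω : Type) [CommRing k] [CommRing O] [Field K] [Finite Ω]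
  [Algebra k O] [Algebra O K] [Algebra k K] [IsScalarTower k O K] (σ : K ≃ₐ[k] K)
  (t : O ≃ₐ[k] O), (∀ o, σ (algebraMap O K o) = algebraMap O K (t o)) → ∀ (𝔓 𝔓' : Ideal O),
  (∀ o ∈ 𝔓, t o ∈ 𝔓') → ∀ (z : Ω → Fin (2 + 1) → K), (∀ ω, z ω 2 = 1) →
  (∀ ω, ∃ u r s v : O, σ (z ω 0) = algebraMap O K (u ^ 2) * z ω 0 + algebraMap O K r ∧
    σ (z ω 1) = algebraMap O K (u ^ 3) * z ω 1 + algebraMap O K (s * u ^ 2) * z ω 0 +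
      algebraMap O K v) → ∀ (l : ℕ) (B : Set Ω) (d : ℕ) (Φ : Ω → K), (∀ ω, σ (Φ ω) = Φ ω) →
  ∀ f ∈ RW k 𝔓 2 (WE l B) z d Φ, tl σ f ∈ RW k 𝔓' 2 (WE l B) z d Φ

/-- The hypotheses on the curves: Weierstrass equations over `O` with unit discriminants, and the
action of the group by changes of variables; the cocycle of the `u`'s is a coboundary. -/
structure ECD (k O K G Ω : Type) [CommRing k] [CommRing O] [Field K] [Group G] [Algebra k O]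
    [Algebra O K] [Algebra k K] (ρ : G →* (K ≃ₐ[k] K)) (T : G →* (O ≃ₐ[k] O))
    (z : Ω → Fin (2 + 1) → K) (Wc : Ω → WeierstrassCurve O) : Prop where
  ec : ∀ ω, EC0 O K (z ω) (Wc ω)
  du : ∀ ω, IsUnit (Wc ω).Δ
  ch : ∀ ω, ∃ a b : O, a ≠ 0 ∧ b ≠ 0 ∧ ∀ g, ∃ C : WeierstrassCurve.VariableChange O,
    ρ g (z ω 0) = algebraMap O K ((C.u : O) ^ 2) * z ω 0 + algebraMap O K C.r ∧
    ρ g (z ω 1) = algebraMap O K ((C.u : O) ^ 3) * z ω 1 +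
      algebraMap O K (C.s * (C.u : O) ^ 2) * z ω 0 + algebraMap O K C.t ∧
    Wc ω = C • (Wc ω).map (T g : O →+* O) ∧ (C.u : O) * T g a * b = a * T g b

/-- The change of variables at a prime over `3` with wild ramification. -/
def S_ECAR : Prop := ∀ (O : Type) [CommRing O] [IsDomain O] [IsDedekindDomain O] (𝔓 : Ideal O),
  𝔓.IsMaximal → 𝔓 ≠ ⊥ → ∀ (t : O ≃+* O) (l : ℕ), 1 ≤ l → (∀ o, t o - o ∈ 𝔓 ^ (l + 1)) →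
  (3 : O) ∈ 𝔓 ^ (2 * l) → ∀ (Wc : WeierstrassCurve O), Wc.Δ ∉ 𝔓 →
  ∀ (C : WeierstrassCurve.VariableChange O), Wc = C • Wc.map (t : O →+* O) →
  (∃ a b : O, a ≠ 0 ∧ b ≠ 0 ∧ (C.u : O) * t a * b = a * t b) →
  (C.u : O) - 1 ∈ 𝔓 ^ l ∧ C.s ∈ 𝔓 ^ l ∧ (C.r ∈ 𝔓 → C.r ∈ 𝔓 ^ l ∧ C.t ∈ 𝔓 ^ l)

/-- The data at the wild primes. -/
def S_ECDL : Prop := ∀ (k O K G Ω : Type) [CommRing k] [CommRing O] [IsDomain O]
  [IsDedekindDomain O] [Field K] [Group G] [Algebra k O] [Algebra O K] [Algebra k K]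
  [IsScalarTower k O K] (ρ : G →* (K ≃ₐ[k] K)) (T : G →* (O ≃ₐ[k] O)) (N : Type)
  (𝔔 : N → Ideal O) (p l : N → ℕ) (τ : N → G) (π : O), LocE k O K G ρ T 𝔔 p l τ π →
  ∀ (z : Ω → Fin (2 + 1) → K) (Wc : Ω → WeierstrassCurve O), ECD k O K G Ω ρ T z Wc →
  (∀ i, ∃ g, g ≠ 1 ∧ (∀ x, T g x - x ∈ 𝔔 i) ∧ ∀ x ∈ 𝔔 i, T g x - x ∈ 𝔔 i ^ 2) →
  (∀ i, (3 : O) ∈ 𝔔 i) → ∃ B : N → Set Ω, (∀ i, 1 ≤ l i) ∧
    (∀ i, EC1 k O K Ω (ρ (τ i)) (T (τ i)) (𝔔 i) (l i) z Wc (B i)) ∧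
    ∀ g i j, (∀ o, o ∈ 𝔔 i ↔ T g o ∈ 𝔔 j) → B i = B j ∧ l i = l j

/-- Localization of the base. -/
def S_ECOL : Prop := ∀ (k O K G Ω : Type) [CommRing k] [CommRing O] [IsDomain O] [Field K]
  [Group G] [Algebra k O] [Algebra O K] [Algebra k K] [IsScalarTower k O K]
  (_ : Function.Injective (algebraMap O K)) (ρ : G →* (K ≃ₐ[k] K)) (T : G →* (O ≃ₐ[k] O)),
  (∀ g o, ρ g (algebraMap O K o) = algebraMap O K (T g o)) →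
  ∀ (z : Ω → Fin (2 + 1) → K) (Wc : Ω → WeierstrassCurve O), ECD k O K G Ω ρ T z Wc →
  ∀ (s : k), algebraMap k K s ≠ 0 →
  ∀ (Tb : G →* (OL O (K := K) s ≃ₐ[k] OL O (K := K) s)), (∀ g x,
    ρ g (algebraMap (OL O (K := K) s) K x) = algebraMap (OL O (K := K) s) K (Tb g x)) →
  ∃ Wc' : Ω → WeierstrassCurve (OL O (K := K) s), ECD k (OL O (K := K) s) K G Ω ρ Tb z Wc'

/-- The charts are regular outside the vertex. -/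
def S_ECCH : Prop := ∀ (k O M Y Y₂ K K₂ G Ω : Type) [CommRing k] [IsDomain k] [IsNoetherianRing k]
  [CommRing O] [IsDomain O] [IsDedekindDomain O] [Field M] [Field Y] [Field Y₂] [Field K]
  [Field K₂] [Group G] [Finite G] [Finite Ω] [Nonempty Ω] [Algebra k O] [Algebra O K]
  [Algebra k K] [IsScalarTower k O K] [Algebra M K] [Algebra k Y] [Algebra k Y₂] [Algebra k K₂]
  (ι : Y →ₐ[k] K) (ι₂ : Y₂ →ₐ[k] K₂) (εY : LP Y →ₐ[k] Y₂) (ε : LP K →ₐ[k] K₂)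
  (ρ : G →* (K ≃ₐ[k] K)) (ρ₂ : G →* (K₂ ≃ₐ[k] K₂)), Ext2M ι ι₂ εY ε ρ ρ₂ →
  ∀ (T : G →* (O ≃ₐ[k] O)) (z : Ω → Fin (2 + 1) → K), GHL k O M Y K G Ω ι ρ T 2 z →
  ∀ (Wc : Ω → WeierstrassCurve O), ECD k O K G Ω ρ T z Wc →
  (∀ 𝔮 : Ideal O, 𝔮.IsPrime → (∃ g, g ≠ 1 ∧ (∀ x, T g x - x ∈ 𝔮) ∧
    ∀ x ∈ 𝔮, T g x - x ∈ 𝔮 ^ 2) → (3 : O) ∈ 𝔮) →
  ∀ (s : k) (_ : IsDedekindDomain (OL O (K := K) s))
  (Tb : G →* (OL O (K := K) s ≃ₐ[k] OL O (K := K) s)) (N : Type) [Finite N]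
  (𝔔 : N → Ideal (OL O (K := K) s)) (p l : N → ℕ) (τ : N → G) (π : OL O (K := K) s), s ≠ 0 →
  LocE k (OL O (K := K) s) K G ρ Tb 𝔔 p l τ π →
  (∀ i, ∃ g, g ≠ 1 ∧ (∀ x, Tb g x - x ∈ 𝔔 i) ∧ ∀ x ∈ 𝔔 i, Tb g x - x ∈ 𝔔 i ^ 2) →
  ∃ (e : N → ℕ) (W : N → Ω → Fin (2 + 1) → ℕ), (∀ i, 0 < e i) ∧ ∀ (d : ℕ) (Φ : Ω → K),
    1 ≤ d → FmL k O K G Ω ρ z d Φ → Ch (res ι₂ (GRW O ε z s 𝔔 e W (π : K) d Φ))

/-- Changes of variables between Weierstrass equations with unit discriminants are integral. -/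
def S_ECINT : Prop := ∀ (O M : Type) [CommRing O] [IsDomain O] [IsIntegrallyClosed O] [Field M]
  [Algebra O M] [IsFractionRing O M] (W W' : WeierstrassCurve O), IsUnit W.Δ → IsUnit W'.Δ →
  ∀ C : WeierstrassCurve.VariableChange M, W.map (algebraMap O M) = C • W'.map (algebraMap O M) →
  ∃ C' : WeierstrassCurve.VariableChange O, C'.map (algebraMap O M) = C

end Pool.Agent.Y223.G
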