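import Pool.Agent.Y223.G.WDefs

/-!
# Statements of the parts of project G: the weighted blowup of a product (charts)
-/

set_option autoImplicit false

namespace Pool.Agent.Y223.G

open IsLocalRing Pool.Agent.W418.LU2

/-- The graded algebra is of finite type. -/
def S_RFT : Prop := ∀ (k O K : Type) [CommRing k] [IsNoetherianRing k] [CommRing O] [IsDomain O]
  [IsDedekindDomain O] [Field K] [Algebra k O] [Algebra O K] [Algebra k K] [IsScalarTower k O K]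
  (p : ℕ) (τ : K ≃ₐ[k] K) (t : O ≃ₐ[k] O) (𝔓 : Ideal O) (l : ℕ), WSet k O K p τ t 𝔓 l →
  ∀ C : Subalgebra O K, (∀ c ∈ C, τ c ∈ C) → Algebra.FiniteType O C →
    Algebra.FiniteType k (RR k τ p 𝔓 l C)

/-- The operator `T ^ l (τ - 1)`. -/
def S_RSTAB : Prop := ∀ (k O K : Type) [CommRing k] [CommRing O] [IsDomain O]
  [IsDedekindDomain O] [Field K] [Algebra k O] [Algebra O K] [Algebra k K] [IsScalarTower k O K]
  (p : ℕ) (τ : K ≃ₐ[k] K) (t : O ≃ₐ[k] O) (𝔓 : Ideal O) (l : ℕ), WSet k O K p τ t 𝔓 l →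
  ∀ C : Subalgebra O K, (∀ c ∈ C, τ c ∈ C) →
    ∀ f ∈ RR k τ p 𝔓 l C, tl τ f ∈ RR k τ p 𝔓 l C ∧ hm l 1 * (tl τ f - f) ∈ RR k τ p 𝔓 l C

/-- The ideal of the fixed points is principal outside the vertex. -/
def S_RPRIN : Prop := ∀ (k O K : Type) [CommRing k] [CommRing O] [IsDomain O]
  [IsDedekindDomain O] [Field K] [Algebra k O] [Algebra O K] [Algebra k K] [IsScalarTower k O K]
  (p : ℕ) (τ : K ≃ₐ[k] K) (t : O ≃ₐ[k] O) (𝔓 : Ideal O) (l : ℕ), WSet k O K p τ t 𝔓 l →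
  ∀ C : Subalgebra O K, (∀ c ∈ C, τ c ∈ C) → ∀ Q : Ideal (RR k τ p 𝔓 l C), Q.IsPrime →
    (∃ (e : ℕ) (η : K) (he : hm e η ∈ RR k τ p 𝔓 l C), 0 < e ∧
      (⟨hm e η, he⟩ : RR k τ p 𝔓 l C) ∉ Q) →
    ∃ b ∈ RR k τ p 𝔓 l C, ∀ c ∈ RR k τ p 𝔓 l C, ∃ (s : LP K) (hs : s ∈ RR k τ p 𝔓 l C),
      (⟨s, hs⟩ : RR k τ p 𝔓 l C) ∉ Q ∧ ∃ u ∈ RR k τ p 𝔓 l C, s * (tl τ c - c) = u * (tl τ b - b)

/-- The extended Rees algebra of a weighted regular centre is regular at the points over the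
centre. -/
def S_WREG : Prop := ∀ (B K : Type) [CommRing B] [IsRegularLocalRing B] [Field K] [Algebra B K]
  (_ : Function.Injective (algebraMap B K)) (ι : Type) [Fintype ι] (x : ι → B), Ind x →
  ∀ a : ι → ℕ, (∀ j, 0 < a j) → ∀ R' : Subalgebra B (LP K),
  R' = Algebra.adjoin B ({hm (-1) 1} ∪ Set.range fun j => hm (a j) (algebraMap B K (x j))) →
  ∀ (Q : Ideal R') [Q.IsPrime], (∀ h : hm (-1) 1 ∈ R', (⟨hm (-1) 1, h⟩ : R') ∈ Q) →
    (∀ b ∈ maximalIdeal B, algebraMap B R' b ∈ Q) → IsRegularLocalRing (Localization.AtPrime Q)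

/-- A graded algebra which is near every point of the centre the extended Rees algebra of a
weighted regular centre is regular. -/
def S_WCH : Prop := ∀ (k K : Type) [CommRing k] [Field K] [Algebra k K]
  (R : Subalgebra k (LP K)), IsNoetherianRing R → Gr R → hm (-1) 1 ∈ R →
  (∀ (d : ℤ) x, hm d x ∈ R → hm 0 x ∈ R) →
  ∀ (C : Type) [CommRing C] (j : C →+* K), Function.Injective j →
  (∀ y : K, hm 0 y ∈ R ↔ ∃ c, j c = y) → IsRegularRing C →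
  (∀ (Q : Ideal C) [Q.IsPrime], (∀ (n : ℕ) (y : C), 0 < n → hm n (j y) ∈ R → y ∈ Q) →
    ∃ (ι : Type) (_ : Fintype ι) (x : ι → C) (a : ι → ℕ),
      (∀ i, 0 < a i ∧ hm (a i) (j (x i)) ∈ R) ∧
      Ind (fun i => algebraMap C (Localization.AtPrime Q) (x i)) ∧
      ∀ (n : ℕ) (y : C), hm n (j y) ∈ R →
        algebraMap C (Localization.AtPrime Q) y ∈
          FI (fun i => algebraMap C (Localization.AtPrime Q) (x i)) a n) →
  IsRegularRing R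

/-- Étale coordinates of a smooth algebra at a point. -/
def S_COORD : Prop := ∀ (O K : Type) [CommRing O] [IsNoetherianRing O] [Field K] [Algebra O K]
  (A : Subalgebra O K) (_ : Algebra.FiniteType O A) (q : Ideal A) [q.IsPrime],
  Algebra.IsSmoothAt O q → ∃ (r : ℕ) (u : Fin r → A), EtAt A q u ∧ UNQ A q u

/-- Transport of étale coordinates by a semilinear isomorphism. -/
def S_TRA : Prop := ∀ (O K : Type) [CommRing O] [Field K] [Algebra O K] (A A' : Subalgebra O K)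
  (t : O ≃+* O) (φ : A ≃+* A'), (∀ o, φ (algebraMap O A o) = algebraMap O A' (t o)) →
  ∀ (q : Ideal A') (ι : Type) [Finite ι] (v : ι → A),
    EtAt A (q.comap (φ : A →+* A')) v → EtAt A' q (fun i => φ (v i))

/-- Étale coordinates of a product of two linearly disjoint algebras. -/
def S_ETP : Prop := ∀ (O K : Type) [CommRing O] [Field K] [Algebra O K] (A B C : Subalgebra O K)
  (_ : C = A ⊔ B) (hA : A ≤ C) (hB : B ≤ C), A.LinearDisjoint B → ∀ (Q : Ideal C) [Q.IsPrime]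
  (ι κ : Type) [Finite ι] [Finite κ] (u : ι → A) (v : κ → B),
  EtAt A (Q.comap (Subalgebra.inclusion hA : A →+* C)) u →
  EtAt B (Q.comap (Subalgebra.inclusion hB : B →+* C)) v →
  EtAt C Q (Sum.elim (fun i => Subalgebra.inclusion hA (u i))
    (fun j => Subalgebra.inclusion hB (v j)))

/-- Étale coordinates of a product of linearly disjoint algebras. -/
def S_ETC : Prop := ∀ (O K : Type) [CommRing O] [Field K] [Algebra O K] (A : ℕ → Subalgebra O K)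
  (p : ℕ), 0 < p → (∀ s, 0 < s → s < p → (CC A s).LinearDisjoint (A s)) →
  ∀ (Q : Ideal (CC A p)) [Q.IsPrime] (r : ℕ) (u : ∀ i, Fin r → A i),
  (∀ i (hi : i < p), EtAt (A i) (Q.comap (Subalgebra.inclusion (le_CC A hi) : A i →+* CC A p))
    (u i)) →
  EtAt (CC A p) Q
    (fun ij : Fin p × Fin r => Subalgebra.inclusion (le_CC A ij.1.2) (u ij.1 ij.2))

/-- Regular parameters from étale coordinates. -/
def S_IND : Prop := ∀ (O K : Type) [CommRing O] [IsDomain O] [IsDedekindDomain O] [Field K]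
  [Algebra O K] (C : Subalgebra O K) (_ : Algebra.FiniteType O C) (_ : IsRegularRing C)
  (Q : Ideal C) [Q.IsPrime] (p r : ℕ) (_ : 0 < p) (w : ℕ → Fin r → C),
  EtAt C Q (fun aj : Fin p × Fin r => w aj.1 aj.2) →
  ∀ (𝔓 : Ideal O), 𝔓.IsMaximal → 𝔓 ≠ ⊥ → ∀ π ∈ 𝔓, π ∉ 𝔓 ^ 2 →
  Q.comap (algebraMap O C) = 𝔓 → (∀ a j, 0 < a → a < p → w a j ∈ Q) →
  Ind (fun i : WI r p => algebraMap C (Localization.AtPrime Q)
    (i.elim (algebraMap O C π) fun ja => w (ja.2 + 1) ja.1))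

/-- Regular parameters from étale coordinates of a power. -/
def S_ETI : Prop := ∀ (O K : Type) [CommRing O] [IsDomain O] [IsDedekindDomain O] [Field K]
  [Algebra O K] (C : Subalgebra O K) (_ : Algebra.FiniteType O C) (_ : IsRegularRing C)
  (Q : Ideal C) [Q.IsPrime] (σ : C →+* C) (_ : ∀ c, σ c - c ∈ Q) (p r : ℕ) (_ : 0 < p)
  (u : Fin r → C),
  EtAt C Q (fun ij : Fin p × Fin r => σ^[ij.1] (u ij.2)) →
  ∀ (𝔓 : Ideal O), 𝔓.IsMaximal → 𝔓 ≠ ⊥ → ∀ π ∈ 𝔓, π ∉ 𝔓 ^ 2 →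
  Q.comap (algebraMap O C) = 𝔓 →
  Ind (fun i => algebraMap C (Localization.AtPrime Q) (wx σ p (algebraMap O C π) u i))

/-- Consequence of the uniqueness property of étale coordinates. -/
def S_UNR : Prop := ∀ (O K : Type) [CommRing O] [Field K] [Algebra O K]
  (A : ℕ → Subalgebra O K) (p : ℕ) (_ : 0 < p) (C : Subalgebra O K) (_ : C = CC A p)
  (_ : IsNoetherianRing C) (σ : C →+* C) (t : O → O)
  (_ : ∀ o, σ (algebraMap O C o) = algebraMap O C (t o)) (hle : ∀ i, A i ≤ C)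
  (_ : ∀ i (x : C), (x : K) ∈ A i → ((σ x : C) : K) ∈ A (i + 1))
  (_ : ∀ i (x : C), (x : K) ∈ A (i + 1) → ∃ y : C, (y : K) ∈ A i ∧ σ y = x)
  (_ : ∀ x, σ^[p] x = x) (Q : Ideal C) [Q.IsPrime] (_ : ∀ c, σ c - c ∈ Q)
  (r : ℕ) (u : Fin r → A 0),
  UNQ (A 0) (Q.comap (Subalgebra.inclusion (hle 0) : A 0 →+* C)) u →
  ∀ J : Ideal (Localization.AtPrime Q),
  (∀ o, algebraMap C (Localization.AtPrime Q) (algebraMap O C (t o - o)) ∈ J) →
  (∀ j a, 1 ≤ a → a < p → algebraMap C (Localization.AtPrime Q)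
    ((df σ)^[a] (Subalgebra.inclusion (hle 0) (u j))) ∈ J) →
  ∀ c, algebraMap C (Localization.AtPrime Q) (σ c - c) ∈ J

/-- The iterates of `σ - 1` and the weighted filtration. -/
def S_TAY : Prop := ∀ (B : Type) [CommRing B] (σ : B →+* B) (p l r : ℕ) (π : B) (u : Fin r → B),
  p.Prime → (∀ x, σ^[p] x = x) → (∃ c, σ π - π = π ^ (l + 1) * c) →
  (∃ c, (p : B) = π ^ ((p - 1) * l) * c) →
  (∀ x, σ x - x ∈ Ideal.span ({π ^ (max l 1)} ∪
    {y | ∃ j a, 1 ≤ a ∧ a < p ∧ y = (df σ)^[a] (u j)})) →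
  ∀ a, a < p → ∀ x, (df σ)^[a] x ∈ FI (wx σ p π u) (wv l r p) (wt l a)

/-- **The weighted blowup of a chart.** -/
def S_WCHART : Prop := ∀ (k O K : Type) [CommRing k] [IsNoetherianRing k] [CommRing O] [IsDomain O]
  [IsDedekindDomain O] [Field K] [Algebra k O] [Algebra O K] [Algebra k K] [IsScalarTower k O K]
  (p : ℕ) (τ : K ≃ₐ[k] K) (t : O ≃ₐ[k] O) (𝔓 : Ideal O) (l : ℕ), WSet k O K p τ t 𝔓 l →
  ∀ A : ℕ → Subalgebra O K, (∀ i x, x ∈ A i → τ x ∈ A (i + 1)) → (∀ i, A (i + p) = A i) →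
  (∀ i, Algebra.FiniteType O (A i)) → (∀ s, 0 < s → s < p → (CC A s).LinearDisjoint (A s)) →
  IsRegularRing (CC A p) → (∀ (q : Ideal (A 0)) [q.IsPrime],
    q.comap (algebraMap O (A 0)) = 𝔓 → Algebra.IsSmoothAt O q) →
  Ch (RR k τ p 𝔓 l (CC A p)) ∧ (∀ f ∈ RR k τ p 𝔓 l (CC A p), tl τ f ∈ RR k τ p 𝔓 l (CC A p)) ∧
  (∀ Q : Ideal (RR k τ p 𝔓 l (CC A p)), Q.IsPrime →
    (∃ (e : ℕ) (η : K) (he : hm e η ∈ RR k τ p 𝔓 l (CC A p)), 0 < e ∧
      (⟨hm e η, he⟩ : RR k τ p 𝔓 l (CC A p)) ∉ Q) →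
    ∃ b ∈ RR k τ p 𝔓 l (CC A p), ∀ c ∈ RR k τ p 𝔓 l (CC A p),
      ∃ (s : LP K) (hs : s ∈ RR k τ p 𝔓 l (CC A p)), (⟨s, hs⟩ : RR k τ p 𝔓 l (CC A p)) ∉ Q ∧
        ∃ u ∈ RR k τ p 𝔓 l (CC A p), s * (tl τ c - c) = u * (tl τ b - b))

end Pool.Agent.Y223.G
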