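import Pool.Agent.Y223.G.Stm2
import Pool.Agent.Y223.G.WBase

/-!
# Statements of the parts of project G: Weil restrictions along cyclic extensions of prime degree
-/

set_option autoImplicit false

namespace Pool.Agent.Y223.G

open IsLocalRing Pool.Agent.W418.LU2

section forms

variable {K : Type} [Field K] {m : ℕ}

/-- The monomials of degree `d`. -/
def MN (z : Fin (m + 1) → K) (d : ℕ) : Set K :=
  {x | ∃ a : Fin (m + 1) → ℕ, ∑ i, a i = d ∧ x = ∏ i, z i ^ a i}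

/-- The forms of degree `d`. -/
def FS (k : Type) [CommRing k] [Algebra k K] (z : Fin (m + 1) → K) (d : ℕ) : Submodule k K :=
  Submodule.span k (MN z d)

/-- The chart of a form. -/
noncomputable def AF (O : Type) [CommRing O] [Algebra O K] (z : Fin (m + 1) → K) (d : ℕ) (F : K) :
    Subalgebra O K :=
  Algebra.adjoin O {y | ∃ x ∈ MN z d, y = x / F}

/-- The affine charts. -/
noncomputable def AZ (O : Type) [CommRing O] [Algebra O K] (z : Fin (m + 1) → K)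
    (i : Fin (m + 1)) : Subalgebra O K :=
  Algebra.adjoin O (Set.range fun j => z j / z i)

end forms

/-- The localization of the base at `s`, as a subalgebra of `K`. -/
def OL {k : Type} (O : Type) {K : Type} [CommRing k] [CommRing O] [Field K] [Algebra k O]
    [Algebra O K] [Algebra k K] [IsScalarTower k O K] (s : k) : Subalgebra k K where
  carrier := {x | ∃ (n : ℕ) (y : O), algebraMap k K s ^ n * x = algebraMap O K y}
  mul_mem' := by
    rintro x x' ⟨n, y, h⟩ ⟨n', y', h'⟩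
    refine ⟨n + n', y * y', ?_⟩
    rw [map_mul, ← h, ← h']
    ring
  add_mem' := by
    rintro x x' ⟨n, y, h⟩ ⟨n', y', h'⟩
    refine ⟨n + n', algebraMap k O s ^ n' * y + algebraMap k O s ^ n * y', ?_⟩
    rw [map_add, map_mul, map_mul, ← h, ← h', map_pow, map_pow,
      ← IsScalarTower.algebraMap_apply k O K]
    ring
  algebraMap_mem' r := ⟨0, algebraMap k O r, by
    rw [pow_zero, one_mul, ← IsScalarTower.algebraMap_apply k O K]⟩

/-- The base: a Dedekind domain `O`, finite over `k`, with an automorphism `t` of prime order `p`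
with the fixed ring `k` and finite residue fields, in the field `K` with the automorphism `τ`. -/
structure GSet (k O K : Type) [CommRing k] [IsDomain k] [CommRing O] [IsDomain O]
    [IsDedekindDomain O] [Field K] [Algebra k O] [Algebra O K] [Algebra k K] [IsScalarTower k O K]
    (p : ℕ) (τ : K ≃ₐ[k] K) (t : O ≃ₐ[k] O) : Prop where
  pp : p.Prime
  pk : (p : K) ≠ 0
  fin : Module.Finite k O
  inj : Function.Injective (algebraMap O K)
  injk : Function.Injective (algebraMap k K)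
  ord : ∀ x, τ^[p] x = x
  com : ∀ o, τ (algebraMap O K o) = algebraMap O K (t o)
  nt : ∃ o, t o ≠ o
  fix : ∀ o, t o = o → ∃ c : k, algebraMap k O c = o
  resf : ∀ 𝔓 : Ideal O, 𝔓.IsMaximal → 𝔓 ≠ ⊥ → Finite (O ⧸ 𝔓)

/-- The hypotheses on the variety with the homogeneous coordinates `z` over the field `L` of
fractions of `O`: the product of its conjugates has the function field `K`; the product of the
conjugates of its model over `O` is regular, and the model is smooth at the points over the primes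
of `O` ramified over `k`. The field `Y` is the field of invariants of `τ`. -/
structure GHyp (k O L Y K : Type) [CommRing k] [IsDomain k] [CommRing O] [IsDomain O]
    [IsDedekindDomain O] [Field L] [Field Y] [Field K] [Algebra k O] [Algebra O K] [Algebra k K]
    [IsScalarTower k O K] [Algebra L K] [Algebra k Y] (ι : Y →ₐ[k] K) (p : ℕ) (τ : K ≃ₐ[k] K)
    (t : O ≃ₐ[k] O) (m : ℕ) (z : Fin (m + 1) → K) : Prop extends GSet k O K p τ t where
  lo : ∀ o : O, ∃ x : L, algebraMap L K x = algebraMap O K o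
  lf : ∀ x : L, ∃ a b : O, b ≠ 0 ∧ algebraMap L K x * algebraMap O K b = algebraMap O K a
  fixK : ∀ x, τ x = x ↔ ∃ y, ι y = x
  z0 : ∀ j, z j ≠ 0
  gen : IntermediateField.adjoin L {y : K | ∃ (i : ℕ) (j : Fin (m + 1)),
    y = τ^[i] (z j / z 0)} = ⊤
  ld : ∀ s, 0 < s → s < p → (IntermediateField.adjoin L {y : K | ∃ (i : ℕ) (j : Fin (m + 1)),
    i < s ∧ y = τ^[i] (z j / z 0)}).toSubalgebra.LinearDisjoint
      (IntermediateField.adjoin L {y : K | ∃ j : Fin (m + 1),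
        y = τ^[s] (z j / z 0)}).toSubalgebra
  sm : ∀ j (q : Ideal (AZ O z j)) [q.IsPrime],
    (∀ o, algebraMap O (AZ O z j) (t o - o) ∈ q) → Algebra.IsSmoothAt O q
  rg : ∀ J : Fin p → Fin (m + 1), IsRegularRing (Algebra.adjoin O
    {y : K | ∃ (i : Fin p) (l : Fin (m + 1)), y = τ^[i] (z l / z (J i))})

/-- The ramification at a prime. -/
def S_RAM1 : Prop := ∀ (k O K : Type) [CommRing k] [IsDomain k] [CommRing O] [IsDomain O]
  [IsDedekindDomain O] [Field K] [Algebra k O] [Algebra O K] [Algebra k K] [IsScalarTower k O K]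
  (p : ℕ) (τ : K ≃ₐ[k] K) (t : O ≃ₐ[k] O), GSet k O K p τ t → ∀ 𝔓 : Ideal O, 𝔓.IsMaximal →
  𝔓 ≠ ⊥ → (∀ o, t o - o ∈ 𝔓) → ∃ l : ℕ, (∀ o, t o - o ∈ 𝔓 ^ (l + 1)) ∧
    (∃ π ∈ 𝔓, t π - π ∉ 𝔓 ^ (l + 2)) ∧ (p : O) ∈ 𝔓 ^ ((p - 1) * l) ∧ (l = 0 → (p : O) ∉ 𝔓)

/-- The base is covered by open subsets with at most one ramified prime. -/
def S_RAM : Prop := ∀ (k O K : Type) [CommRing k] [IsDomain k] [CommRing O] [IsDomain O]
  [IsDedekindDomain O] [Field K] [Algebra k O] [Algebra O K] [Algebra k K] [IsScalarTower k O K]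
  (p : ℕ) (τ : K ≃ₐ[k] K) (t : O ≃ₐ[k] O), GSet k O K p τ t →
  ∃ (β : Type) (_ : Finite β) (_ : Nonempty β) (o : β → k), (∀ b, o b ≠ 0) ∧
    Ideal.span (Set.range o) = ⊤ ∧ ∀ b, ∃ (_ : IsDedekindDomain (OL O (K := K) (o b)))
      (tb : OL O (K := K) (o b) ≃ₐ[k] OL O (K := K) (o b)) (𝔓 : Ideal (OL O (K := K) (o b)))
      (l : ℕ), WSet k (OL O (K := K) (o b)) K p τ tb 𝔓 l ∧
      ∀ b', b' ≠ b → algebraMap k (OL O (K := K) (o b)) (o b') ∈ 𝔓

/-- Linear disjointness over a Dedekind domain. -/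
def S_LDG : Prop := ∀ (O L K : Type) [CommRing O] [IsDomain O] [IsDedekindDomain O] [Field L]
  [Field K] [Algebra O K] [Algebra L K], Function.Injective (algebraMap O K) →
  (∀ o : O, ∃ x : L, algebraMap L K x = algebraMap O K o) →
  (∀ x : L, ∃ a b : O, b ≠ 0 ∧ algebraMap L K x * algebraMap O K b = algebraMap O K a) →
  ∀ (A B : Subalgebra O K) (W W' : Subalgebra L K), (∀ a ∈ A, a ∈ W) → (∀ b ∈ B, b ∈ W') →
  W.LinearDisjoint W' → A.LinearDisjoint B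

/-- Forms which do not vanish at given points. -/
def S_EXF : Prop := ∀ (k K : Type) [CommRing k] [Field K] [Algebra k K] (m : ℕ)
  (z : Fin (m + 1) → K), (∀ i, z i ≠ 0) → ∀ s : ℕ, ∃ (d : ℕ) (Φ : Set K), 1 ≤ d ∧ Φ.Finite ∧
    (∀ F ∈ Φ, F ∈ FS k z d) ∧ ∀ V : Fin (s + 1) → ValuationSubring K,
      (∀ i (c : k), algebraMap k K c ∈ V i) → ∃ F ∈ Φ, F ≠ 0 ∧ ∀ i, ∀ x ∈ MN z d, x / F ∈ V i

/-- Smoothness of the charts of forms. -/
def S_SMAF : Prop := ∀ (k O K : Type) [CommRing k] [CommRing O] [IsNoetherianRing O] [Field K]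
  [Algebra k O] [Algebra O K] [Algebra k K] [IsScalarTower k O K] (_ : Function.Injective
  (algebraMap O K)) (s : k) (_ : algebraMap k K s ≠ 0) (m : ℕ) (z : Fin (m + 1) → K)
  (_ : ∀ j, z j ≠ 0) (S : Set O),
  (∀ j (q : Ideal (AZ O z j)) [q.IsPrime], (∀ e ∈ S, algebraMap O (AZ O z j) e ∈ q) →
    Algebra.IsSmoothAt O q) →
  ∀ (d : ℕ) (F : K), 1 ≤ d → F ∈ FS k z d → F ≠ 0 →
  ∀ (q : Ideal (AF (OL O (K := K) s) z d F)) [q.IsPrime],
    (∀ e ∈ S, ∀ h : algebraMap O K e ∈ AF (OL O (K := K) s) z d F,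
      (⟨algebraMap O K e, h⟩ : AF (OL O (K := K) s) z d F) ∈ q) →
    Algebra.IsSmoothAt (OL O (K := K) s) q

/-- Regularity of the products of charts of forms. -/
def S_REGAF : Prop := ∀ (k O K : Type) [CommRing k] [CommRing O] [IsNoetherianRing O] [Field K]
  [Algebra k O] [Algebra O K] [Algebra k K] [IsScalarTower k O K] (s : k)
  (_ : algebraMap k K s ≠ 0) (p : ℕ) (τ : K ≃ₐ[k] K) (m : ℕ) (z : Fin (m + 1) → K)
  (_ : ∀ j, z j ≠ 0), (∀ J : Fin p → Fin (m + 1), IsRegularRing (Algebra.adjoin O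
    {y : K | ∃ (i : Fin p) (l : Fin (m + 1)), y = τ^[i] (z l / z (J i))})) →
  ∀ (d : ℕ) (F : K), 1 ≤ d → F ∈ FS k z d → F ≠ 0 →
  IsRegularRing (CC (fun i => AF (OL O (K := K) s) (fun j => τ^[i] (z j)) d (τ^[i] F)) p)

/-- Descent of forms. -/
def S_DSC : Prop := ∀ (k O L Y K : Type) [CommRing k] [IsDomain k] [CommRing O] [IsDomain O]
  [IsDedekindDomain O] [Field L] [Field Y] [Field K] [Algebra k O] [Algebra O K] [Algebra k K]
  [IsScalarTower k O K] [Algebra L K] [Algebra k Y] (ι : Y →ₐ[k] K) (p : ℕ) (τ : K ≃ₐ[k] K)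
  (t : O ≃ₐ[k] O) (m : ℕ) (z : Fin (m + 1) → K), GHyp k O L Y K ι p τ t m z →
  ∀ (N : Submodule k Y) (y : Y), ι y ∈ Submodule.span L (ι '' (N : Set Y)) → y ∈ sat N

/-- The chart of the form `F` over the open subset `s ≠ 0` of the base. -/
noncomputable def GR {k : Type} (O : Type) {K : Type} [CommRing k] [CommRing O] [Field K]
    [Algebra k O] [Algebra O K] [Algebra k K] [IsScalarTower k O K] (p : ℕ) (τ : K ≃ₐ[k] K)
    {m : ℕ} (z : Fin (m + 1) → K) (s : k) (𝔓 : Ideal (OL O (K := K) s)) (l d : ℕ) (F : K) :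
    Subalgebra k (LP K) :=
  RR k τ p 𝔓 l (CC (fun i => AF (OL O (K := K) s) (fun j => τ^[i] (z j)) d (τ^[i] F)) p)

/-- The charts of the invariants satisfy the hypotheses of the theorem on atlases. -/
def S_GCH : Prop := ∀ (k O L Y K : Type) [CommRing k] [IsDomain k] [IsNoetherianRing k]
  [CommRing O] [IsDomain O] [IsDedekindDomain O] [Field L] [Field Y] [Field K] [Algebra k O]
  [Algebra O K] [Algebra k K] [IsScalarTower k O K] [Algebra L K] [Algebra k Y] (ι : Y →ₐ[k] K)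
  (p : ℕ) (τ : K ≃ₐ[k] K) (t : O ≃ₐ[k] O) (m : ℕ) (z : Fin (m + 1) → K),
  GHyp k O L Y K ι p τ t m z → ∀ (s : k) (_ : IsDedekindDomain (OL O (K := K) s))
  (tb : OL O (K := K) s ≃ₐ[k] OL O (K := K) s) (𝔓 : Ideal (OL O (K := K) s)) (l : ℕ),
  s ≠ 0 → WSet k (OL O (K := K) s) K p τ tb 𝔓 l → ∀ (d : ℕ) (F : K), 1 ≤ d → F ∈ FS k z d →
  F ≠ 0 → Ch (res ι (GR O p τ z s 𝔓 l d F))

/-- Gluing: the charts of two forms over the same open subset of the base. -/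
def S_GGL1 : Prop := ∀ (k O K : Type) [CommRing k] [CommRing O] [Field K] [Algebra k O]
  [Algebra O K] [Algebra k K] [IsScalarTower k O K] (p : ℕ) (_ : 0 < p) (τ : K ≃ₐ[k] K)
  (_ : ∀ x, τ^[p] x = x) (m : ℕ) (z : Fin (m + 1) → K) (s : k) (𝔓 : Ideal (OL O (K := K) s))
  (l d : ℕ) (F G : K), F ∈ FS k z d → G ∈ FS k z d → F ≠ 0 → G ≠ 0 →
  hm 0 (∏ i : Fin p, τ^[i] (G / F)) ∈ GR O p τ z s 𝔓 l d F ∧
  ∀ f ∈ GR O p τ z s 𝔓 l d G, ∃ n : ℕ,
    hm 0 (∏ i : Fin p, τ^[i] (G / F)) ^ n * f ∈ GR O p τ z s 𝔓 l d F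

/-- Gluing: the charts over different open subsets of the base. -/
def S_GGL2 : Prop := ∀ (k O K : Type) [CommRing k] [CommRing O] [Field K] [Algebra k O]
  [Algebra O K] [Algebra k K] [IsScalarTower k O K] (p : ℕ) (_ : 0 < p) (τ : K ≃ₐ[k] K)
  (_ : ∀ x, τ^[p] x = x) (m : ℕ) (z : Fin (m + 1) → K) (s s' : k)
  (_ : algebraMap k K s ≠ 0) (_ : algebraMap k K s' ≠ 0) (𝔓 : Ideal (OL O (K := K) s))
  (𝔓' : Ideal (OL O (K := K) s')) (l l' d : ℕ) (F : K), F ∈ FS k z d → F ≠ 0 →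
  algebraMap k (OL O (K := K) s) s' ∈ 𝔓 →
  hm 0 (algebraMap k K s' / algebraMap k K s) ∈ GR O p τ z s 𝔓 l d F ∧
  ∀ f ∈ GR O p τ z s' 𝔓' l' d F, ∃ n : ℕ,
    hm 0 (algebraMap k K s' / algebraMap k K s) ^ n * f ∈ GR O p τ z s 𝔓 l d F

/-- Valuations: every valuation ring of the field of invariants contains a chart. -/
def S_GVAL : Prop := ∀ (k O L Y K : Type) [CommRing k] [IsDomain k] [CommRing O] [IsDomain O]
  [IsDedekindDomain O] [Field L] [Field Y] [Field K] [Algebra k O] [Algebra O K] [Algebra k K]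
  [IsScalarTower k O K] [Algebra L K] [Algebra k Y] (ι : Y →ₐ[k] K) (p : ℕ) (τ : K ≃ₐ[k] K)
  (t : O ≃ₐ[k] O) (m : ℕ) (z : Fin (m + 1) → K), GHyp k O L Y K ι p τ t m z →
  ∃ (d : ℕ) (Φ : Set K), 1 ≤ d ∧ Φ.Finite ∧ (∀ F ∈ Φ, F ∈ FS k z d ∧ F ≠ 0) ∧
    ∀ V : ValuationSubring Y, (∀ c : k, algebraMap k Y c ∈ V) → ∃ F ∈ Φ,
      ∀ s : k, s ≠ 0 → (algebraMap k Y s)⁻¹ ∈ V → ∀ (𝔓 : Ideal (OL O (K := K) s)) (l : ℕ) (x : Y),
        hm 0 x ∈ res ι (GR O p τ z s 𝔓 l d F) → x ∈ V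

/-- The field of fractions of the charts, and constants of degree one. -/
def S_GFR : Prop := ∀ (k O L Y K : Type) [CommRing k] [IsDomain k] [CommRing O] [IsDomain O]
  [IsDedekindDomain O] [Field L] [Field Y] [Field K] [Algebra k O] [Algebra O K] [Algebra k K]
  [IsScalarTower k O K] [Algebra L K] [Algebra k Y] (ι : Y →ₐ[k] K) (p : ℕ) (τ : K ≃ₐ[k] K)
  (t : O ≃ₐ[k] O) (m : ℕ) (z : Fin (m + 1) → K), GHyp k O L Y K ι p τ t m z →
  ∀ (s : k) (𝔓 : Ideal (OL O (K := K) s)) (l : ℕ), s ≠ 0 → 𝔓 ≠ ⊥ →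
  ∀ (d : ℕ) (F : K), 1 ≤ d → F ∈ FS k z d → F ≠ 0 →
  (∀ x : Y, ∃ y y' : Y, hm 0 y ∈ res ι (GR O p τ z s 𝔓 l d F) ∧
    hm 0 y' ∈ res ι (GR O p τ z s 𝔓 l d F) ∧ y' ≠ 0 ∧ x = y / y') ∧
  (∃ c : k, c ≠ 0 ∧ hm 1 (algebraMap k Y c) ∈ res ι (GR O p τ z s 𝔓 l d F))

/-- The generic fibre. -/
def S_GMO : Prop := ∀ (k O L Y K : Type) [CommRing k] [IsDomain k] [CommRing O] [IsDomain O]
  [IsDedekindDomain O] [Field L] [Field Y] [Field K] [Algebra k O] [Algebra O K] [Algebra k K]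
  [IsScalarTower k O K] [Algebra L K] [Algebra k Y] (ι : Y →ₐ[k] K) (p : ℕ) (τ : K ≃ₐ[k] K)
  (t : O ≃ₐ[k] O) (m : ℕ) (z : Fin (m + 1) → K), GHyp k O L Y K ι p τ t m z →
  ∀ (M₀ : Submodule k Y), Submodule.span L (ι '' (M₀ : Set Y)) =
    Submodule.span L (Set.range fun J : Fin p → Fin (m + 1) => ∏ i : Fin p, τ^[i] (z (J i))) →
  ∀ (s : k) (𝔓 : Ideal (OL O (K := K) s)) (l : ℕ), s ≠ 0 →
  ∀ (d : ℕ) (F : K), 1 ≤ d → F ∈ FS k z d → F ≠ 0 →
  ∀ h : Y, ι h = (∏ i : Fin p, τ^[i] F) * algebraMap k K s →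
  h ∈ sat (M₀ ^ d) ∧
  (∀ x ∈ M₀ ^ d, ∃ c : k, c ≠ 0 ∧ hm 0 (c • (x / h)) ∈ res ι (GR O p τ z s 𝔓 l d F)) ∧
  ∀ f, hm 0 f ∈ res ι (GR O p τ z s 𝔓 l d F) → ∃ N₀ : ℕ, ∀ N, N₀ ≤ N →
    h ^ N * f ∈ sat (M₀ ^ (d * N))

/-- **Weil restrictions.** -/
def S_WEIL : Prop := ∀ (k O L Y K : Type) [CommRing k] [IsDomain k] [IsNoetherianRing k]
  [CommRing O] [IsDomain O] [IsDedekindDomain O] [Field L] [Field Y] [Field K] [Algebra k O]
  [Algebra O K] [Algebra k K] [IsScalarTower k O K] [Algebra L K] [Algebra k Y] (ι : Y →ₐ[k] K)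
  (p : ℕ) (τ : K ≃ₐ[k] K) (t : O ≃ₐ[k] O) (m : ℕ) (z : Fin (m + 1) → K),
  GHyp k O L Y K ι p τ t m z → ∀ (M₀ : Submodule k Y), M₀.FG → ∀ P : Prop,
  (P → Submodule.span L (ι '' (M₀ : Set Y)) =
    Submodule.span L (Set.range fun J : Fin p → Fin (m + 1) => ∏ i : Fin p, τ^[i] (z (J i)))) →
  ∃ M' : Submodule k Y, M'.FG ∧ (∃ f ∈ M', f ≠ 0) ∧
    (∀ f ∈ M', f ≠ 0 → ∀ y : Y, ∃ b ∈ Pool.Agent.H918R2.Quad.chart k M' f,
      ∃ c ∈ Pool.Agent.H918R2.Quad.chart k M' f, c ≠ 0 ∧ y = b / c) ∧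
    (∀ f ∈ M', f ≠ 0 → ∀ (q : Ideal (Pool.Agent.H918R2.Quad.chart k M' f)) [q.IsPrime],
      IsRegularLocalRing (Localization.AtPrime q)) ∧
    (P → ∃ n : ℕ, 1 ≤ n ∧ (∀ y ∈ M', y ∈ sat (M₀ ^ n)) ∧
      ∀ y : Y, y ∈ M₀ ^ n → ∃ s : k, s ≠ 0 ∧ s • y ∈ M')

end Pool.Agent.Y223.G
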