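import Pool.Agent.Y223.G.Stm4

/-!
# Statements of the parts of project G: charts for finite groups
-/

set_option autoImplicit false

namespace Pool.Agent.Y223.G

open IsLocalRing Pool.Agent.W418.LU2

/-- The ramification of the base `O` of a chart: `𝔔 i` are the ramified primes; at `𝔔 i` the
action is tame (`p i = 1`) or the inertia group is generated by the element `τ i` of prime order
`p i`. -/
structure LocD (k O K G : Type) [CommRing k] [CommRing O] [IsDomain O] [IsDedekindDomain O]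
    [Field K] [Group G] [Algebra k O] [Algebra O K] [Algebra k K] [IsScalarTower k O K]
    (ρ : G →* (K ≃ₐ[k] K)) (T : G →* (O ≃ₐ[k] O)) {N : Type} (𝔔 : N → Ideal O) (p l : N → ℕ)
    (τ : N → G) : Prop where
  ft : Algebra.FiniteType k O
  inj : Function.Injective (algebraMap O K)
  com : ∀ g o, ρ g (algebraMap O K o) = algebraMap O K (T g o)
  mx : ∀ i, (𝔔 i).IsMaximal
  ne : ∀ i, 𝔔 i ≠ ⊥
  dj : ∀ i j, 𝔔 i = 𝔔 j → i = j
  al : ∀ 𝔮 : Ideal O, 𝔮.IsPrime → (∀ i, 𝔮 ≠ 𝔔 i) → ∀ g, (∀ o, T g o - o ∈ 𝔮) → g = 1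
  ty : ∀ i, (p i = 1 ∧
      ∀ g, (∀ o, T g o - o ∈ 𝔔 i) → (∀ o ∈ 𝔔 i, T g o - o ∈ 𝔔 i ^ 2) → g = 1) ∨
    (WS0 k O K (p i) (ρ (τ i)) (T (τ i)) (𝔔 i) (l i) ∧ τ i ^ p i = 1 ∧
      ∀ g, (∀ o, T g o - o ∈ 𝔔 i) → g ∈ Subgroup.zpowers (τ i))
  cj : ∀ g i, ∃ j, (∀ o, o ∈ 𝔔 i ↔ T g o ∈ 𝔔 j) ∧ p j = p i ∧ l j = l i ∧
    (p i = 1 ∨ (∃ n : ℕ, g * τ i * g⁻¹ = τ j ^ n) ∧ ∃ n : ℕ, τ j = (g * τ i * g⁻¹) ^ n)

/-- The graded algebra of a chart: the intersection of the graded algebras of the ramified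
primes. -/
noncomputable def RG (k : Type) {O K G : Type} [CommRing k] [CommRing O] [Field K] [Group G]
    [Algebra O K] [Algebra k K] (ρ : G →* (K ≃ₐ[k] K)) {N : Type} (𝔔 : N → Ideal O)
    (p l : N → ℕ) (τ : N → G) (C : Subalgebra O K) : Subalgebra k (LP K) :=
  RR k 1 1 ⊤ 0 C ⊓ ⨅ i, RR k (ρ (τ i)) (p i) (𝔔 i) (l i) C

/-- Comparison of `RG` with the algebras at the ramified primes. -/
def S_RGLU : Prop := ∀ (k O K G : Type) [CommRing k] [CommRing O] [IsDomain O] [IsDedekindDomain O]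
  [Field K] [Group G] [Algebra k O] [Algebra O K] [Algebra k K] [IsScalarTower k O K]
  (ρ : G →* (K ≃ₐ[k] K)) (T : G →* (O ≃ₐ[k] O)) (N : Type) [Finite N] (𝔔 : N → Ideal O)
  (p l : N → ℕ) (τ : N → G), LocD k O K G ρ T 𝔔 p l τ → ∀ C : Subalgebra O K,
  (∀ g, ∀ c ∈ C, ρ g c ∈ C) →
  (∀ i (s : O), (∀ j, j ≠ i → s ∈ 𝔔 j) → ∀ f ∈ RR k (ρ (τ i)) (p i) (𝔔 i) (l i) C,
    ∃ n : ℕ, hm 0 (algebraMap O K s) ^ n * f ∈ RG k ρ 𝔔 p l τ C) ∧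
  (∀ s : O, (∀ j, s ∈ 𝔔 j) → ∀ f ∈ RR k 1 1 ⊤ 0 C,
    ∃ n : ℕ, hm 0 (algebraMap O K s) ^ n * f ∈ RG k ρ 𝔔 p l τ C)

/-- The graded algebra of a chart is of finite type. -/
def S_RGFT : Prop := ∀ (k O K G : Type) [CommRing k] [IsNoetherianRing k] [CommRing O] [IsDomain O]
  [IsDedekindDomain O] [Field K] [Group G] [Algebra k O] [Algebra O K] [Algebra k K]
  [IsScalarTower k O K] (ρ : G →* (K ≃ₐ[k] K)) (T : G →* (O ≃ₐ[k] O)) (N : Type) [Finite N]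
  (𝔔 : N → Ideal O) (p l : N → ℕ) (τ : N → G), LocD k O K G ρ T 𝔔 p l τ → ∀ C : Subalgebra O K,
  (∀ g, ∀ c ∈ C, ρ g c ∈ C) → Algebra.FiniteType O C →
    Algebra.FiniteType k (RG k ρ 𝔔 p l τ C)

/-- The graded algebra of a chart is regular outside the vertex. -/
def S_RGCH : Prop := ∀ (k O K G : Type) [CommRing k] [IsNoetherianRing k] [CommRing O] [IsDomain O]
  [IsDedekindDomain O] [Field K] [Group G] [Algebra k O] [Algebra O K] [Algebra k K]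
  [IsScalarTower k O K] (ρ : G →* (K ≃ₐ[k] K)) (T : G →* (O ≃ₐ[k] O)) (N : Type) [Finite N]
  (𝔔 : N → Ideal O) (p l : N → ℕ) (τ : N → G), LocD k O K G ρ T 𝔔 p l τ → ∀ C : Subalgebra O K,
  (∀ g, ∀ c ∈ C, ρ g c ∈ C) → Algebra.FiniteType O C → IsRegularRing C →
  (∀ i, IsRegularRing (RR k (ρ (τ i)) (p i) (𝔔 i) (l i) C)) → Ch (RG k ρ 𝔔 p l τ C)

/-- The graded algebra of a chart is stable. -/
def S_RGST : Prop := ∀ (k O K G : Type) [CommRing k] [CommRing O] [IsDomain O] [IsDedekindDomain O]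
  [Field K] [Group G] [Algebra k O] [Algebra O K] [Algebra k K] [IsScalarTower k O K]
  (ρ : G →* (K ≃ₐ[k] K)) (T : G →* (O ≃ₐ[k] O)) (N : Type) (𝔔 : N → Ideal O)
  (p l : N → ℕ) (τ : N → G), LocD k O K G ρ T 𝔔 p l τ → ∀ C : Subalgebra O K,
  (∀ g, ∀ c ∈ C, ρ g c ∈ C) → ∀ g, ∀ f ∈ RG k ρ 𝔔 p l τ C, tl (ρ g) f ∈ RG k ρ 𝔔 p l τ C

/-- The inertia groups outside the vertex. -/
def S_RGIN : Prop := ∀ (k O K G : Type) [CommRing k] [CommRing O] [IsDomain O] [IsDedekindDomain O]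
  [Field K] [Group G] [Finite G] [Algebra k O] [Algebra O K] [Algebra k K] [IsScalarTower k O K]
  (ρ : G →* (K ≃ₐ[k] K)) (T : G →* (O ≃ₐ[k] O)) (N : Type) [Finite N] (𝔔 : N → Ideal O)
  (p l : N → ℕ) (τ : N → G), LocD k O K G ρ T 𝔔 p l τ → ∀ C : Subalgebra O K,
  (∀ g, ∀ c ∈ C, ρ g c ∈ C) → ∀ R : Subalgebra k (LP K), R = RG k ρ 𝔔 p l τ C →
  ∀ Q : Ideal R, Q.IsPrime →
    (∃ (e : ℕ) (η : K) (he : hm e η ∈ R), 0 < e ∧ (⟨hm e η, he⟩ : R) ∉ Q) →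
    (∀ g, (∀ f ∈ R, ∃ h : tl (ρ g) f - f ∈ R, (⟨tl (ρ g) f - f, h⟩ : R) ∈ Q) → g = 1) ∨
    ∃ (p : ℕ) (τ : G), p.Prime ∧ τ ^ p = 1 ∧
      (∀ g, (∀ f ∈ R, ∃ h : tl (ρ g) f - f ∈ R, (⟨tl (ρ g) f - f, h⟩ : R) ∈ Q) →
        g ∈ Subgroup.zpowers τ) ∧
      ∃ b ∈ R, ∀ c ∈ R, ∃ (s : LP K) (hs : s ∈ R), (⟨s, hs⟩ : R) ∉ Q ∧
        ∃ u ∈ R, s * (tl (ρ τ) c - c) = u * (tl (ρ τ) b - b)

/-- A family of linearly disjoint algebras permuted by the group, with regular product; the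
stabiliser of an algebra fixes generators. -/
structure Blk (k O K G Ω : Type) [CommRing k] [CommRing O] [Field K] [Group G] [Algebra O K]
    [Algebra k K] [MulAction G Ω] (ρ : G →* (K ≃ₐ[k] K)) (A : Ω → Subalgebra O K) : Prop where
  st : ∀ g ω x, x ∈ A ω → ρ g x ∈ A (g • ω)
  ft : ∀ ω, Algebra.FiniteType O (A ω)
  ld : ∀ (S : Finset Ω) (ω : Ω), ω ∉ S → (⨆ ω' ∈ S, A ω').LinearDisjoint (A ω)
  fx : ∀ ω g, g • ω = ω → A ω ≤ Algebra.adjoin O {x | x ∈ A ω ∧ ρ g x = x}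
  rg : IsRegularRing (⨆ ω, A ω : Subalgebra O K)

/-- Étale coordinates of a product of linearly disjoint algebras. -/
def S_ETF : Prop := ∀ (O K : Type) [CommRing O] [Field K] [Algebra O K],
  Function.Injective (algebraMap O K) → ∀ (Ω : Type) [Finite Ω] (A : Ω → Subalgebra O K),
  (∀ (S : Finset Ω) (ω : Ω), ω ∉ S → (⨆ ω' ∈ S, A ω').LinearDisjoint (A ω)) →
  ∀ (Q : Ideal (⨆ ω, A ω : Subalgebra O K)) [Q.IsPrime] (ι : Ω → Type) [∀ ω, Finite (ι ω)]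
  (u : ∀ ω, ι ω → A ω),
  (∀ ω, EtAt (A ω) (Q.comap (Subalgebra.inclusion (le_iSup A ω) : A ω →+* _)) (u ω)) →
  EtAt (⨆ ω, A ω) Q (fun x : (ω : Ω) × ι ω => Subalgebra.inclusion (le_iSup A x.1) (u x.1 x.2))

/-- The uniformizer of the base at a point of a smooth product. -/
def S_BTAM : Prop := ∀ (O K : Type) [CommRing O] [IsDomain O] [IsDedekindDomain O] [Field K]
  [Algebra O K], Function.Injective (algebraMap O K) → ∀ (Ω : Type) [Finite Ω]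
  (A : Ω → Subalgebra O K),
  (∀ ω, Algebra.FiniteType O (A ω)) →
  (∀ (S : Finset Ω) (ω : Ω), ω ∉ S → (⨆ ω' ∈ S, A ω').LinearDisjoint (A ω)) →
  IsRegularRing (⨆ ω, A ω : Subalgebra O K) → ∀ 𝔓 : Ideal O, 𝔓.IsMaximal → 𝔓 ≠ ⊥ →
  (∀ ω (q : Ideal (A ω)) [q.IsPrime], q.comap (algebraMap O (A ω)) = 𝔓 →
    Algebra.IsSmoothAt O q) →
  ∀ (Q : Ideal (⨆ ω, A ω : Subalgebra O K)) [Q.IsPrime],
    Q.comap (algebraMap O (⨆ ω, A ω : Subalgebra O K)) = 𝔓 → ∀ π ∈ 𝔓, π ∉ 𝔓 ^ 2 →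
    algebraMap (⨆ ω, A ω : Subalgebra O K) (Localization.AtPrime Q)
      (algebraMap O (⨆ ω, A ω : Subalgebra O K) π) ∉ maximalIdeal (Localization.AtPrime Q) ^ 2

/-- Étale coordinates in blocks of a product of smooth algebras permuted by an automorphism of
prime order. -/
def S_BWLD : Prop := ∀ (k O K : Type) [CommRing k] [CommRing O] [IsDomain O] [IsDedekindDomain O]
  [Field K] [Algebra k O] [Algebra O K] [Algebra k K] [IsScalarTower k O K],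
  Function.Injective (algebraMap O K) → ∀ (p : ℕ), p.Prime → ∀ (τ : K ≃ₐ[k] K) (t : O ≃ₐ[k] O), (∀ x, τ^[p] x = x) →
  (∀ o, τ (algebraMap O K o) = algebraMap O K (t o)) →
  ∀ (Ω : Type) [Finite Ω] (A : Ω → Subalgebra O K) (ϖ : Equiv.Perm Ω), (∀ ω, ϖ^[p] ω = ω) →
  (∀ ω x, x ∈ A ω → τ x ∈ A (ϖ ω)) → (∀ ω, Algebra.FiniteType O (A ω)) →
  (∀ (S : Finset Ω) (ω : Ω), ω ∉ S → (⨆ ω' ∈ S, A ω').LinearDisjoint (A ω)) →
  (∀ ω, ϖ ω = ω → A ω ≤ Algebra.adjoin O {x | x ∈ A ω ∧ τ x = x}) →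
  ∀ (𝔓 : Ideal O), (∀ ω (q : Ideal (A ω)) [q.IsPrime], q.comap (algebraMap O (A ω)) = 𝔓 →
    Algebra.IsSmoothAt O q) →
  ∀ (C : Subalgebra O K), C = ⨆ ω, A ω → IsNoetherianRing C →
  ∀ (σ : C ≃+* C), (∀ c, ((σ c : C) : K) = τ c) →
  ∀ (Q : Ideal C) [Q.IsPrime], Q.comap (algebraMap O C) = 𝔓 → (∀ c, σ c - c ∈ Q) →
    ∃ (r : ℕ) (u : Fin r → C) (κ : Type) (_ : Finite κ) (v : κ → C),
      EtAt C Q (Sum.elim (fun ai : Fin p × Fin r => σ^[ai.1] (u ai.2)) v) ∧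
      ∀ J : Ideal (Localization.AtPrime Q),
        (∀ o, algebraMap C (Localization.AtPrime Q) (algebraMap O C (t o - o)) ∈ J) →
        (∀ j a, 1 ≤ a → a < p →
          algebraMap C (Localization.AtPrime Q) ((df σ)^[a] (u j)) ∈ J) →
        ∀ c, algebraMap C (Localization.AtPrime Q) (σ c - c) ∈ J

/-- **The charts of the quotient are regular outside the vertex.** -/
def S_CHB : Prop := ∀ (k O K G Ω : Type) [CommRing k] [IsNoetherianRing k] [CommRing O]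
  [IsDomain O] [IsDedekindDomain O] [Field K] [Group G] [Finite G] [Finite Ω] [MulAction G Ω]
  [Algebra k O] [Algebra O K] [Algebra k K] [IsScalarTower k O K] (ρ : G →* (K ≃ₐ[k] K))
  (T : G →* (O ≃ₐ[k] O)) (N : Type) [Finite N] (𝔔 : N → Ideal O) (p l : N → ℕ) (τ : N → G),
  LocD k O K G ρ T 𝔔 p l τ → ∀ A : Ω → Subalgebra O K, Blk k O K G Ω ρ A →
  (∀ i ω (q : Ideal (A ω)) [q.IsPrime], q.comap (algebraMap O (A ω)) = 𝔔 i →
    Algebra.IsSmoothAt O q) →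
  ∀ (K' : Type) [Field K'] [Algebra k K'] (ι : K' →ₐ[k] K),
  (∀ x, (∀ g, ρ g x = x) ↔ ∃ y, ι y = x) → Ch (res ι (RG k ρ 𝔔 p l τ (⨆ ω, A ω)))

end Pool.Agent.Y223.G
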