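import Pool.Agent.Y223.G.Stm6

/-!
# Statements of the parts of project G: number fields
-/

set_option autoImplicit false

namespace Pool.Agent.Y223.G

open IsLocalRing Pool.Agent.W418.LU2 NumberField

/-- A product of linearly disjoint smooth algebras over a Dedekind domain is regular. -/
def S_SMRG : Prop := ∀ (O K : Type) [CommRing O] [IsDomain O] [IsDedekindDomain O] [Field K]
  [Algebra O K], Function.Injective (algebraMap O K) → ∀ (Ω : Type) [Finite Ω]
  (A : Ω → Subalgebra O K), (∀ ω, Algebra.FiniteType O (A ω)) →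
  (∀ (S : Finset Ω) (ω : Ω), ω ∉ S → (⨆ ω' ∈ S, A ω').LinearDisjoint (A ω)) →
  (∀ ω (q : Ideal (A ω)) [q.IsPrime], Algebra.IsSmoothAt O q) →
  IsRegularRing (⨆ ω, A ω : Subalgebra O K)

/-- Tame ramification: if the order of a finite group of automorphisms of a Dedekind domain which
acts trivially modulo the maximal ideal `𝔓` is not in `𝔓`, then an element which acts trivially on
`𝔓 / 𝔓 ^ 2` is trivial. -/
def S_TAMC : Prop := ∀ (O : Type) [CommRing O] [IsDomain O] [IsDedekindDomain O] (𝔓 : Ideal O),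
  𝔓.IsMaximal → 𝔓 ≠ ⊥ → Finite (O ⧸ 𝔓) → ∀ (t : O ≃+* O) (n : ℕ), (∀ o, t^[n] o = o) →
  (n : O) ∉ 𝔓 → (∀ o, t o - o ∈ 𝔓) → (∀ o ∈ 𝔓, t o - o ∈ 𝔓 ^ 2) → ∀ o, t o = o

end Pool.Agent.Y223.G
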