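import Pool.Agent.Y223.G.Stm7

/-!
# Statements of the parts of project G: atlases with a second grading
-/

set_option autoImplicit false

namespace Pool.Agent.Y223.G

open IsLocalRing Pool.Agent.W418.LU2

section defs

variable {k K K₂ : Type} [CommRing k] [Field K] [Field K₂] [Algebra k K] [Algebra k K₂]

/-- `K₂` is the field of fractions of `K[S, S⁻¹]`. -/
structure Ext2 (ε : LP K →ₐ[k] K₂) : Prop where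
  inj : Function.Injective ε
  frac : ∀ y : K₂, ∃ a b : LP K, b ≠ 0 ∧ y = ε a / ε b

/-- The subalgebra `C` of `K₂[T, T⁻¹]` is spanned by elements which are homogeneous for both
gradings: the monomials `a S ^ b T ^ d`, `a` in `K`. -/
def BG (ε : LP K →ₐ[k] K₂) (C : Subalgebra k (LP K₂)) : Prop :=
  ∀ f ∈ C, f ∈ Submodule.span k {g | g ∈ C ∧ ∃ (d b : ℤ) (a : K), g = hm d (ε (hm b a))}

/-- An atlas (see `AtlasG`) with a second grading, with the units `w S ^ n₀` of degree `n₀` for the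
second grading. -/
structure AtlasS (P : Prop) (ε : LP K →ₐ[k] K₂) (M₀ : Submodule k K)
    (𝒱 : Set (ValuationSubring K₂)) (n₀ ρ : ℕ) {T : Type} (C : T → Subalgebra k (LP K₂))
    (H : T → K) : Prop where
  H0 : ∀ t, H t ≠ 0
  ft : ∀ t, Algebra.FiniteType k (C t)
  rg : ∀ t, IsRegularRing (C t)
  gr : ∀ t, Gr (C t)
  bg : ∀ t, BG ε (C t)
  ss : ∀ t, hm (-1) 1 ∈ C t
  si : ∀ t, hm 0 (ε (hm (-1) 1)) ∈ C t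
  su : ∀ t, ∃ w : K, w ≠ 0 ∧ hm 0 (ε (hm n₀ w)) ∈ C t ∧ hm 0 (ε (hm (-n₀) w⁻¹)) ∈ C t
  un : ∀ t, ∃ r : ℕ, 0 < r ∧ r ≤ ρ ∧ ∃ (c : ℤ) (u : K), u ≠ 0 ∧ hm r (ε (hm c u)) ∈ C t ∧
    hm (-r) (ε (hm (-c) u⁻¹)) ∈ C t
  fr : ∀ t, ∀ x : K₂, ∃ y y' : K₂, hm 0 y ∈ C t ∧ hm 0 y' ∈ C t ∧ y' ≠ 0 ∧ x = y / y'
  rt : ∀ t t', hm 0 (ε (hm 0 (H t' / H t))) ∈ C t
  gl : ∀ t t', ∀ f ∈ C t', ∃ n : ℕ, hm 0 (ε (hm 0 (H t' / H t))) ^ n * f ∈ C t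
  cv : ∀ V ∈ 𝒱, ∃ t, ∀ x, hm 0 x ∈ C t → x ∈ V
  ve : P → ∀ t, ∃ s : k, s ≠ 0 ∧ hm 1 (algebraMap k K₂ s) ∈ C t
  vs : P → ∀ t, ∃ s : k, s ≠ 0 ∧ hm 0 (ε (hm 1 (algebraMap k K s))) ∈ C t
  mo : P → ∃ n : ℕ, 1 ≤ n ∧ ∀ t, H t ∈ sat (M₀ ^ n) ∧
    (∀ m ∈ M₀ ^ n, ∃ s : k, s ≠ 0 ∧ hm 0 (ε (hm 0 (s • (m / H t)))) ∈ C t) ∧
    ∀ (f : K) (b : ℤ), hm 0 (ε (hm b f)) ∈ C t → ∃ N₀ : ℕ, ∀ N, N₀ ≤ N →
      H t ^ N * f ∈ sat (M₀ ^ (n * N))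

end defs

/-- Compatible weighted blowups with a second grading give an atlas. -/
def S_ATLAS2 : Prop := ∀ (k K K₂ : Type) [CommRing k] [IsDomain k] [IsNoetherianRing k] [Field K]
  [Field K₂] [Algebra k K] [Algebra k K₂] (_ : Function.Injective (algebraMap k K))
  (ε : LP K →ₐ[k] K₂), Ext2 ε → ∀ (P : Prop) (M₀ : Submodule k K)
  (𝒱 : Set (ValuationSubring K₂)), (∀ V ∈ 𝒱, ∀ c : k, algebraMap k K₂ c ∈ V) → ∀ (n₀ : ℕ),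
  0 < n₀ → ∀ (𝒜 : Type) [Finite 𝒜] (R : 𝒜 → Subalgebra k (LP K₂)) (h : 𝒜 → K),
    (∀ a, Ch (R a)) → (∀ a, BG ε (R a)) → (∀ a, h a ≠ 0) →
    (∀ a, hm 0 (ε (hm (-1) 1)) ∈ R a) →
    (∀ a, ∃ w : K, w ≠ 0 ∧ hm 0 (ε (hm n₀ w)) ∈ R a ∧ hm 0 (ε (hm (-n₀) w⁻¹)) ∈ R a) →
    (∀ a b, hm 0 (ε (hm 0 (h b / h a))) ∈ R a) →
    (∀ a b, ∀ f ∈ R b, ∃ n : ℕ, hm 0 (ε (hm 0 (h b / h a))) ^ n * f ∈ R a) →
    (∀ V ∈ 𝒱, ∃ a, ∀ x, hm 0 x ∈ R a → x ∈ V) →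
    (∀ a, ∀ x : K₂, ∃ y y' : K₂, hm 0 y ∈ R a ∧ hm 0 y' ∈ R a ∧ y' ≠ 0 ∧ x = y / y') →
    (P → ∀ a, ∃ s : k, s ≠ 0 ∧ hm 1 (algebraMap k K₂ s) ∈ R a) →
    (P → ∀ a, ∃ s : k, s ≠ 0 ∧ hm 0 (ε (hm 1 (algebraMap k K s))) ∈ R a) →
    (P → ∃ n : ℕ, 1 ≤ n ∧ ∀ a, h a ∈ sat (M₀ ^ n) ∧
      (∀ m ∈ M₀ ^ n, ∃ s : k, s ≠ 0 ∧ hm 0 (ε (hm 0 (s • (m / h a)))) ∈ R a) ∧
      ∀ (f : K) (b : ℤ), hm 0 (ε (hm b f)) ∈ R a → ∃ N₀ : ℕ, ∀ N, N₀ ≤ N →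
        h a ^ N * f ∈ sat (M₀ ^ (n * N))) →
    ∃ (ρ : ℕ) (T : Type) (_ : Finite T) (C : T → Subalgebra k (LP K₂)) (H : T → K),
      AtlasS P ε M₀ 𝒱 n₀ ρ C H

/-- Reduction of the order of the stabilisers. -/
def S_ASTEP2 : Prop := ∀ (k K K₂ : Type) [CommRing k] [IsDomain k] [IsNoetherianRing k] [Field K]
  [Field K₂] [Algebra k K] [Algebra k K₂] (_ : Function.Injective (algebraMap k K))
  (ε : LP K →ₐ[k] K₂), Ext2 ε → ∀ (P : Prop) (M₀ : Submodule k K)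
  (𝒱 : Set (ValuationSubring K₂)), (∀ V ∈ 𝒱, ∀ c : k, algebraMap k K₂ c ∈ V) → ∀ (n₀ : ℕ),
  0 < n₀ → ∀ ρ : ℕ, 2 ≤ ρ → ∀ (T : Type) [Finite T] (C : T → Subalgebra k (LP K₂)) (H : T → K),
    AtlasS P ε M₀ 𝒱 n₀ ρ C H →
    ∃ (T' : Type) (_ : Finite T') (C' : T' → Subalgebra k (LP K₂)) (H' : T' → K),
      AtlasS P ε M₀ 𝒱 n₀ (ρ - 1) C' H'

/-- The parts of degree zero form an atlas for the second grading. -/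
def S_DOWN : Prop := ∀ (k K K₂ : Type) [CommRing k] [IsDomain k] [IsNoetherianRing k] [Field K]
  [Field K₂] [Algebra k K] [Algebra k K₂] (_ : Function.Injective (algebraMap k K))
  (ε : LP K →ₐ[k] K₂), Ext2 ε → ∀ (P : Prop) (M₀ : Submodule k K)
  (𝒱 : Set (ValuationSubring K₂)), (∀ V : ValuationSubring K, (∀ c : k, algebraMap k K c ∈ V) →
    ∃ V₂ ∈ 𝒱, ∀ x : K, ε (hm 0 x) ∈ V₂ → x ∈ V) → ∀ (n₀ : ℕ), 0 < n₀ →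
  ∀ (T : Type) [Finite T] (C : T → Subalgebra k (LP K₂)) (H : T → K),
    AtlasS P ε M₀ 𝒱 n₀ 1 C H →
    ∃ D : T → Subalgebra k (LP K), AtlasG P M₀ (⊤ : Subfield K) n₀ D H

end Pool.Agent.Y223.G
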