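import Pool.Agent.Y223.G.Stm8

/-!
# Statements of the parts of project G: charts with a second grading
-/

set_option autoImplicit false

namespace Pool.Agent.Y223.G

open IsLocalRing Pool.Agent.W418.LU2

/-- The ramification of the base `O` of a chart: `𝔔 i` are the wildly ramified primes, the wild
inertia group at `𝔔 i` is contained in the group generated by the element `τ i` of prime order
`p i`, and `π` generates the product of all the ramified primes. -/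
structure LocE (k O K G : Type) [CommRing k] [CommRing O] [IsDomain O] [IsDedekindDomain O]
    [Field K] [Group G] [Algebra k O] [Algebra O K] [Algebra k K] [IsScalarTower k O K]
    (ρ : G →* (K ≃ₐ[k] K)) (T : G →* (O ≃ₐ[k] O)) {N : Type} (𝔔 : N → Ideal O) (p l : N → ℕ)
    (τ : N → G) (π : O) : Prop where
  ft : Algebra.FiniteType k O
  inj : Function.Injective (algebraMap O K)
  com : ∀ g o, ρ g (algebraMap O K o) = algebraMap O K (T g o)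
  mx : ∀ i, (𝔔 i).IsMaximal
  ne : ∀ i, 𝔔 i ≠ ⊥
  dj : ∀ i j, 𝔔 i = 𝔔 j → i = j
  p0 : π ≠ 0
  wi : ∀ g, ∃ w : O, T g π = w * π
  pq : ∀ i, π ∈ 𝔔 i ∧ π ∉ 𝔔 i ^ 2
  al : ∀ 𝔮 : Ideal O, 𝔮.IsPrime → (∀ i, 𝔮 ≠ 𝔔 i) → ∀ g, (∀ o, T g o - o ∈ 𝔮) →
    (∀ w, T g π = w * π → w - 1 ∈ 𝔮) → g = 1
  ty : ∀ i, WS0 k O K (p i) (ρ (τ i)) (T (τ i)) (𝔔 i) (l i) ∧ τ i ^ p i = 1 ∧
    ∀ g, (∀ o, T g o - o ∈ 𝔔 i) → (∀ w, T g π = w * π → w - 1 ∈ 𝔔 i) →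
      g ∈ Subgroup.zpowers (τ i)
  cj : ∀ g i, ∃ j, (∀ o, o ∈ 𝔔 i ↔ T g o ∈ 𝔔 j) ∧ p j = p i ∧ l j = l i ∧
    (∃ n : ℕ, g * τ i * g⁻¹ = τ j ^ n) ∧ ∃ n : ℕ, τ j = (g * τ i * g⁻¹) ^ n

/-- The algebra generated by `R` and the unit `v = π S`. -/
noncomputable def R2 {k K K₂ : Type} [CommRing k] [Field K] [Field K₂] [Algebra k K]
    [Algebra k K₂] (ε : LP K →ₐ[k] K₂) (R : Subalgebra k (LP K)) (π : K) :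
    Subalgebra k (LP K₂) :=
  Algebra.adjoin k ({g | ∃ (d : ℤ) (a : K), hm d a ∈ R ∧ g = hm d (ε (hm 0 a))} ∪
    {hm 0 (ε (hm 1 π)), hm 0 (ε (hm (-1) π⁻¹))})

/-- The operator `T ^ l (τ - 1)` has no zeros outside the vertex. -/
def S_RPRIN1 : Prop := ∀ (k O K : Type) [CommRing k] [CommRing O] [IsDomain O]
  [IsDedekindDomain O] [Field K] [Algebra k O] [Algebra O K] [Algebra k K] [IsScalarTower k O K]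
  (p : ℕ) (τ : K ≃ₐ[k] K) (t : O ≃ₐ[k] O) (𝔓 : Ideal O) (l : ℕ), WS0 k O K p τ t 𝔓 l →
  ∀ C : Subalgebra O K, (∀ c ∈ C, τ c ∈ C) → ∀ Q : Ideal (RR k τ p 𝔓 l C), Q.IsPrime →
    (∀ e ∈ 𝔓, ∃ h : hm 0 (algebraMap O K e) ∈ RR k τ p 𝔓 l C,
      (⟨_, h⟩ : RR k τ p 𝔓 l C) ∈ Q) →
    (∃ (e : ℕ) (η : K) (he : hm e η ∈ RR k τ p 𝔓 l C), 0 < e ∧
      (⟨hm e η, he⟩ : RR k τ p 𝔓 l C) ∉ Q) →
    ∃ b ∈ RR k τ p 𝔓 l C, ∃ h : hm l 1 * (tl τ b - b) ∈ RR k τ p 𝔓 l C,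
      (⟨_, h⟩ : RR k τ p 𝔓 l C) ∉ Q

/-- The monomials in `R2`. -/
def S_R2M : Prop := ∀ (k K K₂ : Type) [CommRing k] [Field K] [Field K₂] [Algebra k K]
  [Algebra k K₂] (ε : LP K →ₐ[k] K₂), Ext2 ε → ∀ R : Subalgebra k (LP K), Gr R →
  ∀ π : K, π ≠ 0 → BG ε (R2 ε R π) ∧
    ∀ (d b : ℤ) (a : K), hm d (ε (hm b a)) ∈ R2 ε R π ↔ hm d (a * π ^ (-b)) ∈ R

/-- The second grading and regularity outside the vertex. -/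
def S_R2CH : Prop := ∀ (k K K₂ : Type) [CommRing k] [IsNoetherianRing k] [Field K] [Field K₂]
  [Algebra k K] [Algebra k K₂] (ε : LP K →ₐ[k] K₂), Ext2 ε → ∀ R : Subalgebra k (LP K), Ch R →
  ∀ π : K, π ≠ 0 → Ch (R2 ε R π)

/-- The graded algebra of a chart. -/
def S_RECH : Prop := ∀ (k O K G : Type) [CommRing k] [IsNoetherianRing k] [CommRing O] [IsDomain O]
  [IsDedekindDomain O] [Field K] [Group G] [Algebra k O] [Algebra O K] [Algebra k K]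
  [IsScalarTower k O K] (ρ : G →* (K ≃ₐ[k] K)) (T : G →* (O ≃ₐ[k] O)) (N : Type) [Finite N]
  (𝔔 : N → Ideal O) (p l : N → ℕ) (τ : N → G) (π : O), LocE k O K G ρ T 𝔔 p l τ π →
  ∀ C : Subalgebra O K, (∀ g, ∀ c ∈ C, ρ g c ∈ C) → Algebra.FiniteType O C → IsRegularRing C →
  (∀ i, IsRegularRing (RR k (ρ (τ i)) (p i) (𝔔 i) (l i) C)) →
  Ch (RG k ρ 𝔔 p l τ C) ∧ ∀ g, ∀ f ∈ RG k ρ 𝔔 p l τ C, tl (ρ g) f ∈ RG k ρ 𝔔 p l τ C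

/-- The inertia groups outside the vertex. -/
def S_REIN : Prop := ∀ (k O K K₂ G : Type) [CommRing k] [CommRing O] [IsDomain O]
  [IsDedekindDomain O] [Field K] [Field K₂] [Group G] [Finite G] [Algebra k O] [Algebra O K]
  [Algebra k K] [Algebra k K₂] [IsScalarTower k O K] (ε : LP K →ₐ[k] K₂), Ext2 ε →
  ∀ (ρ : G →* (K ≃ₐ[k] K)) (ρ₂ : G →* (K₂ ≃ₐ[k] K₂)),
  (∀ g w, ρ₂ g (ε w) = ε (tl (ρ g) w)) → ∀ (T : G →* (O ≃ₐ[k] O)) (N : Type) [Finite N]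
  (𝔔 : N → Ideal O) (p l : N → ℕ) (τ : N → G) (π : O), LocE k O K G ρ T 𝔔 p l τ π →
  ∀ C : Subalgebra O K, (∀ g, ∀ c ∈ C, ρ g c ∈ C) → ∀ R : Subalgebra k (LP K₂),
  R = R2 ε (RG k ρ 𝔔 p l τ C) (algebraMap O K π) →
  ∀ Q : Ideal R, Q.IsPrime →
    (∃ (e : ℕ) (η : K₂) (he : hm e η ∈ R), 0 < e ∧ (⟨hm e η, he⟩ : R) ∉ Q) →
    (∀ g, (∀ f ∈ R, ∃ h : tl (ρ₂ g) f - f ∈ R, (⟨tl (ρ₂ g) f - f, h⟩ : R) ∈ Q) → g = 1) ∨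
    ∃ (p : ℕ) (τ : G), p.Prime ∧ τ ^ p = 1 ∧
      (∀ g, (∀ f ∈ R, ∃ h : tl (ρ₂ g) f - f ∈ R, (⟨tl (ρ₂ g) f - f, h⟩ : R) ∈ Q) →
        g ∈ Subgroup.zpowers τ) ∧
      ∃ b ∈ R, ∀ c ∈ R, ∃ (s : LP K₂) (hs : s ∈ R), (⟨s, hs⟩ : R) ∉ Q ∧
        ∃ u ∈ R, s * (tl (ρ₂ τ) c - c) = u * (tl (ρ₂ τ) b - b)

/-- **The charts of the quotient are regular outside the vertex.** -/
def S_CHE : Prop := ∀ (k O K K₂ G Ω : Type) [CommRing k] [IsNoetherianRing k] [CommRing O]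
  [IsDomain O] [IsDedekindDomain O] [Field K] [Field K₂] [Group G] [Finite G] [Finite Ω]
  [MulAction G Ω] [Algebra k O] [Algebra O K] [Algebra k K] [Algebra k K₂] [IsScalarTower k O K]
  (ε : LP K →ₐ[k] K₂), Ext2 ε → ∀ (ρ : G →* (K ≃ₐ[k] K)) (ρ₂ : G →* (K₂ ≃ₐ[k] K₂)),
  (∀ g w, ρ₂ g (ε w) = ε (tl (ρ g) w)) → ∀ (T : G →* (O ≃ₐ[k] O)) (N : Type) [Finite N]
  (𝔔 : N → Ideal O) (p l : N → ℕ) (τ : N → G) (π : O), LocE k O K G ρ T 𝔔 p l τ π →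
  ∀ A : Ω → Subalgebra O K, Blk k O K G Ω ρ A →
  (∀ i ω (q : Ideal (A ω)) [q.IsPrime], q.comap (algebraMap O (A ω)) = 𝔔 i →
    Algebra.IsSmoothAt O q) →
  ∀ (K' : Type) [Field K'] [Algebra k K'] (ι : K' →ₐ[k] K₂),
  (∀ x, (∀ g, ρ₂ g x = x) ↔ ∃ y, ι y = x) →
  Ch (res ι (R2 ε (RG k ρ 𝔔 p l τ (⨆ ω, A ω)) (algebraMap O K π)))

/-- Two fields with an action, and the fields of fractions of the Laurent polynomials. -/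
structure Ext2M {k Y Y₂ K K₂ G : Type} [CommRing k] [Field Y] [Field Y₂] [Field K] [Field K₂]
    [Group G] [Algebra k Y] [Algebra k Y₂] [Algebra k K] [Algebra k K₂] (ι : Y →ₐ[k] K)
    (ι₂ : Y₂ →ₐ[k] K₂) (εY : LP Y →ₐ[k] Y₂) (ε : LP K →ₐ[k] K₂) (ρ : G →* (K ≃ₐ[k] K))
    (ρ₂ : G →* (K₂ ≃ₐ[k] K₂)) : Prop where
  eY : Ext2 εY
  eK : Ext2 ε
  act : ∀ g w, ρ₂ g (ε w) = ε (tl (ρ g) w)
  com : ∀ (b : ℤ) (a : Y), ι₂ (εY (hm b a)) = ε (hm b (ι a))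
  fix : ∀ x, (∀ g, ρ₂ g x = x) ↔ ∃ y, ι₂ y = x

/-- Existence of the fields of fractions of the Laurent polynomials, with the action. -/
def S_EXT2 : Prop := ∀ (k Y K G : Type) [CommRing k] [Field Y] [Field K] [Group G] [Finite G]
  [Algebra k Y] [Algebra k K] (ι : Y →ₐ[k] K) (ρ : G →* (K ≃ₐ[k] K)),
  (∀ x, (∀ g, ρ g x = x) ↔ ∃ y, ι y = x) →
  ∃ (Y₂ K₂ : Type) (_ : Field Y₂) (_ : Field K₂) (_ : Algebra k Y₂) (_ : Algebra k K₂)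
    (ι₂ : Y₂ →ₐ[k] K₂) (εY : LP Y →ₐ[k] Y₂) (ε : LP K →ₐ[k] K₂) (ρ₂ : G →* (K₂ ≃ₐ[k] K₂)),
    Ext2M ι ι₂ εY ε ρ ρ₂

/-- The invariants are bigraded. -/
def S_RES2 : Prop := ∀ (k Y Y₂ K K₂ G : Type) [CommRing k] [Field Y] [Field Y₂] [Field K]
  [Field K₂] [Group G] [Algebra k Y] [Algebra k Y₂] [Algebra k K] [Algebra k K₂] (ι : Y →ₐ[k] K)
  (ι₂ : Y₂ →ₐ[k] K₂) (εY : LP Y →ₐ[k] Y₂) (ε : LP K →ₐ[k] K₂) (ρ : G →* (K ≃ₐ[k] K))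
  (ρ₂ : G →* (K₂ ≃ₐ[k] K₂)), Ext2M ι ι₂ εY ε ρ ρ₂ → (∀ x, (∀ g, ρ g x = x) ↔ ∃ y, ι y = x) →
  ∀ R : Subalgebra k (LP K), Gr R → ∀ π : K, π ≠ 0 → BG εY (res ι₂ (R2 ε R π)) ∧
    ∀ (d b : ℤ) (y : Y), hm d (εY (hm b y)) ∈ res ι₂ (R2 ε R π) ↔ hm d (ι y * π ^ (-b)) ∈ R

end Pool.Agent.Y223.G
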