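import Pool.Agent.Y223.G.WBase
import Pool.Agent.H918R2.Quad.Final

/-!
# Towers of quotients of arithmetic schemes
-/

set_option autoImplicit false
set_option linter.unusedSectionVars false

namespace Pool.Agent.Y223.G.Tow

open Pool.Agent.Y223.G

/-- A multiplicative filtration of a ring by ideals. -/
structure IsFilt {B : Type} [CommRing B] (F : ℕ → Ideal B) : Prop where
  zero : F 0 = ⊤
  anti : ∀ a b, a ≤ b → F b ≤ F a
  mul : ∀ a b, F a * F b ≤ F (a + b)

section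

variable {O E K : Type} [CommRing O] [Field E] [Algebra O E] [Field K] [Algebra E K]
  [Algebra O K] [IsScalarTower O E K]

/-- The extended Rees algebra of the filtration on the elements of `M`. -/
noncomputable def rees {B : Subalgebra O K} (F : ℕ → Ideal B) (M : IntermediateField E K) :
    Subalgebra O (LP M) :=
  Algebra.adjoin O {f | ∃ (d : ℤ) (x : M) (b : B), b ∈ F d.toNat ∧ (b : K) = x ∧ f = hm d x}

variable {B : Subalgebra O K} {F : ℕ → Ideal B}

lemma sum_F (hF : IsFilt F) {M : IntermediateField E K} (f : LP M)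
    (hf : f ∈ rees F M) (d : ℤ) : ∃ b ∈ F d.toNat, (b : K) = (f.coeff d : K) := by
  classical
  let S : Subalgebra O (LP M) :=
    { carrier := {f | ∀ d : ℤ, ∃ b ∈ F d.toNat, (b : K) = (f.coeff d : K)}
      mul_mem' := by
        intro f g' hf hg d
        rw [eq_sum_hm f, Finset.sum_mul, AddMonoidAlgebra.coeff_sum, Finsupp.finsetSum_apply]
        have h1 : ∀ a : ℤ, ∃ b ∈ F d.toNat, (b : K) =
            ((hm a (f.coeff a) * g').coeff d : K) := by
          intro a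
          obtain ⟨b, hb, hb'⟩ := hf a
          obtain ⟨c, hc, hc'⟩ := hg (d - a)
          refine ⟨b * c, ?_, ?_⟩
          · exact hF.anti _ _ (by omega) (hF.mul _ _ (Ideal.mul_mem_mul hb hc))
          · rw [coeff_hm_mul]
            change (b : K) * (c : K) = _
            rw [hb', hc']
            rfl
        choose b hb hb' using h1
        refine ⟨∑ a ∈ f.coeff.support, b a, Ideal.sum_mem _ fun a _ => hb a, ?_⟩
        have h2 : ((∑ a ∈ f.coeff.support, b a : B) : K) = ∑ a ∈ f.coeff.support, (b a : K) := by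
          push_cast
          rfl
        rw [h2]
        have h3 : ((∑ a ∈ f.coeff.support, (hm a (f.coeff a) * g').coeff d : M) : K) =
            ∑ a ∈ f.coeff.support, ((hm a (f.coeff a) * g').coeff d : K) := by
          push_cast
          rfl
        rw [h3]
        exact Finset.sum_congr rfl fun a _ => hb' a
      add_mem' := by
        intro f g hf hg d
        obtain ⟨b, hb, hb'⟩ := hf d
        obtain ⟨c, hc, hc'⟩ := hg d
        refine ⟨b + c, Ideal.add_mem _ hb hc, ?_⟩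
        rw [AddMonoidAlgebra.coeff_add, Finsupp.add_apply]
        change (b : K) + (c : K) = _
        rw [hb', hc']
        rfl
      algebraMap_mem' := by
        intro r d
        rw [algebraMap_LP, coeff_hm]
        split_ifs with h
        · rw [← h]
          refine ⟨algebraMap O B r, by rw [Int.toNat_zero, hF.zero]; trivial, rfl⟩
        · exact ⟨0, Ideal.zero_mem _, rfl⟩ }
  have hle : rees F M ≤ S := by
    unfold rees
    rw [Algebra.adjoin_le_iff]
    rintro _ ⟨e, x, b, hb, hbx, rfl⟩ d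
    rw [coeff_hm]
    split_ifs with h
    · rw [← h]
      exact ⟨b, hb, hbx⟩
    · exact ⟨0, Ideal.zero_mem _, rfl⟩
  exact hle hf d

lemma mem_rees_iff (hF : IsFilt F) {M : IntermediateField E K} (f : LP M) :
    f ∈ rees F M ↔ ∀ d : ℤ, ∃ b ∈ F d.toNat, (b : K) = (f.coeff d : K) := by
  constructor
  · exact fun hf d => sum_F hF f hf d
  · intro h
    apply mem_of_comp
    intro d
    obtain ⟨b, hb, hb'⟩ := h d
    exact Algebra.subset_adjoin ⟨d, _, b, hb, hb', rfl⟩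

lemma hm_mem_rees_iff (hF : IsFilt F) {M : IntermediateField E K} (d : ℤ) (x : M) :
    hm d x ∈ rees F M ↔ ∃ b ∈ F d.toNat, (b : K) = x := by
  constructor
  · intro h
    have h1 := sum_F hF _ h d
    rwa [coeff_hm_same] at h1
  · rintro ⟨b, hb, hbx⟩
    exact Algebra.subset_adjoin ⟨d, x, b, hb, hbx, rfl⟩

lemma gr_rees {M : IntermediateField E K} : Gr (rees F M) := by
  apply gr_adjoin
  rintro f ⟨d, x, b, -, -, rfl⟩
  exact ⟨_, _, rfl⟩

/-- Restriction of the Rees algebra to a smaller field. -/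
lemma rees_res (hF : IsFilt F) {M M' : IntermediateField E K} (h : M' ≤ M) :
    res ((IntermediateField.inclusion h).restrictScalars O) (rees F M) = rees F M' := by
  ext f
  unfold res
  rw [Subalgebra.mem_comap, mem_rees_iff hF, mem_rees_iff hF]
  refine forall_congr' fun d => ?_
  have h1 : ((AddMonoidAlgebra.mapAlgHom (R := O) ℤ
      ((IntermediateField.inclusion h).restrictScalars O) f).coeff d : K) = (f.coeff d : K) := rfl
  rw [h1]

/-- The condition on the ideal of the fixed points. -/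
def Principal {M : Type} [Field M] [Algebra O M] (R : Subalgebra O (LP M)) (σ : M ≃ₐ[O] M) :
    Prop :=
  ∀ Q : Ideal R, Q.IsPrime →
    (∃ (e : ℕ) (η : M) (he : hm e η ∈ R), 0 < e ∧ (⟨hm e η, he⟩ : R) ∉ Q) →
    ∃ b ∈ R, ∀ c ∈ R, ∃ (s : LP M) (hs : s ∈ R), (⟨s, hs⟩ : R) ∉ Q ∧
      ∃ u ∈ R, s * (tl σ c - c) = u * (tl σ b - b)

variable {𝒜 : Type} {Bs : 𝒜 → Subalgebra O K}

/-- The step of the tower. -/
def Step (F : ∀ a, ℕ → Ideal (Bs a)) (M M' : IntermediateField E K) : Prop :=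
  M' ≤ M ∧ ∃ (p : ℕ) (σ : M ≃ₐ[E] M), p.Prime ∧ (∀ x, σ^[p] x = x) ∧ (∃ x, σ x ≠ x) ∧
    (∀ x : M, σ x = x ↔ (x : K) ∈ M') ∧ ∀ a,
      (∀ (d : ℕ) (b : Bs a) (x : M), b ∈ F a d → (b : K) = x →
        ∃ b' ∈ F a d, (b' : K) = σ x) ∧
      Principal (rees (F a) M) (σ.restrictScalars O)

/-- The charts. -/
structure Charts (Bs : 𝒜 → Subalgebra O K) (h : 𝒜 → K) (F : ∀ a, ℕ → Ideal (Bs a)) : Prop where
  ne : ∀ a, h a ≠ 0
  mem : ∀ a b, h b / h a ∈ Bs a
  glue : ∀ a b d, ∀ f ∈ F b d, ∃ (n : ℕ), ∃ g ∈ F a d, (g : K) = (h b / h a) ^ n * f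
  proper : ∀ V : ValuationSubring K, (∀ c : O, algebraMap O K c ∈ V) → ∃ a, ∀ x ∈ Bs a, x ∈ V
  frac : ∀ a x, ∃ y ∈ Bs a, ∃ z ∈ Bs a, z ≠ 0 ∧ x = y / z

/-- Regularity outside the vertex. -/
structure Good {B : Subalgebra O K} (F : ℕ → Ideal B) (M : IntermediateField E K) : Prop where
  ft : Algebra.FiniteType O (rees F M)
  reg : ∀ (d : ℕ) (x : M) (h : hm d x ∈ rees F M), 0 < d → x ≠ 0 →
    IsRegularRing (Localization.Away (⟨hm d x, h⟩ : rees F M))

lemma ch_of_good (hF : IsFilt F) {M : IntermediateField E K} (hG : Good F M)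
    (hpos : ∃ b ∈ F 1, b ≠ 0 ∧ (b : K) ∈ M) : Ch (rees F M) := by
  refine ⟨hG.ft, gr_rees, ?_, ?_, ?_, ?_⟩
  · rw [hm_mem_rees_iff hF]
    exact ⟨1, by rw [show ((-1 : ℤ)).toNat = 0 from rfl, hF.zero]; trivial, rfl⟩
  · intro d x hx
    rw [hm_mem_rees_iff hF] at hx ⊢
    obtain ⟨b, -, hb⟩ := hx
    exact ⟨b, by rw [Int.toNat_zero, hF.zero]; trivial, hb⟩
  · obtain ⟨b, hb, hb0, hbM⟩ := hpos
    refine ⟨1, ⟨b, hbM⟩, one_pos, ?_, ?_⟩
    · intro h
      exact hb0 (Subtype.ext (congrArg (fun x : M => (x : K)) h))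
    · rw [hm_mem_rees_iff hF]
      exact ⟨b, hb, rfl⟩
  · intro e η he he0 hη
    have h1 := hG.reg e η he he0 hη
    let _ := locAlg (rees F M) he
    have h2 : IsLocalization.Away (⟨hm e η, he⟩ : rees F M) (loc (rees F M) (hm e η) he) :=
      isLocalization_loc _ he (isUnit_hm hη)
    exact IsRegularRing.of_ringEquiv (IsLocalization.algEquiv
      (Submonoid.powers (⟨hm e η, he⟩ : rees F M)) (Localization.Away (⟨hm e η, he⟩ : rees F M))
      (loc (rees F M) (hm e η) he)).toRingEquiv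

/-- The extension of valuations. -/
lemma ext_val {Y K : Type} [Field Y] [Field K] (ι : Y →+* K) (V : ValuationSubring Y) :
    ∃ V' : ValuationSubring K, ∀ y, ι y ∈ V' ↔ y ∈ V := by
  obtain ⟨B, hB, hloc⟩ := (V.toLocalSubring.map ι).exists_le_valuationSubring
  refine ⟨B, fun y => ⟨fun hy => ?_, fun hy => hB ⟨y, hy, rfl⟩⟩⟩
  by_contra hyV
  have hinv : y⁻¹ ∈ V := (V.mem_or_inv_mem y).resolve_left hyV
  have hy0 : y ≠ 0 := by
    rintro rfl
    exact hyV V.zero_mem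
  have h1 : ι y⁻¹ ∈ (V.toLocalSubring.map ι).toSubring := ⟨y⁻¹, hinv, rfl⟩
  have hu : IsUnit (Subring.inclusion hB ⟨ι y⁻¹, h1⟩) := by
    refine isUnit_iff_exists_inv.mpr ⟨⟨ι y, hy⟩, Subtype.ext ?_⟩
    change ι y⁻¹ * ι y = 1
    rw [← map_mul, inv_mul_cancel₀ hy0, map_one]
  obtain ⟨⟨x, w, hw, rfl⟩, hx⟩ := isUnit_iff_exists_inv.mp (hloc.1 _ hu)
  have h2 : ι y⁻¹ * ι w = 1 := congrArg Subtype.val hx
  rw [← map_mul] at h2
  have h3 : y⁻¹ * w = 1 := ι.injective (by rw [h2, map_one])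
  have h4 : w = y := by
    rw [inv_mul_eq_one₀ hy0] at h3
    exact h3.symm
  exact hyV (h4 ▸ hw)

/-- The elements of the smaller field are fractions. -/
lemma frac_step {M M' : IntermediateField E K} (hle : M' ≤ M) {p : ℕ} (hp : p.Prime)
    (σ : M ≃ₐ[E] M) (hσp : ∀ x, σ^[p] x = x) (hσM : ∀ x : M, σ x = x ↔ (x : K) ∈ M')
    (hst : ∀ x : M, (x : K) ∈ B → ((σ x : M) : K) ∈ B)
    (hfr : ∀ x ∈ M, ∃ y ∈ B, ∃ z ∈ B, y ∈ M ∧ z ∈ M ∧ z ≠ 0 ∧ x = y / z) :
    ∀ x ∈ M', ∃ y ∈ B, ∃ z ∈ B, y ∈ M' ∧ z ∈ M' ∧ z ≠ 0 ∧ x = y / z := by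
  classical
  intro x hx
  obtain ⟨y, hy, z, hz, hyM, hzM, hz0, hxyz⟩ := hfr x (hle hx)
  set z1 : M := ⟨z, hzM⟩ with hz1
  have hz10 : z1 ≠ 0 := fun h => hz0 (congrArg (fun x : M => (x : K)) h)
  have hst' : ∀ (i : ℕ) (x : M), (x : K) ∈ B → ((σ^[i] x : M) : K) ∈ B := by
    intro i
    induction i with
    | zero => intro x hx; exact hx
    | succ i ih =>
      intro x hx
      rw [Function.iterate_succ_apply']
      exact hst _ (ih x hx)
  have hne : ∀ (i : ℕ), σ^[i] z1 ≠ 0 := by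
    intro i
    induction i with
    | zero => exact hz10
    | succ i ih =>
      rw [Function.iterate_succ_apply']
      exact fun h => ih ((map_eq_zero σ).1 h)
  let w : M := ∏ i ∈ Finset.range (p - 1), σ^[i + 1] z1
  let N : M := ∏ i ∈ Finset.range p, σ^[i] z1
  have hN : N = w * z1 := by
    change ∏ i ∈ Finset.range p, σ^[i] z1 = (∏ i ∈ Finset.range (p - 1), σ^[i + 1] z1) * z1
    have hp1 : p = p - 1 + 1 := by have := hp.one_lt; omega
    conv_lhs => rw [hp1]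
    rw [Finset.prod_range_succ']
    rfl
  have hσN : σ N = N := by
    change σ (∏ i ∈ Finset.range p, σ^[i] z1) = ∏ i ∈ Finset.range p, σ^[i] z1
    rw [map_prod]
    have h1 : ∏ i ∈ Finset.range p, σ (σ^[i] z1) = ∏ i ∈ Finset.range p, σ^[i + 1] z1 :=
      Finset.prod_congr rfl fun i _ => (Function.iterate_succ_apply' σ i z1).symm
    rw [h1]
    have h2 : (∏ i ∈ Finset.range p, σ^[i + 1] z1) * z1 =
        (∏ i ∈ Finset.range p, σ^[i] z1) * z1 := by
      have h3 := Finset.prod_range_succ' (fun i => σ^[i] z1) p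
      have h4 := Finset.prod_range_succ (fun i => σ^[i] z1) p
      rw [hσp] at h4
      rw [← h4, h3]
      rfl
    exact mul_right_cancel₀ hz10 h2
  have hwB : (w : K) ∈ B := by
    have h1 : (w : K) = ∏ i ∈ Finset.range (p - 1), ((σ^[i + 1] z1 : M) : K) := by
      change ((∏ i ∈ Finset.range (p - 1), σ^[i + 1] z1 : M) : K) = _
      push_cast
      rfl
    rw [h1]
    exact B.prod_mem fun i _ => hst' _ z1 hz
  have hw0 : (w : K) ≠ 0 := by
    intro h
    have h1 : w = 0 := Subtype.ext h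
    exact (Finset.prod_ne_zero_iff.2 fun i _ => hne (i + 1)) h1
  have hNM : (N : K) ∈ M' := (hσM N).1 hσN
  have hNK : (N : K) = w * z := congrArg (fun x : M => (x : K)) hN
  have hyw : y * w = x * N := by
    rw [hxyz, hNK]
    field_simp
  refine ⟨y * w, B.mul_mem hy hwB, N, ?_, ?_, hNM, ?_, ?_⟩
  · rw [hNK]; exact B.mul_mem hwB hz
  · rw [hyw]; exact M'.mul_mem hx hNM
  · rw [hNK]; exact mul_ne_zero hw0 hz0
  · rw [hyw, mul_div_cancel_right₀]
    rw [hNK]; exact mul_ne_zero hw0 hz0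

/-- The members of the tower. -/
theorem ch_tower [IsNoetherianRing O] (hSTEP : S_STEP) {F : ∀ a, ℕ → Ideal (Bs a)}
    (hF : ∀ a, IsFilt (F a)) {h : 𝒜 → K} (hX : Charts Bs h F) (n : ℕ)
    (M : ℕ → IntermediateField E K) (hM0 : M 0 = ⊤) (hM : ∀ i < n, Step F (M i) (M (i + 1)))
    (hG : ∀ a, Ch (rees (F a) (⊤ : IntermediateField E K))) :
    ∀ i, i ≤ n → ∀ a, Ch (rees (F a) (M i)) ∧
      ∀ x ∈ M i, ∃ y ∈ Bs a, ∃ z ∈ Bs a, y ∈ M i ∧ z ∈ M i ∧ z ≠ 0 ∧ x = y / z := by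
  intro i
  induction i with
  | zero =>
    intro _ a
    rw [hM0]
    refine ⟨hG a, fun x _ => ?_⟩
    obtain ⟨y, hy, z, hz, hz0, hxyz⟩ := hX.frac a x
    exact ⟨y, hy, z, hz, trivial, trivial, hz0, hxyz⟩
  | succ i ih =>
    intro hi a
    obtain ⟨hch, hfr⟩ := ih (by omega) a
    obtain ⟨hle, p, σ, hp, hσp, hσ1, hσM, hst⟩ := hM i (by omega)
    obtain ⟨hst, hpr⟩ := hst a
    have hstB : ∀ x : M i, (x : K) ∈ Bs a → ((σ x : M i) : K) ∈ Bs a := by
      intro x hx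
      obtain ⟨b', -, hb'⟩ := hst 0 ⟨x, hx⟩ x (by rw [(hF a).zero]; trivial) rfl
      rw [← hb']
      exact b'.2
    refine ⟨?_, frac_step hle hp σ hσp hσM hstB hfr⟩
    rw [← rees_res (hF a) hle]
    refine hSTEP O (M i) (M (i + 1)) _ p hp (σ.restrictScalars O) hσp hσ1 ?_ _ hch ?_ hpr
    · intro x
      rw [AlgEquiv.restrictScalars_apply, hσM]
      constructor
      · intro hx
        exact ⟨⟨x, hx⟩, rfl⟩
      · rintro ⟨y, rfl⟩
        exact y.2
    · intro f hf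
      rw [mem_rees_iff (hF a)] at hf ⊢
      intro d
      obtain ⟨b, hb, hbf⟩ := hf d
      obtain ⟨b', hb', hb''⟩ := hst d.toNat b (f.coeff d) hb hbf
      exact ⟨b', hb', hb''⟩

/-- **Towers of quotients.** -/
theorem module_of_tower [IsDomain O] [IsNoetherianRing O] (hSTEP : S_STEP) (hATLAS : S_ATLAS)
    (hMODEL : S_MODEL) (hHASM : S_HASM) [Finite 𝒜]
    (hinj : Function.Injective (algebraMap O E)) {F : ∀ a, ℕ → Ideal (Bs a)}
    (hF : ∀ a, IsFilt (F a)) {h : 𝒜 → K} (hX : Charts Bs h F) (n : ℕ)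
    (M : ℕ → IntermediateField E K) (hM0 : M 0 = ⊤) (hM : ∀ i < n, Step F (M i) (M (i + 1)))
    (hne : ∀ a, F a 1 ≠ ⊥) (hG : ∀ a, Good (F a) (⊤ : IntermediateField E K))
    (hh : ∀ a, h a ∈ M n) : Pool.Agent.H918R2.Quad.HasModule O (M n) := by
  classical
  have hG' : ∀ a, Ch (rees (F a) (⊤ : IntermediateField E K)) := by
    intro a
    refine ch_of_good (hF a) (hG a) ?_
    obtain ⟨b, hb, hb0⟩ := (Submodule.ne_bot_iff _).1 (hne a)
    exact ⟨b, hb, hb0, trivial⟩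
  have hch := ch_tower hSTEP hF hX n M hM0 hM hG' n le_rfl
  have hOM : Function.Injective (algebraMap O (M n)) := by
    rw [IsScalarTower.algebraMap_eq O E (M n)]
    exact (algebraMap E (M n)).injective.comp hinj
  let h' : 𝒜 → M n := fun a => ⟨h a, hh a⟩
  have hratio : ∀ a b, hm 0 (h' b / h' a) ∈ rees (F a) (M n) := by
    intro a b
    rw [hm_mem_rees_iff (hF a)]
    exact ⟨⟨_, hX.mem a b⟩, by rw [Int.toNat_zero, (hF a).zero]; trivial, rfl⟩
  have hgl : ∀ a b, ∀ f ∈ rees (F b) (M n), ∃ N : ℕ,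
      hm 0 (h' b / h' a) ^ N * f ∈ rees (F a) (M n) := by
    intro a b f hf
    rw [mem_rees_iff (hF b)] at hf
    have h1 : ∀ d : ℤ, ∃ (N : ℕ) (g : Bs a), g ∈ F a d.toNat ∧
        (g : K) = (h b / h a) ^ N * (f.coeff d : K) := by
      intro d
      obtain ⟨c, hc, hc'⟩ := hf d
      obtain ⟨N, g, hg, hg'⟩ := hX.glue a b d.toNat c hc
      exact ⟨N, g, hg, by rw [hg', hc']⟩
    choose N g hg hg' using h1
    obtain ⟨N0, hN0⟩ : ∃ N0, ∀ d ∈ f.coeff.support, N d ≤ N0 :=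
      ⟨f.coeff.support.sup N, fun d hd => Finset.le_sup hd⟩
    refine ⟨N0, ?_⟩
    have h2 : hm 0 (h' b / h' a) ^ N0 * f = ∑ d ∈ f.coeff.support,
        hm d ((h' b / h' a) ^ N0 * f.coeff d) := by
      conv_lhs => rw [eq_sum_hm f]
      rw [Finset.mul_sum]
      refine Finset.sum_congr rfl fun d _ => ?_
      rw [hm_pow, hm_mul, mul_zero, zero_add]
    rw [h2]
    refine Subalgebra.sum_mem _ fun d hd => ?_
    rw [hm_mem_rees_iff (hF a)]
    refine ⟨(⟨_, hX.mem a b⟩ : Bs a) ^ (N0 - N d) * g d, Ideal.mul_mem_left _ _ (hg d), ?_⟩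
    change (h b / h a) ^ (N0 - N d) * (g d : K) = (h b / h a) ^ N0 * (f.coeff d : K)
    rw [hg', ← mul_assoc, ← pow_add, Nat.sub_add_cancel (hN0 d hd)]
  have hval : ∀ V : ValuationSubring (M n), (∀ c : O, algebraMap O (M n) c ∈ V) →
      ∃ a, ∀ x, hm 0 x ∈ rees (F a) (M n) → x ∈ V := by
    intro V hV
    obtain ⟨V', hV'⟩ := ext_val (algebraMap (M n) K) V
    obtain ⟨a, ha⟩ := hX.proper V' (fun c => by
      have h1 := (hV' (algebraMap O (M n) c)).2 (hV c)
      exact h1)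
    refine ⟨a, fun x hx => ?_⟩
    rw [hm_mem_rees_iff (hF a)] at hx
    obtain ⟨b, -, hb⟩ := hx
    rw [← hV']
    change (x : K) ∈ V'
    rw [← hb]
    exact ha _ b.2
  have hfrac : ∀ a, ∀ x ∈ (algebraMap (M n) (M n)).fieldRange, ∃ y y' : M n,
      hm 0 y ∈ rees (F a) (M n) ∧ hm 0 y' ∈ rees (F a) (M n) ∧ y' ≠ 0 ∧ x = y / y' := by
    intro a x _
    obtain ⟨y, hy, z, hz, hyM, hzM, hz0, hxyz⟩ := (hch a).2 x x.2
    refine ⟨⟨y, hyM⟩, ⟨z, hzM⟩, ?_, ?_, ?_, ?_⟩
    · rw [hm_mem_rees_iff (hF a)]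
      exact ⟨⟨y, hy⟩, by rw [Int.toNat_zero, (hF a).zero]; trivial, rfl⟩
    · rw [hm_mem_rees_iff (hF a)]
      exact ⟨⟨z, hz⟩, by rw [Int.toNat_zero, (hF a).zero]; trivial, rfl⟩
    · intro h0
      exact hz0 (congrArg (fun x : M n => (x : K)) h0)
    · apply Subtype.ext
      exact hxyz
  obtain ⟨ρ, T, hT, C, H, hA⟩ := hATLAS O (M n) hOM False ⊥
    (algebraMap (M n) (M n)).fieldRange 𝒜 (fun a => rees (F a) (M n)) h' (fun a => (hch a).1)
    (fun a ha => hX.ne a (congrArg (fun x : M n => (x : K)) ha)) (fun a => ⟨h' a, rfl⟩)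
    (fun a d x _ => ⟨x, rfl⟩) hratio hgl hval hfrac (fun hP => hP.elim) (fun hP => hP.elim)
  obtain ⟨I, hI, z, J, hmod⟩ := hMODEL O (M n) hOM False ⊥ Submodule.fg_bot
    (algebraMap (M n) (M n)).fieldRange (fun hP => hP.elim) ρ T C H hA
  obtain ⟨M', h1, h2, h3, h4, -⟩ := hHASM O (M n) (M n) hOM False ⊥ I z J hmod
  exact ⟨M', h1, h2, h3, h4⟩

end

end Pool.Agent.Y223.G.Tow
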