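import Pool.Agent.Y223.G.Stm

/-!
# Definitions for the second part of project G: the weighted blowup of a product
-/

set_option autoImplicit false

namespace Pool.Agent.Y223.G

open IsLocalRing Pool.Agent.W418.LU2

/-- The difference operator `σ - 1`. -/
def df {B : Type} [CommRing B] (σ : B → B) (x : B) : B := σ x - x

/-- The weights: `a l` if `l ≥ 1` (wild ramification), `min a 1` if `l = 0`. -/
def wt (l a : ℕ) : ℕ := if l = 0 then min a 1 else a * l

/-- The base of a chart: a Dedekind domain `O` in the field `K` (over the ring `k` fixed by `τ`),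
with the action `t` of `τ`, where at most the prime `𝔓` is ramified (`𝔓 = ⊤` if no prime is
ramified), and `t = 1` modulo `𝔓 ^ (l + 1)` and not modulo `𝔓 ^ (l + 2)`. -/
structure WSet (k O K : Type) [CommRing k] [CommRing O] [IsDomain O] [IsDedekindDomain O] [Field K]
    [Algebra k O] [Algebra O K] [Algebra k K] [IsScalarTower k O K] (p : ℕ) (τ : K ≃ₐ[k] K)
    (t : O ≃ₐ[k] O) (𝔓 : Ideal O) (l : ℕ) : Prop where
  pp : p.Prime
  ft : Algebra.FiniteType k O
  inj : Function.Injective (algebraMap O K)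
  ord : ∀ x, τ^[p] x = x
  com : ∀ o, τ (algebraMap O K o) = algebraMap O K (t o)
  ne : 𝔓 ≠ ⊥
  mx : 𝔓.IsMaximal ∨ 𝔓 = ⊤
  dv : ∀ o, t o - o ∈ 𝔓 ^ (l + 1)
  un : 𝔓 ≠ ⊤ → ∃ π ∈ 𝔓, t π - π ∉ 𝔓 ^ (l + 2)
  rm : ∀ 𝔮 : Ideal O, 𝔮.IsPrime → 𝔮 ≠ 𝔓 → ∃ o, t o - o ∉ 𝔮
  pl : (p : O) ∈ 𝔓 ^ ((p - 1) * l)
  p0 : l = 0 → 𝔓 ≠ ⊤ → (p : O) ∉ 𝔓

/-- The graded algebra: generated by `T⁻¹`, `e T` for `e ∈ 𝔓` and `(τ - 1)^a(c) T^(wt l a)` for
`c ∈ C`, `a < p`. -/
noncomputable def RR (k : Type) {O K : Type} [CommRing k] [CommRing O] [Field K] [Algebra O K]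
    [Algebra k K] (τ : K ≃ₐ[k] K) (p : ℕ) (𝔓 : Ideal O) (l : ℕ) (C : Subalgebra O K) :
    Subalgebra k (LP K) :=
  Algebra.adjoin k ({hm (-1) 1} ∪ {f | ∃ e ∈ 𝔓, f = hm 1 (algebraMap O K e)} ∪
    {f | ∃ (a : ℕ) (c : K), c ∈ C ∧ a < p ∧ f = hm (wt l a) ((df τ)^[a] c)})

/-- The weighted ideal of degree `n`: generated by the monomials in the `x i` of weight at least
`n`, where `x i` has the weight `a i`. -/
def FI {B : Type} [CommRing B] {ι : Type} [Fintype ι] (x : ι → B) (a : ι → ℕ) (n : ℕ) : Ideal B :=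
  Ideal.span {y | ∃ m : ι → ℕ, n ≤ ∑ i, a i * m i ∧ y = ∏ i, x i ^ m i}

/-- The algebra generated by `A 0`, ..., `A (s - 1)`. -/
noncomputable def CC {O K : Type} [CommRing O] [Field K] [Algebra O K] (A : ℕ → Subalgebra O K)
    (s : ℕ) : Subalgebra O K := ⨆ i : Fin s, A i

lemma le_CC {O K : Type} [CommRing O] [Field K] [Algebra O K] (A : ℕ → Subalgebra O K)
    {s i : ℕ} (hi : i < s) : A i ≤ CC A s := le_iSup (fun i : Fin s => A i) ⟨i, hi⟩

/-- `A` is étale over the polynomial ring at `q`, with the coordinates `v`. -/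
def EtAt {O K : Type} [CommRing O] [Field K] [Algebra O K] (A : Subalgebra O K) (q : Ideal A)
    {ι : Type} (v : ι → A) : Prop :=
  ∃ g : A, g ∉ q ∧ (((algebraMap A (Localization.Away g)).comp
     (MvPolynomial.aeval v : MvPolynomial ι O →ₐ[O] A).toRingHom)).Etale

/-- The uniqueness property of étale coordinates. -/
def UNQ {O K : Type} [CommRing O] [Field K] [Algebra O K] (A : Subalgebra O K) (q : Ideal A)
    {r : ℕ} (u : Fin r → A) : Prop :=
  ∀ (B : Type) [CommRing B] [IsLocalRing B] [IsNoetherianRing B] (f g : A →+* B),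
    (∀ o : O, f (algebraMap O A o) = g (algebraMap O A o)) → (∀ j, f (u j) = g (u j)) →
    (∀ a, f a - g a ∈ maximalIdeal B) → (∀ a, a ∉ q → IsUnit (f a)) → f = g

/-- The index set of the weighted centre. -/
abbrev WI (r p : ℕ) : Type := Option (Fin r × Fin (p - 1))

/-- The weights of the weighted centre. -/
def wv (l r p : ℕ) : WI r p → ℕ
  | none => 1
  | some (_, a) => wt l (a + 1)

/-- The elements of the weighted centre: `π` and `(σ - 1)^a(u j)`, `1 ≤ a < p`. -/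
def wx {B : Type} [CommRing B] (σ : B → B) (p : ℕ) {r : ℕ} (π : B) (u : Fin r → B) : WI r p → B
  | none => π
  | some (j, a) => (df σ)^[a + 1] (u j)

end Pool.Agent.Y223.G
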