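import Pool.Agent.Y223.G.Stm3
import Pool.Agent.Y223.INV.TwFin

/-!
# Weil restrictions over number fields
-/

set_option autoImplicit false
set_option linter.unusedVariables false
set_option linter.unusedSectionVars false

open NumberField Pool.Agent.W418

open scoped Pointwise

namespace Pool.Agent.Y223.G

section

variable {E L F K : Type} [Field E] [NumberField E] [Field L] [NumberField L] [Algebra E L]
  [Field F] [Algebra E F] [Field K] [Algebra L K] [Algebra E K] [IsScalarTower E L K]
  [Algebra F K] [IsScalarTower E F K]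

instance tower1 : IsScalarTower (𝓞 E) (𝓞 L) K := IsScalarTower.of_algebraMap_eq fun a => by
  have h1 : algebraMap (𝓞 E) K a = algebraMap E K (algebraMap (𝓞 E) E a) := rfl
  have h2 : algebraMap (𝓞 L) K (algebraMap (𝓞 E) (𝓞 L) a) =
    algebraMap L K (algebraMap E L (algebraMap (𝓞 E) E a)) := rfl
  rw [h1, h2, ← IsScalarTower.algebraMap_apply E L K]

instance tower2 : IsScalarTower (𝓞 E) F K := IsScalarTower.of_algebraMap_eq fun a => by
  have h1 : algebraMap (𝓞 E) K a = algebraMap E K (algebraMap (𝓞 E) E a) := rfl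
  have h2 : algebraMap F K (algebraMap (𝓞 E) F a) =
    algebraMap F K (algebraMap E F (algebraMap (𝓞 E) E a)) := rfl
  rw [h1, h2, ← IsScalarTower.algebraMap_apply E F K]

/-- The fixed elements of a generator. -/
lemma fix_of_prime {p : ℕ} (hp : p.Prime) (hdeg : Module.finrank E L = p) (s : L ≃ₐ[E] L)
    (hs : s ≠ 1) (x : L) (hx : s x = x) : ∃ e : E, algebraMap E L e = x := by
  have hfd : FiniteDimensional E L := FiniteDimensional.of_finrank_pos (by rw [hdeg]; exact hp.pos)
  by_contra hcon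
  have h1 : IntermediateField.adjoin E {x} ≠ ⊥ := by
    intro h
    have h2 : x ∈ (⊥ : IntermediateField E L) := by
      rw [← h]
      exact IntermediateField.mem_adjoin_simple_self E x
    exact hcon (IntermediateField.mem_bot.1 h2)
  have h2 : Module.finrank E (IntermediateField.adjoin E {x}) ∣ p := by
    rw [← hdeg, ← Module.finrank_mul_finrank E (IntermediateField.adjoin E {x}) L]
    exact dvd_mul_right _ _
  rcases (Nat.dvd_prime hp).1 h2 with h3 | h3
  · exact h1 (IntermediateField.finrank_eq_one_iff.1 h3)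
  · have h4 : IntermediateField.adjoin E {x} = ⊤ := by
      apply IntermediateField.eq_of_le_of_finrank_eq le_top
      rw [h3, IntermediateField.finrank_top', hdeg]
    apply hs
    ext y
    have hy : y ∈ IntermediateField.adjoin E {x} := by rw [h4]; trivial
    have h5 : IntermediateField.adjoin E {x} ≤
        (IntermediateField.fixedField (Subgroup.zpowers s)) := by
      rw [IntermediateField.adjoin_le_iff]
      intro x' hx'
      rw [Set.mem_singleton_iff.1 hx', SetLike.mem_coe, IntermediateField.mem_fixedField_iff]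
      rintro _ ⟨n, rfl⟩
      have h6 : s ∈ MulAction.stabilizer (L ≃ₐ[E] L) x := hx
      exact (MulAction.stabilizer (L ≃ₐ[E] L) x).zpow_mem h6 n
    have h6 := h5 hy
    rw [IntermediateField.mem_fixedField_iff] at h6
    exact h6 s (Subgroup.mem_zpowers s)

/-- The hypotheses of the theorem on Weil restrictions for number fields. -/
theorem ghyp_of {p : ℕ} (hp : p.Prime) (hdeg : Module.finrank E L = p) (s : L ≃ₐ[E] L)
    (hs : s ≠ 1) (τ : K ≃ₐ[E] K)
    (hτs : ∀ x : L, τ (algebraMap L K x) = algebraMap L K (s x)) (hτp : ∀ x, τ^[p] x = x)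
    (hfix : ∀ x, τ x = x ↔ ∃ y : F, algebraMap F K y = x) {m : ℕ} (z : Fin (m + 1) → K)
    (hz0 : ∀ j, z j ≠ 0)
    (hgen : IntermediateField.adjoin L {y : K | ∃ (i : ℕ) (j : Fin (m + 1)),
      y = τ^[i] (z j / z 0)} = ⊤)
    (hld : ∀ s, 0 < s → s < p → (IntermediateField.adjoin L {y : K | ∃ (i : ℕ)
      (j : Fin (m + 1)), i < s ∧ y = τ^[i] (z j / z 0)}).toSubalgebra.LinearDisjoint
      (IntermediateField.adjoin L {y : K | ∃ j : Fin (m + 1),
        y = τ^[s] (z j / z 0)}).toSubalgebra)
    (hsm : ∀ j (q : Ideal (AZ (𝓞 L) z j)) [q.IsPrime],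
      (∀ o : 𝓞 L, algebraMap (𝓞 L) (AZ (𝓞 L) z j)
        (RingOfIntegers.mapAlgEquiv (k := E) s o - o) ∈ q) → Algebra.IsSmoothAt (𝓞 L) q)
    (hrg : ∀ J : Fin p → Fin (m + 1), IsRegularRing (Algebra.adjoin (𝓞 L)
      {y : K | ∃ (i : Fin p) (l : Fin (m + 1)), y = τ^[i] (z l / z (J i))})) :
    GHyp (𝓞 E) (𝓞 L) L F K (IsScalarTower.toAlgHom (𝓞 E) F K) p (τ.restrictScalars (𝓞 E))
      (RingOfIntegers.mapAlgEquiv (k := E) s) m z where
  pp := hp
  pk := by
    have : CharZero K := charZero_of_injective_algebraMap (algebraMap E K).injective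
    exact_mod_cast hp.ne_zero
  fin := by
    have h1 : Module.Finite ℤ (𝓞 L) := inferInstance
    exact Module.Finite.of_restrictScalars_finite ℤ (𝓞 E) (𝓞 L)
  inj := by
    rw [IsScalarTower.algebraMap_eq (𝓞 L) L K]
    exact (algebraMap L K).injective.comp RingOfIntegers.coe_injective
  injk := by
    rw [IsScalarTower.algebraMap_eq (𝓞 E) E K]
    exact (algebraMap E K).injective.comp RingOfIntegers.coe_injective
  ord := hτp
  com := fun o => hτs o
  nt := by
    by_contra hcon
    push Not at hcon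
    apply hs
    ext x
    obtain ⟨a, b, hb, rfl⟩ := IsFractionRing.div_surjective (A := 𝓞 L) x
    have h1 : ∀ o : 𝓞 L, s (algebraMap (𝓞 L) L o) = algebraMap (𝓞 L) L o := fun o =>
      congrArg (algebraMap (𝓞 L) L) (hcon o)
    rw [map_div₀, h1, h1]
    rfl
  fix := by
    intro o ho
    obtain ⟨e, he⟩ := fix_of_prime hp hdeg s hs (o : L) (congrArg (algebraMap (𝓞 L) L) ho)
    have hint : IsIntegral ℤ e := by
      have h1 : IsIntegral ℤ (algebraMap E L e) := by
        rw [he]
        exact RingOfIntegers.isIntegral_coe o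
      exact (isIntegral_algHom_iff ((algebraMap E L).toIntAlgHom) (algebraMap E L).injective).1 h1
    refine ⟨⟨e, hint⟩, ?_⟩
    apply RingOfIntegers.coe_injective
    exact he
  resf := fun 𝔓 h𝔓 h0 => Ideal.finiteQuotientOfFreeOfNeBot 𝔓 h0
  lo := fun o => ⟨algebraMap (𝓞 L) L o, rfl⟩
  lf := by
    intro x
    obtain ⟨a, b, hb, rfl⟩ := IsFractionRing.div_surjective (A := 𝓞 L) x
    have hb0 : b ≠ 0 := nonZeroDivisors.ne_zero hb
    have hb' : algebraMap (𝓞 L) L b ≠ 0 := RingOfIntegers.coe_ne_zero_iff.2 hb0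
    refine ⟨a, b, hb0, ?_⟩
    rw [IsScalarTower.algebraMap_apply (𝓞 L) L K, IsScalarTower.algebraMap_apply (𝓞 L) L K,
      ← map_mul, div_mul_cancel₀ _ hb']
  fixK := hfix
  z0 := hz0
  gen := hgen
  ld := hld
  sm := hsm
  rg := hrg

/-- Weil restrictions have good modules. -/
theorem weil_good (hW : S_WEIL) {p : ℕ} {s : L ≃ₐ[E] L} {τ : K ≃ₐ[E] K} {m : ℕ}
    {z : Fin (m + 1) → K}
    (hG : GHyp (𝓞 E) (𝓞 L) L F K (IsScalarTower.toAlgHom (𝓞 E) F K) p (τ.restrictScalars (𝓞 E))
      (RingOfIntegers.mapAlgEquiv (k := E) s) m z)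
    {ι : Type} [Finite ι] (x : ι → F)
    (hseg : Submodule.span L (Set.range fun i => algebraMap F K (x i)) =
      Submodule.span L (Set.range fun J : Fin p → Fin (m + 1) =>
        ∏ i : Fin p, τ^[i] (z (J i)))) : GoodModule (𝓞 E) x := by
  classical
  set M₀ : Submodule (𝓞 E) F := Submodule.span (𝓞 E) (Set.range x) with hM₀
  have hfg : M₀.FG := Submodule.fg_span (Set.finite_range x)
  have h1 : Submodule.span L ((IsScalarTower.toAlgHom (𝓞 E) F K) '' (M₀ : Set F)) =
      Submodule.span L (Set.range fun i => algebraMap F K (x i)) := by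
    apply le_antisymm
    · rw [Submodule.span_le]
      rintro _ ⟨y, hy, rfl⟩
      induction hy using Submodule.span_induction with
      | mem y hy =>
        obtain ⟨i, rfl⟩ := hy
        exact Submodule.subset_span ⟨i, rfl⟩
      | zero => rw [map_zero]; exact Submodule.zero_mem _
      | add a b _ _ ha hb => rw [map_add]; exact Submodule.add_mem _ ha hb
      | smul c a _ ha =>
        rw [map_smul]
        have h2 : c • (IsScalarTower.toAlgHom (𝓞 E) F K) a =
            algebraMap E L (algebraMap (𝓞 E) E c) • (IsScalarTower.toAlgHom (𝓞 E) F K) a := by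
          rw [Algebra.smul_def, Algebra.smul_def, ← IsScalarTower.algebraMap_apply E L K]
          rfl
        rw [h2]
        exact Submodule.smul_mem _ _ ha
    · rw [Submodule.span_le]
      rintro _ ⟨i, rfl⟩
      exact Submodule.subset_span ⟨x i, Submodule.subset_span ⟨i, rfl⟩, rfl⟩
  obtain ⟨M', hM'fg, hM'0, -, hreg, hmo⟩ := hW (𝓞 E) (𝓞 L) L F K
    (IsScalarTower.toAlgHom (𝓞 E) F K) p (τ.restrictScalars (𝓞 E))
    (RingOfIntegers.mapAlgEquiv (k := E) s) m z hG M₀ hfg True (fun _ => h1.trans hseg)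
  obtain ⟨n, hn, hle, hge⟩ := hmo trivial
  have hpow : M₀ ^ n = Submodule.span (𝓞 E) (Set.range x ^ n) := Submodule.span_pow _ _
  refine Pool.Agent.Y223.INV.goodModule_of (E := E) hn hM'fg hM'0 one_ne_zero ?_ ?_ hreg
  · intro f hf
    rw [one_mul]
    obtain ⟨c, hc, hcf⟩ := hle f hf
    rw [hpow] at hcf
    have h2 : (algebraMap (𝓞 E) E c) • f ∈ Submodule.span E (Set.range x ^ n) := by
      have h3 := Submodule.span_subset_span (𝓞 E) E _ hcf
      rwa [← algebraMap_smul E c f] at h3
    have hc0 : algebraMap (𝓞 E) E c ≠ 0 := RingOfIntegers.coe_ne_zero_iff.2 hc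
    have h3 := Submodule.smul_mem _ (algebraMap (𝓞 E) E c)⁻¹ h2
    rwa [smul_smul, inv_mul_cancel₀ hc0, one_smul] at h3
  · intro y hy
    obtain ⟨c, hc, hcy⟩ := Pool.Agent.W418.exists_smul_span (O := 𝓞 E) (K := E)
      (Set.range x ^ n) y hy
    rw [← hpow] at hcy
    obtain ⟨d, hd, hdy⟩ := hge _ hcy
    refine ⟨d * c, mul_ne_zero hd hc, ?_⟩
    rw [div_one, mul_smul]
    exact hdy

end

end Pool.Agent.Y223.G
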