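import Pool.Agent.Y223.G.Stm7
import Pool.Agent.Y223.G.WFin

/-!
# Weil restrictions over number fields: arbitrary finite extensions
-/

set_option autoImplicit false
set_option linter.unusedVariables false
set_option linter.unusedSectionVars false

open NumberField Pool.Agent.W418

open scoped Pointwise

namespace Pool.Agent.Y223.G

section

variable {E L M F K : Type} [Field E] [NumberField E] [Field L] [NumberField L] [Field M]
  [NumberField M] [Algebra E L] [Algebra E M] [Algebra L M] [IsScalarTower E L M]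
  [Field F] [Algebra E F] [Field K] [Algebra M K] [Algebra L K] [Algebra E K]
  [IsScalarTower E M K] [IsScalarTower L M K] [IsScalarTower E L K]
  [Algebra F K] [IsScalarTower E F K]

/-- The action of the Galois group on the ring of integers. -/
noncomputable def TT (E M : Type) [Field E] [NumberField E] [Field M] [NumberField M]
    [Algebra E M] : (M ≃ₐ[E] M) →* (𝓞 M ≃ₐ[𝓞 E] 𝓞 M) where
  toFun g := RingOfIntegers.mapAlgEquiv (k := E) g
  map_one' := by
    ext x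
    rfl
  map_mul' g h := by
    ext x
    rfl

lemma TT_coe (g : M ≃ₐ[E] M) (o : 𝓞 M) :
    algebraMap (𝓞 M) M (TT E M g o) = g (algebraMap (𝓞 M) M o) := rfl

/-- Restriction of scalars for an action. -/
noncomputable def RS (E K : Type) [Field E] [NumberField E] [Field K] [Algebra E K] {G : Type}
    [Group G] (ρ : G →* (K ≃ₐ[E] K)) : G →* (K ≃ₐ[𝓞 E] K) where
  toFun g := (ρ g).restrictScalars (𝓞 E)
  map_one' := by
    rw [map_one]
    rfl
  map_mul' g h := by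
    rw [map_mul]
    rfl

lemma RS_apply {G : Type} [Group G] (ρ : G →* (K ≃ₐ[E] K)) (g : G) (x : K) :
    RS E K ρ g x = ρ g x := rfl

/-- The action on the embeddings. -/
@[reducible] def embAct (E L M : Type) [Field E] [Field L] [Field M] [Algebra E L] [Algebra E M] :
    MulAction (M ≃ₐ[E] M) (L →ₐ[E] M) where
  smul g ω := (g : M →ₐ[E] M).comp ω
  one_smul ω := by
    ext x
    rfl
  mul_smul g h ω := by
    ext x
    rfl

/-- The inertia group. -/
def inert (E : Type) {M : Type} [Field E] [NumberField E] [Field M] [NumberField M]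
    [Algebra E M] (𝔓 : Ideal (𝓞 M)) : Subgroup (M ≃ₐ[E] M) where
  carrier := {g | ∀ o : 𝓞 M, TT E M g o - o ∈ 𝔓}
  one_mem' := fun o => by
    rw [map_one]
    change o - o ∈ 𝔓
    rw [sub_self]
    exact 𝔓.zero_mem
  mul_mem' := fun {g h} hg hh o => by
    have h1 : TT E M (g * h) o - o = (TT E M g (TT E M h o) - TT E M h o) + (TT E M h o - o) := by
      rw [map_mul]
      change TT E M g (TT E M h o) - o = _
      ring
    rw [h1]
    exact 𝔓.add_mem (hg _) (hh o)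
  inv_mem' := fun {g} hg o => by
    have h1 : TT E M g (TT E M g⁻¹ o) = o := by
      have h2 : (TT E M g * TT E M g⁻¹) o = o := by
        rw [← map_mul, mul_inv_cancel, map_one]
        rfl
      exact h2
    have h2 := hg (TT E M g⁻¹ o)
    rw [h1] at h2
    have h3 : TT E M g⁻¹ o - o = -(o - TT E M g⁻¹ o) := by ring
    rw [h3]
    exact 𝔓.neg_mem h2

lemma mem_inert {𝔓 : Ideal (𝓞 M)} {g : M ≃ₐ[E] M} :
    g ∈ inert E 𝔓 ↔ ∀ o : 𝓞 M, TT E M g o - o ∈ 𝔓 := Iff.rfl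

lemma TT_faithful (g : M ≃ₐ[E] M) (h : ∀ o : 𝓞 M, TT E M g o = o) : g = 1 := by
  ext x
  obtain ⟨a, b, hb, rfl⟩ := IsFractionRing.div_surjective (A := 𝓞 M) x
  have h1 : ∀ o : 𝓞 M, g (algebraMap (𝓞 M) M o) = algebraMap (𝓞 M) M o := fun o => by
    rw [← TT_coe, h o]
  rw [map_div₀, h1, h1]
  rfl

lemma TT_pow (g : M ≃ₐ[E] M) (n : ℕ) (o : 𝓞 M) : (⇑(TT E M g).toRingEquiv)^[n] o =
    TT E M (g ^ n) o := by
  induction n generalizing o with
  | zero => rw [pow_zero, map_one]; rfl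
  | succ n ih =>
    rw [Function.iterate_succ', Function.comp_apply, ih, pow_succ', map_mul]
    rfl

lemma inr_of (hT : S_TAMC) (𝔓 : Ideal (𝓞 M)) (h𝔓 : 𝔓.IsMaximal) (h0 : 𝔓 ≠ ⊥)
    (hin : (Nat.card (inert E 𝔓)).Prime ∨ ((Nat.card (inert E 𝔓) : ℕ) : 𝓞 M) ∉ 𝔓) :
    (∀ g : M ≃ₐ[E] M, (∀ o, TT E M g o - o ∈ 𝔓) → (∀ o ∈ 𝔓, TT E M g o - o ∈ 𝔓 ^ 2) → g = 1) ∨
    ∃ (p : ℕ) (τ : M ≃ₐ[E] M), p.Prime ∧ τ ^ p = 1 ∧ ∀ g : M ≃ₐ[E] M,
      (∀ o, TT E M g o - o ∈ 𝔓) → g ∈ Subgroup.zpowers τ := by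
  rcases hin with hin | hin
  · right
    have hnt : Nontrivial (inert E 𝔓) := by
      rw [← Finite.one_lt_card_iff_nontrivial]
      exact hin.one_lt
    obtain ⟨τ, hτ⟩ := exists_ne (1 : inert E 𝔓)
    refine ⟨Nat.card (inert E 𝔓), τ, hin, ?_, ?_⟩
    · have h1 : τ ^ Nat.card (inert E 𝔓) = 1 := pow_card_eq_one'
      exact_mod_cast congrArg (Subtype.val) h1
    · intro g hg
      have h1 : Nat.card (Subgroup.zpowers τ) = Nat.card (inert E 𝔓) := by
        rcases (Nat.dvd_prime hin).1 (Subgroup.card_subgroup_dvd_card (Subgroup.zpowers τ))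
          with h2 | h2
        · exfalso
          apply hτ
          have h3 := Subgroup.card_eq_one.1 h2
          exact Subgroup.zpowers_eq_bot.1 h3
        · exact h2
      have h2 : Subgroup.zpowers τ = ⊤ := Subgroup.eq_top_of_card_eq _ h1
      have h3 : (⟨g, hg⟩ : inert E 𝔓) ∈ Subgroup.zpowers τ := by rw [h2]; trivial
      obtain ⟨n, hn⟩ := h3
      refine ⟨n, ?_⟩
      have h4 := congrArg Subtype.val hn
      exact h4
  · left
    intro g hg hg2
    apply TT_faithful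
    have hfin : Finite (𝓞 M ⧸ 𝔓) := Ideal.finiteQuotientOfFreeOfNeBot 𝔓 h0
    have h1 : g ^ Nat.card (inert E 𝔓) = 1 := by
      have h2 : (⟨g, hg⟩ : inert E 𝔓) ^ Nat.card (inert E 𝔓) = 1 := pow_card_eq_one'
      exact congrArg Subtype.val h2
    refine hT (𝓞 M) 𝔓 h𝔓 h0 hfin (TT E M g).toRingEquiv (Nat.card (inert E 𝔓)) ?_ hin hg hg2
    intro o
    rw [TT_pow, h1, map_one]
    rfl

/-- The Galois group is transitive on the embeddings. -/
lemma emb_trans [IsGalois E M] (ω ω' : L →ₐ[E] M) :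
    ∃ g : M ≃ₐ[E] M, (g : M →ₐ[E] M).comp ω = ω' := by
  let e1 : L ≃ₐ[E] ω.fieldRange := AlgEquiv.ofInjectiveField ω
  let e2 : L ≃ₐ[E] ω'.fieldRange := AlgEquiv.ofInjectiveField ω'
  let χ : ω.fieldRange ≃ₐ[E] ω'.fieldRange := e1.symm.trans e2
  refine ⟨AlgEquiv.liftNormal χ M, ?_⟩
  ext x
  have h1 := AlgEquiv.liftNormal_commutes χ M (e1 x)
  have h2 : χ (e1 x) = e2 x := by
    change e2 (e1.symm (e1 x)) = e2 x
    rw [e1.symm_apply_apply]
  rw [h2] at h1
  exact h1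

/-- The hypotheses of the theorem on Weil restrictions for number fields. -/
theorem ghg_of [IsGalois E M] (hT : S_TAMC) (hSMT : S_SMT) (hSMB : S_SMB)
    (ρ : (M ≃ₐ[E] M) →* (K ≃ₐ[E] K))
    (hρ : ∀ g x, ρ g (algebraMap M K x) = algebraMap M K (g x))
    (hfix : ∀ x, (∀ g, ρ g x = x) ↔ ∃ y : F, algebraMap F K y = x) {m : ℕ}
    (z : (L →ₐ[E] M) → Fin (m + 1) → K) (hz0 : ∀ ω j, z ω j ≠ 0)
    (heqv : ∀ g ω j, ρ g (z ω j) = z ((g : M →ₐ[E] M).comp ω) j)
    (hgen : IntermediateField.adjoin M {y : K | ∃ ω j, y = z ω j / z ω 0} = ⊤)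
    (hld : ∀ (S : Finset (L →ₐ[E] M)) (ω : L →ₐ[E] M), ω ∉ S →
      (IntermediateField.adjoin M {y : K | ∃ ω' ∈ S, ∃ j, y = z ω' j / z ω' 0}
        ).toSubalgebra.LinearDisjoint
          (IntermediateField.adjoin M {y : K | ∃ j, y = z ω j / z ω 0}).toSubalgebra)
    (hldM : (IntermediateField.adjoin L {y : K | ∃ j, y = z (IsScalarTower.toAlgHom E L M) j /
      z (IsScalarTower.toAlgHom E L M) 0}).toSubalgebra.LinearDisjoint
        (IsScalarTower.toAlgHom L M K).range)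
    (hin : ∀ 𝔓 : Ideal (𝓞 M), 𝔓.IsMaximal →
      (Nat.card (inert E 𝔓)).Prime ∨ ((Nat.card (inert E 𝔓) : ℕ) : 𝓞 M) ∉ 𝔓)
    (hsm : ∀ j (q : Ideal (AZ (𝓞 L) (z (IsScalarTower.toAlgHom E L M)) j)) [q.IsPrime],
      (∃ 𝔓 : Ideal (𝓞 M), 𝔓.IsMaximal ∧ (∃ g ∈ inert E 𝔓, g ≠ 1) ∧ ∀ a ∈ 𝔓.comap
        (algebraMap (𝓞 L) (𝓞 M)), algebraMap (𝓞 L) (AZ (𝓞 L) _ j) a ∈ q) →
      Algebra.IsSmoothAt (𝓞 L) q)
    (hrg : ∀ J : (L →ₐ[E] M) → Fin (m + 1), IsRegularRing (Algebra.adjoin (𝓞 M)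
      {y : K | ∃ (ω : L →ₐ[E] M) (i : Fin (m + 1)), y = z ω i / z ω (J ω)})) :
    @GHG (𝓞 E) (𝓞 M) M F K (M ≃ₐ[E] M) (L →ₐ[E] M) _ _ _ _ _ _ _ _ _ (embAct E L M) _ _ _ _ _ _
      (IsScalarTower.toAlgHom (𝓞 E) F K) (RS E K ρ) (TT E M) m z := by
  let _ := embAct E L M
  have hinj : Function.Injective (algebraMap (𝓞 M) K) := by
    rw [IsScalarTower.algebraMap_eq (𝓞 M) M K]
    exact (algebraMap M K).injective.comp RingOfIntegers.coe_injective
  have hcom : ∀ (g : M ≃ₐ[E] M) (o : 𝓞 M), RS E K ρ g (algebraMap (𝓞 M) K o) =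
      algebraMap (𝓞 M) K (TT E M g o) := fun g o => hρ g (o : M)
  refine
  { fin := ?_
    inj := hinj
    injk := ?_
    com := hcom
    fai := fun g hg => TT_faithful g hg
    fix := ?_
    cg := ?_
    resf := fun 𝔓 h𝔓 h0 => Ideal.finiteQuotientOfFreeOfNeBot 𝔓 h0
    inr := fun 𝔓 h𝔓 h0 => inr_of hT 𝔓 h𝔓 h0 (hin 𝔓 h𝔓)
    lo := fun o => ⟨algebraMap (𝓞 M) M o, rfl⟩
    lf := ?_
    fixK := hfix
    z0 := hz0
    eqv := heqv
    tr := fun ω ω' => emb_trans ω ω'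
    gen := hgen
    ld := hld
    sm := ?_
    rg := hrg }
  · have h1 : Module.Finite ℤ (𝓞 M) := inferInstance
    exact Module.Finite.of_restrictScalars_finite ℤ (𝓞 E) (𝓞 M)
  · rw [IsScalarTower.algebraMap_eq (𝓞 E) E K]
    exact (algebraMap E K).injective.comp RingOfIntegers.coe_injective
  · intro o ho
    have h1 : (o : M) ∈ (⊥ : IntermediateField E M) := by
      rw [IsGalois.mem_bot_iff_fixed]
      intro g
      have := congrArg (algebraMap (𝓞 M) M) (ho g)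
      rwa [TT_coe] at this
    obtain ⟨e, he⟩ := IntermediateField.mem_bot.1 h1
    have hint : IsIntegral ℤ e := by
      have h1 : IsIntegral ℤ (algebraMap E M e) := by
        rw [he]
        exact RingOfIntegers.isIntegral_coe o
      exact (isIntegral_algHom_iff ((algebraMap E M).toIntAlgHom) (algebraMap E M).injective).1 h1
    refine ⟨⟨e, hint⟩, ?_⟩
    apply RingOfIntegers.coe_injective
    exact he
  · have : CharZero K := charZero_of_injective_algebraMap (algebraMap E K).injective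
    exact_mod_cast Nat.card_pos.ne'
  · intro x
    obtain ⟨a, b, hb, rfl⟩ := IsFractionRing.div_surjective (A := 𝓞 M) x
    have hb0 : b ≠ 0 := nonZeroDivisors.ne_zero hb
    have hb' : algebraMap (𝓞 M) M b ≠ 0 := RingOfIntegers.coe_ne_zero_iff.2 hb0
    refine ⟨a, b, hb0, ?_⟩
    rw [IsScalarTower.algebraMap_apply (𝓞 M) M K, IsScalarTower.algebraMap_apply (𝓞 M) M K,
      ← map_mul, div_mul_cancel₀ _ hb']
  · rintro ω j q hq ⟨g, hg1, hg⟩
    set ω₀ : L →ₐ[E] M := IsScalarTower.toAlgHom E L M with hω₀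
    obtain ⟨g', hg'⟩ := emb_trans ω₀ ω
    -- the prime below `q`
    set 𝔓' : Ideal (𝓞 M) := q.comap (algebraMap (𝓞 M) (AZ (𝓞 M) (z ω) j)) with h𝔓'
    have hp' : 𝔓'.IsPrime := Ideal.IsPrime.comap _
    have hg𝔓' : ∀ o, TT E M g o - o ∈ 𝔓' := fun o => hg o
    have h0' : 𝔓' ≠ ⊥ := by
      intro h
      apply hg1
      apply TT_faithful
      intro o
      have := hg𝔓' o
      rw [h, Ideal.mem_bot, sub_eq_zero] at this
      exact this
    have hmax' : 𝔓'.IsMaximal := hp'.isMaximal h0'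
    set φ : 𝓞 M ≃ₐ[𝓞 E] 𝓞 M := TT E M g' with hφ
    set 𝔓 : Ideal (𝓞 M) := 𝔓'.comap (φ : 𝓞 M →+* 𝓞 M) with h𝔓
    have hmax : 𝔓.IsMaximal := by
      have := Ideal.comap_isMaximal_of_surjective (φ : 𝓞 M →+* 𝓞 M) φ.surjective (K := 𝔓')
      exact this
    have hmul : ∀ a b : M ≃ₐ[E] M, ∀ o, TT E M (a * b) o = TT E M a (TT E M b o) := by
      intro a b o
      rw [map_mul]
      rfl
    have hinert : g'⁻¹ * g * g' ∈ inert E 𝔓 := by
      intro o
      have h1 : TT E M g' (TT E M (g'⁻¹ * g * g') o - o) =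
          TT E M g (TT E M g' o) - TT E M g' o := by
        rw [map_sub, ← hmul, ← hmul]
        congr 2
        group
      change TT E M g' (TT E M (g'⁻¹ * g * g') o - o) ∈ 𝔓'
      rw [h1]
      exact hg𝔓' _
    have hne : g'⁻¹ * g * g' ≠ 1 := by
      intro h
      apply hg1
      have : g = g' * (g'⁻¹ * g * g') * g'⁻¹ := by group
      rw [this, h, mul_one, mul_inv_cancel]
    -- smoothness over `𝓞 L`
    have hS : ∀ j (q : Ideal (AZ (𝓞 L) (z ω₀) j)) [q.IsPrime],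
        (∀ e ∈ {e : 𝓞 L | algebraMap (𝓞 L) (𝓞 M) e ∈ 𝔓}, algebraMap (𝓞 L) (AZ (𝓞 L) (z ω₀) j) e ∈ q) →
        Algebra.IsSmoothAt (𝓞 L) q := by
      intro j q hq h
      exact hsm j q ⟨𝔓, hmax, ⟨_, hinert, hne⟩, fun a ha => h a ha⟩
    have hfin : Module.Finite (𝓞 L) (𝓞 M) := by
      have h1 : Module.Finite ℤ (𝓞 M) := inferInstance
      exact Module.Finite.of_restrictScalars_finite ℤ (𝓞 L) (𝓞 M)
    have hB := hSMB (𝓞 L) (𝓞 M) L M K hinj (fun a => ⟨algebraMap (𝓞 L) L a, rfl⟩) (by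
        intro x
        obtain ⟨a, b, hb, rfl⟩ := IsFractionRing.div_surjective (A := 𝓞 L) x
        have hb0 : b ≠ 0 := nonZeroDivisors.ne_zero hb
        have hb' : algebraMap (𝓞 L) L b ≠ 0 := RingOfIntegers.coe_ne_zero_iff.2 hb0
        refine ⟨a, b, hb0, ?_⟩
        rw [IsScalarTower.algebraMap_apply (𝓞 L) L K, IsScalarTower.algebraMap_apply (𝓞 L) L K,
          ← map_mul, div_mul_cancel₀ _ hb']) (fun a => ⟨algebraMap (𝓞 M) M a, rfl⟩) m (z ω₀)
        (hz0 ω₀) hldM _ hS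
    have hTr := hSMT (𝓞 E) (𝓞 M) K (RS E K ρ g') φ (hcom g') m (z ω₀) (z ω) (by
        intro j
        rw [RS_apply, heqv, hg'])
      {x : 𝓞 M | ∃ e : 𝓞 L, algebraMap (𝓞 L) (𝓞 M) e ∈ 𝔓 ∧ x = algebraMap (𝓞 L) (𝓞 M) e}
      (𝔓' : Set (𝓞 M)) (by
        rintro _ ⟨e, he, rfl⟩
        exact he) (by
        intro j q hq h
        apply hB j q
        intro e he
        exact h _ ⟨e, he, rfl⟩)
    exact hTr j q (fun e he => he)

/-- Weil restrictions have good modules. -/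
theorem weilg_good (hW : S_WEILG) [Nonempty (L →ₐ[E] M)] {ρ : (M ≃ₐ[E] M) →* (K ≃ₐ[E] K)} {m : ℕ}
    {z : (L →ₐ[E] M) → Fin (m + 1) → K}
    (hG : @GHG (𝓞 E) (𝓞 M) M F K (M ≃ₐ[E] M) (L →ₐ[E] M) _ _ _ _ _ _ _ _ _ (embAct E L M) _ _ _ _
      _ _ (IsScalarTower.toAlgHom (𝓞 E) F K) (RS E K ρ) (TT E M) m z)
    {ι : Type} [Finite ι] (x : ι → F)
    (hseg : Submodule.span M (Set.range fun i => algebraMap F K (x i)) =
      Submodule.span M (Set.range fun J : (L →ₐ[E] M) → Fin (m + 1) => ∏ ω, z ω (J ω))) :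
    GoodModule (𝓞 E) x := by
  classical
  let _ := embAct E L M
  set M₀ : Submodule (𝓞 E) F := Submodule.span (𝓞 E) (Set.range x) with hM₀
  have hfg : M₀.FG := Submodule.fg_span (Set.finite_range x)
  have h1 : Submodule.span M ((IsScalarTower.toAlgHom (𝓞 E) F K) '' (M₀ : Set F)) =
      Submodule.span M (Set.range fun i => algebraMap F K (x i)) := by
    apply le_antisymm
    · rw [Submodule.span_le]
      rintro _ ⟨y, hy, rfl⟩
      induction hy using Submodule.span_induction with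
      | mem y hy =>
        obtain ⟨i, rfl⟩ := hy
        exact Submodule.subset_span ⟨i, rfl⟩
      | zero => rw [map_zero]; exact Submodule.zero_mem _
      | add a b _ _ ha hb => rw [map_add]; exact Submodule.add_mem _ ha hb
      | smul c a _ ha =>
        rw [map_smul]
        have h2 : c • (IsScalarTower.toAlgHom (𝓞 E) F K) a =
            algebraMap E M (algebraMap (𝓞 E) E c) • (IsScalarTower.toAlgHom (𝓞 E) F K) a := by
          rw [Algebra.smul_def, Algebra.smul_def, ← IsScalarTower.algebraMap_apply E M K]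
          rfl
        rw [h2]
        exact Submodule.smul_mem _ _ ha
    · rw [Submodule.span_le]
      rintro _ ⟨i, rfl⟩
      exact Submodule.subset_span ⟨x i, Submodule.subset_span ⟨i, rfl⟩, rfl⟩
  obtain ⟨M', hM'fg, hM'0, -, hreg, hmo⟩ := hW (𝓞 E) (𝓞 M) M F K (M ≃ₐ[E] M) (L →ₐ[E] M)
    (IsScalarTower.toAlgHom (𝓞 E) F K) (RS E K ρ) (TT E M) m z hG M₀ hfg True
    (fun _ => h1.trans hseg)
  obtain ⟨n, hn, hle, hge⟩ := hmo trivial
  have hpow : M₀ ^ n = Submodule.span (𝓞 E) (Set.range x ^ n) := Submodule.span_pow _ _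
  refine Pool.Agent.Y223.INV.goodModule_of (E := E) hn hM'fg hM'0 one_ne_zero ?_ ?_ hreg
  · intro f hf
    rw [one_mul]
    obtain ⟨c, hc, hcf⟩ := hle f hf
    rw [hpow] at hcf
    have h2 : (algebraMap (𝓞 E) E c) • f ∈ Submodule.span E (Set.range x ^ n) := by
      have h3 := Submodule.span_subset_span (𝓞 E) E _ hcf
      rwa [← algebraMap_smul E c f] at h3
    have hc0 : algebraMap (𝓞 E) E c ≠ 0 := RingOfIntegers.coe_ne_zero_iff.2 hc
    have h3 := Submodule.smul_mem _ (algebraMap (𝓞 E) E c)⁻¹ h2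
    rwa [smul_smul, inv_mul_cancel₀ hc0, one_smul] at h3
  · intro y hy
    obtain ⟨c, hc, hcy⟩ := Pool.Agent.W418.exists_smul_span (O := 𝓞 E) (K := E)
      (Set.range x ^ n) y hy
    rw [← hpow] at hcy
    obtain ⟨d, hd, hdy⟩ := hge _ hcy
    refine ⟨d * c, mul_ne_zero hd hc, ?_⟩
    rw [div_one, mul_smul]
    exact hdy

end

end Pool.Agent.Y223.G
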