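import Pool.Agent.Y223.G.Stm10
import Pool.Agent.Y223.G.WFinG

/-!
# Products of Weil restrictions over number fields
-/

set_option autoImplicit false
set_option linter.unusedVariables false
set_option linter.unusedSectionVars false

open NumberField Pool.Agent.W418

open scoped Pointwise

namespace Pool.Agent.Y223.G

section

variable {E M F K Ω : Type} [Field E] [NumberField E] [Field M] [NumberField M] [Algebra E M]
  [Field F] [Algebra E F] [Field K] [Algebra M K] [Algebra E K] [IsScalarTower E M K]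
  [Algebra F K] [IsScalarTower E F K] [MulAction (M ≃ₐ[E] M) Ω]

/-- The wild inertia group. -/
def winert (E : Type) {M : Type} [Field E] [NumberField E] [Field M] [NumberField M]
    [Algebra E M] (𝔓 : Ideal (𝓞 M)) : Subgroup (M ≃ₐ[E] M) where
  carrier := {g | g ∈ inert E 𝔓 ∧ ∀ o ∈ 𝔓, TT E M g o - o ∈ 𝔓 ^ 2}
  one_mem' := ⟨(inert E 𝔓).one_mem, fun o _ => by
    rw [map_one]
    change o - o ∈ 𝔓 ^ 2
    rw [sub_self]
    exact (𝔓 ^ 2).zero_mem⟩
  mul_mem' := fun {g h} hg hh => ⟨(inert E 𝔓).mul_mem hg.1 hh.1, fun o ho => by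
    have h0 : TT E M h o ∈ 𝔓 := by
      have := 𝔓.add_mem (hh.1 o) ho
      rwa [sub_add_cancel] at this
    have h1 : TT E M (g * h) o - o = (TT E M g (TT E M h o) - TT E M h o) + (TT E M h o - o) := by
      rw [map_mul]
      change TT E M g (TT E M h o) - o = _
      ring
    rw [h1]
    exact (𝔓 ^ 2).add_mem (hg.2 _ h0) (hh.2 _ ho)⟩
  inv_mem' := fun {g} hg => ⟨(inert E 𝔓).inv_mem hg.1, fun o ho => by
    have h0 : TT E M g⁻¹ o ∈ 𝔓 := by
      have := 𝔓.add_mem ((inert E 𝔓).inv_mem hg.1 o) ho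
      rwa [sub_add_cancel] at this
    have h1 : TT E M g (TT E M g⁻¹ o) = o := by
      have h2 : (TT E M g * TT E M g⁻¹) o = o := by
        rw [← map_mul, mul_inv_cancel, map_one]
        rfl
      exact h2
    have h2 := hg.2 (TT E M g⁻¹ o) h0
    rw [h1] at h2
    have h3 : TT E M g⁻¹ o - o = -(o - TT E M g⁻¹ o) := by ring
    rw [h3]
    exact (𝔓 ^ 2).neg_mem h2⟩

lemma winert_le (𝔓 : Ideal (𝓞 M)) : winert E 𝔓 ≤ inert E 𝔓 := fun _ h => h.1

lemma winert_card (hT : S_TAMC) (𝔓 : Ideal (𝓞 M)) (h𝔓 : 𝔓.IsMaximal) (h0 : 𝔓 ≠ ⊥) {p : ℕ}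
    (hp : p.Prime) (hp𝔓 : (p : 𝓞 M) ∈ 𝔓) (hin : ¬ p ^ 2 ∣ Nat.card (inert E 𝔓)) :
    Nat.card (winert E 𝔓) = 1 ∨ Nat.card (winert E 𝔓) = p := by
  have hpos : Nat.card (winert E 𝔓) ≠ 0 := Nat.card_pos.ne'
  have h1 : ∀ r : ℕ, r.Prime → r ∣ Nat.card (winert E 𝔓) → r = p := by
    intro r hr hrd
    by_contra hne
    have : Fact r.Prime := ⟨hr⟩
    obtain ⟨g, hg⟩ := exists_prime_orderOf_dvd_card' r hrd
    have hr𝔓 : (r : 𝓞 M) ∉ 𝔓 := by
      intro h
      have hcop : Nat.Coprime r p := (Nat.coprime_primes hr hp).2 hne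
      have h2 : (1 : 𝓞 M) ∈ 𝔓 := by
        have h3 : ((Nat.gcd r p : ℤ) : 𝓞 M) = (r : 𝓞 M) * ((Nat.gcdA r p : ℤ) : 𝓞 M) +
            (p : 𝓞 M) * ((Nat.gcdB r p : ℤ) : 𝓞 M) := by
          have := congrArg (Int.cast : ℤ → 𝓞 M) (Nat.gcd_eq_gcd_ab r p)
          push_cast at this ⊢
          exact this
        rw [hcop] at h3
        have h4 : (((1 : ℕ) : ℤ) : 𝓞 M) = 1 := by norm_num
        rw [h4] at h3
        rw [h3]
        exact 𝔓.add_mem (𝔓.mul_mem_right _ h) (𝔓.mul_mem_right _ hp𝔓)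
      exact h𝔓.ne_top ((Ideal.eq_top_iff_one 𝔓).2 h2)
    have hfin : Finite (𝓞 M ⧸ 𝔓) := Ideal.finiteQuotientOfFreeOfNeBot 𝔓 h0
    have h2 : (g : M ≃ₐ[E] M) ^ r = 1 := by
      have h3 : g ^ r = 1 := by rw [← hg]; exact pow_orderOf_eq_one g
      exact congrArg Subtype.val h3
    have h3 : (g : M ≃ₐ[E] M) = 1 := by
      apply TT_faithful
      refine hT (𝓞 M) 𝔓 h𝔓 h0 hfin (TT E M (g : M ≃ₐ[E] M)).toRingEquiv r ?_ hr𝔓 g.2.1 g.2.2
      intro o
      rw [TT_pow, h2, map_one]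
      rfl
    have h4 : g = 1 := Subtype.ext h3
    rw [h4, orderOf_one] at hg
    exact hr.one_lt.ne hg
  have h2 : ¬ p ^ 2 ∣ Nat.card (winert E 𝔓) := fun h =>
    hin (h.trans (Subgroup.card_dvd_of_le (winert_le 𝔓)))
  by_cases h3 : p ∣ Nat.card (winert E 𝔓)
  · right
    obtain ⟨c, hc⟩ := h3
    by_cases hc1 : c = 1
    · rw [hc, hc1, mul_one]
    · exfalso
      obtain ⟨r, hr, hrc⟩ := Nat.exists_prime_and_dvd hc1
      have h4 := h1 r hr (hrc.trans ⟨p, by rw [hc, mul_comm]⟩)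
      apply h2
      rw [hc, sq]
      rw [h4] at hrc
      exact Nat.mul_dvd_mul_left p hrc
  · left
    by_contra hc1
    obtain ⟨r, hr, hrc⟩ := Nat.exists_prime_and_dvd hc1
    have h4 := h1 r hr hrc
    rw [h4] at hrc
    exact h3 hrc

lemma exists_resChar (𝔓 : Ideal (𝓞 M)) (h𝔓 : 𝔓.IsMaximal) (h0 : 𝔓 ≠ ⊥) :
    ∃ p : ℕ, p.Prime ∧ (p : 𝓞 M) ∈ 𝔓 := by
  have hfin : Finite (𝓞 M ⧸ 𝔓) := Ideal.finiteQuotientOfFreeOfNeBot 𝔓 h0
  let _ : Field (𝓞 M ⧸ 𝔓) := Ideal.Quotient.field 𝔓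
  obtain ⟨p, hp⟩ := CharP.exists (𝓞 M ⧸ 𝔓)
  have hpp : p.Prime := by
    rcases CharP.char_is_prime_or_zero (𝓞 M ⧸ 𝔓) p with h | h
    · exact h
    · exfalso
      subst h
      have : CharZero (𝓞 M ⧸ 𝔓) := CharP.charP_to_charZero _
      exact not_finite (𝓞 M ⧸ 𝔓)
  refine ⟨p, hpp, ?_⟩
  rw [← Ideal.Quotient.eq_zero_iff_mem, map_natCast]
  exact CharP.cast_eq_zero _ p

/-- The hypotheses of the theorem for number fields. -/
theorem ghe_of [IsGalois E M] (hT : S_TAMC) (ρ : (M ≃ₐ[E] M) →* (K ≃ₐ[E] K))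
    (hρ : ∀ g x, ρ g (algebraMap M K x) = algebraMap M K (g x))
    (hfix : ∀ x, (∀ g, ρ g x = x) ↔ ∃ y : F, algebraMap F K y = x) {m : ℕ}
    (z : Ω → Fin (m + 1) → K) (hz0 : ∀ ω j, z ω j ≠ 0)
    (heqv : ∀ g ω j, ρ g (z ω j) = z (g • ω) j)
    (hgen : IntermediateField.adjoin M {y : K | ∃ ω j, y = z ω j / z ω 0} = ⊤)
    (hld : ∀ (S : Finset Ω) (ω : Ω), ω ∉ S →
      (IntermediateField.adjoin M {y : K | ∃ ω' ∈ S, ∃ j, y = z ω' j / z ω' 0}
        ).toSubalgebra.LinearDisjoint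
          (IntermediateField.adjoin M {y : K | ∃ j, y = z ω j / z ω 0}).toSubalgebra)
    (hin : ∀ 𝔓 : Ideal (𝓞 M), 𝔓.IsMaximal → ∀ p : ℕ, p.Prime → (p : 𝓞 M) ∈ 𝔓 →
      ¬ p ^ 2 ∣ Nat.card (inert E 𝔓))
    (hsm : ∀ 𝔓 : Ideal (𝓞 M), 𝔓.IsMaximal → ∀ p : ℕ, p.Prime → (p : 𝓞 M) ∈ 𝔓 →
      p ∣ Nat.card (inert E 𝔓) → ∀ ω j (q : Ideal (AZ (𝓞 M) (z ω) j)) [q.IsPrime],
      q.comap (algebraMap (𝓞 M) (AZ (𝓞 M) (z ω) j)) = 𝔓 → Algebra.IsSmoothAt (𝓞 M) q)
    (hrg : ∀ J : Ω → Fin (m + 1), IsRegularRing (Algebra.adjoin (𝓞 M)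
      {y : K | ∃ (ω : Ω) (i : Fin (m + 1)), y = z ω i / z ω (J ω)})) :
    GHE (𝓞 E) (𝓞 M) M F K (M ≃ₐ[E] M) Ω (IsScalarTower.toAlgHom (𝓞 E) F K) (RS E K ρ) (TT E M)
      m z := by
  have hinj : Function.Injective (algebraMap (𝓞 M) K) := by
    rw [IsScalarTower.algebraMap_eq (𝓞 M) M K]
    exact (algebraMap M K).injective.comp RingOfIntegers.coe_injective
  have hcom : ∀ (g : M ≃ₐ[E] M) (o : 𝓞 M), RS E K ρ g (algebraMap (𝓞 M) K o) =
      algebraMap (𝓞 M) K (TT E M g o) := fun g o => hρ g (o : M)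
  refine
  { fin := ?_
    inj := hinj
    injk := ?_
    com := hcom
    fai := fun g hg => TT_faithful g hg
    fix := ?_
    cg := ?_
    resf := fun 𝔓 h𝔓 h0 => Ideal.finiteQuotientOfFreeOfNeBot 𝔓 h0
    inr := ?_
    lo := fun o => ⟨algebraMap (𝓞 M) M o, rfl⟩
    lf := ?_
    fixK := hfix
    z0 := hz0
    eqv := heqv
    gen := hgen
    ld := hld
    sm := ?_
    rg := hrg }
  · have h1 : Module.Finite ℤ (𝓞 M) := inferInstance
    exact Module.Finite.of_restrictScalars_finite ℤ (𝓞 E) (𝓞 M)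
  · rw [IsScalarTower.algebraMap_eq (𝓞 E) E K]
    exact (algebraMap E K).injective.comp RingOfIntegers.coe_injective
  · intro o ho
    have h1 : (o : M) ∈ (⊥ : IntermediateField E M) := by
      rw [IsGalois.mem_bot_iff_fixed]
      intro g
      have := congrArg (algebraMap (𝓞 M) M) (ho g)
      rwa [TT_coe] at this
    obtain ⟨e, he⟩ := IntermediateField.mem_bot.1 h1
    have hint : IsIntegral ℤ e := by
      have h1 : IsIntegral ℤ (algebraMap E M e) := by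
        rw [he]
        exact RingOfIntegers.isIntegral_coe o
      exact (isIntegral_algHom_iff ((algebraMap E M).toIntAlgHom) (algebraMap E M).injective).1 h1
    refine ⟨⟨e, hint⟩, ?_⟩
    apply RingOfIntegers.coe_injective
    exact he
  · have : CharZero K := charZero_of_injective_algebraMap (algebraMap E K).injective
    exact_mod_cast Nat.card_pos.ne'
  · intro 𝔓 h𝔓 h0
    obtain ⟨p, hp, hp𝔓⟩ := exists_resChar 𝔓 h𝔓 h0
    rcases winert_card hT 𝔓 h𝔓 h0 hp hp𝔓 (hin 𝔓 h𝔓 p hp hp𝔓) with h1 | h1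
    · refine ⟨p, 1, hp, one_pow _, ?_⟩
      intro g hg hg2
      have h2 : winert E 𝔓 = ⊥ := Subgroup.card_eq_one.1 h1
      have h3 : g ∈ winert E 𝔓 := ⟨hg, hg2⟩
      rw [h2, Subgroup.mem_bot] at h3
      rw [h3]
      exact Subgroup.one_mem _
    · have hnt : Nontrivial (winert E 𝔓) := by
        rw [← Finite.one_lt_card_iff_nontrivial, h1]
        exact hp.one_lt
      obtain ⟨τ, hτ⟩ := exists_ne (1 : winert E 𝔓)
      refine ⟨p, τ, hp, ?_, ?_⟩
      · have h2 : τ ^ Nat.card (winert E 𝔓) = 1 := pow_card_eq_one'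
        rw [h1] at h2
        exact congrArg Subtype.val h2
      · intro g hg hg2
        have h2 : Nat.card (Subgroup.zpowers τ) = Nat.card (winert E 𝔓) := by
          rcases (Nat.dvd_prime hp).1 (h1 ▸ Subgroup.card_subgroup_dvd_card
            (Subgroup.zpowers τ)) with h2 | h2
          · exfalso
            apply hτ
            exact Subgroup.zpowers_eq_bot.1 (Subgroup.card_eq_one.1 h2)
          · rw [h2, h1]
        have h3 : Subgroup.zpowers τ = ⊤ := Subgroup.eq_top_of_card_eq _ h2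
        have h4 : (⟨g, hg, hg2⟩ : winert E 𝔓) ∈ Subgroup.zpowers τ := by rw [h3]; trivial
        obtain ⟨n, hn⟩ := h4
        exact ⟨n, congrArg Subtype.val hn⟩
  · intro x
    obtain ⟨a, b, hb, rfl⟩ := IsFractionRing.div_surjective (A := 𝓞 M) x
    have hb0 : b ≠ 0 := nonZeroDivisors.ne_zero hb
    have hb' : algebraMap (𝓞 M) M b ≠ 0 := RingOfIntegers.coe_ne_zero_iff.2 hb0
    refine ⟨a, b, hb0, ?_⟩
    rw [IsScalarTower.algebraMap_apply (𝓞 M) M K, IsScalarTower.algebraMap_apply (𝓞 M) M K,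
      ← map_mul, div_mul_cancel₀ _ hb']
  · rintro ω j q hq ⟨g, hg1, hg, hg2⟩
    set 𝔓 : Ideal (𝓞 M) := q.comap (algebraMap (𝓞 M) (AZ (𝓞 M) (z ω) j)) with h𝔓
    have hp' : 𝔓.IsPrime := Ideal.IsPrime.comap _
    have hg𝔓 : ∀ o, TT E M g o - o ∈ 𝔓 := fun o => hg o
    have h0 : 𝔓 ≠ ⊥ := by
      intro h
      apply hg1
      apply TT_faithful
      intro o
      have := hg𝔓 o
      rw [h, Ideal.mem_bot, sub_eq_zero] at this
      exact this
    have hmax : 𝔓.IsMaximal := hp'.isMaximal h0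
    obtain ⟨p, hp, hp𝔓⟩ := exists_resChar 𝔓 hmax h0
    refine hsm 𝔓 hmax p hp hp𝔓 ?_ ω j q rfl
    have h1 : Nat.card (winert E 𝔓) = p := by
      rcases winert_card hT 𝔓 hmax h0 hp hp𝔓 (hin 𝔓 hmax p hp hp𝔓) with h1 | h1
      · exfalso
        have h2 : winert E 𝔓 = ⊥ := Subgroup.card_eq_one.1 h1
        have h3 : g ∈ winert E 𝔓 := ⟨hg𝔓, hg2⟩
        rw [h2, Subgroup.mem_bot] at h3
        exact hg1 h3
      · exact h1
    rw [← h1]
    exact Subgroup.card_dvd_of_le (winert_le 𝔓)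

/-- The varieties have good modules. -/
theorem weile_good (hW : S_WEILE) [Fintype Ω] [Nonempty Ω] {ρ : (M ≃ₐ[E] M) →* (K ≃ₐ[E] K)}
    {m : ℕ} {z : Ω → Fin (m + 1) → K}
    (hG : GHE (𝓞 E) (𝓞 M) M F K (M ≃ₐ[E] M) Ω (IsScalarTower.toAlgHom (𝓞 E) F K) (RS E K ρ)
      (TT E M) m z)
    {ι : Type} [Finite ι] (x : ι → F)
    (hseg : Submodule.span M (Set.range fun i => algebraMap F K (x i)) =
      Submodule.span M (Set.range fun J : Ω → Fin (m + 1) => ∏ ω, z ω (J ω))) :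
    GoodModule (𝓞 E) x := by
  classical
  set M₀ : Submodule (𝓞 E) F := Submodule.span (𝓞 E) (Set.range x) with hM₀
  have hfg : M₀.FG := Submodule.fg_span (Set.finite_range x)
  have h1 : Submodule.span M ((IsScalarTower.toAlgHom (𝓞 E) F K) '' (M₀ : Set F)) =
      Submodule.span M (Set.range fun i => algebraMap F K (x i)) := by
    apply le_antisymm
    · rw [Submodule.span_le]
      rintro _ ⟨y, hy, rfl⟩
      induction hy using Submodule.span_induction with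
      | mem y hy =>
        obtain ⟨i, rfl⟩ := hy
        exact Submodule.subset_span ⟨i, rfl⟩
      | zero => rw [map_zero]; exact Submodule.zero_mem _
      | add a b _ _ ha hb => rw [map_add]; exact Submodule.add_mem _ ha hb
      | smul c a _ ha =>
        rw [map_smul]
        have h2 : c • (IsScalarTower.toAlgHom (𝓞 E) F K) a =
            algebraMap E M (algebraMap (𝓞 E) E c) • (IsScalarTower.toAlgHom (𝓞 E) F K) a := by
          rw [Algebra.smul_def, Algebra.smul_def, ← IsScalarTower.algebraMap_apply E M K]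
          rfl
        rw [h2]
        exact Submodule.smul_mem _ _ ha
    · rw [Submodule.span_le]
      rintro _ ⟨i, rfl⟩
      exact Submodule.subset_span ⟨x i, Submodule.subset_span ⟨i, rfl⟩, rfl⟩
  obtain ⟨M', hM'fg, hM'0, -, hreg, hmo⟩ := hW (𝓞 E) (𝓞 M) M F K (M ≃ₐ[E] M) Ω
    (IsScalarTower.toAlgHom (𝓞 E) F K) (RS E K ρ) (TT E M) m z hG M₀ hfg True
    (fun _ => h1.trans hseg)
  obtain ⟨n, hn, hle, hge⟩ := hmo trivial
  have hpow : M₀ ^ n = Submodule.span (𝓞 E) (Set.range x ^ n) := Submodule.span_pow _ _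
  refine Pool.Agent.Y223.INV.goodModule_of (E := E) hn hM'fg hM'0 one_ne_zero ?_ ?_ hreg
  · intro f hf
    rw [one_mul]
    obtain ⟨c, hc, hcf⟩ := hle f hf
    rw [hpow] at hcf
    have h2 : (algebraMap (𝓞 E) E c) • f ∈ Submodule.span E (Set.range x ^ n) := by
      have h3 := Submodule.span_subset_span (𝓞 E) E _ hcf
      rwa [← algebraMap_smul E c f] at h3
    have hc0 : algebraMap (𝓞 E) E c ≠ 0 := RingOfIntegers.coe_ne_zero_iff.2 hc
    have h3 := Submodule.smul_mem _ (algebraMap (𝓞 E) E c)⁻¹ h2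
    rwa [smul_smul, inv_mul_cancel₀ hc0, one_smul] at h3
  · intro y hy
    obtain ⟨c, hc, hcy⟩ := Pool.Agent.W418.exists_smul_span (O := 𝓞 E) (K := E)
      (Set.range x ^ n) y hy
    rw [← hpow] at hcy
    obtain ⟨d, hd, hdy⟩ := hge _ hcy
    refine ⟨d * c, mul_ne_zero hd hc, ?_⟩
    rw [div_one, mul_smul]
    exact hdy

end

end Pool.Agent.Y223.G
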