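import Pool.Agent.Y223.G.Stm13
import Pool.Agent.Y223.G.RgSm

/-!
# Products of elliptic curves over number fields
-/

set_option autoImplicit false
set_option linter.unusedVariables false
set_option linter.unusedSectionVars false

open NumberField Pool.Agent.W418

open scoped Pointwise

namespace Pool.Agent.Y223.G

section

variable {E M F K Ω : Type} [Field E] [NumberField E] [Field M] [NumberField M] [Algebra E M]
  [Field F] [Algebra E F] [Field K] [Algebra M K] [Algebra E K] [IsScalarTower E M K]
  [Algebra F K] [IsScalarTower E F K]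

/-- A generic point of a Weierstrass curve. -/
structure GPt (E F : Type) [Field E] [Field F] [Algebra E F] (W : WeierstrassCurve E)
    (X Y : F) : Prop where
  tr : Transcendental E X
  eq : Y ^ 2 + algebraMap E F W.a₁ * X * Y + algebraMap E F W.a₃ * Y =
    X ^ 3 + algebraMap E F W.a₂ * X ^ 2 + algebraMap E F W.a₄ * X + algebraMap E F W.a₆

/-- The coordinates after a change of variables. -/
noncomputable def zC (M : Type) {K : Type} [Field M] [Field K] [Algebra M K]
    (C : WeierstrassCurve.VariableChange M) (x y : K) : Fin (2 + 1) → K :=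
  ![(x - algebraMap M K C.r) / algebraMap M K (C.u : M) ^ 2,
    (y - algebraMap M K C.s * (x - algebraMap M K C.r) - algebraMap M K C.t) /
      algebraMap M K (C.u : M) ^ 3, 1]

lemma algU (C : WeierstrassCurve.VariableChange M) : algebraMap M K (C.u : M) ≠ 0 := by
  rw [map_ne_zero]
  exact C.u.ne_zero

lemma zC0 (C : WeierstrassCurve.VariableChange M) (x y : K) :
    x = algebraMap M K (C.u : M) ^ 2 * zC M C x y 0 + algebraMap M K C.r := by
  have h := algU (K := K) C
  change x = algebraMap M K (C.u : M) ^ 2 *
    ((x - algebraMap M K C.r) / algebraMap M K (C.u : M) ^ 2) + algebraMap M K C.r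
  field_simp
  ring

lemma zC1 (C : WeierstrassCurve.VariableChange M) (x y : K) :
    y = algebraMap M K (C.u : M) ^ 3 * zC M C x y 1 +
      algebraMap M K C.s * algebraMap M K (C.u : M) ^ 2 * zC M C x y 0 + algebraMap M K C.t := by
  have h := algU (K := K) C
  change y = algebraMap M K (C.u : M) ^ 3 *
    ((y - algebraMap M K C.s * (x - algebraMap M K C.r) - algebraMap M K C.t) /
      algebraMap M K (C.u : M) ^ 3) + algebraMap M K C.s * algebraMap M K (C.u : M) ^ 2 *
    ((x - algebraMap M K C.r) / algebraMap M K (C.u : M) ^ 2) + algebraMap M K C.t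
  field_simp
  ring

/-- Transcendence over the larger field. -/
lemma tr_M {X : F} (h : Transcendental E X) : Transcendental M (algebraMap F K X) := by
  intro hX
  apply h
  have h1 : IsAlgebraic E (algebraMap F K X) := by
    have : Algebra.IsAlgebraic E M := Algebra.IsAlgebraic.of_finite E M
    exact hX.restrictScalars E
  exact (isAlgebraic_algebraMap_iff (algebraMap F K).injective).1 h1

/-- The equation after a change of variables. -/
lemma eq_of {W : WeierstrassCurve E} {V : WeierstrassCurve (𝓞 M)}
    {C : WeierstrassCurve.VariableChange M}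
    (hrel : V.map (algebraMap (𝓞 M) M) = C • W.map (algebraMap E M)) {X Y : F}
    (hP : GPt E F W X Y) :
    EC0 (𝓞 M) K (zC M C (algebraMap F K X) (algebraMap F K Y)) V := by
  have hU := algU (K := K) C
  set x := algebraMap F K X with hx
  set y := algebraMap F K Y with hy
  have hX := zC0 C x y
  have hY := zC1 C x y
  have halg : ∀ a : E, algebraMap F K (algebraMap E F a) = algebraMap M K (algebraMap E M a) :=
    fun a => by rw [← IsScalarTower.algebraMap_apply E F K, ← IsScalarTower.algebraMap_apply E M K]
  have hO : ∀ a : 𝓞 M, algebraMap (𝓞 M) K a = algebraMap M K (algebraMap (𝓞 M) M a) := fun a =>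
    IsScalarTower.algebraMap_apply (𝓞 M) M K a
  have heq : y ^ 2 + algebraMap M K (algebraMap E M W.a₁) * x * y +
      algebraMap M K (algebraMap E M W.a₃) * y =
      x ^ 3 + algebraMap M K (algebraMap E M W.a₂) * x ^ 2 +
        algebraMap M K (algebraMap E M W.a₄) * x + algebraMap M K (algebraMap E M W.a₆) := by
    have h1 := congrArg (algebraMap F K) hP.eq
    simp only [map_add, map_mul, map_pow, halg] at h1
    exact h1
  have huu : (C.u : M) * ((C.u⁻¹ : Mˣ) : M) = 1 := C.u.mul_inv
  have h1 : algebraMap M K C.u * algebraMap (𝓞 M) K V.a₁ =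
      algebraMap M K (algebraMap E M W.a₁) + 2 * algebraMap M K C.s := by
    have h := congrArg WeierstrassCurve.a₁ hrel
    simp only [WeierstrassCurve.map_a₁, WeierstrassCurve.variableChange_a₁] at h
    have h' : (C.u : M) * algebraMap (𝓞 M) M V.a₁ = algebraMap E M W.a₁ + 2 * C.s := by
      rw [h]
      linear_combination (algebraMap E M W.a₁ + 2 * C.s) * huu
    have := congrArg (algebraMap M K) h'
    simp only [map_add, map_mul, map_ofNat] at this
    rw [hO]
    exact this
  have h2 : algebraMap M K C.u ^ 2 * algebraMap (𝓞 M) K V.a₂ =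
      algebraMap M K (algebraMap E M W.a₂) - algebraMap M K C.s *
        algebraMap M K (algebraMap E M W.a₁) + 3 * algebraMap M K C.r -
        algebraMap M K C.s ^ 2 := by
    have h := congrArg WeierstrassCurve.a₂ hrel
    simp only [WeierstrassCurve.map_a₂, WeierstrassCurve.map_a₁,
      WeierstrassCurve.variableChange_a₂] at h
    have h' : (C.u : M) ^ 2 * algebraMap (𝓞 M) M V.a₂ = algebraMap E M W.a₂ -
        C.s * algebraMap E M W.a₁ + 3 * C.r - C.s ^ 2 := by
      rw [h, ← mul_assoc, ← mul_pow, huu, one_pow, one_mul]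
    have := congrArg (algebraMap M K) h'
    simp only [map_add, map_sub, map_mul, map_pow, map_ofNat] at this
    rw [hO]
    exact this
  have h3 : algebraMap M K C.u ^ 3 * algebraMap (𝓞 M) K V.a₃ =
      algebraMap M K (algebraMap E M W.a₃) + algebraMap M K C.r *
        algebraMap M K (algebraMap E M W.a₁) + 2 * algebraMap M K C.t := by
    have h := congrArg WeierstrassCurve.a₃ hrel
    simp only [WeierstrassCurve.map_a₃, WeierstrassCurve.map_a₁,
      WeierstrassCurve.variableChange_a₃] at h
    have h' : (C.u : M) ^ 3 * algebraMap (𝓞 M) M V.a₃ = algebraMap E M W.a₃ +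
        C.r * algebraMap E M W.a₁ + 2 * C.t := by
      rw [h, ← mul_assoc, ← mul_pow, huu, one_pow, one_mul]
    have := congrArg (algebraMap M K) h'
    simp only [map_add, map_mul, map_pow, map_ofNat] at this
    rw [hO]
    exact this
  have h4 : algebraMap M K C.u ^ 4 * algebraMap (𝓞 M) K V.a₄ =
      algebraMap M K (algebraMap E M W.a₄) - algebraMap M K C.s *
        algebraMap M K (algebraMap E M W.a₃) + 2 * algebraMap M K C.r *
        algebraMap M K (algebraMap E M W.a₂) - (algebraMap M K C.t + algebraMap M K C.r *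
        algebraMap M K C.s) * algebraMap M K (algebraMap E M W.a₁) +
        3 * algebraMap M K C.r ^ 2 - 2 * algebraMap M K C.s * algebraMap M K C.t := by
    have h := congrArg WeierstrassCurve.a₄ hrel
    simp only [WeierstrassCurve.map_a₄, WeierstrassCurve.map_a₃, WeierstrassCurve.map_a₂,
      WeierstrassCurve.map_a₁, WeierstrassCurve.variableChange_a₄] at h
    have h' : (C.u : M) ^ 4 * algebraMap (𝓞 M) M V.a₄ = algebraMap E M W.a₄ -
        C.s * algebraMap E M W.a₃ + 2 * C.r * algebraMap E M W.a₂ -
        (C.t + C.r * C.s) * algebraMap E M W.a₁ + 3 * C.r ^ 2 - 2 * C.s * C.t := by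
      rw [h, ← mul_assoc, ← mul_pow, huu, one_pow, one_mul]
    have := congrArg (algebraMap M K) h'
    simp only [map_add, map_sub, map_mul, map_pow, map_ofNat] at this
    rw [hO]
    exact this
  have h6 : algebraMap M K C.u ^ 6 * algebraMap (𝓞 M) K V.a₆ =
      algebraMap M K (algebraMap E M W.a₆) + algebraMap M K C.r *
        algebraMap M K (algebraMap E M W.a₄) + algebraMap M K C.r ^ 2 *
        algebraMap M K (algebraMap E M W.a₂) + algebraMap M K C.r ^ 3 - algebraMap M K C.t *
        algebraMap M K (algebraMap E M W.a₃) - algebraMap M K C.t ^ 2 - algebraMap M K C.r *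
        algebraMap M K C.t * algebraMap M K (algebraMap E M W.a₁) := by
    have h := congrArg WeierstrassCurve.a₆ hrel
    simp only [WeierstrassCurve.map_a₆, WeierstrassCurve.map_a₄, WeierstrassCurve.map_a₃,
      WeierstrassCurve.map_a₂, WeierstrassCurve.map_a₁, WeierstrassCurve.variableChange_a₆] at h
    have h' : (C.u : M) ^ 6 * algebraMap (𝓞 M) M V.a₆ = algebraMap E M W.a₆ +
        C.r * algebraMap E M W.a₄ + C.r ^ 2 * algebraMap E M W.a₂ + C.r ^ 3 -
        C.t * algebraMap E M W.a₃ - C.t ^ 2 - C.r * C.t * algebraMap E M W.a₁ := by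
      rw [h, ← mul_assoc, ← mul_pow, huu, one_pow, one_mul]
    have := congrArg (algebraMap M K) h'
    simp only [map_add, map_sub, map_mul, map_pow] at this
    rw [hO]
    exact this
  set x₁ := zC M C x y 0 with hx₁
  set y₁ := zC M C x y 1 with hy₁
  have heq1 : y₁ ^ 2 + algebraMap (𝓞 M) K V.a₁ * x₁ * y₁ + algebraMap (𝓞 M) K V.a₃ * y₁ =
      x₁ ^ 3 + algebraMap (𝓞 M) K V.a₂ * x₁ ^ 2 + algebraMap (𝓞 M) K V.a₄ * x₁ +
        algebraMap (𝓞 M) K V.a₆ := by
    apply mul_left_cancel₀ (pow_ne_zero 6 hU)
    clear_value x₁ y₁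
    rw [hX, hY] at heq
    linear_combination heq + algebraMap M K C.u ^ 5 * x₁ * y₁ * h1 -
      algebraMap M K C.u ^ 4 * x₁ ^ 2 * h2 + algebraMap M K C.u ^ 3 * y₁ * h3 -
      algebraMap M K C.u ^ 2 * x₁ * h4 - h6
  have htr : Transcendental M x₁ := by
    intro h
    refine tr_M (M := M) (K := K) hP.tr ?_
    rw [← hx, hX]
    exact ((isAlgebraic_algebraMap _).pow 2 |>.mul h).add (isAlgebraic_algebraMap _)
  have htrO : Transcendental (𝓞 M) x₁ := by
    intro h
    exact htr (h.extendScalars RingOfIntegers.coe_injective)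
  refine ⟨rfl, ?_, htrO, heq1⟩
  intro j
  fin_cases j
  · intro h0
    exact htr (by rw [show x₁ = 0 from h0]; exact isAlgebraic_zero)
  · intro h0
    have h5 : y₁ = 0 := h0
    rw [h5] at heq1
    apply htr
    refine ⟨Polynomial.X ^ 3 + Polynomial.C (algebraMap (𝓞 M) M V.a₂) * Polynomial.X ^ 2 +
      Polynomial.C (algebraMap (𝓞 M) M V.a₄) * Polynomial.X +
      Polynomial.C (algebraMap (𝓞 M) M V.a₆), ?_, ?_⟩
    · intro h
      have := congrArg (fun q => Polynomial.coeff q 3) h
      simp [Polynomial.coeff_X, Polynomial.coeff_C] at this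
    · simp only [map_add, map_mul, map_pow, Polynomial.aeval_X, Polynomial.aeval_C, ← hO]
      linear_combination -heq1
  · exact one_ne_zero

end

end Pool.Agent.Y223.G
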