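import Pool.Agent.Y223.G.WFinL

/-!
# Products of elliptic curves over number fields: the action on the coordinates
-/

set_option autoImplicit false
set_option linter.unusedVariables false
set_option linter.unusedSectionVars false

open NumberField Pool.Agent.W418

open scoped Pointwise

namespace Pool.Agent.Y223.G

section

variable {E M F K Ω : Type} [Field E] [NumberField E] [Field M] [NumberField M] [Algebra E M]
  [Field F] [Algebra E F] [Field K] [Algebra M K] [Algebra E K] [IsScalarTower E M K]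
  [Algebra F K] [IsScalarTower E F K]

/-- The change of variables given by an element of the group. -/
lemma ex_C (hI : S_ECINT) {W : WeierstrassCurve E} {V : WeierstrassCurve (𝓞 M)}
    (hV : IsUnit V.Δ) {C : WeierstrassCurve.VariableChange M}
    (hrel : V.map (algebraMap (𝓞 M) M) = C • W.map (algebraMap E M)) (g : M ≃ₐ[E] M) :
    ∃ C' : WeierstrassCurve.VariableChange (𝓞 M),
      C'.map (algebraMap (𝓞 M) M) = C * (C.map (g : M →+* M))⁻¹ ∧
      V = C' • V.map (TT E M g : 𝓞 M →+* 𝓞 M) := by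
  have h1 : (V.map (TT E M g : 𝓞 M →+* 𝓞 M)).map (algebraMap (𝓞 M) M) =
      (V.map (algebraMap (𝓞 M) M)).map (g : M →+* M) := by
    rw [WeierstrassCurve.map_map, WeierstrassCurve.map_map]
    congr 1
  have h2 : (W.map (algebraMap E M)).map (g : M →+* M) = W.map (algebraMap E M) := by
    rw [WeierstrassCurve.map_map]
    congr 1
    ext x
    exact g.commutes x
  have h3 : V.map (algebraMap (𝓞 M) M) = (C * (C.map (g : M →+* M))⁻¹) •
      (V.map (TT E M g : 𝓞 M →+* 𝓞 M)).map (algebraMap (𝓞 M) M) := by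
    rw [h1, hrel, ← WeierstrassCurve.map_variableChange, h2, mul_smul, inv_smul_smul]
  have hV' : IsUnit (V.map (TT E M g : 𝓞 M →+* 𝓞 M)).Δ := by
    rw [WeierstrassCurve.map_Δ]
    exact hV.map _
  obtain ⟨C', hC'⟩ := hI (𝓞 M) M V (V.map (TT E M g : 𝓞 M →+* 𝓞 M)) hV hV' _ h3
  refine ⟨C', hC', ?_⟩
  apply WeierstrassCurve.map_injective (RingOfIntegers.coe_injective (K := M))
  change V.map (algebraMap (𝓞 M) M) = (C' • V.map (TT E M g : 𝓞 M →+* 𝓞 M)).map
    (algebraMap (𝓞 M) M)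
  rw [← WeierstrassCurve.map_variableChange, hC']
  exact h3

/-- The action on the coordinates. -/
lemma act_z {C : WeierstrassCurve.VariableChange M} (σ : K ≃ₐ[E] K) (g : M ≃ₐ[E] M)
    (hσ : ∀ a, σ (algebraMap M K a) = algebraMap M K (g a)) {x y : K} (hx : σ x = x)
    (hy : σ y = y) (C' : WeierstrassCurve.VariableChange (𝓞 M))
    (hC' : C'.map (algebraMap (𝓞 M) M) = C * (C.map (g : M →+* M))⁻¹) :
    (σ (zC M C x y 0) = algebraMap (𝓞 M) K ((C'.u : 𝓞 M) ^ 2) * zC M C x y 0 +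
      algebraMap (𝓞 M) K C'.r) ∧
    σ (zC M C x y 1) = algebraMap (𝓞 M) K ((C'.u : 𝓞 M) ^ 3) * zC M C x y 1 +
      algebraMap (𝓞 M) K (C'.s * (C'.u : 𝓞 M) ^ 2) * zC M C x y 0 + algebraMap (𝓞 M) K C'.t := by
  have hO : ∀ a : 𝓞 M, algebraMap (𝓞 M) K a = algebraMap M K (algebraMap (𝓞 M) M a) := fun a =>
    IsScalarTower.algebraMap_apply (𝓞 M) M K a
  have hU := algU (K := K) C
  have hgu : g (C.u : M) ≠ 0 := by
    intro h
    exact C.u.ne_zero ((map_eq_zero_iff g g.injective).1 h)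
  have hU' : algebraMap M K (g (C.u : M)) ≠ 0 := by
    rw [map_ne_zero]
    exact hgu
  have hinv : (((C.map (g : M →+* M)).u⁻¹ : Mˣ) : M) = (g (C.u : M))⁻¹ := by
    rw [Units.val_inv_eq_inv_val]
    rfl
  have hu : algebraMap (𝓞 M) M C'.u * g C.u = C.u := by
    have h := congrArg (fun D : WeierstrassCurve.VariableChange M => (D.u : M)) hC'
    change algebraMap (𝓞 M) M C'.u = (C.u : M) * (((C.map (g : M →+* M)).u⁻¹ : Mˣ) : M) at h
    rw [h, hinv, mul_assoc, inv_mul_cancel₀ hgu, mul_one]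
  have hr : algebraMap (𝓞 M) M C'.r * (g C.u) ^ 2 = C.r - g C.r := by
    have h := congrArg (fun D : WeierstrassCurve.VariableChange M => D.r) hC'
    change algebraMap (𝓞 M) M C'.r = C.r * (((C.map (g : M →+* M)).u⁻¹ : Mˣ) : M) ^ 2 +
      -(g C.r) * (((C.map (g : M →+* M)).u⁻¹ : Mˣ) : M) ^ 2 at h
    rw [h, hinv]
    field_simp
    ring
  have hs : algebraMap (𝓞 M) M C'.s * (g C.u) = C.s - g C.s := by
    have h := congrArg (fun D : WeierstrassCurve.VariableChange M => D.s) hC'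
    change algebraMap (𝓞 M) M C'.s = (((C.map (g : M →+* M)).u⁻¹ : Mˣ) : M) * C.s +
      -(g C.s) * (((C.map (g : M →+* M)).u⁻¹ : Mˣ) : M) at h
    rw [h, hinv]
    field_simp
    ring
  have ht : algebraMap (𝓞 M) M C'.t * (g C.u) ^ 3 = C.t - g C.t - g C.s * (C.r - g C.r) := by
    have h := congrArg (fun D : WeierstrassCurve.VariableChange M => D.t) hC'
    change algebraMap (𝓞 M) M C'.t = C.t * (((C.map (g : M →+* M)).u⁻¹ : Mˣ) : M) ^ 3 +
      C.r * (-(g C.s) * (((C.map (g : M →+* M)).u⁻¹ : Mˣ) : M)) *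
        (((C.map (g : M →+* M)).u⁻¹ : Mˣ) : M) ^ 2 +
      (g C.r * g C.s - g C.t) * (((C.map (g : M →+* M)).u⁻¹ : Mˣ) : M) ^ 3 at h
    rw [h, hinv]
    field_simp
    ring
  have hu' : algebraMap (𝓞 M) K C'.u * algebraMap M K (g C.u) = algebraMap M K C.u := by
    rw [hO, ← map_mul, hu]
  have hr' : algebraMap (𝓞 M) K C'.r * algebraMap M K (g C.u) ^ 2 =
      algebraMap M K C.r - algebraMap M K (g C.r) := by
    rw [hO, ← map_pow, ← map_mul, hr, map_sub]
  have hs' : algebraMap (𝓞 M) K C'.s * algebraMap M K (g C.u) =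
      algebraMap M K C.s - algebraMap M K (g C.s) := by
    rw [hO, ← map_mul, hs, map_sub]
  have ht' : algebraMap (𝓞 M) K C'.t * algebraMap M K (g C.u) ^ 3 =
      algebraMap M K C.t - algebraMap M K (g C.t) - algebraMap M K (g C.s) *
        (algebraMap M K C.r - algebraMap M K (g C.r)) := by
    rw [hO, ← map_pow, ← map_mul, ht, map_sub, map_sub, map_mul, map_sub]
  have e0 : x = algebraMap M K (g C.u) ^ 2 * σ (zC M C x y 0) + algebraMap M K (g C.r) := by
    have h := congrArg σ (zC0 C x y)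
    rw [map_add, map_mul, map_pow, hσ, hσ, hx] at h
    exact h
  have e1 : y = algebraMap M K (g C.u) ^ 3 * σ (zC M C x y 1) + algebraMap M K (g C.s) *
      algebraMap M K (g C.u) ^ 2 * σ (zC M C x y 0) + algebraMap M K (g C.t) := by
    have h := congrArg σ (zC1 C x y)
    rw [map_add, map_add, map_mul, map_mul, map_mul, map_pow, map_pow, hσ, hσ, hσ, hy] at h
    exact h
  have f0 := zC0 C x y
  have f1 := zC1 C x y
  set z₀ := zC M C x y 0
  set z₁ := zC M C x y 1
  rw [← hu'] at f0 f1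
  have g0 : σ z₀ = algebraMap (𝓞 M) K ((C'.u : 𝓞 M) ^ 2) * z₀ + algebraMap (𝓞 M) K C'.r := by
    apply mul_left_cancel₀ (pow_ne_zero 2 hU')
    rw [map_pow]
    linear_combination f0 - e0 - hr'
  refine ⟨g0, ?_⟩
  apply mul_left_cancel₀ (pow_ne_zero 3 hU')
  rw [map_pow, map_mul, map_pow]
  rw [map_pow] at g0
  rw [g0] at e1
  linear_combination f1 - e1 - ht' - (algebraMap (𝓞 M) K C'.u) ^ 2 *
    algebraMap M K (g C.u) ^ 2 * z₀ * hs' - algebraMap M K (g C.s) * hr'

/-- The data of the Weierstrass equations. -/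
theorem ecd_of (hI : S_ECINT) (ρ : (M ≃ₐ[E] M) →* (K ≃ₐ[E] K))
    (hρ : ∀ g x, ρ g (algebraMap M K x) = algebraMap M K (g x))
    (hfix : ∀ x, (∀ g, ρ g x = x) ↔ ∃ y : F, algebraMap F K y = x)
    (W : Ω → WeierstrassCurve E) (V : Ω → WeierstrassCurve (𝓞 M)) (hV : ∀ ω, IsUnit (V ω).Δ)
    (C : Ω → WeierstrassCurve.VariableChange M)
    (hrel : ∀ ω, (V ω).map (algebraMap (𝓞 M) M) = C ω • (W ω).map (algebraMap E M))
    (X Y : Ω → F) (hP : ∀ ω, GPt E F (W ω) (X ω) (Y ω)) :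
    ECD (𝓞 E) (𝓞 M) K (M ≃ₐ[E] M) Ω (RS E K ρ) (TT E M)
      (fun ω => zC M (C ω) (algebraMap F K (X ω)) (algebraMap F K (Y ω))) V := by
  refine ⟨fun ω => eq_of (hrel ω) (hP ω), hV, ?_⟩
  intro ω
  obtain ⟨a, b, hb, hab⟩ := IsFractionRing.div_surjective (A := 𝓞 M) ((C ω).u : M)
  have hb0 : b ≠ 0 := nonZeroDivisors.ne_zero hb
  have hbM : algebraMap (𝓞 M) M b ≠ 0 := RingOfIntegers.coe_ne_zero_iff.2 hb0
  have ha0 : a ≠ 0 := by
    rintro rfl
    rw [map_zero, zero_div] at hab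
    exact (C ω).u.ne_zero hab.symm
  refine ⟨a, b, ha0, hb0, ?_⟩
  intro g
  obtain ⟨C', hC', hVC⟩ := ex_C hI (hV ω) (hrel ω) g
  obtain ⟨h0, h1⟩ := act_z (C := C ω) (ρ g) g (hρ g) (x := algebraMap F K (X ω))
    (y := algebraMap F K (Y ω)) ((hfix _).2 ⟨_, rfl⟩ g) ((hfix _).2 ⟨_, rfl⟩ g) C' hC'
  refine ⟨C', h0, h1, hVC, ?_⟩
  have hgu : g ((C ω).u : M) ≠ 0 := by
    intro h
    exact (C ω).u.ne_zero ((map_eq_zero_iff g g.injective).1 h)
  have hu : algebraMap (𝓞 M) M C'.u * g (C ω).u = (C ω).u := by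
    have h := congrArg (fun D : WeierstrassCurve.VariableChange M => (D.u : M)) hC'
    change algebraMap (𝓞 M) M C'.u = ((C ω).u : M) *
      ((((C ω).map (g : M →+* M)).u⁻¹ : Mˣ) : M) at h
    rw [h, Units.val_inv_eq_inv_val, mul_assoc]
    change ((C ω).u : M) * ((g (C ω).u)⁻¹ * g (C ω).u) = (C ω).u
    rw [inv_mul_cancel₀ hgu, mul_one]
  have hgb : g (algebraMap (𝓞 M) M b) ≠ 0 := by
    intro h
    exact hbM ((map_eq_zero_iff g g.injective).1 h)
  apply RingOfIntegers.coe_injective (K := M)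
  rw [map_mul, map_mul, map_mul, TT_coe, TT_coe]
  rw [← hab, map_div₀] at hu
  field_simp at hu
  linear_combination hu

lemma mem_iff2 {z : Fin (2 + 1) → K} (h2 : z 2 = 1) (h0 : z 0 ≠ 0) (L : IntermediateField M K) :
    (∀ j, z j / z 0 ∈ L) ↔ z 0 ∈ L ∧ z 1 ∈ L := by
  constructor
  · intro h
    have h3 : z 0 ∈ L := by
      have := L.inv_mem (h 2)
      rwa [h2, one_div, inv_inv] at this
    refine ⟨h3, ?_⟩
    have := L.mul_mem (h 1) h3
    rwa [div_mul_cancel₀ _ h0] at this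
  · rintro ⟨h3, h4⟩ j
    have h5 : z 2 ∈ L := by
      rw [h2]
      exact L.one_mem
    fin_cases j
    · exact L.div_mem h3 h3
    · exact L.div_mem h4 h3
    · exact L.div_mem h5 h3

lemma zC_iff (C : WeierstrassCurve.VariableChange M) (x y : K) (L : IntermediateField M K) :
    (zC M C x y 0 ∈ L ∧ zC M C x y 1 ∈ L) ↔ x ∈ L ∧ y ∈ L := by
  have hm : ∀ a : M, algebraMap M K a ∈ L := fun a => L.algebraMap_mem a
  constructor
  · rintro ⟨h0, h1⟩
    refine ⟨?_, ?_⟩
    · rw [zC0 C x y]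
      exact L.add_mem (L.mul_mem (pow_mem (hm _) _) h0) (hm _)
    · rw [zC1 C x y]
      exact L.add_mem (L.add_mem (L.mul_mem (pow_mem (hm _) _) h1)
        (L.mul_mem (L.mul_mem (hm _) (pow_mem (hm _) _)) h0)) (hm _)
  · rintro ⟨hx, hy⟩
    refine ⟨?_, ?_⟩
    · exact L.div_mem (L.sub_mem hx (hm _)) (pow_mem (hm _) _)
    · exact L.div_mem (L.sub_mem (L.sub_mem hy (L.mul_mem (hm _) (L.sub_mem hx (hm _)))) (hm _))
        (pow_mem (hm _) _)

lemma zw_iff (C : WeierstrassCurve.VariableChange M) {x y : K} (hx : x ≠ 0)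
    (hz : zC M C x y 0 ≠ 0) (L : IntermediateField M K) :
    (∀ j, zC M C x y j / zC M C x y 0 ∈ L) ↔
      ∀ j, (![x, y, 1] : Fin (2 + 1) → K) j / (![x, y, 1] : Fin (2 + 1) → K) 0 ∈ L := by
  rw [mem_iff2 (z := zC M C x y) rfl hz L, zC_iff,
    mem_iff2 (z := (![x, y, 1] : Fin (2 + 1) → K)) rfl hx L]
  rfl

lemma adj_eq (C : Ω → WeierstrassCurve.VariableChange M) {x y : Ω → K} (hx : ∀ ω, x ω ≠ 0)
    (hz : ∀ ω, zC M (C ω) (x ω) (y ω) 0 ≠ 0) (S : Set Ω) :
    IntermediateField.adjoin M {f : K | ∃ ω ∈ S, ∃ j, f = zC M (C ω) (x ω) (y ω) j /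
      zC M (C ω) (x ω) (y ω) 0} = IntermediateField.adjoin M {f : K | ∃ ω ∈ S, ∃ j,
      f = (![x ω, y ω, 1] : Fin (2 + 1) → K) j / (![x ω, y ω, 1] : Fin (2 + 1) → K) 0} := by
  apply le_antisymm
  · rw [IntermediateField.adjoin_le_iff]
    rintro _ ⟨ω, hω, j, rfl⟩
    refine (zw_iff (C ω) (hx ω) (hz ω) _).2 (fun j => ?_) j
    exact IntermediateField.subset_adjoin M _ ⟨ω, hω, j, rfl⟩
  · rw [IntermediateField.adjoin_le_iff]
    rintro _ ⟨ω, hω, j, rfl⟩
    refine (zw_iff (C ω) (hx ω) (hz ω) _).1 (fun j => ?_) j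
    exact IntermediateField.subset_adjoin M _ ⟨ω, hω, j, rfl⟩

/-- The spans of the coordinates. -/
lemma span_zC (C : WeierstrassCurve.VariableChange M) (x y : K) :
    Submodule.span M (Set.range (zC M C x y)) =
      Submodule.span M (Set.range (![x, y, 1] : Fin (2 + 1) → K)) := by
  have hs : ∀ (P : Submodule M K) (a : M) (f : K), f ∈ P → algebraMap M K a * f ∈ P := by
    intro P a f hf
    rw [← Algebra.smul_def]
    exact P.smul_mem a hf
  apply le_antisymm
  · rw [Submodule.span_le]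
    set P := Submodule.span M (Set.range (![x, y, 1] : Fin (2 + 1) → K)) with hP
    have hx : x ∈ P := Submodule.subset_span ⟨0, rfl⟩
    have hy : y ∈ P := Submodule.subset_span ⟨1, rfl⟩
    have h1 : (1 : K) ∈ P := Submodule.subset_span ⟨2, rfl⟩
    have hm : ∀ a : M, algebraMap M K a ∈ P := fun a => by
      have := hs P a 1 h1
      rwa [mul_one] at this
    rintro _ ⟨j, rfl⟩
    fin_cases j
    · change (x - algebraMap M K C.r) / algebraMap M K (C.u : M) ^ 2 ∈ P
      rw [div_eq_inv_mul, ← map_pow, ← map_inv₀]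
      exact hs _ _ _ (P.sub_mem hx (hm _))
    · change (y - algebraMap M K C.s * (x - algebraMap M K C.r) - algebraMap M K C.t) /
        algebraMap M K (C.u : M) ^ 3 ∈ P
      rw [div_eq_inv_mul, ← map_pow, ← map_inv₀]
      exact hs _ _ _ (P.sub_mem (P.sub_mem hy (hs _ _ _ (P.sub_mem hx (hm _)))) (hm _))
    · exact h1
  · rw [Submodule.span_le]
    set P := Submodule.span M (Set.range (zC M C x y)) with hP
    have hx : zC M C x y 0 ∈ P := Submodule.subset_span ⟨0, rfl⟩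
    have hy : zC M C x y 1 ∈ P := Submodule.subset_span ⟨1, rfl⟩
    have h1 : (1 : K) ∈ P := Submodule.subset_span ⟨2, rfl⟩
    have hm : ∀ a : M, algebraMap M K a ∈ P := fun a => by
      have := hs P a 1 h1
      rwa [mul_one] at this
    rintro _ ⟨j, rfl⟩
    fin_cases j
    · change x ∈ P
      rw [zC0 C x y, ← map_pow]
      exact P.add_mem (hs _ _ _ hx) (hm _)
    · change y ∈ P
      rw [zC1 C x y, ← map_pow, ← map_pow, ← map_mul]
      exact P.add_mem (P.add_mem (hs _ _ _ hy) (hs _ _ _ hx)) (hm _)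
    · exact h1

/-- The spans of the products. -/
lemma span_prod [Fintype Ω] (z w : Ω → Fin (2 + 1) → K)
    (h : ∀ ω, Submodule.span M (Set.range (z ω)) = Submodule.span M (Set.range (w ω))) :
    Submodule.span M (Set.range fun J : Ω → Fin (2 + 1) => ∏ ω, z ω (J ω)) =
      Submodule.span M (Set.range fun J : Ω → Fin (2 + 1) => ∏ ω, w ω (J ω)) := by
  classical
  have key : ∀ v : Ω → Fin (2 + 1) → K, Submodule.span M
      (Set.range fun J : Ω → Fin (2 + 1) => ∏ ω, v ω (J ω)) =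
      ∏ ω, Submodule.span M (Set.range (v ω)) := by
    intro v
    rw [Submodule.prod_span]
    congr 1
    ext y
    rw [Set.mem_finsetProd]
    constructor
    · rintro ⟨J, rfl⟩
      exact ⟨fun ω => v ω (J ω), fun {ω} _ => ⟨J ω, rfl⟩, rfl⟩
    · rintro ⟨g, hg, rfl⟩
      choose J hJ using fun ω => hg (Finset.mem_univ ω)
      exact ⟨J, Finset.prod_congr rfl fun ω _ => hJ ω⟩
  rw [key, key]
  exact Finset.prod_congr rfl fun ω _ => h ω

end

end Pool.Agent.Y223.G
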