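import Pool.Agent.Y223.G.WFinM
import Pool.Agent.Y223.G.EcchP

/-!
# Products of elliptic curves over number fields: the hypotheses of the theorem
-/

set_option autoImplicit false
set_option linter.unusedVariables false
set_option linter.unusedSectionVars false

open NumberField Pool.Agent.W418

open scoped Pointwise

namespace Pool.Agent.Y223.G

section

variable {E M F K Ω : Type} [Field E] [NumberField E] [Field M] [NumberField M] [Algebra E M]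
  [Field F] [Algebra E F] [Field K] [Algebra M K] [Algebra E K] [IsScalarTower E M K]
  [Algebra F K] [IsScalarTower E F K]

/-- The general hypotheses for number fields. -/
theorem ge_of [IsGalois E M] (hT : S_TAMC) (ρ : (M ≃ₐ[E] M) →* (K ≃ₐ[E] K))
    (hρ : ∀ g x, ρ g (algebraMap M K x) = algebraMap M K (g x))
    (hin : ∀ 𝔓 : Ideal (𝓞 M), 𝔓.IsMaximal → ∀ p : ℕ, p.Prime → (p : 𝓞 M) ∈ 𝔓 →
      ¬ p ^ 2 ∣ Nat.card (inert E 𝔓)) :
    GE (𝓞 E) (𝓞 M) K (M ≃ₐ[E] M) (RS E K ρ) (TT E M) := by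
  have hinj : Function.Injective (algebraMap (𝓞 M) K) := by
    rw [IsScalarTower.algebraMap_eq (𝓞 M) M K]
    exact (algebraMap M K).injective.comp RingOfIntegers.coe_injective
  have hcom : ∀ (g : M ≃ₐ[E] M) (o : 𝓞 M), RS E K ρ g (algebraMap (𝓞 M) K o) =
      algebraMap (𝓞 M) K (TT E M g o) := fun g o => hρ g (o : M)
  refine
  { fin := ?_
    inj := hinj
    injk := ?_
    com := hcom
    fai := fun g hg => TT_faithful g hg
    fix := ?_
    cg := ?_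
    resf := fun 𝔓 h𝔓 h0 => Ideal.finiteQuotientOfFreeOfNeBot 𝔓 h0
    inr := ?_ }
  · have h1 : Module.Finite ℤ (𝓞 M) := inferInstance
    exact Module.Finite.of_restrictScalars_finite ℤ (𝓞 E) (𝓞 M)
  · rw [IsScalarTower.algebraMap_eq (𝓞 E) E K]
    exact (algebraMap E K).injective.comp RingOfIntegers.coe_injective
  · intro o ho
    have h1 : (o : M) ∈ (⊥ : IntermediateField E M) := by
      rw [IsGalois.mem_bot_iff_fixed]
      intro g
      have := congrArg (algebraMap (𝓞 M) M) (ho g)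
      rwa [TT_coe] at this
    obtain ⟨e, he⟩ := IntermediateField.mem_bot.1 h1
    have hint : IsIntegral ℤ e := by
      have h1 : IsIntegral ℤ (algebraMap E M e) := by
        rw [he]
        exact RingOfIntegers.isIntegral_coe o
      exact (isIntegral_algHom_iff ((algebraMap E M).toIntAlgHom) (algebraMap E M).injective).1 h1
    refine ⟨⟨e, hint⟩, ?_⟩
    apply RingOfIntegers.coe_injective
    exact he
  · have : CharZero K := charZero_of_injective_algebraMap (algebraMap E K).injective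
    exact_mod_cast Nat.card_pos.ne'
  · intro 𝔓 h𝔓 h0
    obtain ⟨p, hp, hp𝔓⟩ := exists_resChar 𝔓 h𝔓 h0
    rcases winert_card hT 𝔓 h𝔓 h0 hp hp𝔓 (hin 𝔓 h𝔓 p hp hp𝔓) with h1 | h1
    · refine ⟨p, 1, hp, one_pow _, ?_⟩
      intro g hg hg2
      have h2 : winert E 𝔓 = ⊥ := Subgroup.card_eq_one.1 h1
      have h3 : g ∈ winert E 𝔓 := ⟨hg, hg2⟩
      rw [h2, Subgroup.mem_bot] at h3
      rw [h3]
      exact Subgroup.one_mem _
    · have hnt : Nontrivial (winert E 𝔓) := by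
        rw [← Finite.one_lt_card_iff_nontrivial, h1]
        exact hp.one_lt
      obtain ⟨τ, hτ⟩ := exists_ne (1 : winert E 𝔓)
      refine ⟨p, τ, hp, ?_, ?_⟩
      · have h2 : τ ^ Nat.card (winert E 𝔓) = 1 := pow_card_eq_one'
        rw [h1] at h2
        exact congrArg Subtype.val h2
      · intro g hg hg2
        have h2 : Nat.card (Subgroup.zpowers τ) = Nat.card (winert E 𝔓) := by
          rcases (Nat.dvd_prime hp).1 (h1 ▸ Subgroup.card_subgroup_dvd_card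
            (Subgroup.zpowers τ)) with h2 | h2
          · exfalso
            apply hτ
            exact Subgroup.zpowers_eq_bot.1 (Subgroup.card_eq_one.1 h2)
          · rw [h2, h1]
        have h3 : Subgroup.zpowers τ = ⊤ := Subgroup.eq_top_of_card_eq _ h2
        have h4 : (⟨g, hg, hg2⟩ : winert E 𝔓) ∈ Subgroup.zpowers τ := by rw [h3]; trivial
        obtain ⟨n, hn⟩ := h4
        exact ⟨n, congrArg Subtype.val hn⟩

/-- The residue characteristic at a wildly ramified prime. -/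
lemma dvd_of_wild (hT : S_TAMC)
    (hin : ∀ 𝔓 : Ideal (𝓞 M), 𝔓.IsMaximal → ∀ p : ℕ, p.Prime → (p : 𝓞 M) ∈ 𝔓 →
      ¬ p ^ 2 ∣ Nat.card (inert E 𝔓)) {𝔓 : Ideal (𝓞 M)} (hp' : 𝔓.IsPrime) {g : M ≃ₐ[E] M}
    (hg1 : g ≠ 1) (hg : ∀ o, TT E M g o - o ∈ 𝔓) (hg2 : ∀ o ∈ 𝔓, TT E M g o - o ∈ 𝔓 ^ 2) :
    𝔓.IsMaximal ∧ ∃ p : ℕ, p.Prime ∧ (p : 𝓞 M) ∈ 𝔓 ∧ p ∣ Nat.card (inert E 𝔓) := by
  have h0 : 𝔓 ≠ ⊥ := by
    intro h
    apply hg1
    apply TT_faithful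
    intro o
    have := hg o
    rw [h, Ideal.mem_bot, sub_eq_zero] at this
    exact this
  have hmax : 𝔓.IsMaximal := hp'.isMaximal h0
  obtain ⟨p, hp, hp𝔓⟩ := exists_resChar 𝔓 hmax h0
  refine ⟨hmax, p, hp, hp𝔓, ?_⟩
  have h1 : Nat.card (winert E 𝔓) = p := by
    rcases winert_card hT 𝔓 hmax h0 hp hp𝔓 (hin 𝔓 hmax p hp hp𝔓) with h1 | h1
    · exfalso
      have h2 : winert E 𝔓 = ⊥ := Subgroup.card_eq_one.1 h1
      have h3 : g ∈ winert E 𝔓 := ⟨hg, hg2⟩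
      rw [h2, Subgroup.mem_bot] at h3
      exact hg1 h3
    · exact h1
  rw [← h1]
  exact Subgroup.card_dvd_of_le (winert_le 𝔓)

/-- The data of the theorem on products of elliptic curves. -/
def EllD (E M F K Ω : Type) [Field E] [NumberField E] [Field M] [NumberField M] [Algebra E M]
    [Field F] [Algebra E F] [Field K] [Algebra M K] [Algebra E K] [IsScalarTower E M K]
    [Algebra F K] [IsScalarTower E F K] (ρ : (M ≃ₐ[E] M) →* (K ≃ₐ[E] K)) (x y : Ω → K) : Prop :=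
  ∃ (z : Ω → Fin (2 + 1) → K) (V : Ω → WeierstrassCurve (𝓞 M)),
    GHL (𝓞 E) (𝓞 M) M F K (M ≃ₐ[E] M) Ω (IsScalarTower.toAlgHom (𝓞 E) F K) (RS E K ρ) (TT E M)
      2 z ∧
    ECD (𝓞 E) (𝓞 M) K (M ≃ₐ[E] M) Ω (RS E K ρ) (TT E M) z V ∧
    (∀ 𝔮 : Ideal (𝓞 M), 𝔮.IsPrime → (∃ g : M ≃ₐ[E] M, g ≠ 1 ∧ (∀ x, TT E M g x - x ∈ 𝔮) ∧
      ∀ x ∈ 𝔮, TT E M g x - x ∈ 𝔮 ^ 2) → (2 : 𝓞 M) ∉ 𝔮) ∧
    ∀ ω, Submodule.span M (Set.range (z ω)) =
      Submodule.span M (Set.range (![x ω, y ω, 1] : Fin (2 + 1) → K))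

theorem ellD_of [IsGalois E M] [Finite Ω] (hT : S_TAMC) (hS : S_SMRG) (hL : S_LDG)
    (hSM : S_ECSM) (hI : S_ECINT) (ρ : (M ≃ₐ[E] M) →* (K ≃ₐ[E] K))
    (hρ : ∀ g x, ρ g (algebraMap M K x) = algebraMap M K (g x))
    (hfix : ∀ x, (∀ g, ρ g x = x) ↔ ∃ y : F, algebraMap F K y = x)
    (hin : ∀ 𝔓 : Ideal (𝓞 M), 𝔓.IsMaximal → ∀ p : ℕ, p.Prime → (p : 𝓞 M) ∈ 𝔓 →
      ¬ p ^ 2 ∣ Nat.card (inert E 𝔓))
    (h3 : ∀ 𝔓 : Ideal (𝓞 M), 𝔓.IsMaximal → ∀ p : ℕ, p.Prime → (p : 𝓞 M) ∈ 𝔓 →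
      p ∣ Nat.card (inert E 𝔓) → (2 : 𝓞 M) ∉ 𝔓)
    (W : Ω → WeierstrassCurve E)
    (hW : ∀ ω, ∃ (V : WeierstrassCurve (𝓞 M)) (C : WeierstrassCurve.VariableChange M),
      IsUnit V.Δ ∧ V.map (algebraMap (𝓞 M) M) = C • (W ω).map (algebraMap E M))
    (X Y : Ω → F) (hP : ∀ ω, GPt E F (W ω) (X ω) (Y ω))
    (hgen : IntermediateField.adjoin M {f : K | ∃ ω' ∈ (Set.univ : Set Ω), ∃ j,
      f = (![algebraMap F K (X ω'), algebraMap F K (Y ω'), 1] : Fin (2 + 1) → K) j /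
        (![algebraMap F K (X ω'), algebraMap F K (Y ω'), 1] : Fin (2 + 1) → K) 0} = ⊤)
    (hld : ∀ (S : Set Ω) (ω : Ω), ω ∉ S →
      (IntermediateField.adjoin M {f : K | ∃ ω' ∈ S, ∃ j,
      f = (![algebraMap F K (X ω'), algebraMap F K (Y ω'), 1] : Fin (2 + 1) → K) j /
        (![algebraMap F K (X ω'), algebraMap F K (Y ω'), 1] : Fin (2 + 1) → K) 0}
        ).toSubalgebra.LinearDisjoint
      (IntermediateField.adjoin M {f : K | ∃ ω' ∈ ({ω} : Set Ω), ∃ j,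
      f = (![algebraMap F K (X ω'), algebraMap F K (Y ω'), 1] : Fin (2 + 1) → K) j /
        (![algebraMap F K (X ω'), algebraMap F K (Y ω'), 1] : Fin (2 + 1) → K) 0}).toSubalgebra) :
    EllD E M F K Ω ρ (fun ω => algebraMap F K (X ω)) (fun ω => algebraMap F K (Y ω)) := by
  choose V C hV hrel using hW
  have hinj : Function.Injective (algebraMap (𝓞 M) K) := by
    rw [IsScalarTower.algebraMap_eq (𝓞 M) M K]
    exact (algebraMap M K).injective.comp RingOfIntegers.coe_injective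
  set z : Ω → Fin (2 + 1) → K := fun ω =>
    zC M (C ω) (algebraMap F K (X ω)) (algebraMap F K (Y ω)) with hz
  have hD : ECD (𝓞 E) (𝓞 M) K (M ≃ₐ[E] M) Ω (RS E K ρ) (TT E M) z V :=
    ecd_of hI ρ hρ hfix W V hV C hrel X Y hP
  have hx0 : ∀ ω, algebraMap F K (X ω) ≠ 0 := fun ω h => by
    apply tr_M (M := M) (K := K) (hP ω).tr
    rw [h]
    exact isAlgebraic_zero
  have hz0 : ∀ ω j, z ω j ≠ 0 := fun ω => (hD.ec ω).z0
  have hadj := fun S : Set Ω => adj_eq (M := M) C (x := fun ω => algebraMap F K (X ω))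
    (y := fun ω => algebraMap F K (Y ω)) hx0 (fun ω => hz0 ω 0) S
  have hgen' : IntermediateField.adjoin M {y : K | ∃ ω j, y = z ω j / z ω 0} = ⊤ := by
    rw [← hgen, ← hadj]
    congr 1
    ext y
    constructor
    · rintro ⟨ω, j, h⟩
      exact ⟨ω, Set.mem_univ _, j, h⟩
    · rintro ⟨ω, -, j, h⟩
      exact ⟨ω, j, h⟩
  have hld' : ∀ (S : Finset Ω) (ω : Ω), ω ∉ S →
      (IntermediateField.adjoin M {y : K | ∃ ω' ∈ S, ∃ j, y = z ω' j / z ω' 0}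
        ).toSubalgebra.LinearDisjoint
          (IntermediateField.adjoin M {y : K | ∃ j, y = z ω j / z ω 0}).toSubalgebra := by
    intro S ω hω
    have h1 := hld (S : Set Ω) ω (by exact_mod_cast hω)
    rw [← hadj (S : Set Ω), ← hadj ({ω} : Set Ω)] at h1
    have h2 : {y : K | ∃ ω' ∈ ({ω} : Set Ω), ∃ j, y = z ω' j / z ω' 0} =
        {y : K | ∃ j, y = z ω j / z ω 0} := by
      ext y
      constructor
      · rintro ⟨ω', hω', j, h⟩
        rw [Set.mem_singleton_iff] at hω'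
        subst hω'
        exact ⟨j, h⟩
      · rintro ⟨j, h⟩
        exact ⟨ω, rfl, j, h⟩
    change (IntermediateField.adjoin M {y : K | ∃ ω' ∈ (S : Set Ω), ∃ j, y = z ω' j / z ω' 0}
        ).toSubalgebra.LinearDisjoint (IntermediateField.adjoin M
          {y : K | ∃ ω' ∈ ({ω} : Set Ω), ∃ j, y = z ω' j / z ω' 0}).toSubalgebra at h1
    rw [h2] at h1
    exact h1
  have hsm : ∀ ω j (q : Ideal (AZ (𝓞 M) (z ω) j)) [q.IsPrime], Algebra.IsSmoothAt (𝓞 M) q :=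
    fun ω j q _ => hSM (𝓞 M) K hinj (z ω) (V ω) (hD.ec ω) (hD.du ω) j q
  refine ⟨z, V, ?_, hD, ?_, fun ω => span_zC (C ω) _ _⟩
  · refine
    { toGE := ge_of hT ρ hρ hin
      lo := fun o => ⟨algebraMap (𝓞 M) M o, rfl⟩
      lf := ?_
      fixK := hfix
      z0 := hz0
      lin := ?_
      gen := hgen'
      ld := hld'
      rg := rg_of_smooth hS hL z hz0 hld' hsm }
    · intro x
      obtain ⟨a, b, hb, rfl⟩ := IsFractionRing.div_surjective (A := 𝓞 M) x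
      have hb0 : b ≠ 0 := nonZeroDivisors.ne_zero hb
      have hb' : algebraMap (𝓞 M) M b ≠ 0 := RingOfIntegers.coe_ne_zero_iff.2 hb0
      refine ⟨a, b, hb0, ?_⟩
      rw [IsScalarTower.algebraMap_apply (𝓞 M) M K, IsScalarTower.algebraMap_apply (𝓞 M) M K,
        ← map_mul, div_mul_cancel₀ _ hb']
    · intro g ω j
      obtain ⟨a, b, -, -, h⟩ := hD.ch ω
      obtain ⟨C', h0, h1, -, -⟩ := h g
      set P := Submodule.span (𝓞 M) (Set.range (z ω)) with hP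
      have hs : ∀ (c : 𝓞 M) (f : K), f ∈ P → algebraMap (𝓞 M) K c * f ∈ P := by
        intro c f hf
        rw [← Algebra.smul_def]
        exact P.smul_mem c hf
      have e0 : z ω 0 ∈ P := Submodule.subset_span ⟨0, rfl⟩
      have e1 : z ω 1 ∈ P := Submodule.subset_span ⟨1, rfl⟩
      have e2 : (1 : K) ∈ P := Submodule.subset_span ⟨2, rfl⟩
      have hm : ∀ c : 𝓞 M, algebraMap (𝓞 M) K c ∈ P := fun c => by
        have := hs c 1 e2
        rwa [mul_one] at this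
      fin_cases j
      · change RS E K ρ g (z ω 0) ∈ P
        rw [h0]
        exact P.add_mem (hs _ _ e0) (hm _)
      · change RS E K ρ g (z ω 1) ∈ P
        rw [h1]
        exact P.add_mem (P.add_mem (hs _ _ e1) (hs _ _ e0)) (hm _)
      · change RS E K ρ g 1 ∈ P
        rw [map_one]
        exact e2
  · rintro 𝔮 h𝔮 ⟨g, hg1, hg, hg2⟩
    obtain ⟨hmax, p, hp, hp𝔮, hdvd⟩ := dvd_of_wild hT hin h𝔮 hg1 hg hg2
    exact h3 𝔮 hmax p hp hp𝔮 hdvd

/-- The products of elliptic curves have good modules. -/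
theorem ell_module (hL : S_LINW) (hC : S_ECCH2) [Fintype Ω] [Nonempty Ω]
    {ρ : (M ≃ₐ[E] M) →* (K ≃ₐ[E] K)} {x y : Ω → K} (hD : EllD E M F K Ω ρ x y)
    (M₀ : Submodule (𝓞 E) F) (hM₀ : M₀.FG) (P : Prop)
    (hseg : P → Submodule.span M ((IsScalarTower.toAlgHom (𝓞 E) F K) '' (M₀ : Set F)) =
      Submodule.span M (Set.range fun J : Ω → Fin (2 + 1) =>
        ∏ ω, (![x ω, y ω, 1] : Fin (2 + 1) → K) (J ω))) :
    ∃ M' : Submodule (𝓞 E) F, M'.FG ∧ (∃ f ∈ M', f ≠ 0) ∧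
      (∀ f ∈ M', f ≠ 0 → ∀ y : F, ∃ b ∈ Pool.Agent.H918R2.Quad.chart (𝓞 E) M' f,
        ∃ c ∈ Pool.Agent.H918R2.Quad.chart (𝓞 E) M' f, c ≠ 0 ∧ y = b / c) ∧
      (∀ f ∈ M', f ≠ 0 → ∀ (q : Ideal (Pool.Agent.H918R2.Quad.chart (𝓞 E) M' f)) [q.IsPrime],
        IsRegularLocalRing (Localization.AtPrime q)) ∧
      (P → ∃ n : ℕ, 1 ≤ n ∧ (∀ y ∈ M', y ∈ sat (M₀ ^ n)) ∧
        ∀ y : F, y ∈ M₀ ^ n → ∃ s : 𝓞 E, s ≠ 0 ∧ s • y ∈ M') := by
  obtain ⟨z, V, hG, hE, h3, hsp⟩ := hD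
  refine hL (𝓞 E) (𝓞 M) M F K (M ≃ₐ[E] M) Ω (IsScalarTower.toAlgHom (𝓞 E) F K) (RS E K ρ)
    (TT E M) 2 z hG ?_ M₀ hM₀ P ?_
  · intro Y₂ K₂ _ _ _ _ ι₂ εY ε ρ₂ hext s hs Tb N _ 𝔔 p l τ π hs0 hloc hw
    exact hC (𝓞 E) (𝓞 M) M F Y₂ K K₂ (M ≃ₐ[E] M) Ω _ ι₂ εY ε _ ρ₂ hext _ z hG V hE h3 s hs Tb N
      𝔔 p l τ π hs0 hloc hw
  · intro h
    rw [hseg h]
    exact (span_prod z _ hsp).symm

end

end Pool.Agent.Y223.G
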