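import Pool.Agent.Y223.G.WFinN
import Pool.Agent.Y223.G.EcchQ

/-!
# Products of elliptic curves over number fields: the hypotheses of the theorem
-/

set_option autoImplicit false
set_option linter.unusedVariables false
set_option linter.unusedSectionVars false

open NumberField Pool.Agent.W418

open scoped Pointwise

namespace Pool.Agent.Y223.G

section

variable {E M F K Ω : Type} [Field E] [NumberField E] [Field M] [NumberField M] [Algebra E M]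
  [Field F] [Algebra E F] [Field K] [Algebra M K] [Algebra E K] [IsScalarTower E M K]
  [Algebra F K] [IsScalarTower E F K]

/-- The data of the theorem on products of elliptic curves. -/
def EllD3 (E M F K Ω : Type) [Field E] [NumberField E] [Field M] [NumberField M] [Algebra E M]
    [Field F] [Algebra E F] [Field K] [Algebra M K] [Algebra E K] [IsScalarTower E M K]
    [Algebra F K] [IsScalarTower E F K] (ρ : (M ≃ₐ[E] M) →* (K ≃ₐ[E] K)) (x y : Ω → K) : Prop :=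
  ∃ (z : Ω → Fin (2 + 1) → K) (V : Ω → WeierstrassCurve (𝓞 M)),
    GHL (𝓞 E) (𝓞 M) M F K (M ≃ₐ[E] M) Ω (IsScalarTower.toAlgHom (𝓞 E) F K) (RS E K ρ) (TT E M)
      2 z ∧
    ECD (𝓞 E) (𝓞 M) K (M ≃ₐ[E] M) Ω (RS E K ρ) (TT E M) z V ∧
    (∀ 𝔮 : Ideal (𝓞 M), 𝔮.IsPrime → (2 : 𝓞 M) ∈ 𝔮 → ∀ g : M ≃ₐ[E] M, g ≠ 1 → ∀ l, 1 ≤ l →
      (∀ x, TT E M g x - x ∈ 𝔮 ^ (l + 1)) → ∀ ω, (V ω).a₁ ^ 3 ∈ 𝔮 ^ (2 * l)) ∧
    ∀ ω, Submodule.span M (Set.range (z ω)) =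
      Submodule.span M (Set.range (![x ω, y ω, 1] : Fin (2 + 1) → K))

theorem ellD3_of [IsGalois E M] [Finite Ω] (hT : S_TAMC) (hS : S_SMRG) (hL : S_LDG)
    (hSM : S_ECSM) (hI : S_ECINT) (ρ : (M ≃ₐ[E] M) →* (K ≃ₐ[E] K))
    (hρ : ∀ g x, ρ g (algebraMap M K x) = algebraMap M K (g x))
    (hfix : ∀ x, (∀ g, ρ g x = x) ↔ ∃ y : F, algebraMap F K y = x)
    (hin : ∀ 𝔓 : Ideal (𝓞 M), 𝔓.IsMaximal → ∀ p : ℕ, p.Prime → (p : 𝓞 M) ∈ 𝔓 →
      ¬ p ^ 2 ∣ Nat.card (inert E 𝔓))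
    (W : Ω → WeierstrassCurve E)
    (hW : ∀ ω, ∃ (V : WeierstrassCurve (𝓞 M)) (C : WeierstrassCurve.VariableChange M),
      IsUnit V.Δ ∧ V.map (algebraMap (𝓞 M) M) = C • (W ω).map (algebraMap E M) ∧
      ∀ 𝔮 : Ideal (𝓞 M), 𝔮.IsPrime → (2 : 𝓞 M) ∈ 𝔮 → ∀ g : M ≃ₐ[E] M, g ≠ 1 → ∀ l, 1 ≤ l →
        (∀ x, TT E M g x - x ∈ 𝔮 ^ (l + 1)) → V.a₁ ^ 3 ∈ 𝔮 ^ (2 * l))
    (X Y : Ω → F) (hP : ∀ ω, GPt E F (W ω) (X ω) (Y ω))
    (hgen : IntermediateField.adjoin M {f : K | ∃ ω' ∈ (Set.univ : Set Ω), ∃ j,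
      f = (![algebraMap F K (X ω'), algebraMap F K (Y ω'), 1] : Fin (2 + 1) → K) j /
        (![algebraMap F K (X ω'), algebraMap F K (Y ω'), 1] : Fin (2 + 1) → K) 0} = ⊤)
    (hld : ∀ (S : Set Ω) (ω : Ω), ω ∉ S →
      (IntermediateField.adjoin M {f : K | ∃ ω' ∈ S, ∃ j,
      f = (![algebraMap F K (X ω'), algebraMap F K (Y ω'), 1] : Fin (2 + 1) → K) j /
        (![algebraMap F K (X ω'), algebraMap F K (Y ω'), 1] : Fin (2 + 1) → K) 0}
        ).toSubalgebra.LinearDisjoint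
      (IntermediateField.adjoin M {f : K | ∃ ω' ∈ ({ω} : Set Ω), ∃ j,
      f = (![algebraMap F K (X ω'), algebraMap F K (Y ω'), 1] : Fin (2 + 1) → K) j /
        (![algebraMap F K (X ω'), algebraMap F K (Y ω'), 1] : Fin (2 + 1) → K) 0}).toSubalgebra) :
    EllD3 E M F K Ω ρ (fun ω => algebraMap F K (X ω)) (fun ω => algebraMap F K (Y ω)) := by
  choose V C hV hrel h2 using hW
  have hinj : Function.Injective (algebraMap (𝓞 M) K) := by
    rw [IsScalarTower.algebraMap_eq (𝓞 M) M K]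
    exact (algebraMap M K).injective.comp RingOfIntegers.coe_injective
  set z : Ω → Fin (2 + 1) → K := fun ω =>
    zC M (C ω) (algebraMap F K (X ω)) (algebraMap F K (Y ω)) with hz
  have hD : ECD (𝓞 E) (𝓞 M) K (M ≃ₐ[E] M) Ω (RS E K ρ) (TT E M) z V :=
    ecd_of hI ρ hρ hfix W V hV C hrel X Y hP
  have hx0 : ∀ ω, algebraMap F K (X ω) ≠ 0 := fun ω h => by
    apply tr_M (M := M) (K := K) (hP ω).tr
    rw [h]
    exact isAlgebraic_zero
  have hz0 : ∀ ω j, z ω j ≠ 0 := fun ω => (hD.ec ω).z0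
  have hadj := fun S : Set Ω => adj_eq (M := M) C (x := fun ω => algebraMap F K (X ω))
    (y := fun ω => algebraMap F K (Y ω)) hx0 (fun ω => hz0 ω 0) S
  have hgen' : IntermediateField.adjoin M {y : K | ∃ ω j, y = z ω j / z ω 0} = ⊤ := by
    rw [← hgen, ← hadj]
    congr 1
    ext y
    constructor
    · rintro ⟨ω, j, h⟩
      exact ⟨ω, Set.mem_univ _, j, h⟩
    · rintro ⟨ω, -, j, h⟩
      exact ⟨ω, j, h⟩
  have hld' : ∀ (S : Finset Ω) (ω : Ω), ω ∉ S →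
      (IntermediateField.adjoin M {y : K | ∃ ω' ∈ S, ∃ j, y = z ω' j / z ω' 0}
        ).toSubalgebra.LinearDisjoint
          (IntermediateField.adjoin M {y : K | ∃ j, y = z ω j / z ω 0}).toSubalgebra := by
    intro S ω hω
    have h1 := hld (S : Set Ω) ω (by exact_mod_cast hω)
    rw [← hadj (S : Set Ω), ← hadj ({ω} : Set Ω)] at h1
    have h2 : {y : K | ∃ ω' ∈ ({ω} : Set Ω), ∃ j, y = z ω' j / z ω' 0} =
        {y : K | ∃ j, y = z ω j / z ω 0} := by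
      ext y
      constructor
      · rintro ⟨ω', hω', j, h⟩
        rw [Set.mem_singleton_iff] at hω'
        subst hω'
        exact ⟨j, h⟩
      · rintro ⟨j, h⟩
        exact ⟨ω, rfl, j, h⟩
    change (IntermediateField.adjoin M {y : K | ∃ ω' ∈ (S : Set Ω), ∃ j, y = z ω' j / z ω' 0}
        ).toSubalgebra.LinearDisjoint (IntermediateField.adjoin M
          {y : K | ∃ ω' ∈ ({ω} : Set Ω), ∃ j, y = z ω' j / z ω' 0}).toSubalgebra at h1
    rw [h2] at h1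
    exact h1
  have hsm : ∀ ω j (q : Ideal (AZ (𝓞 M) (z ω) j)) [q.IsPrime], Algebra.IsSmoothAt (𝓞 M) q :=
    fun ω j q _ => hSM (𝓞 M) K hinj (z ω) (V ω) (hD.ec ω) (hD.du ω) j q
  refine ⟨z, V, ?_, hD, ?_, fun ω => span_zC (C ω) _ _⟩
  · refine
    { toGE := ge_of hT ρ hρ hin
      lo := fun o => ⟨algebraMap (𝓞 M) M o, rfl⟩
      lf := ?_
      fixK := hfix
      z0 := hz0
      lin := ?_
      gen := hgen'
      ld := hld'
      rg := rg_of_smooth hS hL z hz0 hld' hsm }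
    · intro x
      obtain ⟨a, b, hb, rfl⟩ := IsFractionRing.div_surjective (A := 𝓞 M) x
      have hb0 : b ≠ 0 := nonZeroDivisors.ne_zero hb
      have hb' : algebraMap (𝓞 M) M b ≠ 0 := RingOfIntegers.coe_ne_zero_iff.2 hb0
      refine ⟨a, b, hb0, ?_⟩
      rw [IsScalarTower.algebraMap_apply (𝓞 M) M K, IsScalarTower.algebraMap_apply (𝓞 M) M K,
        ← map_mul, div_mul_cancel₀ _ hb']
    · intro g ω j
      obtain ⟨a, b, -, -, h⟩ := hD.ch ω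
      obtain ⟨C', h0, h1, -, -⟩ := h g
      set P := Submodule.span (𝓞 M) (Set.range (z ω)) with hP
      have hs : ∀ (c : 𝓞 M) (f : K), f ∈ P → algebraMap (𝓞 M) K c * f ∈ P := by
        intro c f hf
        rw [← Algebra.smul_def]
        exact P.smul_mem c hf
      have e0 : z ω 0 ∈ P := Submodule.subset_span ⟨0, rfl⟩
      have e1 : z ω 1 ∈ P := Submodule.subset_span ⟨1, rfl⟩
      have e2 : (1 : K) ∈ P := Submodule.subset_span ⟨2, rfl⟩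
      have hm : ∀ c : 𝓞 M, algebraMap (𝓞 M) K c ∈ P := fun c => by
        have := hs c 1 e2
        rwa [mul_one] at this
      fin_cases j
      · change RS E K ρ g (z ω 0) ∈ P
        rw [h0]
        exact P.add_mem (hs _ _ e0) (hm _)
      · change RS E K ρ g (z ω 1) ∈ P
        rw [h1]
        exact P.add_mem (P.add_mem (hs _ _ e1) (hs _ _ e0)) (hm _)
      · change RS E K ρ g 1 ∈ P
        rw [map_one]
        exact e2
  · intro 𝔮 h𝔮 h2𝔮 g hg l hl hgl ω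
    exact h2 ω 𝔮 h𝔮 h2𝔮 g hg l hl hgl

/-- The products of elliptic curves have good modules. -/
theorem ell_module3 (hL : S_LINW) (hC : S_ECCH3) [Fintype Ω] [Nonempty Ω]
    {ρ : (M ≃ₐ[E] M) →* (K ≃ₐ[E] K)} {x y : Ω → K} (hD : EllD3 E M F K Ω ρ x y)
    (M₀ : Submodule (𝓞 E) F) (hM₀ : M₀.FG) (P : Prop)
    (hseg : P → Submodule.span M ((IsScalarTower.toAlgHom (𝓞 E) F K) '' (M₀ : Set F)) =
      Submodule.span M (Set.range fun J : Ω → Fin (2 + 1) =>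
        ∏ ω, (![x ω, y ω, 1] : Fin (2 + 1) → K) (J ω))) :
    ∃ M' : Submodule (𝓞 E) F, M'.FG ∧ (∃ f ∈ M', f ≠ 0) ∧
      (∀ f ∈ M', f ≠ 0 → ∀ y : F, ∃ b ∈ Pool.Agent.H918R2.Quad.chart (𝓞 E) M' f,
        ∃ c ∈ Pool.Agent.H918R2.Quad.chart (𝓞 E) M' f, c ≠ 0 ∧ y = b / c) ∧
      (∀ f ∈ M', f ≠ 0 → ∀ (q : Ideal (Pool.Agent.H918R2.Quad.chart (𝓞 E) M' f)) [q.IsPrime],
        IsRegularLocalRing (Localization.AtPrime q)) ∧
      (P → ∃ n : ℕ, 1 ≤ n ∧ (∀ y ∈ M', y ∈ sat (M₀ ^ n)) ∧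
        ∀ y : F, y ∈ M₀ ^ n → ∃ s : 𝓞 E, s ≠ 0 ∧ s • y ∈ M') := by
  obtain ⟨z, V, hG, hE, h3, hsp⟩ := hD
  refine hL (𝓞 E) (𝓞 M) M F K (M ≃ₐ[E] M) Ω (IsScalarTower.toAlgHom (𝓞 E) F K) (RS E K ρ)
    (TT E M) 2 z hG ?_ M₀ hM₀ P ?_
  · intro Y₂ K₂ _ _ _ _ ι₂ εY ε ρ₂ hext s hs Tb N _ 𝔔 p l τ π hs0 hloc hw
    exact hC (𝓞 E) (𝓞 M) M F Y₂ K K₂ (M ≃ₐ[E] M) Ω _ ι₂ εY ε _ ρ₂ hext _ z hG V hE h3 s hs Tb N
      𝔔 p l τ π hs0 hloc hw
  · intro h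
    rw [hseg h]
    exact (span_prod z _ hsp).symm

end

end Pool.Agent.Y223.G
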