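import Pool.Agent.Y223.G.WFinE

/-!
# Regular models of products of Weil restrictions
-/

set_option autoImplicit false
set_option linter.unusedVariables false
set_option linter.unusedSectionVars false

open scoped Pointwise

open AlgebraicGeometry CategoryTheory CategoryTheory.Limits MvPolynomial NumberField

namespace Pool.Agent.Y223.G

open Pool.Agent.TH214.RM Pool.Agent.H918R2.Quad Pool.Agent.W418

section

variable {E M F K Ω A : Type} [Field E] [NumberField E] [Field M] [NumberField M] [Algebra E M]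
  [Field F] [Algebra E F] [Field K] [Algebra M K] [Algebra E K] [IsScalarTower E M K]
  [Algebra F K] [IsScalarTower E F K] [MulAction (M ≃ₐ[E] M) Ω] [Fintype Ω] [Nonempty Ω]
  [CommRing A] [Algebra E A]

theorem weile_model_O (hT : S_TAMC) (hW : S_WEILE) [IsGalois E M]
    (ρ : (M ≃ₐ[E] M) →* (K ≃ₐ[E] K))
    (hρ : ∀ g x, ρ g (algebraMap M K x) = algebraMap M K (g x))
    (hfix : ∀ x, (∀ g, ρ g x = x) ↔ ∃ y : F, algebraMap F K y = x) {m : ℕ}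
    (z : Ω → Fin (m + 1) → K) (hz0 : ∀ ω j, z ω j ≠ 0)
    (heqv : ∀ g ω j, ρ g (z ω j) = z (g • ω) j)
    (hgen : IntermediateField.adjoin M {y : K | ∃ ω j, y = z ω j / z ω 0} = ⊤)
    (hld : ∀ (S : Finset Ω) (ω : Ω), ω ∉ S →
      (IntermediateField.adjoin M {y : K | ∃ ω' ∈ S, ∃ j, y = z ω' j / z ω' 0}
        ).toSubalgebra.LinearDisjoint
          (IntermediateField.adjoin M {y : K | ∃ j, y = z ω j / z ω 0}).toSubalgebra)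
    (hin : ∀ 𝔓 : Ideal (𝓞 M), 𝔓.IsMaximal → ∀ p : ℕ, p.Prime → (p : 𝓞 M) ∈ 𝔓 →
      ¬ p ^ 2 ∣ Nat.card (inert E 𝔓))
    (hsm : ∀ 𝔓 : Ideal (𝓞 M), 𝔓.IsMaximal → ∀ p : ℕ, p.Prime → (p : 𝓞 M) ∈ 𝔓 →
      p ∣ Nat.card (inert E 𝔓) → ∀ ω j (q : Ideal (AZ (𝓞 M) (z ω) j)) [q.IsPrime],
      q.comap (algebraMap (𝓞 M) (AZ (𝓞 M) (z ω) j)) = 𝔓 → Algebra.IsSmoothAt (𝓞 M) q)
    (hrg : ∀ J : Ω → Fin (m + 1), IsRegularRing (Algebra.adjoin (𝓞 M)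
      {y : K | ∃ (ω : Ω) (i : Fin (m + 1)), y = z ω i / z ω (J ω)}))
    {n : ℕ} (x : Fin (n + 1) → F)
    (hseg : Submodule.span M (Set.range fun i => algebraMap F K (x i)) =
      Submodule.span M (Set.range fun J : Ω → Fin (m + 1) => ∏ ω, z ω (J ω)))
    (π : MvPolynomial (Fin (n + 1)) E →ₐ[E] A)
    (hπ : Function.Surjective π) (𝒜 : ℕ → Submodule E A) [GradedAlgebra 𝒜]
    (h𝒜 : ∀ d, 𝒜 d = (homogeneousSubmodule (Fin (n + 1)) E d).map π.toLinearMap)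
    (hx : ∀ d, ∀ P ∈ homogeneousSubmodule (Fin (n + 1)) E d, π P = 0 ↔ aeval x P = 0)
    {Y : Scheme.{0}} (f : Y ⟶ Spec (CommRingCat.of E)) (i : Y ≅ Proj 𝒜)
    (hi : i.hom ≫ GO.projStr 𝒜 = f) : GO.HasModel (𝓞 E) E f := by
  have hM := weile_good hW (ghe_of hT ρ hρ hfix z hz0 heqv hgen hld hin hsm hrg) x hseg
  obtain ⟨ε, hε, hεgen, hε1⟩ := Pool.Agent.Y223.INV.exists_eps2 x π hπ 𝒜 h𝒜 hx
  exact hasModel_of_goodModule (O := 𝓞 E) 𝒜 ε hε hεgen x hε1 hM f i hi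

theorem weile_model_Z (hT : S_TAMC) (hW : S_WEILE) [IsGalois E M]
    (ρ : (M ≃ₐ[E] M) →* (K ≃ₐ[E] K))
    (hρ : ∀ g x, ρ g (algebraMap M K x) = algebraMap M K (g x))
    (hfix : ∀ x, (∀ g, ρ g x = x) ↔ ∃ y : F, algebraMap F K y = x) {m : ℕ}
    (z : Ω → Fin (m + 1) → K) (hz0 : ∀ ω j, z ω j ≠ 0)
    (heqv : ∀ g ω j, ρ g (z ω j) = z (g • ω) j)
    (hgen : IntermediateField.adjoin M {y : K | ∃ ω j, y = z ω j / z ω 0} = ⊤)
    (hld : ∀ (S : Finset Ω) (ω : Ω), ω ∉ S →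
      (IntermediateField.adjoin M {y : K | ∃ ω' ∈ S, ∃ j, y = z ω' j / z ω' 0}
        ).toSubalgebra.LinearDisjoint
          (IntermediateField.adjoin M {y : K | ∃ j, y = z ω j / z ω 0}).toSubalgebra)
    (hin : ∀ 𝔓 : Ideal (𝓞 M), 𝔓.IsMaximal → ∀ p : ℕ, p.Prime → (p : 𝓞 M) ∈ 𝔓 →
      ¬ p ^ 2 ∣ Nat.card (inert E 𝔓))
    (hsm : ∀ 𝔓 : Ideal (𝓞 M), 𝔓.IsMaximal → ∀ p : ℕ, p.Prime → (p : 𝓞 M) ∈ 𝔓 →
      p ∣ Nat.card (inert E 𝔓) → ∀ ω j (q : Ideal (AZ (𝓞 M) (z ω) j)) [q.IsPrime],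
      q.comap (algebraMap (𝓞 M) (AZ (𝓞 M) (z ω) j)) = 𝔓 → Algebra.IsSmoothAt (𝓞 M) q)
    (hrg : ∀ J : Ω → Fin (m + 1), IsRegularRing (Algebra.adjoin (𝓞 M)
      {y : K | ∃ (ω : Ω) (i : Fin (m + 1)), y = z ω i / z ω (J ω)}))
    {n : ℕ} (x : Fin (n + 1) → F)
    (hseg : Submodule.span M (Set.range fun i => algebraMap F K (x i)) =
      Submodule.span M (Set.range fun J : Ω → Fin (m + 1) => ∏ ω, z ω (J ω)))
    (π : MvPolynomial (Fin (n + 1)) E →ₐ[E] A)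
    (hπ : Function.Surjective π) (𝒜 : ℕ → Submodule E A) [GradedAlgebra 𝒜]
    (h𝒜 : ∀ d, 𝒜 d = (homogeneousSubmodule (Fin (n + 1)) E d).map π.toLinearMap)
    (hx : ∀ d, ∀ P ∈ homogeneousSubmodule (Fin (n + 1)) E d, π P = 0 ↔ aeval x P = 0)
    (Y : Scheme.{0}) (hY : Nonempty (Y ≅ Proj 𝒜)) : HasRegularModel Y := by
  have hM := weile_good hW (ghe_of hT ρ hρ hfix z hz0 heqv hgen hld hin hsm hrg) x hseg
  obtain ⟨ε, hε, hεgen, hε1⟩ := Pool.Agent.Y223.INV.exists_eps2 x π hπ 𝒜 h𝒜 hx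
  exact hasRegularModel_of_goodModule (O := 𝓞 E) 𝒜 ε hε hεgen x hε1 hM Y hY

/-- The function field of the quotient has a regular proper model. -/
theorem weile_model_F (hT : S_TAMC) (hW : S_WEILE) [IsGalois E M]
    (ρ : (M ≃ₐ[E] M) →* (K ≃ₐ[E] K))
    (hρ : ∀ g x, ρ g (algebraMap M K x) = algebraMap M K (g x))
    (hfix : ∀ x, (∀ g, ρ g x = x) ↔ ∃ y : F, algebraMap F K y = x) {m : ℕ}
    (z : Ω → Fin (m + 1) → K) (hz0 : ∀ ω j, z ω j ≠ 0)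
    (heqv : ∀ g ω j, ρ g (z ω j) = z (g • ω) j)
    (hgen : IntermediateField.adjoin M {y : K | ∃ ω j, y = z ω j / z ω 0} = ⊤)
    (hld : ∀ (S : Finset Ω) (ω : Ω), ω ∉ S →
      (IntermediateField.adjoin M {y : K | ∃ ω' ∈ S, ∃ j, y = z ω' j / z ω' 0}
        ).toSubalgebra.LinearDisjoint
          (IntermediateField.adjoin M {y : K | ∃ j, y = z ω j / z ω 0}).toSubalgebra)
    (hin : ∀ 𝔓 : Ideal (𝓞 M), 𝔓.IsMaximal → ∀ p : ℕ, p.Prime → (p : 𝓞 M) ∈ 𝔓 →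
      ¬ p ^ 2 ∣ Nat.card (inert E 𝔓))
    (hsm : ∀ 𝔓 : Ideal (𝓞 M), 𝔓.IsMaximal → ∀ p : ℕ, p.Prime → (p : 𝓞 M) ∈ 𝔓 →
      p ∣ Nat.card (inert E 𝔓) → ∀ ω j (q : Ideal (AZ (𝓞 M) (z ω) j)) [q.IsPrime],
      q.comap (algebraMap (𝓞 M) (AZ (𝓞 M) (z ω) j)) = 𝔓 → Algebra.IsSmoothAt (𝓞 M) q)
    (hrg : ∀ J : Ω → Fin (m + 1), IsRegularRing (Algebra.adjoin (𝓞 M)
      {y : K | ∃ (ω : Ω) (i : Fin (m + 1)), y = z ω i / z ω (J ω)}))
    {Y : Type} [Field Y] (i : Y ≃+* F) :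
    ∃ (X' : Scheme.{0}) (_ : IsIntegral X') (g : X' ⟶ Spec (CommRingCat.of ℤ)),
      IsProper g ∧
      (∀ x : X',
        (((Module.finrank (IsLocalRing.ResidueField (X'.presheaf.stalk x))
            (IsLocalRing.CotangentSpace (X'.presheaf.stalk x)) : ℕ∞)) : WithBot ℕ∞)
          = ringKrullDim (X'.presheaf.stalk x)) ∧
      Nonempty (X'.functionField ≃+* Y) := by
  have hinj : Function.Injective (algebraMap (𝓞 E) F) := by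
    rw [IsScalarTower.algebraMap_eq (𝓞 E) E F]
    exact (algebraMap E F).injective.comp RingOfIntegers.coe_injective
  obtain ⟨M', h1, h2, h3, h4, -⟩ := hW (𝓞 E) (𝓞 M) M F K (M ≃ₐ[E] M) Ω
    (IsScalarTower.toAlgHom (𝓞 E) F K) (RS E K ρ) (TT E M) m z
    (ghe_of hT ρ hρ hfix z hz0 heqv hgen hld hin hsm hrg) ⊥ Submodule.fg_bot False
    (fun h => h.elim)
  obtain ⟨X', hX', g, hg, hreg', ⟨i'⟩⟩ := model_of_hasModule hinj
    (show HasModule (𝓞 E) F from ⟨M', h1, h2, h3, h4⟩)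
  exact ⟨X', hX', g, hg, hreg', ⟨i'.trans i.symm⟩⟩

end

end Pool.Agent.Y223.G
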