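import Pool.Agent.Y223.G.WFinP

/-!
# Regular models of products of elliptic curves
-/

set_option autoImplicit false
set_option linter.unusedVariables false
set_option linter.unusedSectionVars false

open scoped Pointwise

open AlgebraicGeometry CategoryTheory CategoryTheory.Limits MvPolynomial NumberField

namespace Pool.Agent.Y223.G

open Pool.Agent.TH214.RM Pool.Agent.H918R2.Quad Pool.Agent.W418

section

variable {E M F K Ω A : Type} [Field E] [NumberField E] [Field M] [NumberField M] [Algebra E M]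
  [Field F] [Algebra E F] [Field K] [Algebra M K] [Algebra E K] [IsScalarTower E M K]
  [Algebra F K] [IsScalarTower E F K] [Fintype Ω] [Nonempty Ω]
  [CommRing A] [Algebra E A]

/-- The products of elliptic curves have good modules. -/
theorem ell_good3 (hL : S_LINW) (hC : S_ECCH3) {ρ : (M ≃ₐ[E] M) →* (K ≃ₐ[E] K)}
    {x y : Ω → K} (hD : EllD3 E M F K Ω ρ x y) {ι : Type} [Finite ι] (u : ι → F)
    (hseg : Submodule.span M (Set.range fun i => algebraMap F K (u i)) =
      Submodule.span M (Set.range fun J : Ω → Fin (2 + 1) =>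
        ∏ ω, (![x ω, y ω, 1] : Fin (2 + 1) → K) (J ω))) :
    GoodModule (𝓞 E) u := by
  classical
  set M₀ : Submodule (𝓞 E) F := Submodule.span (𝓞 E) (Set.range u) with hM₀
  have hfg : M₀.FG := Submodule.fg_span (Set.finite_range u)
  have h1 : Submodule.span M ((IsScalarTower.toAlgHom (𝓞 E) F K) '' (M₀ : Set F)) =
      Submodule.span M (Set.range fun i => algebraMap F K (u i)) := by
    apply le_antisymm
    · rw [Submodule.span_le]
      rintro _ ⟨y, hy, rfl⟩
      induction hy using Submodule.span_induction with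
      | mem y hy =>
        obtain ⟨i, rfl⟩ := hy
        exact Submodule.subset_span ⟨i, rfl⟩
      | zero => rw [map_zero]; exact Submodule.zero_mem _
      | add a b _ _ ha hb => rw [map_add]; exact Submodule.add_mem _ ha hb
      | smul c a _ ha =>
        rw [map_smul]
        have h2 : c • (IsScalarTower.toAlgHom (𝓞 E) F K) a =
            algebraMap E M (algebraMap (𝓞 E) E c) • (IsScalarTower.toAlgHom (𝓞 E) F K) a := by
          rw [Algebra.smul_def, Algebra.smul_def, ← IsScalarTower.algebraMap_apply E M K]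
          rfl
        rw [h2]
        exact Submodule.smul_mem _ _ ha
    · rw [Submodule.span_le]
      rintro _ ⟨i, rfl⟩
      exact Submodule.subset_span ⟨u i, Submodule.subset_span ⟨i, rfl⟩, rfl⟩
  obtain ⟨M', hM'fg, hM'0, -, hreg, hmo⟩ := ell_module3 hL hC hD M₀ hfg True
    (fun _ => h1.trans hseg)
  obtain ⟨n, hn, hle, hge⟩ := hmo trivial
  have hpow : M₀ ^ n = Submodule.span (𝓞 E) (Set.range u ^ n) := Submodule.span_pow _ _
  refine Pool.Agent.Y223.INV.goodModule_of (E := E) hn hM'fg hM'0 one_ne_zero ?_ ?_ hreg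
  · intro f hf
    rw [one_mul]
    obtain ⟨c, hc, hcf⟩ := hle f hf
    rw [hpow] at hcf
    have h2 : (algebraMap (𝓞 E) E c) • f ∈ Submodule.span E (Set.range u ^ n) := by
      have h3 := Submodule.span_subset_span (𝓞 E) E _ hcf
      rwa [← algebraMap_smul E c f] at h3
    have hc0 : algebraMap (𝓞 E) E c ≠ 0 := RingOfIntegers.coe_ne_zero_iff.2 hc
    have h3 := Submodule.smul_mem _ (algebraMap (𝓞 E) E c)⁻¹ h2
    rwa [smul_smul, inv_mul_cancel₀ hc0, one_smul] at h3
  · intro y hy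
    obtain ⟨c, hc, hcy⟩ := Pool.Agent.W418.exists_smul_span (O := 𝓞 E) (K := E)
      (Set.range u ^ n) y hy
    rw [← hpow] at hcy
    obtain ⟨d, hd, hdy⟩ := hge _ hcy
    refine ⟨d * c, mul_ne_zero hd hc, ?_⟩
    rw [div_one, mul_smul]
    exact hdy

theorem ell_model3_O (hL : S_LINW) (hC : S_ECCH3) {ρ : (M ≃ₐ[E] M) →* (K ≃ₐ[E] K)}
    {x y : Ω → K} (hD : EllD3 E M F K Ω ρ x y) {n : ℕ} (u : Fin (n + 1) → F)
    (hseg : Submodule.span M (Set.range fun i => algebraMap F K (u i)) =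
      Submodule.span M (Set.range fun J : Ω → Fin (2 + 1) =>
        ∏ ω, (![x ω, y ω, 1] : Fin (2 + 1) → K) (J ω)))
    (π : MvPolynomial (Fin (n + 1)) E →ₐ[E] A)
    (hπ : Function.Surjective π) (𝒜 : ℕ → Submodule E A) [GradedAlgebra 𝒜]
    (h𝒜 : ∀ d, 𝒜 d = (homogeneousSubmodule (Fin (n + 1)) E d).map π.toLinearMap)
    (hu : ∀ d, ∀ P ∈ homogeneousSubmodule (Fin (n + 1)) E d, π P = 0 ↔ aeval u P = 0)
    {Y : Scheme.{0}} (f : Y ⟶ Spec (CommRingCat.of E)) (i : Y ≅ Proj 𝒜)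
    (hi : i.hom ≫ GO.projStr 𝒜 = f) : GO.HasModel (𝓞 E) E f := by
  have hM := ell_good3 hL hC hD u hseg
  obtain ⟨ε, hε, hεgen, hε1⟩ := Pool.Agent.Y223.INV.exists_eps2 u π hπ 𝒜 h𝒜 hu
  exact hasModel_of_goodModule (O := 𝓞 E) 𝒜 ε hε hεgen u hε1 hM f i hi

theorem ell_model3_Z (hL : S_LINW) (hC : S_ECCH3) {ρ : (M ≃ₐ[E] M) →* (K ≃ₐ[E] K)}
    {x y : Ω → K} (hD : EllD3 E M F K Ω ρ x y) {n : ℕ} (u : Fin (n + 1) → F)
    (hseg : Submodule.span M (Set.range fun i => algebraMap F K (u i)) =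
      Submodule.span M (Set.range fun J : Ω → Fin (2 + 1) =>
        ∏ ω, (![x ω, y ω, 1] : Fin (2 + 1) → K) (J ω)))
    (π : MvPolynomial (Fin (n + 1)) E →ₐ[E] A)
    (hπ : Function.Surjective π) (𝒜 : ℕ → Submodule E A) [GradedAlgebra 𝒜]
    (h𝒜 : ∀ d, 𝒜 d = (homogeneousSubmodule (Fin (n + 1)) E d).map π.toLinearMap)
    (hu : ∀ d, ∀ P ∈ homogeneousSubmodule (Fin (n + 1)) E d, π P = 0 ↔ aeval u P = 0)
    (Y : Scheme.{0}) (hY : Nonempty (Y ≅ Proj 𝒜)) : HasRegularModel Y := by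
  have hM := ell_good3 hL hC hD u hseg
  obtain ⟨ε, hε, hεgen, hε1⟩ := Pool.Agent.Y223.INV.exists_eps2 u π hπ 𝒜 h𝒜 hu
  exact hasRegularModel_of_goodModule (O := 𝓞 E) 𝒜 ε hε hεgen u hε1 hM Y hY

/-- The function field of the product has a regular proper model. -/
theorem ell_model3_F (hL : S_LINW) (hC : S_ECCH3) {ρ : (M ≃ₐ[E] M) →* (K ≃ₐ[E] K)}
    {x y : Ω → K} (hD : EllD3 E M F K Ω ρ x y) {Y : Type} [Field Y] (i : Y ≃+* F) :
    ∃ (X' : Scheme.{0}) (_ : IsIntegral X') (g : X' ⟶ Spec (CommRingCat.of ℤ)),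
      IsProper g ∧
      (∀ x : X',
        (((Module.finrank (IsLocalRing.ResidueField (X'.presheaf.stalk x))
            (IsLocalRing.CotangentSpace (X'.presheaf.stalk x)) : ℕ∞)) : WithBot ℕ∞)
          = ringKrullDim (X'.presheaf.stalk x)) ∧
      Nonempty (X'.functionField ≃+* Y) := by
  have hinj : Function.Injective (algebraMap (𝓞 E) F) := by
    rw [IsScalarTower.algebraMap_eq (𝓞 E) E F]
    exact (algebraMap E F).injective.comp RingOfIntegers.coe_injective
  obtain ⟨M', h1, h2, h3, h4, -⟩ := ell_module3 hL hC hD ⊥ Submodule.fg_bot False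
    (fun h => h.elim)
  obtain ⟨X', hX', g, hg, hreg', ⟨i'⟩⟩ := model_of_hasModule hinj
    (show HasModule (𝓞 E) F from ⟨M', h1, h2, h3, h4⟩)
  exact ⟨X', hX', g, hg, hreg', ⟨i'.trans i.symm⟩⟩

end

end Pool.Agent.Y223.G
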